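import Pool.Agent.Work.MP_f3c012_al.Df.Defs

/-!
# MP_f3c012_al, block DF, part R: angles and cohomology

Every docstring is the complete proof.  Item `X`: statement `St_X`, file `Df/I_X.lean`, theorem
`pr_X` with the statements named after USES as hypotheses (those of part A are in `Df/StmtsA.lean`:
import it too); namespace as here, auxiliary lemmas in the sub-namespace `IX`.
-/

set_option autoImplicit false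

open scoped RealInnerProductSpace

namespace Pool.Agent.Work.MP_f3c012_al.Df

/-- AV (EASY-MEDIUM).  `av ρ M g` is the orthogonal projection onto `fx ρ g`: shift the sum over
`range M` (`g^M = 1`), `⟪ρ g u, v⟫ = ⟪u, ρ g⁻¹ v⟫`, `g^(-i) = g^(M-i)`; idempotent from the first two;
`‖P v‖² = ⟪P v, P v⟫ = ⟪P v, v⟫`; Cauchy-Schwarz; `ρ h ρ (g^i) = ρ ((h g h⁻¹)^i) ρ h`. -/
def St_AV : Prop := ∀ (G : Type) [Group G] (V : Type) [NormedAddCommGroup V]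
  [InnerProductSpace ℝ V] (ρ : G →* (V ≃ₗᵢ[ℝ] V)) (M : ℕ) (g : G), 0 < M → g ^ M = 1 →
  (∀ v, ρ g (av ρ M g v) = av ρ M g v) ∧ (∀ v, ρ g v = v → av ρ M g v = v) ∧
  (∀ u v, ⟪av ρ M g u, v⟫ = ⟪u, av ρ M g v⟫) ∧ (∀ v, av ρ M g (av ρ M g v) = av ρ M g v) ∧
  (∀ v, ‖av ρ M g v‖ ^ 2 = ⟪av ρ M g v, v⟫) ∧ (∀ v, ‖av ρ M g v‖ ≤ ‖v‖) ∧
  (∀ h v, ρ h (av ρ M g v) = av ρ M (h * g * h⁻¹) (ρ h v))

/-- CB (EASY-MEDIUM).  Commuting projections.  Induction on `m`, for all `J` and `w`.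
`m = 0`: for `j ∈ J`, `u = P j w` is fixed by `P j`, so `‖P j w‖² = ⟪w, P j w⟫ = 0`.
Step `m - 1 → m`: for `j ∈ J` the vector `P j w` and the set `J.erase j` satisfy the hypothesis for
`m - 1`: if `S ⊆ J.erase j`, `card S = m`, `P s u = u` for `s ∈ S`, then
`⟪P j w, u⟫ = ⟪w, P j u⟫ = 0` (`P j u` is fixed by `insert j S`).  So
`∑_(i ∈ J) ‖P i P j w‖² ≤ m ‖P j w‖²` (the term `i = j` is `‖P j w‖²`).  With `s = ∑_J P i w`: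
`‖s‖² = ∑_(i,j) ⟪P i w, P j w⟫ = ∑ ‖P i P j w‖² ≤ m ∑_j ‖P j w‖² = m ⟪s, w⟫ ≤ m ‖s‖ ‖w‖`, so
`‖s‖ ≤ m ‖w‖` and `∑ ‖P j w‖² = ⟪s, w⟫ ≤ m ‖w‖²`. -/
def St_CB : Prop := ∀ (V : Type) [NormedAddCommGroup V] [InnerProductSpace ℝ V] (ι : Type)
  [DecidableEq ι] (J : Finset ι) (P : ι → V →ₗ[ℝ] V) (m : ℕ) (w : V),
  (∀ i u v, ⟪P i u, v⟫ = ⟪u, P i v⟫) → (∀ i v, P i (P i v) = P i v) →
  (∀ i j v, P i (P j v) = P j (P i v)) →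
  (∀ S ⊆ J, S.card = m + 1 → ∀ u, (∀ s ∈ S, P s u = u) → ⟪w, u⟫ = 0) →
  ∑ j ∈ J, ‖P j w‖ ^ 2 ≤ m * ‖w‖ ^ 2

/-- SC (EASY).  Schur test.  `‖∑ q i‖² = ∑_(i,j) ⟪q i, q j⟫ ≤ ∑ η i j (‖q i‖² + ‖q j‖²)/2 ≤
C ∑ ‖q i‖²` by the symmetry of `η`. -/
def St_SC : Prop := ∀ (V : Type) [NormedAddCommGroup V] [InnerProductSpace ℝ V] (n : ℕ)
  (q : ℕ → V) (η : ℕ → ℕ → ℝ) (C : ℝ), (∀ i j, 0 ≤ η i j) → (∀ i j, η i j = η j i) →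
  (∀ i < n, ∀ j < n, |⟪q i, q j⟫| ≤ η i j * ‖q i‖ * ‖q j‖) →
  (∀ i < n, ∑ j ∈ Finset.range n, η i j ≤ C) →
  ‖∑ i ∈ Finset.range n, q i‖ ^ 2 ≤ C * ∑ i ∈ Finset.range n, ‖q i‖ ^ 2

/-- HE (EASY-MEDIUM).  Heisenberg estimate.  `⟪u, v⟫ = ⟪av ρ M h u, v⟫`, so it suffices that
`‖av ρ M h u‖² = ⟪av ρ M h u, u⟫ = (1/M) ∑_(i<M) ⟪ρ (h^i) u, u⟫ ≤ ‖u‖²/p`.  `h^(-i) g h^i = g k^(b i)`,
so `ρ g (ρ (h^i) u) = ρ (k^(b i)) (ρ (h^i) u)` and `⟪ρ (h^i) u, u⟫ = ⟪ρ g ρ (h^i) u, ρ g u⟫ =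
⟪ρ (k^(b i)) ρ (h^i) u, u⟫`, and the same with `k^(b i l)` for all `l`.  If `p ∤ i`, the elements
`k^(b i l)`, `l < p`, are the powers of `k`, so the average over `l` is
`⟪av ρ p k (ρ (h^i) u), u⟫ = ⟪ρ (h^i) u, av ρ p k u⟫ = 0`.  There are `M / p` numbers `i < M` divisible by
`p` (`p ∣ M`), each term is `≤ ‖u‖²`.  USES AV. -/
def St_HE : Prop := ∀ (G : Type) [Group G] (V : Type) [NormedAddCommGroup V]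
  [InnerProductSpace ℝ V] (ρ : G →* (V ≃ₗᵢ[ℝ] V)) (p M b : ℕ) (g h k : G) (u v : V),
  p.Prime → p ∣ M → 0 < M → h ^ M = 1 → k ^ p = 1 → Commute k g → Commute k h →
  h⁻¹ * g * h = g * k ^ b → ¬ p ∣ b → ρ g u = u → av ρ p k u = 0 → ρ h v = v →
  (p : ℝ) * ⟪u, v⟫ ^ 2 ≤ ‖u‖ ^ 2 * ‖v‖ ^ 2

/-- E3 (MEDIUM).  `q j = av ρ p (y_j) w`, `j < p`.  By AV (last clause, `h = x^(-j)`) and `ρ x w = w`,
`q j = ρ (x^(-j)) (av ρ p y w)`, so `‖q j‖ = a := ‖av ρ p y w‖`.  `q j` is fixed by `y_j` and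
`av ρ p k (q j) = 0` (`k ~ y_j`).  For `i < j < p`: `y_j⁻¹ y_i y_j = y_i cm y_i y_j = y_i k^b`,
`b = (j-i+1 choose 3)` (B, conjugation by `x^i`), and `p ∤ b` unless `j - i ∈ {1, p-1}`
(`6 b = (n+1) n (n-1)`, `n = j - i`).  HE: `|⟪q i, q j⟫| ≤ p^(-1/2) ‖q i‖ ‖q j‖`.  SC with `η i j = 1` if
`i = j` or `|i - j| ∈ {1, p-1}`, `η i j = 1/√p` otherwise; at most 3 entries 1 in every row:
`C = 3 + √p` (`p/√p = √p`).  `p a² = ∑ ‖q j‖² = ⟪∑ q j, w⟫ ≤ (C p a²)^(1/2) ‖w‖`, so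
`a² ≤ (C/p) ‖w‖²`.  USES W K B AV SC HE. -/
def St_E3 : Prop := ∀ (G : Type) [Group G] (V : Type) [NormedAddCommGroup V]
  [InnerProductSpace ℝ V] (ρ : G →* (V ≃ₗᵢ[ℝ] V)) (p : ℕ) (x y : G) (w : V),
  p.Prime → 5 ≤ p → PG x y p → ρ x w = w → av ρ p (kk x y) w = 0 →
  ‖av ρ p y w‖ ^ 2 ≤ (3 / (p : ℝ) + 1 / Real.sqrt p) * ‖w‖ ^ 2

/-- E2 (MEDIUM).  `P j = av ρ p k ∘ av ρ p (y_j)` for `j < p`: symmetric, idempotent, commuting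
(`av ρ p k` commutes with all `ρ (y_j)`; on `k`-fixed vectors `ρ (a b) = ρ (b a)` for
`a, b ∈ NN x y` by N0).  CB with `m = 3`, `J = range p`: let `card S = 4`, `P s u = u` for `s ∈ S`.
Then `u` is fixed by `k` and the `y_s`, so by V4 (for the subgroup `{g | ρ g u = u}`) by all `y_i`.
`u' = av ρ M x u` is fixed by `x` and by `y` (`ρ y ρ (x^i) u = ρ (x^i) ρ (y_i) u`), so
`⟪w, u⟫ = ⟪av ρ M x w, u⟫ = ⟪w, u'⟫ = 0`.  So `∑_(j<p) ‖P j w‖² ≤ 3 ‖w‖²`, and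
`P j w = av ρ p (y_j) w` has norm `‖av ρ p y w‖` (as in E3).  USES W K N0 V4 AV CB. -/
def St_E2 : Prop := ∀ (G : Type) [Group G] (V : Type) [NormedAddCommGroup V]
  [InnerProductSpace ℝ V] (ρ : G →* (V ≃ₗᵢ[ℝ] V)) (p M : ℕ) (x y : G) (w : V),
  p.Prime → 5 ≤ p → PG x y p → 0 < M → x ^ M = 1 → ρ x w = w → ρ (kk x y) w = w →
  (∀ u ∈ fx ρ x ⊓ fx ρ y, ⟪w, u⟫ = 0) →
  ‖av ρ p y w‖ ^ 2 ≤ (3 / (p : ℝ)) * ‖w‖ ^ 2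

/-- A12 (EASY-MEDIUM).  Let `w ∈ fx ρ x`, orthogonal to `fx ρ x ⊓ fx ρ y`, `w' = av ρ p k w`,
`w'' = w - w'` (`k^p = 1` by K).  Both are fixed by `x` (`k ~ x`), `av ρ p k w'' = 0`, `w'` is orthogonal
to `fx ρ x ⊓ fx ρ y` (its elements are fixed by `k`).  For `v ∈ fx ρ y`:
`⟪w, v⟫ = ⟪av ρ p y w, v⟫ ≤ ‖av ρ p y w‖ ‖v‖`, and
`‖av ρ p y w‖² = ‖av ρ p y w'‖² + ‖av ρ p y w''‖² ≤ (3/p + 1/√p) (‖w'‖² + ‖w''‖²)` by E2, E3 (the two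
vectors are orthogonal: the first is fixed by `k`, `av ρ p k` kills the second).
USES K AV E2 E3. -/
def St_A12 : Prop := ∀ (G : Type) [Group G] (V : Type) [NormedAddCommGroup V]
  [InnerProductSpace ℝ V] (ρ : G →* (V ≃ₗᵢ[ℝ] V)) (p M : ℕ) (x y : G),
  p.Prime → 5 ≤ p → PG x y p → 0 < M → x ^ M = 1 →
  Ang (fx ρ x) (fx ρ y) (Real.sqrt (3 / (p : ℝ) + 1 / Real.sqrt p))

/-- E4 (MEDIUM).  As E2 with `P j = av ρ p k ∘ av ρ m (y_j)`, `j < p`, `m = 2` in CB.  Let `card S = 3`,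
`P s u = u` for `s ∈ S`.  `u` is fixed by `k` and the `y_s`.  Put
`u₁ = av ρ m (y^p) (av ρ (p²) T u)` (`T^(p²) = 1` by F2, `(y^p)^m = 1`): on `k`-fixed vectors the
elements of `NN x y` commute (N0; `T ∈ NN x y` by T0), so `u₁` is fixed by `k`, `T`, `y^p` and the
`y_s`, by V3 by all `y_i`, and `⟪w, u₁⟫ = 0` as in E2.  `⟪w, u⟫ = ⟪w, u₁⟫` because `w` is fixed by
`T = x^p` and `y^p`.  So `p ‖av ρ m y w‖² ≤ 2 ‖w‖²`.  `x^(p³) = 1` by F2.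
USES W T0 K N0 F2 V3 AV CB. -/
def St_E4 : Prop := ∀ (G : Type) [Group G] (V : Type) [NormedAddCommGroup V]
  [InnerProductSpace ℝ V] (ρ : G →* (V ≃ₗᵢ[ℝ] V)) (p m : ℕ) (x y : G) (w : V),
  p.Prime → 5 ≤ p → PG x y m → TT x y = x ^ p → ρ x w = w → ρ (kk x y) w = w →
  ρ (y ^ p) w = w → (∀ u ∈ fx ρ x ⊓ fx ρ y, ⟪w, u⟫ = 0) →
  ‖av ρ m y w‖ ^ 2 ≤ (2 / (p : ℝ)) * ‖w‖ ^ 2

/-- A13 (MEDIUM).  Let `w ∈ fx ρ x`, orthogonal to `fx ρ x ⊓ fx ρ y`, `v ∈ fx ρ y`,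
`Q = av ρ p k` (`k^p = 1`, F2), `w' = Q w`, `w'' = w - w'`, `v' = Q v`, `v'' = v - v'`:
`⟪w, v⟫ = ⟪w', v'⟫ + ⟪w'', v''⟫`.  (1) HE with `g = y`, `u = v''`, `h = T = x^p` (`T⁻¹ y T = y k`, B;
`M = p²`, `T^(p²) = 1`), the vector `w''`: `p ⟪v'', w''⟫² ≤ ‖v''‖² ‖w''‖²`.  (2) Put
`w₁ = av ρ m (y^p) w'`.  `v'` is fixed by `y^p`, so `⟪w', v'⟫ = ⟪w₁, v'⟫ = ⟪av ρ m y w₁, v'⟫`.  `w₁` is
fixed by `k`, `y^p`, and by `x`: `x (y^p) x⁻¹ = y_(-1)^p`, and `y^p = y_(-1)^p c^p` with the conjugate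
`c ~ y_(-1)` of `e_1` by `x⁻¹`, `c^p ∈ ⟨k⟩` (F2), so on `k`-fixed vectors `ρ (x y^p x⁻¹) = ρ (y^p)`.
`w₁` is orthogonal to `fx ρ x ⊓ fx ρ y` (move the averages to `u`).  E4:
`|⟪w', v'⟫| ≤ √(2/p) ‖w'‖ ‖v'‖`.  Sum: Cauchy-Schwarz.  USES W T0 K B F2 AV HE E4. -/
def St_A13 : Prop := ∀ (G : Type) [Group G] (V : Type) [NormedAddCommGroup V]
  [InnerProductSpace ℝ V] (ρ : G →* (V ≃ₗᵢ[ℝ] V)) (p m : ℕ) (x y : G),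
  p.Prime → 5 ≤ p → PG x y m → TT x y = x ^ p →
  Ang (fx ρ x) (fx ρ y) (Real.sqrt (2 / (p : ℝ)))

/-- AS (EASY).  Let `w ∈ V₂` be orthogonal to `V₁ ⊓ V₂`, `v ∈ V₁`; write `v = v₀ + v'`,
`v₀ ∈ V₁ ⊓ V₂`, `v'` orthogonal to it (`Submodule.exists_add_mem_mem_orthogonal`), `v' ∈ V₁`:
`|⟪w, v⟫| = |⟪v', w⟫| ≤ ε ‖v'‖ ‖w‖ ≤ ε ‖v‖ ‖w‖`.  The second clause is trivial. -/
def St_AS : Prop := ∀ (V : Type) [NormedAddCommGroup V] [InnerProductSpace ℝ V]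
  [FiniteDimensional ℝ V] (V₁ V₂ : Submodule ℝ V) (ε : ℝ), 0 ≤ ε → Ang V₁ V₂ ε →
  Ang V₂ V₁ ε ∧ ∀ ε' : ℝ, ε ≤ ε' → Ang V₁ V₂ ε'

/-- L1 (EASY-MEDIUM).  Let `W = V₁ ⊓ V₂`.  Write `z = α + β`, `α ∈ V₁`, `β ∈ V₂`, and split
`α = α₀ + α'`, `β = β₀ + β'` with `α₀, β₀ ∈ W`, `α', β'` orthogonal to `W`; `z₀ = α₀ + β₀`,
`z' = α' + β'`.  `p_i = z₀ + p_i'`, `p_i'` the projection of `z'` to `V_i` (check: `z - p_i` is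
orthogonal to `V_i`), orthogonal to `W`.  So `‖p_1‖² + ‖p_2‖² = 2 ‖z₀‖² + ‖p_1'‖² + ‖p_2'‖²` and it
suffices to treat `z'`.  `‖z'‖² ≥ ‖α'‖² + ‖β'‖² - 2 ε ‖α'‖ ‖β'‖ ≥ (1 - ε) (‖α'‖² + ‖β'‖²)`, and
`‖z'‖² = ⟪p_1', α'⟫ + ⟪p_2', β'⟫ ≤ (‖p_1'‖² + ‖p_2'‖²)^(1/2) (‖α'‖² + ‖β'‖²)^(1/2)`, so
`(1 - ε) ‖z'‖² ≤ ‖p_1'‖² + ‖p_2'‖²`. -/
def St_L1 : Prop := ∀ (V : Type) [NormedAddCommGroup V] [InnerProductSpace ℝ V]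
  [FiniteDimensional ℝ V] (V₁ V₂ : Submodule ℝ V) (ε : ℝ) (z p₁ p₂ : V), 0 ≤ ε → ε < 1 →
  Ang V₁ V₂ ε → z ∈ V₁ ⊔ V₂ → p₁ ∈ V₁ → p₂ ∈ V₂ → (∀ u ∈ V₁, ⟪z - p₁, u⟫ = 0) →
  (∀ u ∈ V₂, ⟪z - p₂, u⟫ = 0) → (1 - ε) * ‖z‖ ^ 2 ≤ ‖p₁‖ ^ 2 + ‖p₂‖ ^ 2

/-- L2 (MEDIUM).  Three affine subspaces.  In `PiLp 2 (fun _ : Fin 3 => V)` let `I` be the subspace
of the vectors `(w₂ - w₃, w₃ - w₁, w₁ - w₂)`, `w_i ∈ V_i` (finite dimensional), and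
`z = (a₂ - a₃, a₃ - a₁, a₁ - a₂)`.  Write `z = c + d`, `c ∈ I`, `d` orthogonal to `I`
(`Submodule.exists_add_mem_mem_orthogonal`).  `d = (d₁, d₂, d₃)` satisfies `d₁ + d₂ + d₃ = 0`,
`d₁ ∈ V₂ ⊔ V₃`, `d₂ ∈ V₃ ⊔ V₁`, `d₃ ∈ V₁ ⊔ V₂` (true for `z` and for `I`), and orthogonality to `I`
gives `d₃ - d₂ ⊥ V₁`, `d₁ - d₃ ⊥ V₂`, `d₂ - d₁ ⊥ V₃`.  So the projection `p_1` of `d₂` and of `d₃` to
`V₁` is the same, that of `d₁ = -(d₂ + d₃)` is `-2 p_1`, so `4 ‖p_1‖² ≤ ‖d₁‖²`, and the same for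
`p_2`, `p_3`.  L1 for `d₃, d₁, d₂`: `(1 - ε) ∑ ‖d_i‖² ≤ 2 ∑ ‖p_i‖² ≤ (1/2) ∑ ‖d_i‖²`, so `d = 0`
(`ε < 1/2`).  So `z = c` and `v = a₁ - w₁ = a₂ - w₂ = a₃ - w₃`.  USES AS L1. -/
def St_L2 : Prop := ∀ (V : Type) [NormedAddCommGroup V] [InnerProductSpace ℝ V]
  [FiniteDimensional ℝ V] (V₁ V₂ V₃ : Submodule ℝ V) (ε : ℝ) (a₁ a₂ a₃ : V), 0 ≤ ε →
  ε < 1 / 2 → Ang V₁ V₂ ε → Ang V₂ V₃ ε → Ang V₃ V₁ ε →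
  a₁ - a₂ ∈ V₂ → a₂ - a₃ ∈ V₃ → a₃ - a₁ ∈ V₁ →
  ∃ v, v - a₁ ∈ V₁ ∧ v - a₂ ∈ V₂ ∧ v - a₃ ∈ V₃

/-- C0 (EASY).  `v = (1/|B|) ∑_(b ∈ B) c b`: `ρ g v = (1/|B|) ∑ (c (g b) - c g) = v - c g`. -/
def St_C0 : Prop := ∀ (G : Type) [Group G] (V : Type) [NormedAddCommGroup V]
  [InnerProductSpace ℝ V] (ρ : G →* (V ≃ₗᵢ[ℝ] V)) (c : G → V),
  (∀ g h, c (g * h) = c g + ρ g (c h)) → ∀ B : Subgroup G, (B : Set G).Finite →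
  ∃ v, ∀ b ∈ B, c b = v - ρ b v

/-- H1 (EASY-MEDIUM).  `x₁^(p³) = 1` (F2 for `(x₁, x₃)`).  Fi and C0 give `v₁₂, v₂₃, v₃₁` with
`c b = v_ij - ρ b v_ij` on `closure {x_i, x_j}` (`{x₃, x₂}` and `{x₁, x₃}` as sets).  A12 for `(x₁, x₂)`,
`(x₃, x₂)`, A13 for `(x₁, x₃)`, AS: all angles have cosine at most
`ε = √(3/p + 1/√p) < 1/2` (`3/37 + 1/√37 < 1/4`, and `2/p ≤ 3/p`).  L2 with `V_i = fx ρ x_i`,
`a₁ = v₁₂`, `a₂ = v₂₃`, `a₃ = v₃₁`: `a₁ - a₂ ∈ V₂` because `c x₂ = a₁ - ρ x₂ a₁ = a₂ - ρ x₂ a₂`, etc.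
The vector `v` satisfies `c x_i = v - ρ x_i v` for `i = 1, 2, 3`, and the `g` with `c g = v - ρ g v` form
a subgroup.  USES F2 Fi A12 A13 AS L2 C0. -/
def St_H1 : Prop := ∀ (G : Type) [Group G] (p : ℕ) (x₁ x₂ x₃ : G), p.Prime → 37 ≤ p →
  Tri p x₁ x₂ x₃ → ∀ (V : Type) [NormedAddCommGroup V] [InnerProductSpace ℝ V]
  [FiniteDimensional ℝ V] (ρ : G →* (V ≃ₗᵢ[ℝ] V)) (c : G → V),
  (∀ g h, c (g * h) = c g + ρ g (c h)) → ∃ v, ∀ g, c g = v - ρ g v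

/-- FA (MEDIUM).  From `H^1 = 0` to (FAb).  Let `H` have finite index.  By `finite_ab_of_hom` (AdjB; `H`
is finitely generated) it suffices that every `χ : H →* Multiplicative ℤ` is trivial.  Let `N` be the
normal core of `H` (normal, finite index), `χ' : N → ℤ` the restriction; if `χ' = 0` then `χ = 0`
(`h^n ∈ N` for some `n > 0`, and `ℤ` is torsion free).  `V = EuclideanSpace ℝ (G ⧸ N)`,
`(ρ g f) t = f (g⁻¹ • t)` (a permutation of the coordinates: `LinearIsometryEquiv.piLpCongrLeft`),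
`c g t = χ' (σ(t)⁻¹ g σ(g⁻¹ • t))`, `σ(t) = t.out` a representative (compare `indc` and `indc_mul` in
AdjA: the same cocycle with `t ↦ g • t`).  `c (g h) = c g + ρ g (c h)`.  `c g = v - ρ g v` for all `g`;
for `n ∈ N` `ρ n = 1` (`N` normal acts trivially on `G ⧸ N`), so `0 = c n t = χ' (σ(t)⁻¹ n σ(t))` for
all `n ∈ N`, so `χ' = 0`.  USES nothing. -/
def St_FA : Prop := ∀ (G : Type) [Group G] [Group.FG G],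
  (∀ (V : Type) [NormedAddCommGroup V] [InnerProductSpace ℝ V] [FiniteDimensional ℝ V]
    (ρ : G →* (V ≃ₗᵢ[ℝ] V)) (c : G → V), (∀ g h, c (g * h) = c g + ρ g (c h)) →
    ∃ v, ∀ g, c g = v - ρ g v) → FAb G

/-- EX (EASY-MEDIUM).  Let `H` have finite index in `G`, `χ : H →* Multiplicative ℤ` (as in FA it
suffices that `χ = 1`).  `χ` is trivial on the finite group `H ⊓ N` (torsion), so it factors through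
the image `H'` of `H` in `G ⧸ N`, of finite index; `hom_of_finite_ab` (AdjB).  Use
`finite_ab_of_hom` for `H` (finitely generated since `G` is and the index is finite). -/
def St_EX : Prop := ∀ (G : Type) [Group G] [Group.FG G] (N : Subgroup G) [N.Normal],
  (N : Set G).Finite → FAb (G ⧸ N) → FAb G

end Pool.Agent.Work.MP_f3c012_al.Df
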