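import Pool.Agent.Work.MP_f3c012_al.Df.StmtsR

/-! # MP_f3c012_al, block DF, item AV: averages over a cyclic group -/

set_option autoImplicit false

open scoped RealInnerProductSpace

namespace Pool.Agent.Work.MP_f3c012_al.Df

namespace IAV

variable {G : Type} [Group G] {V : Type} [NormedAddCommGroup V] [InnerProductSpace ℝ V]

theorem av_apply (ρ : G →* (V ≃ₗᵢ[ℝ] V)) (M : ℕ) (g : G) (v : V) :
    av ρ M g v = (M : ℝ)⁻¹ • ∑ i ∈ Finset.range M, ρ (g ^ i) v := by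
  simp [av]

theorem rmul (ρ : G →* (V ≃ₗᵢ[ℝ] V)) (a b : G) (v : V) : ρ (a * b) v = ρ a (ρ b v) := by
  rw [map_mul]
  rfl

theorem rone (ρ : G →* (V ≃ₗᵢ[ℝ] V)) (v : V) : ρ 1 v = v := by
  rw [map_one]
  rfl

theorem adj (ρ : G →* (V ≃ₗᵢ[ℝ] V)) (g : G) (u v : V) : ⟪ρ g u, v⟫ = ⟪u, ρ g⁻¹ v⟫ := by
  have h : v = ρ g (ρ g⁻¹ v) := by
    rw [← rmul, mul_inv_cancel, rone]
  conv_lhs => rw [h]
  exact (ρ g).inner_map_map u (ρ g⁻¹ v)

theorem shift {A : Type} [AddCommGroup A] (F : ℕ → A) (M : ℕ) (h : F M = F 0) :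
    ∑ i ∈ Finset.range M, F (i + 1) = ∑ i ∈ Finset.range M, F i := by
  have h1 := Finset.sum_range_succ' F M
  rw [Finset.sum_range_succ F M, h] at h1
  exact (add_right_cancel h1).symm

theorem fix_pow (ρ : G →* (V ≃ₗᵢ[ℝ] V)) (g : G) (v : V) (h : ρ g v = v) (i : ℕ) :
    ρ (g ^ i) v = v := by
  induction i with
  | zero => rw [pow_zero, rone]
  | succ n ih => rw [pow_succ, rmul, h, ih]

end IAV

open IAV

theorem pr_AV : St_AV := by
  intro G _ V _ _ ρ M g hM hg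
  have hM0 : (M : ℝ) ≠ 0 := by exact_mod_cast hM.ne'
  have c1 : ∀ v, ρ g (av ρ M g v) = av ρ M g v := by
    intro v
    rw [av_apply, map_smul, map_sum]
    congr 1
    rw [← shift (fun i => ρ (g ^ i) v) M (by simp only [hg, pow_zero])]
    refine Finset.sum_congr rfl fun i _ => ?_
    rw [pow_succ', rmul]
  have c2 : ∀ v, ρ g v = v → av ρ M g v = v := by
    intro v hv
    rw [av_apply, Finset.sum_congr rfl (fun i _ => fix_pow ρ g v hv i), Finset.sum_const,
      Finset.card_range, ← Nat.cast_smul_eq_nsmul ℝ, smul_smul, inv_mul_cancel₀ hM0, one_smul]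
  have c3 : ∀ u v, ⟪av ρ M g u, v⟫ = ⟪u, av ρ M g v⟫ := by
    intro u v
    rw [av_apply, av_apply, real_inner_smul_left, real_inner_smul_right, sum_inner, inner_sum]
    congr 1
    have h1 : ∀ i ∈ Finset.range M, ⟪ρ (g ^ i) u, v⟫ =
        (fun j => ⟪u, ρ (g ^ (j + 1)) v⟫) (M - 1 - i) := by
      intro i hi
      rw [Finset.mem_range] at hi
      have h2 : (g ^ i)⁻¹ = g ^ (M - 1 - i + 1) := by
        rw [inv_eq_iff_mul_eq_one, ← pow_add]
        have h3 : i + (M - 1 - i + 1) = M := by omega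
        rw [h3, hg]
      rw [adj, h2]
    rw [Finset.sum_congr rfl h1,
      Finset.sum_range_reflect (fun j => ⟪u, ρ (g ^ (j + 1)) v⟫) M,
      shift (fun j => ⟪u, ρ (g ^ j) v⟫) M (by simp only [hg, pow_zero])]
  have c4 : ∀ v, av ρ M g (av ρ M g v) = av ρ M g v := fun v => c2 _ (c1 v)
  have c5 : ∀ v, ‖av ρ M g v‖ ^ 2 = ⟪av ρ M g v, v⟫ := by
    intro v
    rw [← real_inner_self_eq_norm_sq, ← c3, c4]
  refine ⟨c1, c2, c3, c4, c5, ?_, ?_⟩
  · intro v
    have h1 := c5 v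
    have h2 := real_inner_le_norm (av ρ M g v) v
    by_contra h3
    rw [not_le] at h3
    nlinarith [norm_nonneg v, norm_nonneg (av ρ M g v)]
  · intro h v
    rw [av_apply, av_apply, map_smul, map_sum]
    congr 1
    refine Finset.sum_congr rfl fun i _ => ?_
    rw [conj_pow, ← rmul, ← rmul, inv_mul_cancel_right]

end Pool.Agent.Work.MP_f3c012_al.Df
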