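import Pool.Agent.Work.MP_f3c012_al.Df.StmtsR

/-!
# MP_f3c012_al, block DF, item HE (helper10): the Heisenberg estimate
-/

set_option autoImplicit false

open scoped RealInnerProductSpace

namespace Pool.Agent.Work.MP_f3c012_al.Df

namespace IHE

section rep

variable {G : Type*} [Group G] {V : Type*} [NormedAddCommGroup V] [InnerProductSpace ℝ V]

theorem rho_mul (ρ : G →* (V ≃ₗᵢ[ℝ] V)) (a b : G) (v : V) : ρ (a * b) v = ρ a (ρ b v) := by
  rw [map_mul]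
  rfl

theorem rho_one (ρ : G →* (V ≃ₗᵢ[ℝ] V)) (v : V) : ρ 1 v = v := by
  rw [map_one]
  rfl

theorem av_apply (ρ : G →* (V ≃ₗᵢ[ℝ] V)) (M : ℕ) (g : G) (u : V) :
    av ρ M g u = (M : ℝ)⁻¹ • ∑ i ∈ Finset.range M, ρ (g ^ i) u := by
  unfold av
  rw [LinearMap.smul_apply, LinearMap.sum_apply]
  rfl

theorem inner_av (ρ : G →* (V ≃ₗᵢ[ℝ] V)) (M : ℕ) (g : G) (u v : V) (hM : 0 < M) :
    (M : ℝ) * ⟪av ρ M g u, v⟫ = ∑ i ∈ Finset.range M, ⟪ρ (g ^ i) u, v⟫ := by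
  have hM' : (M : ℝ) ≠ 0 := by exact_mod_cast hM.ne'
  rw [av_apply, real_inner_smul_left, sum_inner, ← mul_assoc, mul_inv_cancel₀ hM', one_mul]

/-- conjugation by powers of `h` -/
theorem conj_pow (g h k : G) (b : ℕ) (hg : Commute k g) (hh : Commute k h)
    (e : h⁻¹ * g * h = g * k ^ b) (i : ℕ) : g * h ^ i = k ^ (b * i) * (h ^ i * g) := by
  have e1 : g * h = k ^ b * (h * g) := by
    have e2 : g * h = h * (g * k ^ b) := by
      rw [← e]
      group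
    rw [e2, ← (hg.pow_left b).eq, ← mul_assoc, ← (hh.pow_left b).eq, mul_assoc]
  induction i with
  | zero => simp
  | succ i ih =>
    have hc : k ^ b * h ^ i = h ^ i * k ^ b := ((hh.pow_left b).pow_right i).eq
    calc g * h ^ (i + 1) = g * h ^ i * h := by rw [pow_succ, mul_assoc]
      _ = k ^ (b * i) * (h ^ i * (g * h)) := by rw [ih]; simp only [mul_assoc]
      _ = k ^ (b * i) * ((h ^ i * k ^ b) * (h * g)) := by rw [e1]; simp only [mul_assoc]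
      _ = k ^ (b * i) * k ^ b * (h ^ i * h * g) := by rw [← hc]; simp only [mul_assoc]
      _ = k ^ (b * (i + 1)) * (h ^ (i + 1) * g) := by
        rw [← pow_add, ← pow_succ, mul_add, mul_one]

theorem orth (hAV : St_AV) {G : Type} [Group G] {V : Type} [NormedAddCommGroup V]
    [InnerProductSpace ℝ V] (ρ : G →* (V ≃ₗᵢ[ℝ] V)) (p n : ℕ) (g k : G) (u w : V)
    (hp : p.Prime) (hk : k ^ p = 1) (hg : Commute k g) (hn : ¬ p ∣ n) (hu : ρ g u = u)
    (hku : av ρ p k u = 0) (hw : ρ g w = ρ (k ^ n) w) : ⟪w, u⟫ = 0 := by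
  have h1 : ∀ l : ℕ, ⟪ρ (k ^ (n * l)) w, u⟫ = ⟪w, u⟫ := by
    intro l
    induction l with
    | zero => rw [mul_zero, pow_zero, rho_one]
    | succ l ih =>
      rw [← ih]
      have e1 : ρ g (ρ (k ^ (n * l)) w) = ρ (k ^ (n * (l + 1))) w := by
        rw [← rho_mul, ← (hg.pow_left (n * l)).eq, rho_mul, hw, ← rho_mul, ← pow_add, mul_add,
          mul_one]
      rw [← e1]
      conv_lhs => rw [← hu]
      exact LinearIsometryEquiv.inner_map_map _ _ _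
  have hcop : Nat.Coprime n p := ((Nat.Prime.coprime_iff_not_dvd hp).2 hn).symm
  obtain ⟨m, -, hm⟩ := Nat.exists_mul_mod_eq_one_of_coprime hcop hp.one_lt
  have hk1 : k ^ (n * m) = k := by
    rw [pow_eq_pow_mod (n * m) hk, hm, pow_one]
  have h2 : ∀ j : ℕ, ⟪ρ (k ^ j) w, u⟫ = ⟪w, u⟫ := by
    intro j
    have := h1 (m * j)
    rwa [← mul_assoc, pow_mul, hk1] at this
  have h3 := inner_av ρ p k w u hp.pos
  have h4 := (hAV G V ρ p k hp.pos hk).2.2.1 w u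
  rw [h4, hku, inner_zero_right, mul_zero, Finset.sum_congr rfl fun j _ => h2 j,
    Finset.sum_const, Finset.card_range, nsmul_eq_mul] at h3
  have hp0 : (p : ℝ) ≠ 0 := by exact_mod_cast hp.ne_zero
  rcases mul_eq_zero.1 h3.symm with h | h
  · exact absurd h hp0
  · exact h

theorem card_mult (p q : ℕ) (hp : 0 < p) :
    ((Finset.range (p * q)).filter fun i => p ∣ i).card = q := by
  have e : ((Finset.range (p * q)).filter fun i => p ∣ i) =
      (Finset.range q).image fun a => p * a := by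
    ext i
    simp only [Finset.mem_filter, Finset.mem_range, Finset.mem_image]
    constructor
    · rintro ⟨h1, a, rfl⟩
      exact ⟨a, Nat.lt_of_mul_lt_mul_left h1, rfl⟩
    · rintro ⟨a, ha, rfl⟩
      exact ⟨Nat.mul_lt_mul_of_pos_left ha hp, dvd_mul_right _ _⟩
  rw [e, Finset.card_image_of_injective, Finset.card_range]
  intro a a' h
  exact Nat.eq_of_mul_eq_mul_left hp h

end rep

end IHE

/-- Heisenberg estimate -/
theorem pr_HE (hAV : St_AV) : St_HE := by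
  intro G _ V _ _ ρ p M b g h k u v hp hpM hM hhM hk hkg hkh e hb hu hku hv
  obtain ⟨q, rfl⟩ := hpM
  have hq : 0 < q := Nat.pos_of_mul_pos_left hM
  obtain ⟨-, a2, a3, -, a5, -, -⟩ := hAV G V ρ (p * q) h hM hhM
  have h1 : ⟪u, v⟫ = ⟪av ρ (p * q) h u, v⟫ := by rw [a3, a2 v hv]
  have h2 : ∀ i : ℕ, ¬ p ∣ i → ⟪ρ (h ^ i) u, u⟫ = 0 := by
    intro i hi
    refine IHE.orth hAV ρ p (b * i) g k u (ρ (h ^ i) u) hp hk hkg ?_ hu hku ?_
    · intro hd
      rcases (Nat.Prime.dvd_mul hp).1 hd with h | h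
      · exact hb h
      · exact hi h
    · rw [← IHE.rho_mul, IHE.conj_pow g h k b hkg hkh e i, IHE.rho_mul, IHE.rho_mul, hu]
  have h3 : ∀ i ∈ Finset.range (p * q), ⟪ρ (h ^ i) u, u⟫ ≤ if p ∣ i then ‖u‖ ^ 2 else 0 := by
    intro i _
    split_ifs with hi
    · refine (real_inner_le_norm _ _).trans ?_
      rw [LinearIsometryEquiv.norm_map, sq]
    · exact (h2 i hi).le
  have h4 : ((p * q : ℕ) : ℝ) * ‖av ρ (p * q) h u‖ ^ 2 ≤ q * ‖u‖ ^ 2 := by
    rw [a5, IHE.inner_av ρ (p * q) h u u hM]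
    refine (Finset.sum_le_sum h3).trans ?_
    rw [← Finset.sum_filter, Finset.sum_const, IHE.card_mult p q hp.pos, nsmul_eq_mul]
  have hq' : (0 : ℝ) < q := by exact_mod_cast hq
  have h5 : (p : ℝ) * ‖av ρ (p * q) h u‖ ^ 2 ≤ ‖u‖ ^ 2 := by
    push_cast at h4
    refine le_of_mul_le_mul_left ?_ hq'
    calc (q : ℝ) * ((p : ℝ) * ‖av ρ (p * q) h u‖ ^ 2)
        = (p : ℝ) * q * ‖av ρ (p * q) h u‖ ^ 2 := by ring
      _ ≤ q * ‖u‖ ^ 2 := h4
  have h6 : ⟪av ρ (p * q) h u, v⟫ ^ 2 ≤ ‖av ρ (p * q) h u‖ ^ 2 * ‖v‖ ^ 2 := by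
    rw [← mul_pow, sq_le_sq, abs_of_nonneg (mul_nonneg (norm_nonneg _) (norm_nonneg _))]
    exact abs_real_inner_le_norm _ _
  rw [h1]
  have hp0 : (0 : ℝ) ≤ p := Nat.cast_nonneg p
  calc (p : ℝ) * ⟪av ρ (p * q) h u, v⟫ ^ 2
      ≤ p * (‖av ρ (p * q) h u‖ ^ 2 * ‖v‖ ^ 2) := mul_le_mul_of_nonneg_left h6 hp0
    _ = (p * ‖av ρ (p * q) h u‖ ^ 2) * ‖v‖ ^ 2 := by ring
    _ ≤ ‖u‖ ^ 2 * ‖v‖ ^ 2 := mul_le_mul_of_nonneg_right h5 (sq_nonneg _)

end Pool.Agent.Work.MP_f3c012_al.Df
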