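import Pool.Agent.Work.MP_f3c012_al.Df.StmtsA
import Pool.Agent.Work.MP_f3c012_al.Df.StmtsR

/-!
# MP_f3c012_al, block DF, item A13: the angle of the pair with `T = x^p`
-/

set_option autoImplicit false

open scoped RealInnerProductSpace

namespace Pool.Agent.Work.MP_f3c012_al.Df

namespace IA13

/-- the stabilizer of a vector -/
def st {G : Type*} [Group G] {V : Type*} [NormedAddCommGroup V] [InnerProductSpace ℝ V]
    (ρ : G →* (V ≃ₗᵢ[ℝ] V)) (u : V) : Subgroup G where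
  carrier := {g | ρ g u = u}
  one_mem' := by
    show ρ 1 u = u
    rw [map_one]
    rfl
  mul_mem' := by
    intro a b ha hb
    have ha' : ρ a u = u := ha
    have hb' : ρ b u = u := hb
    show ρ (a * b) u = u
    rw [map_mul]
    show ρ a (ρ b u) = u
    rw [hb', ha']
  inv_mem' := by
    intro a ha
    have ha' : ρ a u = u := ha
    show ρ a⁻¹ u = u
    have h : ρ a⁻¹ (ρ a u) = u := by
      have h1 : ρ (a⁻¹ * a) u = u := by
        rw [inv_mul_cancel, map_one]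
        rfl
      rw [map_mul] at h1
      exact h1
    rw [ha'] at h
    exact h

lemma kk_mem {G : Type*} [Group G] (S : Subgroup G) (x y : G) (hx : x ∈ S) (hy : y ∈ S) :
    kk x y ∈ S := by
  unfold kk cm yy
  have h2 : x ^ (-(2 : ℤ)) * y * x ^ (2 : ℤ) ∈ S :=
    S.mul_mem (S.mul_mem (S.zpow_mem hx _) hy) (S.zpow_mem hx _)
  exact S.mul_mem (S.mul_mem (S.mul_mem (S.inv_mem hy) (S.inv_mem h2)) hy) h2

/-- the averages over the powers of `g` and of `g'` agree on `u` if `g ^ i = g' ^ i * s` with `s`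
fixing `u` -/
lemma av_congr {G : Type*} [Group G] {V : Type*} [NormedAddCommGroup V] [InnerProductSpace ℝ V]
    (ρ : G →* (V ≃ₗᵢ[ℝ] V)) (M : ℕ) (g g' : G) (u : V)
    (h : ∀ i : ℕ, ρ (g ^ i) u = ρ (g' ^ i) u) : av ρ M g u = av ρ M g' u := by
  unfold av
  simp only [LinearMap.smul_apply, LinearMap.sum_apply]
  have h1 : ∀ i : ℕ, ((ρ (g ^ i)).toLinearEquiv : V →ₗ[ℝ] V) u =
      ((ρ (g' ^ i)).toLinearEquiv : V →ₗ[ℝ] V) u := fun i => h i
  rw [Finset.sum_congr rfl fun i _ => h1 i]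

end IA13

open IA13 in
theorem pr_A13 (hK : St_K) (hB : St_B) (hF2 : St_F2) (hAV : St_AV)
    (hHE : St_HE) (hE4 : St_E4) : St_A13 := by
  intro G _ V _ _ ρ p m x y hp h5 hPG hTx w hw horth v hv
  have hw' : ρ x w = w := hw
  have hv' : ρ y v = v := hv
  obtain ⟨hkx, hky, hkm, -⟩ := hK G x y m hPG
  obtain ⟨hkp, -, he1, -, -, hx3⟩ := hF2 G x y m p hp h5 hPG hTx
  obtain ⟨-, hBT⟩ := hB G x y m hPG
  have hm : 0 < m := hPG.odd.pos
  have hypm : (y ^ p) ^ m = 1 := by rw [← pow_mul, mul_comm, pow_mul, hPG.ord, one_pow]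
  obtain ⟨P1, P2, P3, P4, -, -, P7⟩ := hAV G V ρ p (kk x y) hp.pos hkp
  obtain ⟨Y1, Y2, Y3, Y4, -, -, Y7⟩ := hAV G V ρ m y hm hPG.ord
  obtain ⟨Z1, Z2, Z3, Z4, -, Z6, Z7⟩ := hAV G V ρ m (y ^ p) hm hypm
  set k := kk x y with hkdef
  set a : V := av ρ p k w with hadef
  set b : V := w - a with hbdef
  set c : V := av ρ p k v with hcdef
  set d : V := v - c with hddef
  have hwab : w = a + b := by rw [hbdef]; abel
  have hvcd : v = c + d := by rw [hddef]; abel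
  have hxk : x * k * x⁻¹ = k := by
    rw [← hkx.eq, mul_assoc, mul_inv_cancel, mul_one]
  have hyk : y * k * y⁻¹ = k := by
    rw [← hky.eq, mul_assoc, mul_inv_cancel, mul_one]
  have hxa : ρ x a = a := by rw [hadef, P7 x w, hxk, hw']
  have hyc : ρ y c = c := by rw [hcdef, P7 y v, hyk, hv']
  have hxb : ρ x b = b := by rw [hbdef, map_sub, hw', hxa]
  have hyd : ρ y d = d := by rw [hddef, map_sub, hv', hyc]
  have hka : ρ k a = a := P1 w
  have hkc : ρ k c = c := P1 v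
  have hPb : av ρ p k b = 0 := by rw [hbdef, map_sub, hadef, P4 w, sub_self]
  have hPd : av ρ p k d = 0 := by rw [hddef, map_sub, hcdef, P4 v, sub_self]
  have hab : ⟪a, b⟫ = 0 := by rw [hadef, P3, hPb, inner_zero_right]
  have hcd : ⟪c, d⟫ = 0 := by rw [hcdef, P3, hPd, inner_zero_right]
  have had : ⟪a, d⟫ = 0 := by rw [hadef, P3, hPd, inner_zero_right]
  have hbc : ⟪b, c⟫ = 0 := by rw [hcdef, ← P3, hPb, inner_zero_left]
  have hsplit : ⟪w, v⟫ = ⟪a, c⟫ + ⟪b, d⟫ := by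
    rw [hwab, hvcd, inner_add_left, inner_add_right, inner_add_right, had, hbc]
    ring
  have hnw : ‖w‖ ^ 2 = ‖a‖ ^ 2 + ‖b‖ ^ 2 := by
    rw [hwab, norm_add_sq_real, hab]
    ring
  have hnv : ‖v‖ ^ 2 = ‖c‖ ^ 2 + ‖d‖ ^ 2 := by
    rw [hvcd, norm_add_sq_real, hcd]
    ring
  have hp0 : (0 : ℝ) < p := by exact_mod_cast hp.pos
  -- part (1)
  have hTp : TT x y ^ (p ^ 2) = 1 := by
    rw [hTx, ← pow_mul, show p * p ^ 2 = p ^ 3 by ring]
    exact hx3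
  have hxkc : Commute k x := hkx
  have hkT : Commute k (TT x y) := by
    rw [hTx]
    exact hkx.pow_right p
  have hconj : (TT x y)⁻¹ * y * TT x y = y * k ^ 1 := by
    rw [pow_one, ← hBT]
    unfold cm
    group
  have hTb : ρ (TT x y) b = b := by
    have h1 : x ∈ st ρ b := hxb
    have h2 : TT x y ∈ st ρ b := by
      rw [hTx]
      exact (st ρ b).pow_mem h1 p
    exact h2
  have e1 := hHE G V ρ p (p ^ 2) 1 y (TT x y) k d b hp (dvd_pow_self p (by norm_num))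
    (by have := hp.pos; positivity) hTp hkp hky hkT hconj
    (by
      intro h
      exact hp.one_lt.ne' (Nat.dvd_one.1 h)) hyd hPd hTb
  -- part (2)
  set w1 : V := av ρ m (y ^ p) a with hw1def
  have hkyp : k * y ^ p * k⁻¹ = y ^ p := by
    rw [(hky.pow_right p).eq, mul_assoc, mul_inv_cancel, mul_one]
  have hkw1 : ρ k w1 = w1 := by rw [hw1def, Z7 k a, hkyp, hka]
  have hypw1 : ρ (y ^ p) w1 = w1 := Z1 a
  -- `x` fixes `w1`
  have hy1 : yy x y (-1) = x * y * x⁻¹ := by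
    unfold yy
    rw [neg_neg, zpow_one, zpow_neg, zpow_one]
  have hcom : Commute y (x * y * x⁻¹) := by
    have h1 := hPG.com
    unfold yy at h1
    rw [zpow_neg, zpow_one] at h1
    -- `y` commutes with `x⁻¹ y x`; conjugate by `x⁻¹`
    have h2 : y * (x⁻¹ * y * x) = x⁻¹ * y * x * y := h1.eq
    show y * (x * y * x⁻¹) = x * y * x⁻¹ * y
    have h3 : x * (y * (x⁻¹ * y * x)) * x⁻¹ = x * (x⁻¹ * y * x * y) * x⁻¹ := by rw [h2]
    have h4 : x * (y * (x⁻¹ * y * x)) * x⁻¹ = x * y * x⁻¹ * y := by group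
    have h5 : x * (x⁻¹ * y * x * y) * x⁻¹ = y * (x * y * x⁻¹) := by group
    rw [h4, h5] at h3
    exact h3.symm
  obtain ⟨s, hs⟩ := Subgroup.mem_zpowers_iff.1 he1
  have hcp : y ^ p = (x * y * x⁻¹) ^ p * k ^ s := by
    have h1 : Commute (x * y * x⁻¹) (x * (y⁻¹ * yy x y 1) * x⁻¹) := by
      have h2 : x * (y⁻¹ * yy x y 1) * x⁻¹ = (x * y * x⁻¹)⁻¹ * y := by
        unfold yy
        group
      rw [h2]
      exact ((Commute.refl _).inv_right).mul_right hcom.symm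
    have h2 : y = (x * y * x⁻¹) * (x * (y⁻¹ * yy x y 1) * x⁻¹) := by
      unfold yy
      group
    have h3 : (x * (y⁻¹ * yy x y 1) * x⁻¹) ^ p = k ^ s := by
      rw [conj_pow, ← hs, (hkx.symm.zpow_right s).eq, mul_assoc, mul_inv_cancel, mul_one]
    calc y ^ p = ((x * y * x⁻¹) * (x * (y⁻¹ * yy x y 1) * x⁻¹)) ^ p := by rw [← h2]
      _ = (x * y * x⁻¹) ^ p * k ^ s := by rw [h1.mul_pow, h3]
  have hkxyx : Commute k (x * y * x⁻¹) := (hkx.mul_right hky).mul_right hkx.inv_right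
  have hxw1 : ρ x w1 = w1 := by
    rw [hw1def, Z7 x a, hxa]
    refine av_congr ρ m _ _ a fun i => ?_
    have h1 : x * y ^ p * x⁻¹ = (x * y * x⁻¹) ^ p := (conj_pow).symm
    have h2 : (y ^ p) ^ i = (x * y ^ p * x⁻¹) ^ i * (k ^ s) ^ i := by
      rw [h1]
      conv_lhs => rw [hcp]
      exact ((hkxyx.pow_right p).zpow_left s).symm.mul_pow i
    have h3 : (k ^ s) ^ i ∈ st ρ a := (st ρ a).pow_mem ((st ρ a).zpow_mem hka s) i
    rw [h2, map_mul]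
    show _ = ρ ((x * y ^ p * x⁻¹) ^ i) (ρ ((k ^ s) ^ i) a)
    rw [show ρ ((k ^ s) ^ i) a = a from h3]
  have hw1o : ∀ u ∈ fx ρ x ⊓ fx ρ y, ⟪w1, u⟫ = 0 := by
    intro u hu
    have hux : x ∈ st ρ u := hu.1
    have huy : y ∈ st ρ u := hu.2
    have huk : ρ k u = u := kk_mem (st ρ u) x y hux huy
    have huyp : ρ (y ^ p) u = u := (st ρ u).pow_mem huy p
    rw [hw1def, Z3, Z2 u huyp, hadef, P3, P2 u huk]
    exact horth u hu
  have e4 := hE4 G V ρ p m x y w1 hp h5 hPG hTx hxw1 hkw1 hypw1 hw1o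
  have hcyp : ρ (y ^ p) c = c := by
    have h1 : y ∈ st ρ c := hyc
    exact (st ρ c).pow_mem h1 p
  have hac : ⟪a, c⟫ = ⟪av ρ m y w1, c⟫ := by
    rw [Y3, Y2 c hyc, hw1def, Z3, Z2 c hcyp]
  have hw1n : ‖w1‖ ≤ ‖a‖ := Z6 a
  have h20 : 0 ≤ 2 / (p : ℝ) := by positivity
  have hn : ‖av ρ m y w1‖ ≤ Real.sqrt (2 / (p : ℝ)) * ‖a‖ := by
    have h2 : ‖av ρ m y w1‖ ≤ Real.sqrt ((2 / (p : ℝ)) * ‖w1‖ ^ 2) :=
      Real.le_sqrt_of_sq_le e4
    rw [Real.sqrt_mul h20, Real.sqrt_sq (norm_nonneg w1)] at h2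
    exact h2.trans (mul_le_mul_of_nonneg_left hw1n (Real.sqrt_nonneg _))
  have hA : |⟪a, c⟫| ≤ Real.sqrt (2 / (p : ℝ)) * (‖a‖ * ‖c‖) := by
    rw [hac]
    refine (abs_real_inner_le_norm _ _).trans ?_
    rw [← mul_assoc]
    exact mul_le_mul_of_nonneg_right hn (norm_nonneg c)
  have hD : |⟪b, d⟫| ≤ Real.sqrt (2 / (p : ℝ)) * (‖b‖ * ‖d‖) := by
    have h1 : ⟪b, d⟫ ^ 2 ≤ (2 / (p : ℝ)) * (‖b‖ * ‖d‖) ^ 2 := by
      rw [real_inner_comm, div_mul_eq_mul_div, le_div_iff₀ hp0]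
      have h2 : 0 ≤ (‖b‖ * ‖d‖) ^ 2 := sq_nonneg _
      nlinarith [e1, h2]
    have h2 := Real.abs_le_sqrt h1
    rwa [Real.sqrt_mul h20, Real.sqrt_sq (by positivity)] at h2
  have hcs : ‖a‖ * ‖c‖ + ‖b‖ * ‖d‖ ≤ ‖w‖ * ‖v‖ := by
    have h1 : (‖a‖ * ‖c‖ + ‖b‖ * ‖d‖) ^ 2 ≤ (‖w‖ * ‖v‖) ^ 2 := by
      rw [mul_pow, hnw, hnv]
      nlinarith [sq_nonneg (‖a‖ * ‖d‖ - ‖b‖ * ‖c‖)]
    exact le_of_sq_le_sq h1 (by positivity)
  rw [hsplit]
  calc |⟪a, c⟫ + ⟪b, d⟫| ≤ |⟪a, c⟫| + |⟪b, d⟫| := abs_add_le _ _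
    _ ≤ Real.sqrt (2 / (p : ℝ)) * (‖a‖ * ‖c‖) + Real.sqrt (2 / (p : ℝ)) * (‖b‖ * ‖d‖) :=
        add_le_add hA hD
    _ = Real.sqrt (2 / (p : ℝ)) * (‖a‖ * ‖c‖ + ‖b‖ * ‖d‖) := by ring
    _ ≤ Real.sqrt (2 / (p : ℝ)) * (‖w‖ * ‖v‖) :=
        mul_le_mul_of_nonneg_left hcs (Real.sqrt_nonneg _)
    _ = Real.sqrt (2 / (p : ℝ)) * ‖w‖ * ‖v‖ := by ring

end Pool.Agent.Work.MP_f3c012_al.Df
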