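import Pool.Agent.Work.MP_f3c012_al.Df.StmtsA

/-!
# MP_f3c012_al, block DF, item B: the commutators of `y` and `y_i`
-/

set_option autoImplicit false

namespace Pool.Agent.Work.MP_f3c012_al.Df

namespace IB

variable {G : Type} [Group G]

/-- `a` commutes with `k` and `cm y a = k ^ α` -/
def Q (y k a : G) (α : ℤ) : Prop := Commute k a ∧ cm y a = k ^ α

theorem Q.mul {y k a b : G} {α β : ℤ} (ha : Q y k a α) (hb : Q y k b β) :
    Q y k (a * b) (α + β) := by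
  refine ⟨ha.1.mul_right hb.1, ?_⟩
  have h1 : cm y (a * b) = y⁻¹ * b⁻¹ * y * cm y a * b := by
    unfold cm
    group
  have h2 : Commute (k ^ α) b := hb.1.zpow_left α
  have h3 : y⁻¹ * b⁻¹ * y * k ^ α * b = cm y b * k ^ α := by
    unfold cm
    rw [mul_assoc (y⁻¹ * b⁻¹ * y), h2.eq]
    group
  rw [h1, ha.2, h3, hb.2, ← zpow_add, add_comm]

theorem Q.inv {y k a : G} {α : ℤ} (ha : Q y k a α) : Q y k a⁻¹ (-α) := by
  refine ⟨ha.1.inv_right, ?_⟩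
  have h1 : cm y a⁻¹ = a * (cm y a)⁻¹ * a⁻¹ := by
    unfold cm
    group
  have h2 : Commute (k ^ α)⁻¹ a := (ha.1.zpow_left α).inv_left
  rw [h1, ha.2, ← h2.eq, mul_assoc, mul_inv_cancel, mul_one, ← zpow_neg]

theorem Q.cube {y k a : G} {α : ℤ} (ha : Q y k a α) : Q y k (a ^ 3) (3 * α) := by
  have h1 := (ha.mul ha).mul ha
  have h2 : a ^ 3 = a * a * a := by
    rw [pow_succ, pow_two]
  have h3 : 3 * α = α + α + α := by ring
  rw [h2, h3]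
  exact h1

theorem choose_rec (i : ℕ) : ((Nat.choose (i + 5) 3 : ℕ) : ℤ) =
    3 * ((Nat.choose (i + 4) 3 : ℕ) : ℤ) - 3 * ((Nat.choose (i + 3) 3 : ℕ) : ℤ) +
      ((Nat.choose (i + 2) 3 : ℕ) : ℤ) + 1 := by
  have e1 : Nat.choose (i + 5) 3 = Nat.choose (i + 4) 2 + Nat.choose (i + 4) 3 :=
    Nat.choose_succ_succ _ _
  have e2 : Nat.choose (i + 4) 3 = Nat.choose (i + 3) 2 + Nat.choose (i + 3) 3 :=
    Nat.choose_succ_succ _ _
  have e3 : Nat.choose (i + 3) 3 = Nat.choose (i + 2) 2 + Nat.choose (i + 2) 3 :=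
    Nat.choose_succ_succ _ _
  have e4 : Nat.choose (i + 4) 2 = Nat.choose (i + 3) 1 + Nat.choose (i + 3) 2 :=
    Nat.choose_succ_succ _ _
  have e5 : Nat.choose (i + 3) 2 = Nat.choose (i + 2) 1 + Nat.choose (i + 2) 2 :=
    Nat.choose_succ_succ _ _
  have e6 : Nat.choose (i + 3) 1 = i + 3 := Nat.choose_one_right _
  have e7 : Nat.choose (i + 2) 1 = i + 2 := Nat.choose_one_right _
  omega

end IB

open IB

theorem pr_B (hT0 : St_T0) (hK : St_K) : St_B := by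
  intro G _ x y m hP
  obtain ⟨k1, k2, -, k4⟩ := hK G x y m hP
  obtain ⟨-, -, hT⟩ := hT0 G x y hP.com
  have hT' := hT hP.inv
  have hcy : ∀ i : ℤ, Commute (kk x y) (yy x y i) := by
    intro i
    unfold yy
    exact ((k1.zpow_right (-i)).mul_right k2).mul_right (k1.zpow_right i)
  have q0 : Q y (kk x y) (yy x y ((0 : ℕ) : ℤ)) ((Nat.choose (0 + 1) 3 : ℕ) : ℤ) := by
    refine ⟨hcy _, ?_⟩
    have e : ((Nat.choose (0 + 1) 3 : ℕ) : ℤ) = 0 := by decide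
    rw [e, zpow_zero]
    unfold yy cm
    simp
  have q1 : Q y (kk x y) (yy x y ((1 : ℕ) : ℤ)) ((Nat.choose (1 + 1) 3 : ℕ) : ℤ) := by
    refine ⟨hcy _, ?_⟩
    have e : ((Nat.choose (1 + 1) 3 : ℕ) : ℤ) = 0 := by decide
    have hc : y * yy x y 1 = yy x y 1 * y := hP.com.eq
    rw [e, zpow_zero]
    show y⁻¹ * (yy x y 1)⁻¹ * y * yy x y 1 = 1
    rw [mul_assoc, hc]
    group
  have q2 : Q y (kk x y) (yy x y ((2 : ℕ) : ℤ)) ((Nat.choose (2 + 1) 3 : ℕ) : ℤ) := by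
    refine ⟨hcy _, ?_⟩
    have e : ((Nat.choose (2 + 1) 3 : ℕ) : ℤ) = 1 := by decide
    rw [e, zpow_one]
    rfl
  have q3 : Q y (kk x y) (yy x y ((3 : ℕ) : ℤ)) ((Nat.choose (3 + 1) 3 : ℕ) : ℤ) := by
    refine ⟨hcy _, ?_⟩
    have e : ((Nat.choose (3 + 1) 3 : ℕ) : ℤ) = ((4 : ℕ) : ℤ) := by decide
    rw [e, zpow_natCast]
    exact k4
  have hTQ : Q y (kk x y) (TT x y) 1 := by
    have h0 := hT' 0
    have e : (1 : ℤ) = -((Nat.choose (0 + 1) 3 : ℕ) : ℤ) + 3 * ((Nat.choose (1 + 1) 3 : ℕ) : ℤ) +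
        -(3 * ((Nat.choose (2 + 1) 3 : ℕ) : ℤ)) + ((Nat.choose (3 + 1) 3 : ℕ) : ℤ) := by decide
    rw [h0, e]
    exact ((q0.inv.mul q1.cube).mul q2.cube.inv).mul q3
  have key : ∀ i : ℕ, Q y (kk x y) (yy x y ((i : ℕ) : ℤ)) ((Nat.choose (i + 1) 3 : ℕ) : ℤ) ∧
      Q y (kk x y) (yy x y ((i + 1 : ℕ) : ℤ)) ((Nat.choose (i + 2) 3 : ℕ) : ℤ) ∧
      Q y (kk x y) (yy x y ((i + 2 : ℕ) : ℤ)) ((Nat.choose (i + 3) 3 : ℕ) : ℤ) ∧
      Q y (kk x y) (yy x y ((i + 3 : ℕ) : ℤ)) ((Nat.choose (i + 4) 3 : ℕ) : ℤ) := by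
    intro i
    induction i with
    | zero => exact ⟨q0, q1, q2, q3⟩
    | succ i ih =>
      obtain ⟨a0, a1, a2, a3⟩ := ih
      refine ⟨a1, a2, a3, ?_⟩
      have h0 := hT' ((i : ℤ) + 1)
      have e1 : (i : ℤ) + 1 + 1 = ((i + 2 : ℕ) : ℤ) := by push_cast; ring
      have e2 : (i : ℤ) + 1 + 2 = ((i + 3 : ℕ) : ℤ) := by push_cast; ring
      have e3 : (i : ℤ) + 1 + 3 = ((i + 1 + 3 : ℕ) : ℤ) := by push_cast; ring
      have e0 : (i : ℤ) + 1 = ((i + 1 : ℕ) : ℤ) := by push_cast; ring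
      rw [e1, e2, e3, e0] at h0
      have h4 : yy x y ((i + 1 + 3 : ℕ) : ℤ) = yy x y ((i + 3 : ℕ) : ℤ) ^ 3 *
          (yy x y ((i + 2 : ℕ) : ℤ) ^ 3)⁻¹ * yy x y ((i + 1 : ℕ) : ℤ) * TT x y := by
        rw [h0]
        group
      have e5 : ((Nat.choose (i + 1 + 4) 3 : ℕ) : ℤ) = 3 * ((Nat.choose (i + 4) 3 : ℕ) : ℤ) +
          -(3 * ((Nat.choose (i + 3) 3 : ℕ) : ℤ)) + ((Nat.choose (i + 2) 3 : ℕ) : ℤ) + 1 := by
        have := choose_rec i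
        have e6 : i + 1 + 4 = i + 5 := by ring
        rw [e6]
        linarith
      rw [h4, e5]
      exact ((a3.cube.mul a2.cube.inv).mul a1).mul hTQ
  refine ⟨fun i => ?_, ?_⟩
  · have h := (key i).1.2
    rw [zpow_natCast] at h
    exact h
  · have h := hTQ.2
    rw [zpow_one] at h
    exact h

end Pool.Agent.Work.MP_f3c012_al.Df
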