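import Pool.Agent.Work.MP_f3c012_al.Df.StmtsR

/-!
# MP_f3c012_al, block DF, item C0: a cocycle is a coboundary on a finite subgroup
-/

set_option autoImplicit false

open scoped RealInnerProductSpace

namespace Pool.Agent.Work.MP_f3c012_al.Df

theorem pr_C0 : St_C0 := by
  intro G _ V _ _ ρ c hc B hB
  classical
  have : Fintype B := hB.fintype
  have hcard : ((Fintype.card B : ℕ) : ℝ) ≠ 0 := by
    have : 0 < Fintype.card B := Fintype.card_pos
    positivity
  refine ⟨((Fintype.card B : ℕ) : ℝ)⁻¹ • ∑ b : B, c (b : G), ?_⟩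
  intro g hg
  have h1 : ρ g (((Fintype.card B : ℕ) : ℝ)⁻¹ • ∑ b : B, c (b : G))
      = ((Fintype.card B : ℕ) : ℝ)⁻¹ • ∑ b : B, (c (g * (b : G)) - c g) := by
    rw [map_smul, map_sum]
    congr 1
    refine Finset.sum_congr rfl ?_
    intro b _
    rw [hc g b]
    abel
  have h2 : ∑ b : B, c (g * (b : G)) = ∑ b : B, c (b : G) := by
    exact Fintype.sum_equiv (Equiv.mulLeft (⟨g, hg⟩ : B)) (fun b : B => c (g * (b : G)))
      (fun b : B => c (b : G)) (fun b => rfl)
  rw [h1, Finset.sum_sub_distrib, h2, Finset.sum_const, Finset.card_univ, smul_sub,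
    ← Nat.cast_smul_eq_nsmul ℝ, smul_smul, inv_mul_cancel₀ hcard, one_smul]
  abel

end Pool.Agent.Work.MP_f3c012_al.Df
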