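import Pool.Agent.Work.MP_f3c012_al.Df.StmtsR

/-!
# MP_f3c012_al, block DF, item CB: commuting projections
-/

set_option autoImplicit false

open scoped RealInnerProductSpace

namespace Pool.Agent.Work.MP_f3c012_al.Df

namespace ICB

variable {V : Type} [NormedAddCommGroup V] [InnerProductSpace ℝ V] {ι : Type}

theorem nsq (P : ι → V →ₗ[ℝ] V) (h1 : ∀ i u v, ⟪P i u, v⟫ = ⟪u, P i v⟫)
    (h2 : ∀ i v, P i (P i v) = P i v) (i : ι) (v : V) : ‖P i v‖ ^ 2 = ⟪P i v, v⟫ := by
  rw [← real_inner_self_eq_norm_sq, h1, h2, real_inner_comm]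

theorem main [DecidableEq ι] (P : ι → V →ₗ[ℝ] V) (h1 : ∀ i u v, ⟪P i u, v⟫ = ⟪u, P i v⟫)
    (h2 : ∀ i v, P i (P i v) = P i v) (h3 : ∀ i j v, P i (P j v) = P j (P i v)) :
    ∀ (m : ℕ) (J : Finset ι) (w : V),
      (∀ S ⊆ J, S.card = m + 1 → ∀ u, (∀ s ∈ S, P s u = u) → ⟪w, u⟫ = 0) →
      ∑ j ∈ J, ‖P j w‖ ^ 2 ≤ m * ‖w‖ ^ 2 := by
  intro m
  induction m with
  | zero =>
    intro J w hw
    have h : ∀ j ∈ J, ‖P j w‖ ^ 2 = 0 := by
      intro j hj
      rw [nsq P h1 h2, real_inner_comm]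
      apply hw {j} (Finset.singleton_subset_iff.2 hj) (Finset.card_singleton j)
      intro s hs
      rw [Finset.mem_singleton] at hs
      subst hs
      exact h2 s w
    rw [Finset.sum_eq_zero h]
    simp
  | succ m ih =>
    intro J w hw
    have hj : ∀ j ∈ J, ∑ i ∈ J, ‖P i (P j w)‖ ^ 2 ≤ (m + 1) * ‖P j w‖ ^ 2 := by
      intro j hj
      have h4 := ih (J.erase j) (P j w) (by
        intro S hS hc u hu
        have hjS : j ∉ S := fun h => (Finset.mem_erase.1 (hS h)).1 rfl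
        rw [h1]
        apply hw (insert j S)
        · intro s hs
          rcases Finset.mem_insert.1 hs with h | h
          · rw [h]; exact hj
          · exact (Finset.mem_erase.1 (hS h)).2
        · rw [Finset.card_insert_of_notMem hjS, hc]
        · intro s hs
          rcases Finset.mem_insert.1 hs with h | h
          · rw [h]; exact h2 j u
          · rw [h3, hu s h])
      rw [← Finset.add_sum_erase J _ hj, h2]
      linarith
    set s := ∑ i ∈ J, P i w with hs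
    set A := ∑ j ∈ J, ‖P j w‖ ^ 2 with hA
    have hcross : ∀ i j, ⟪P i w, P j w⟫ = ‖P i (P j w)‖ ^ 2 := by
      intro i j
      rw [nsq P h1 h2, h3 i j w, h1 j (P i w) (P j w), h2]
    have e1 : ‖s‖ ^ 2 = ∑ j ∈ J, ∑ i ∈ J, ‖P i (P j w)‖ ^ 2 := by
      rw [← real_inner_self_eq_norm_sq, hs, inner_sum]
      apply Finset.sum_congr rfl
      intro j _
      rw [sum_inner]
      apply Finset.sum_congr rfl
      intro i _
      exact hcross i j
    have e2 : ‖s‖ ^ 2 ≤ (m + 1) * A := by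
      rw [e1, hA, Finset.mul_sum]
      exact Finset.sum_le_sum hj
    have e3 : A = ⟪s, w⟫ := by
      rw [hA, hs, sum_inner]
      apply Finset.sum_congr rfl
      intro j _
      exact nsq P h1 h2 j w
    have e4 : A ≤ ‖s‖ * ‖w‖ := by
      rw [e3]
      exact real_inner_le_norm s w
    have hs0 : 0 ≤ ‖s‖ := norm_nonneg _
    have hw0 : 0 ≤ ‖w‖ := norm_nonneg _
    have hm : (0 : ℝ) ≤ m := Nat.cast_nonneg m
    have e5 : ‖s‖ ≤ (m + 1) * ‖w‖ := by
      rcases hs0.eq_or_lt with h | h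
      · rw [← h]
        positivity
      · have h5 : ‖s‖ * ‖s‖ ≤ ((m + 1) * ‖w‖) * ‖s‖ := by nlinarith
        exact le_of_mul_le_mul_right h5 h
    push_cast
    calc A ≤ ‖s‖ * ‖w‖ := e4
      _ ≤ ((m + 1) * ‖w‖) * ‖w‖ := mul_le_mul_of_nonneg_right e5 hw0
      _ = (m + 1) * ‖w‖ ^ 2 := by ring

end ICB

theorem pr_CB : St_CB := by
  intro V _ _ ι _ J P m w h1 h2 h3 hw
  exact ICB.main P h1 h2 h3 m J w hw

end Pool.Agent.Work.MP_f3c012_al.Df
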