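import Pool.Agent.Work.MP_f3c012_al.Df.StmtsA
import Pool.Agent.Work.MP_f3c012_al.Df.StmtsR

/-!
# MP_f3c012_al, block DF, item E2: the angle estimate on the vectors fixed by the central element
-/

set_option autoImplicit false

open scoped RealInnerProductSpace

namespace Pool.Agent.Work.MP_f3c012_al.Df

namespace IE2

section

variable {G : Type} [Group G] {V : Type} [NormedAddCommGroup V] [InnerProductSpace ℝ V]

theorem av_apply (ρ : G →* (V ≃ₗᵢ[ℝ] V)) (M : ℕ) (g : G) (v : V) :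
    av ρ M g v = (M : ℝ)⁻¹ • ∑ i ∈ Finset.range M, ρ (g ^ i) v := by
  simp [av, LinearMap.sum_apply]

theorem rho_mul (ρ : G →* (V ≃ₗᵢ[ℝ] V)) (a b : G) (v : V) : ρ (a * b) v = ρ a (ρ b v) := by
  rw [map_mul]; rfl

theorem rho_one (ρ : G →* (V ≃ₗᵢ[ℝ] V)) (v : V) : ρ 1 v = v := by
  rw [map_one]; rfl

/-- the stabilizer of a vector -/
def stab (ρ : G →* (V ≃ₗᵢ[ℝ] V)) (u : V) : Subgroup G where
  carrier := {g | ρ g u = u}
  one_mem' := rho_one ρ u
  mul_mem' := by
    intro a b ha hb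
    have ha' : ρ a u = u := ha
    have hb' : ρ b u = u := hb
    show ρ (a * b) u = u
    rw [rho_mul, hb', ha']
  inv_mem' := by
    intro a ha
    have ha' : ρ a u = u := ha
    show ρ a⁻¹ u = u
    have h : ρ a⁻¹ (ρ a u) = u := by rw [← rho_mul, inv_mul_cancel, rho_one]
    rwa [ha'] at h

theorem mem_stab (ρ : G →* (V ≃ₗᵢ[ℝ] V)) (u : V) (g : G) : g ∈ stab ρ u ↔ ρ g u = u := Iff.rfl

/-- if `ρ (a ^ n)` commutes with a linear map for all `n`, so does the average -/
theorem av_comm (ρ : G →* (V ≃ₗᵢ[ℝ] V)) (M : ℕ) (a : G) (L : V →ₗ[ℝ] V) (v : V)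
    (h : ∀ n : ℕ, ρ (a ^ n) (L v) = L (ρ (a ^ n) v)) : av ρ M a (L v) = L (av ρ M a v) := by
  rw [av_apply, av_apply, map_smul, map_sum]
  congr 1
  exact Finset.sum_congr rfl fun n _ => h n

/-- averages of elements which commute on `u` -/
theorem av_av (ρ : G →* (V ≃ₗᵢ[ℝ] V)) (M : ℕ) (a b : G) (u : V)
    (h : ∀ m n : ℕ, ρ (a ^ m) (ρ (b ^ n) u) = ρ (b ^ n) (ρ (a ^ m) u)) :
    av ρ M a (av ρ M b u) = av ρ M b (av ρ M a u) := by
  have e1 : ∀ a b : G, av ρ M a (av ρ M b u) = (M : ℝ)⁻¹ • (M : ℝ)⁻¹ •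
      ∑ i ∈ Finset.range M, ∑ j ∈ Finset.range M, ρ (a ^ i) (ρ (b ^ j) u) := by
    intro a b
    rw [av_apply ρ M b u, map_smul, map_sum]
    have e2 : ∀ j ∈ Finset.range M, av ρ M a (ρ (b ^ j) u) =
        (M : ℝ)⁻¹ • ∑ i ∈ Finset.range M, ρ (a ^ i) (ρ (b ^ j) u) := fun j _ => av_apply _ _ _ _
    rw [Finset.sum_congr rfl e2, ← Finset.smul_sum, Finset.sum_comm]
  rw [e1 a b, e1 b a, Finset.sum_comm]
  congr 2
  exact Finset.sum_congr rfl fun j _ => Finset.sum_congr rfl fun i _ => h i j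

end

end IE2

open IE2 in
/-- Item E2. -/
theorem pr_E2 (hK : St_K) (hN0 : St_N0) (hV4 : St_V4) (hAV : St_AV) (hCB : St_CB) : St_E2 := by
  intro G _ V _ _ ρ p M x y w hp h5 hPG hM hx hxw hkw horth
  have hp0 : 0 < p := hp.pos
  obtain ⟨kx, ky, kp, -⟩ := hK G x y p hPG
  obtain ⟨hkN, hcN⟩ := hN0 G x y p hPG
  set k := kk x y with hk
  -- the elements `y_j`
  have hyN : ∀ j : ℤ, yy x y j ∈ NN x y := fun j => Subgroup.subset_closure ⟨j, rfl⟩
  have hyp : ∀ j : ℤ, yy x y j ^ p = 1 := by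
    intro j
    have e : yy x y j = x ^ (-j) * y * (x ^ (-j))⁻¹ := by
      unfold yy
      rw [zpow_neg, inv_inv]
    rw [e, conj_pow, hPG.ord, mul_one, mul_inv_cancel]
  obtain ⟨k1, k2, k3, k4, -, -, k7⟩ := hAV G V ρ p k hp0 kp
  have hA := fun j : ℤ => hAV G V ρ p (yy x y j) hp0 (hyp j)
  -- the average over `k` commutes with `ρ (y_j ^ n)`
  have kcom : ∀ a ∈ NN x y, ∀ v, ρ a (av ρ p k v) = av ρ p k (ρ a v) := by
    intro a ha v
    have h := k7 a v
    have e : a * k * a⁻¹ = k := by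
      rw [← (hkN a ha).eq, mul_assoc, mul_inv_cancel, mul_one]
    rwa [e] at h
  have hAk : ∀ (j : ℤ) (v : V), av ρ p (yy x y j) (av ρ p k v) =
      av ρ p k (av ρ p (yy x y j) v) := fun j v =>
    av_comm ρ p (yy x y j) (av ρ p k) v fun n => kcom _ (Subgroup.pow_mem _ (hyN j) n) v
  -- elements of `NN x y` commute on the vectors fixed by `k`
  have hfix : ∀ u : V, ρ k u = u → ∀ a ∈ NN x y, ∀ b ∈ NN x y, ρ a (ρ b u) = ρ b (ρ a u) := by
    intro u hu a ha b hb
    have h1 : ∀ c ∈ Subgroup.zpowers k, ρ c u = u := by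
      intro c hc
      have h2 : Subgroup.zpowers k ≤ stab ρ u := by
        rw [Subgroup.zpowers_le]
        exact hu
      exact h2 hc
    have h3 : a * b = b * a * cm a b := by
      unfold cm
      group
    rw [← rho_mul, h3, rho_mul, h1 _ (hcN a ha b hb), rho_mul]
  have hAA : ∀ (i j : ℤ) (u : V), ρ k u = u →
      av ρ p (yy x y i) (av ρ p (yy x y j) u) = av ρ p (yy x y j) (av ρ p (yy x y i) u) := by
    intro i j u hu
    exact av_av ρ p _ _ u fun m n => hfix u hu _ (Subgroup.pow_mem _ (hyN i) m) _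
      (Subgroup.pow_mem _ (hyN j) n)
  -- the projections
  let P : ℕ → V →ₗ[ℝ] V := fun j => (av ρ p k).comp (av ρ p (yy x y j))
  have hP : ∀ (j : ℕ) (v : V), P j v = av ρ p k (av ρ p (yy x y j) v) := fun j v => rfl
  have hcb := hCB V ℕ (Finset.range p) P 3 w ?_ ?_ ?_ ?_
  · -- the norms
    have hnorm : ∀ j ∈ Finset.range p, ‖P j w‖ ^ 2 = ‖av ρ p y w‖ ^ 2 := by
      intro j _
      have e1 : P j w = av ρ p (yy x y j) w := by
        rw [hP, ← hAk, k2 w hkw]
      have hst : ρ (x ^ (-(j : ℤ))) w = w :=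
        (stab ρ w).zpow_mem (show x ∈ stab ρ w from hxw) (-(j : ℤ))
      have hAy := (hAV G V ρ p y hp0 hPG.ord).2.2.2.2.2.2 (x ^ (-(j : ℤ))) w
      rw [hst] at hAy
      have e2 : x ^ (-(j : ℤ)) * y * (x ^ (-(j : ℤ)))⁻¹ = yy x y j := by
        unfold yy
        rw [zpow_neg, inv_inv]
      rw [e2] at hAy
      rw [e1, ← hAy, LinearIsometryEquiv.norm_map]
    rw [Finset.sum_congr rfl hnorm, Finset.sum_const, Finset.card_range, nsmul_eq_mul] at hcb
    have hpr : (0 : ℝ) < p := by exact_mod_cast hp0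
    have e3 : (3 / (p : ℝ)) * ‖w‖ ^ 2 = (3 * ‖w‖ ^ 2) / p := by ring
    rw [e3, le_div_iff₀ hpr]
    push_cast at hcb
    linarith
  · -- symmetric
    intro i u v
    rw [hP, hP, k3, (hA i).2.2.1, hAk]
  · -- idempotent
    intro i v
    rw [hP, hP, hAk, k4, (hA i).2.2.2.1]
  · -- commuting
    intro i j v
    have e1 : ∀ (i j : ℕ), P i (P j v) =
        av ρ p (yy x y i) (av ρ p (yy x y j) (av ρ p k v)) := by
      intro i j
      rw [hP, hP, hAk, k4, ← hAk, ← hAk]
    rw [e1 i j, e1 j i]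
    exact hAA i j _ (k1 v)
  · -- the common fixed vectors of four projections
    intro S hS hcard u hu
    have hSne : S.Nonempty := by
      rw [← Finset.card_pos]
      omega
    obtain ⟨s0, hs0⟩ := hSne
    have hku : ρ k u = u := by
      have h1 := hu s0 hs0
      rw [hP] at h1
      rw [← h1]
      exact k1 _
    have hys : ∀ s ∈ S, ρ (yy x y s) u = u := by
      intro s hs
      have h1 := hu s hs
      rw [hP, ← hAk, k2 u hku] at h1
      rw [← h1]
      exact (hA s).1 u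
    have hall : ∀ i : ℤ, yy x y i ∈ stab ρ u := by
      let j : Fin 4 → ℕ := fun m => S.orderEmbOfFin (by omega : S.card = 4) m
      refine hV4 G x y p hp h5 hPG (stab ρ u) j hku ?_ ?_ ?_
      · intro a b hab
        exact (S.orderEmbOfFin (by omega : S.card = 4)).injective hab
      · intro m
        exact Finset.mem_range.1 (hS (Finset.orderEmbOfFin_mem S _ m))
      · intro m
        exact hys _ (Finset.orderEmbOfFin_mem S _ m)
    obtain ⟨x1, x2, x3, -, -, -, -⟩ := hAV G V ρ M x hM hx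
    have h1 : av ρ M x u ∈ fx ρ x ⊓ fx ρ y := by
      refine ⟨x1 u, ?_⟩
      show ρ y (av ρ M x u) = av ρ M x u
      rw [av_apply, map_smul, map_sum]
      congr 1
      refine Finset.sum_congr rfl fun n _ => ?_
      have e1 : y * x ^ n = x ^ n * yy x y n := by
        unfold yy
        rw [zpow_neg, zpow_natCast, mul_assoc, mul_inv_cancel_left]
      rw [← rho_mul, e1, rho_mul]
      congr 1
      exact hall n
    have h2 := horth _ h1
    rw [← x3, x2 w hxw] at h2
    exact h2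

end Pool.Agent.Work.MP_f3c012_al.Df
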