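import Pool.Agent.Work.MP_f3c012_al.Df.StmtsA
import Pool.Agent.Work.MP_f3c012_al.Df.StmtsR

/-!
# MP_f3c012_al, block DF, item E3 (helper64)
-/

set_option autoImplicit false

open scoped RealInnerProductSpace

namespace Pool.Agent.Work.MP_f3c012_al.Df

namespace IE3

theorem not_dvd (p n : ℕ) (hp : p.Prime) (h2 : 2 ≤ n) (hn : n + 2 ≤ p) :
    ¬ p ∣ Nat.choose (n + 1) 3 := by
  intro h
  obtain ⟨l, rfl⟩ : ∃ l, n = l + 2 := ⟨n - 2, by omega⟩
  have h1 : Nat.choose (l + 2 + 1) 3 * 6 = (l + 3) * (l + 2) * (l + 1) := by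
    have h3 := Nat.descFactorial_eq_factorial_mul_choose (l + 2 + 1) 3
    simp only [Nat.descFactorial, Nat.factorial] at h3
    have e1 : l + 2 + 1 - 2 = l + 1 := by omega
    have e2 : l + 2 + 1 - 1 = l + 2 := by omega
    have e3 : l + 2 + 1 - 0 = l + 3 := by omega
    rw [e1, e2, e3] at h3
    nlinarith
  have h4 : p ∣ (l + 3) * (l + 2) * (l + 1) := by
    rw [← h1]
    exact Dvd.dvd.mul_right h 6
  rcases (Nat.Prime.dvd_mul hp).1 h4 with h5 | h5
  · rcases (Nat.Prime.dvd_mul hp).1 h5 with h6 | h6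
    · have := Nat.le_of_dvd (by omega) h6
      omega
    · have := Nat.le_of_dvd (by omega) h6
      omega
  · have := Nat.le_of_dvd (by omega) h5
    omega

/-- cyclic neighbours -/
def Cl (p i j : ℕ) : Prop := i = j ∨ i + 1 = j ∨ j + 1 = i ∨ i + (p - 1) = j ∨ j + (p - 1) = i

instance (p i j : ℕ) : Decidable (Cl p i j) := by unfold Cl; infer_instance

theorem Cl_symm (p i j : ℕ) : Cl p i j ↔ Cl p j i := by
  unfold Cl
  constructor <;> intro h <;> omega

/-- the matrix of the Schur test -/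
noncomputable def eta (p i j : ℕ) : ℝ := if Cl p i j then 1 else 1 / Real.sqrt p

theorem row (p i : ℕ) (hp : 2 ≤ p) (hi : i < p) :
    ∑ j ∈ Finset.range p, eta p i j ≤ 3 + Real.sqrt p := by
  have hp0 : (0 : ℝ) < p := by
    have : 0 < p := by omega
    exact_mod_cast this
  have hs : 0 < Real.sqrt p := Real.sqrt_pos.2 hp0
  have h1 : ∀ j ∈ Finset.range p, eta p i j ≤ (if Cl p i j then (1 : ℝ) else 0) +
      1 / Real.sqrt p := by
    intro j _
    unfold eta
    have h0 : 0 ≤ 1 / Real.sqrt p := by positivity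
    split_ifs <;> linarith
  refine (Finset.sum_le_sum h1).trans ?_
  rw [Finset.sum_add_distrib, Finset.sum_const, Finset.card_range, nsmul_eq_mul,
    ← Finset.sum_filter, Finset.sum_const, nsmul_eq_mul, mul_one]
  have h2 : (Finset.range p).filter (fun j => Cl p i j) ⊆
      {i, (i + 1) % p, (i + p - 1) % p} := by
    intro j hj
    rw [Finset.mem_filter, Finset.mem_range] at hj
    obtain ⟨hj, hc⟩ := hj
    simp only [Finset.mem_insert, Finset.mem_singleton]
    rcases hc with h | h | h | h | h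
    · left
      exact h.symm
    · right; left
      rw [h, Nat.mod_eq_of_lt hj]
    · right; right
      have e : i + p - 1 = j + p := by omega
      rw [e, Nat.add_mod_right, Nat.mod_eq_of_lt hj]
    · right; right
      have e : i + p - 1 = j := by omega
      rw [e, Nat.mod_eq_of_lt hj]
    · right; left
      have e : i + 1 = j + p := by omega
      rw [e, Nat.add_mod_right, Nat.mod_eq_of_lt hj]
  have h3 : ((Finset.range p).filter (fun j => Cl p i j)).card ≤ 3 :=
    (Finset.card_le_card h2).trans Finset.card_le_three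
  have h4 : (((Finset.range p).filter (fun j => Cl p i j)).card : ℝ) ≤ 3 := by
    exact_mod_cast h3
  have h5 : (p : ℝ) * (1 / Real.sqrt p) = Real.sqrt p := by
    rw [mul_one_div, div_eq_iff hs.ne', Real.mul_self_sqrt hp0.le]
  linarith

end IE3

open IE3 in
theorem pr_E3 (hW : St_W) (hK : St_K) (hB : St_B) (hAV : St_AV) (hSC : St_SC) (hHE : St_HE) :
    St_E3 := by
  intro G _ V _ _ ρ p x y w hp h5 hPG hxw hkw
  have hp1 : 0 < p := by omega
  have hp0 : (0 : ℝ) < p := by exact_mod_cast hp1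
  have hs : 0 < Real.sqrt p := Real.sqrt_pos.2 hp0
  obtain ⟨W1, W2, -, -, W5⟩ := hW G x y
  obtain ⟨K1, K2, K3, -⟩ := hK G x y p hPG
  obtain ⟨B1, -⟩ := hB G x y p hPG
  obtain ⟨k, hk⟩ : ∃ k, k = kk x y := ⟨_, rfl⟩
  rw [← hk] at hkw K1 K2 K3
  have hxz : ∀ n : ℤ, ρ (x ^ n) w = w := by
    have hxn : ∀ n : ℕ, ρ (x ^ n) w = w := by
      intro n
      induction n with
      | zero => rw [pow_zero, map_one]; rfl
      | succ n ih =>
        rw [pow_succ, map_mul]
        change ρ (x ^ n) (ρ x w) = w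
        rw [hxw, ih]
    intro n
    obtain ⟨m, rfl | rfl⟩ := n.eq_nat_or_neg
    · rw [zpow_natCast, hxn]
    · rw [zpow_neg, zpow_natCast]
      have h1 : ρ ((x ^ m)⁻¹) (ρ (x ^ m) w) = w := by
        change (ρ ((x ^ m)⁻¹) * ρ (x ^ m)) w = w
        rw [← map_mul, inv_mul_cancel, map_one]
        rfl
      rwa [hxn] at h1
  have hyp : ∀ i : ℤ, (yy x y i) ^ p = 1 := by
    intro i
    have e : yy x y i = x ^ (-i) * y * (x ^ (-i))⁻¹ := by
      unfold yy
      rw [zpow_neg, inv_inv]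
    rw [e, conj_pow, hPG.ord, mul_one, mul_inv_cancel]
  have hky : ∀ i : ℤ, Commute k (yy x y i) := by
    intro i
    unfold yy
    exact ((K1.zpow_right _).mul_right K2).mul_right (K1.zpow_right _)
  obtain ⟨q, hq⟩ : ∃ q : ℕ → V, ∀ j, q j = av ρ p (yy x y (j : ℤ)) w := ⟨_, fun _ => rfl⟩
  obtain ⟨a, ha⟩ : ∃ a, a = ‖av ρ p y w‖ := ⟨_, rfl⟩
  have hqn : ∀ j, ‖q j‖ = a := by
    intro j
    have h1 := (hAV G V ρ p y hp1 hPG.ord).2.2.2.2.2.2 (x ^ (-(j : ℤ))) w
    have e : x ^ (-(j : ℤ)) * y * (x ^ (-(j : ℤ)))⁻¹ = yy x y (j : ℤ) := by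
      unfold yy
      rw [zpow_neg, inv_inv]
    rw [e, hxz] at h1
    rw [hq, ← h1, LinearIsometryEquiv.norm_map, ha]
  have hqf : ∀ j : ℕ, ρ (yy x y (j : ℤ)) (q j) = q j := by
    intro j
    rw [hq]
    exact (hAV G V ρ p (yy x y (j : ℤ)) hp1 (hyp _)).1 w
  have hqk : ∀ j : ℕ, av ρ p k (q j) = 0 := by
    intro j
    have hcomm : ∀ h : G, Commute k h → av ρ p k (ρ h w) = 0 := by
      intro h hh
      have h1 := (hAV G V ρ p k hp1 K3).2.2.2.2.2.2 h w
      rw [hkw, map_zero, ← hh.eq, mul_inv_cancel_right] at h1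
      exact h1.symm
    rw [hq]
    have e : av ρ p (yy x y (j : ℤ)) w =
        (p : ℝ)⁻¹ • ∑ i ∈ Finset.range p, ρ ((yy x y (j : ℤ)) ^ i) w := by
      unfold av
      rw [LinearMap.smul_apply, LinearMap.sum_apply]
      rfl
    rw [e, map_smul, map_sum, Finset.sum_eq_zero, smul_zero]
    intro i _
    exact hcomm _ ((hky _).pow_right i)
  have hqi : ∀ j, ‖q j‖ ^ 2 = ⟪q j, w⟫ := by
    intro j
    rw [hq]
    exact (hAV G V ρ p (yy x y (j : ℤ)) hp1 (hyp _)).2.2.2.2.1 w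
  have hpair : ∀ i j : ℕ, i < j → j < p → ¬ Cl p i j →
      |⟪q i, q j⟫| ≤ 1 / Real.sqrt p * ‖q i‖ * ‖q j‖ := by
    intro i j hij hjp hcl
    obtain ⟨n, rfl⟩ : ∃ n, j = i + n := ⟨j - i, by omega⟩
    have hn2 : 2 ≤ n := by
      by_contra hcon
      have : n = 1 := by omega
      exact hcl (Or.inr (Or.inl (by omega)))
    have hnp : n + 2 ≤ p := by
      by_contra hcon
      have : n = p - 1 := by omega
      exact hcl (Or.inr (Or.inr (Or.inr (Or.inl (by omega)))))
    have h1 := W5 (n : ℤ) (i : ℤ)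
    rw [B1 n, ← hk] at h1
    have h2 : x ^ (-(i : ℤ)) * k ^ Nat.choose (n + 1) 3 * x ^ (i : ℤ) =
        k ^ Nat.choose (n + 1) 3 := by
      have h3 : Commute (k ^ Nat.choose (n + 1) 3) (x ^ (i : ℤ)) :=
        (K1.pow_left _).zpow_right _
      rw [mul_assoc, h3.eq, ← mul_assoc, ← zpow_add, neg_add_cancel, zpow_zero, one_mul]
    rw [h2] at h1
    have e : (n : ℤ) + (i : ℤ) = ((i + n : ℕ) : ℤ) := by push_cast; ring
    rw [e] at h1
    have h4 : (yy x y ((i + n : ℕ) : ℤ))⁻¹ * yy x y (i : ℤ) * yy x y ((i + n : ℕ) : ℤ) =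
        yy x y (i : ℤ) * k ^ Nat.choose (n + 1) 3 := by
      rw [h1]
      unfold cm
      group
    have h6 := hHE G V ρ p p (Nat.choose (n + 1) 3) (yy x y (i : ℤ))
      (yy x y ((i + n : ℕ) : ℤ)) k (q i) (q (i + n)) hp dvd_rfl hp1 (hyp _) K3 (hky _) (hky _)
      h4 (not_dvd p n hp hn2 hnp) (hqf i) (hqk i) (hqf (i + n))
    refine abs_le_of_sq_le_sq ?_ (by positivity)
    have h7 : (1 / Real.sqrt p * ‖q i‖ * ‖q (i + n)‖) ^ 2 =
        (‖q i‖ ^ 2 * ‖q (i + n)‖ ^ 2) / p := by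
      rw [mul_pow, mul_pow, div_pow, Real.sq_sqrt hp0.le]
      ring
    rw [h7, le_div_iff₀ hp0]
    linarith
  have hmain := hSC V p q (eta p) (3 + Real.sqrt p)
    (fun i j => by unfold eta; split_ifs <;> positivity)
    (fun i j => by
      unfold eta
      by_cases hc : Cl p i j
      · rw [if_pos hc, if_pos ((Cl_symm p i j).1 hc)]
      · rw [if_neg hc, if_neg (fun h => hc ((Cl_symm p i j).2 h))])
    (fun i hi j hj => by
      unfold eta
      by_cases hc : Cl p i j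
      · rw [if_pos hc, one_mul]
        exact abs_real_inner_le_norm _ _
      · rw [if_neg hc]
        rcases lt_trichotomy i j with h | h | h
        · exact hpair i j h hj hc
        · exact absurd (Or.inl h) hc
        · have h1 := hpair j i h hi (fun h => hc ((Cl_symm p i j).2 h))
          rw [real_inner_comm]
          linarith)
    (fun i hi => row p i (by omega) hi)
  have hsum : ∑ i ∈ Finset.range p, ‖q i‖ ^ 2 = p * a ^ 2 := by
    rw [Finset.sum_congr rfl (fun i _ => by rw [hqn i]), Finset.sum_const, Finset.card_range,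
      nsmul_eq_mul]
  rw [hsum] at hmain
  have hin : ⟪∑ i ∈ Finset.range p, q i, w⟫ = p * a ^ 2 := by
    rw [sum_inner, ← hsum]
    exact Finset.sum_congr rfl fun i _ => (hqi i).symm
  have hcs : p * a ^ 2 ≤ ‖∑ i ∈ Finset.range p, q i‖ * ‖w‖ := by
    rw [← hin]
    exact real_inner_le_norm _ _
  have hfin : (p * a ^ 2) * (p * a ^ 2) ≤ (p * a ^ 2) * ((3 + Real.sqrt p) * ‖w‖ ^ 2) := by
    have h1 : 0 ≤ p * a ^ 2 := by positivity
    calc (p * a ^ 2) * (p * a ^ 2) ≤
        (‖∑ i ∈ Finset.range p, q i‖ * ‖w‖) * (‖∑ i ∈ Finset.range p, q i‖ * ‖w‖) :=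
          mul_le_mul hcs hcs h1 (h1.trans hcs)
      _ = ‖∑ i ∈ Finset.range p, q i‖ ^ 2 * ‖w‖ ^ 2 := by ring
      _ ≤ ((3 + Real.sqrt p) * (p * a ^ 2)) * ‖w‖ ^ 2 :=
          mul_le_mul_of_nonneg_right hmain (by positivity)
      _ = _ := by ring
  rw [← ha]
  have e2 : (3 / (p : ℝ) + 1 / Real.sqrt p) * ‖w‖ ^ 2 =
      ((3 + Real.sqrt p) * ‖w‖ ^ 2) / p := by
    have h1 : 1 / Real.sqrt p = Real.sqrt p / p := by
      rw [div_eq_div_iff hs.ne' hp0.ne', Real.mul_self_sqrt hp0.le, one_mul]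
    rw [h1]
    ring
  rw [e2, le_div_iff₀ hp0]
  rcases eq_or_lt_of_le (show 0 ≤ p * a ^ 2 by positivity) with h0 | h0
  · have h1 : a ^ 2 * p = 0 := by linarith
    rw [h1]
    positivity
  · have h1 := le_of_mul_le_mul_left hfin h0
    linarith

end Pool.Agent.Work.MP_f3c012_al.Df
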