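import Pool.Agent.Work.MP_f3c012_al.Df.StmtsA
import Pool.Agent.Work.MP_f3c012_al.Df.StmtsR

/-!
# MP_f3c012_al, block DF, item E4: the angle estimate for the pair with `T = x^p`

Adapted from item E2 of this block.
-/

set_option autoImplicit false

open scoped RealInnerProductSpace

namespace Pool.Agent.Work.MP_f3c012_al.Df

namespace IE4

section

variable {G : Type} [Group G] {V : Type} [NormedAddCommGroup V] [InnerProductSpace ℝ V]

theorem av_apply (ρ : G →* (V ≃ₗᵢ[ℝ] V)) (M : ℕ) (g : G) (v : V) :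
    av ρ M g v = (M : ℝ)⁻¹ • ∑ i ∈ Finset.range M, ρ (g ^ i) v := by
  simp [av, LinearMap.sum_apply]

theorem rho_mul (ρ : G →* (V ≃ₗᵢ[ℝ] V)) (a b : G) (v : V) : ρ (a * b) v = ρ a (ρ b v) := by
  rw [map_mul]; rfl

theorem rho_one (ρ : G →* (V ≃ₗᵢ[ℝ] V)) (v : V) : ρ 1 v = v := by
  rw [map_one]; rfl

/-- the stabilizer of a vector -/
def stab (ρ : G →* (V ≃ₗᵢ[ℝ] V)) (u : V) : Subgroup G where
  carrier := {g | ρ g u = u}
  one_mem' := rho_one ρ u
  mul_mem' := by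
    intro a b ha hb
    have ha' : ρ a u = u := ha
    have hb' : ρ b u = u := hb
    show ρ (a * b) u = u
    rw [rho_mul, hb', ha']
  inv_mem' := by
    intro a ha
    have ha' : ρ a u = u := ha
    show ρ a⁻¹ u = u
    have h : ρ a⁻¹ (ρ a u) = u := by rw [← rho_mul, inv_mul_cancel, rho_one]
    rwa [ha'] at h

/-- if `ρ (a ^ n)` commutes with a linear map for all `n`, so does the average -/
theorem av_comm (ρ : G →* (V ≃ₗᵢ[ℝ] V)) (M : ℕ) (a : G) (L : V →ₗ[ℝ] V) (v : V)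
    (h : ∀ n : ℕ, ρ (a ^ n) (L v) = L (ρ (a ^ n) v)) : av ρ M a (L v) = L (av ρ M a v) := by
  rw [av_apply, av_apply, map_smul, map_sum]
  congr 1
  exact Finset.sum_congr rfl fun n _ => h n

/-- averages of elements which commute on `u` -/
theorem av_av (ρ : G →* (V ≃ₗᵢ[ℝ] V)) (M : ℕ) (a b : G) (u : V)
    (h : ∀ m n : ℕ, ρ (a ^ m) (ρ (b ^ n) u) = ρ (b ^ n) (ρ (a ^ m) u)) :
    av ρ M a (av ρ M b u) = av ρ M b (av ρ M a u) := by
  have e1 : ∀ a b : G, av ρ M a (av ρ M b u) = (M : ℝ)⁻¹ • (M : ℝ)⁻¹ •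
      ∑ i ∈ Finset.range M, ∑ j ∈ Finset.range M, ρ (a ^ i) (ρ (b ^ j) u) := by
    intro a b
    rw [av_apply ρ M b u, map_smul, map_sum]
    have e2 : ∀ j ∈ Finset.range M, av ρ M a (ρ (b ^ j) u) =
        (M : ℝ)⁻¹ • ∑ i ∈ Finset.range M, ρ (a ^ i) (ρ (b ^ j) u) := fun j _ => av_apply _ _ _ _
    rw [Finset.sum_congr rfl e2, ← Finset.smul_sum, Finset.sum_comm]
  rw [e1 a b, e1 b a, Finset.sum_comm]
  congr 2
  exact Finset.sum_congr rfl fun j _ => Finset.sum_congr rfl fun i _ => h i j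

/-- an element which fixes `u` and commutes with the powers of `g` on `u` fixes the average -/
theorem av_fix (ρ : G →* (V ≃ₗᵢ[ℝ] V)) (M : ℕ) (a g : G) (u : V) (ha : ρ a u = u)
    (h : ∀ n : ℕ, ρ a (ρ (g ^ n) u) = ρ (g ^ n) (ρ a u)) : ρ a (av ρ M g u) = av ρ M g u := by
  rw [av_apply, map_smul, map_sum]
  congr 1
  refine Finset.sum_congr rfl fun n _ => ?_
  rw [h n, ha]

end

end IE4

open IE4 in
/-- Item E4. -/
theorem pr_E4 (hW : St_W) (hT0 : St_T0) (hK : St_K) (hN0 : St_N0) (hF2 : St_F2) (hV3 : St_V3)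
    (hAV : St_AV) (hCB : St_CB) : St_E4 := by
  intro G _ V _ _ ρ p m x y w hp h5 hPG hT hxw hkw hypw horth
  have hp0 : 0 < p := hp.pos
  have hm0 : 0 < m := hPG.odd.pos
  obtain ⟨-, -, -, -⟩ := hK G x y m hPG
  obtain ⟨hkN, hcN⟩ := hN0 G x y m hPG
  obtain ⟨kp, -, -, -, -, hx3⟩ := hF2 G x y m p hp h5 hPG hT
  have hTf := (hT0 G x y hPG.com).2.1
  have hyy0 := (hW G x y).1
  set k := kk x y with hk
  -- the elements `y_j`
  have hyN : ∀ j : ℤ, yy x y j ∈ NN x y := fun j => Subgroup.subset_closure ⟨j, rfl⟩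
  have hyN0 : y ∈ NN x y := by
    have h := hyN 0
    rwa [hyy0] at h
  have hTN : TT x y ∈ NN x y := by
    rw [hTf]
    exact Subgroup.mul_mem _ (Subgroup.mul_mem _ (Subgroup.mul_mem _ (Subgroup.inv_mem _ hyN0)
      (Subgroup.pow_mem _ (hyN 1) 3)) (Subgroup.inv_mem _ (Subgroup.pow_mem _ (hyN 2) 3))) (hyN 3)
  have hkNN : k ∈ NN x y := by
    rw [hk]
    unfold kk cm
    exact Subgroup.mul_mem _ (Subgroup.mul_mem _ (Subgroup.mul_mem _ (Subgroup.inv_mem _ hyN0)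
      (Subgroup.inv_mem _ (hyN 2))) hyN0) (hyN 2)
  have hyp : ∀ j : ℤ, yy x y j ^ m = 1 := by
    intro j
    have e : yy x y j = x ^ (-j) * y * (x ^ (-j))⁻¹ := by
      unfold yy
      rw [zpow_neg, inv_inv]
    rw [e, conj_pow, hPG.ord, mul_one, mul_inv_cancel]
  obtain ⟨k1, k2, k3, k4, -, -, k7⟩ := hAV G V ρ p k hp0 kp
  have hA := fun j : ℤ => hAV G V ρ m (yy x y j) hm0 (hyp j)
  -- the average over `k` commutes with `ρ (y_j ^ n)`
  have kcom : ∀ a ∈ NN x y, ∀ v, ρ a (av ρ p k v) = av ρ p k (ρ a v) := by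
    intro a ha v
    have h := k7 a v
    have e : a * k * a⁻¹ = k := by
      rw [← (hkN a ha).eq, mul_assoc, mul_inv_cancel, mul_one]
    rwa [e] at h
  have hAk : ∀ (j : ℤ) (v : V), av ρ m (yy x y j) (av ρ p k v) =
      av ρ p k (av ρ m (yy x y j) v) := fun j v =>
    av_comm ρ m (yy x y j) (av ρ p k) v fun n => kcom _ (Subgroup.pow_mem _ (hyN j) n) v
  -- elements of `NN x y` commute on the vectors fixed by `k`
  have hfix : ∀ u : V, ρ k u = u → ∀ a ∈ NN x y, ∀ b ∈ NN x y, ρ a (ρ b u) = ρ b (ρ a u) := by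
    intro u hu a ha b hb
    have h1 : ∀ c ∈ Subgroup.zpowers k, ρ c u = u := by
      intro c hc
      have h2 : Subgroup.zpowers k ≤ stab ρ u := by
        rw [Subgroup.zpowers_le]
        exact hu
      exact h2 hc
    have h3 : a * b = b * a * cm a b := by
      unfold cm
      group
    rw [← rho_mul, h3, rho_mul, h1 _ (hcN a ha b hb), rho_mul]
  have hAA : ∀ (i j : ℤ) (u : V), ρ k u = u →
      av ρ m (yy x y i) (av ρ m (yy x y j) u) = av ρ m (yy x y j) (av ρ m (yy x y i) u) := by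
    intro i j u hu
    exact av_av ρ m _ _ u fun a b => hfix u hu _ (Subgroup.pow_mem _ (hyN i) a) _
      (Subgroup.pow_mem _ (hyN j) b)
  -- averages over elements of `NN x y` keep the fixing elements
  have havfix : ∀ (M : ℕ) (g : G), g ∈ NN x y → ∀ u : V, ρ k u = u → ∀ a ∈ NN x y, ρ a u = u →
      ρ a (av ρ M g u) = av ρ M g u := by
    intro M g hg u hu a ha hau
    exact av_fix ρ M a g u hau fun n => hfix u hu a ha _ (Subgroup.pow_mem _ hg n)
  -- the projections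
  let P : ℕ → V →ₗ[ℝ] V := fun j => (av ρ p k).comp (av ρ m (yy x y j))
  have hP : ∀ (j : ℕ) (v : V), P j v = av ρ p k (av ρ m (yy x y j) v) := fun j v => rfl
  have hcb := hCB V ℕ (Finset.range p) P 2 w ?_ ?_ ?_ ?_
  · -- the norms
    have hnorm : ∀ j ∈ Finset.range p, ‖P j w‖ ^ 2 = ‖av ρ m y w‖ ^ 2 := by
      intro j _
      have e1 : P j w = av ρ m (yy x y j) w := by
        rw [hP, ← hAk, k2 w hkw]
      have hst : ρ (x ^ (-(j : ℤ))) w = w :=
        (stab ρ w).zpow_mem (show x ∈ stab ρ w from hxw) (-(j : ℤ))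
      have hAy := (hAV G V ρ m y hm0 hPG.ord).2.2.2.2.2.2 (x ^ (-(j : ℤ))) w
      rw [hst] at hAy
      have e2 : x ^ (-(j : ℤ)) * y * (x ^ (-(j : ℤ)))⁻¹ = yy x y j := by
        unfold yy
        rw [zpow_neg, inv_inv]
      rw [e2] at hAy
      rw [e1, ← hAy, LinearIsometryEquiv.norm_map]
    rw [Finset.sum_congr rfl hnorm, Finset.sum_const, Finset.card_range, nsmul_eq_mul] at hcb
    have hpr : (0 : ℝ) < p := by exact_mod_cast hp0
    have e3 : (2 / (p : ℝ)) * ‖w‖ ^ 2 = (2 * ‖w‖ ^ 2) / p := by ring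
    rw [e3, le_div_iff₀ hpr]
    push_cast at hcb
    linarith
  · -- symmetric
    intro i u v
    rw [hP, hP, k3, (hA i).2.2.1, hAk]
  · -- idempotent
    intro i v
    rw [hP, hP, hAk, k4, (hA i).2.2.2.1]
  · -- commuting
    intro i j v
    have e1 : ∀ (i j : ℕ), P i (P j v) =
        av ρ m (yy x y i) (av ρ m (yy x y j) (av ρ p k v)) := by
      intro i j
      rw [hP, hP, hAk, k4, ← hAk, ← hAk]
    rw [e1 i j, e1 j i]
    exact hAA i j _ (k1 v)
  · -- the common fixed vectors of three projections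
    intro S hS hcard u hu
    have hSne : S.Nonempty := by
      rw [← Finset.card_pos]
      omega
    obtain ⟨s0, hs0⟩ := hSne
    have hku : ρ k u = u := by
      have h1 := hu s0 hs0
      rw [hP] at h1
      rw [← h1]
      exact k1 _
    have hys : ∀ s ∈ S, ρ (yy x y s) u = u := by
      intro s hs
      have h1 := hu s hs
      rw [hP, ← hAk, k2 u hku] at h1
      rw [← h1]
      exact (hA s).1 u
    -- `T` and `y^p` have finite order
    have hTp : TT x y ^ (p ^ 2) = 1 := by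
      rw [hT, ← pow_mul]
      have e : p * p ^ 2 = p ^ 3 := by ring
      rw [e, hx3]
    have hp2 : 0 < p ^ 2 := by positivity
    have hypm : (y ^ p) ^ m = 1 := by
      rw [← pow_mul, mul_comm, pow_mul, hPG.ord, one_pow]
    have hypN : y ^ p ∈ NN x y := Subgroup.pow_mem _ hyN0 p
    obtain ⟨t1, t2, t3, -, -, -, -⟩ := hAV G V ρ (p ^ 2) (TT x y) hp2 hTp
    obtain ⟨q1, q2, q3, -, -, -, -⟩ := hAV G V ρ m (y ^ p) hm0 hypm
    obtain ⟨u₂, hu₂⟩ : ∃ u₂, u₂ = av ρ (p ^ 2) (TT x y) u := ⟨_, rfl⟩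
    obtain ⟨u₁, hu₁⟩ : ∃ u₁, u₁ = av ρ m (y ^ p) u₂ := ⟨_, rfl⟩
    have hk2 : ρ k u₂ = u₂ := by
      rw [hu₂]
      exact havfix _ _ hTN u hku k hkNN hku
    have hk1 : ρ k u₁ = u₁ := by
      rw [hu₁]
      exact havfix _ _ hypN u₂ hk2 k hkNN hk2
    have hT2 : ρ (TT x y) u₂ = u₂ := by
      rw [hu₂]
      exact t1 u
    have hT1 : ρ (TT x y) u₁ = u₁ := by
      rw [hu₁]
      exact havfix _ _ hypN u₂ hk2 _ hTN hT2
    have hy1 : ρ (y ^ p) u₁ = u₁ := by
      rw [hu₁]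
      exact q1 u₂
    have hys1 : ∀ s ∈ S, ρ (yy x y s) u₁ = u₁ := by
      intro s hs
      have h2 : ρ (yy x y s) u₂ = u₂ := by
        rw [hu₂]
        exact havfix _ _ hTN u hku _ (hyN s) (hys s hs)
      rw [hu₁]
      exact havfix _ _ hypN u₂ hk2 _ (hyN s) h2
    have hall : ∀ i : ℤ, yy x y i ∈ stab ρ u₁ := by
      let j : Fin 3 → ℕ := fun a => S.orderEmbOfFin (by omega : S.card = 3) a
      refine hV3 G x y m p hp h5 hPG hT (stab ρ u₁) j hk1 hT1 hy1 ?_ ?_ ?_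
      · intro a b hab
        exact (S.orderEmbOfFin (by omega : S.card = 3)).injective hab
      · intro a
        exact Finset.mem_range.1 (hS (Finset.orderEmbOfFin_mem S _ a))
      · intro a
        exact hys1 _ (Finset.orderEmbOfFin_mem S _ a)
    have hp3 : 0 < p ^ 3 := by positivity
    obtain ⟨x1, x2, x3, -, -, -, -⟩ := hAV G V ρ (p ^ 3) x hp3 hx3
    have h1 : av ρ (p ^ 3) x u₁ ∈ fx ρ x ⊓ fx ρ y := by
      refine ⟨x1 u₁, ?_⟩
      show ρ y (av ρ (p ^ 3) x u₁) = av ρ (p ^ 3) x u₁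
      rw [av_apply, map_smul, map_sum]
      congr 1
      refine Finset.sum_congr rfl fun n _ => ?_
      have e1 : y * x ^ n = x ^ n * yy x y n := by
        unfold yy
        rw [zpow_neg, zpow_natCast, mul_assoc, mul_inv_cancel_left]
      rw [← rho_mul, e1, rho_mul]
      congr 1
      exact hall n
    have h2 := horth _ h1
    rw [← x3, x2 w hxw] at h2
    -- `⟪w, u⟫ = ⟪w, u₁⟫`
    have hTw : ρ (TT x y) w = w := by
      rw [hT]
      exact (stab ρ w).pow_mem (show x ∈ stab ρ w from hxw) p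
    rw [hu₁, ← q3, q2 w hypw, hu₂, ← t3, t2 w hTw] at h2
    exact h2

end Pool.Agent.Work.MP_f3c012_al.Df
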