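import Pool.Agent.Work.MP_f3c012_al.Df.StmtsA

/-!
# MP_f3c012_al, block DF, item F1: `x^(p^2)` commutes with `y`
-/

set_option autoImplicit false

namespace Pool.Agent.Work.MP_f3c012_al.Df

namespace IF1

variable {G : Type} [Group G]

/-- the element `y_i` of `NN x y` -/
def Y (x y : G) (i : ℤ) : NN x y := ⟨yy x y i, Subgroup.subset_closure ⟨i, rfl⟩⟩

/-- its class in the abelianization, additively -/
def f (x y : G) (i : ℤ) : Additive (Abelianization (NN x y)) :=
  Additive.ofMul (Abelianization.of (Y x y i))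

theorem yy_pow (x y : G) (i : ℤ) (n : ℕ) (h : y ^ n = 1) : yy x y i ^ n = 1 := by
  unfold yy
  have e : x ^ (-i) * y * x ^ i = x ^ (-i) * y * (x ^ (-i))⁻¹ := by rw [zpow_neg, inv_inv]
  rw [e, conj_pow, h, mul_one, mul_inv_cancel]

theorem f_nsmul (x y : G) (i : ℤ) (n : ℕ) (h : y ^ n = 1) : n • f x y i = 0 := by
  unfold f
  rw [← ofMul_pow, ← map_pow]
  have e : Y x y i ^ n = 1 := Subtype.ext (yy_pow x y i n h)
  rw [e, map_one, ofMul_one]

theorem recur (x y : G) (i : ℤ)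
    (h : (yy x y i)⁻¹ * yy x y (i + 1) ^ 3 * (yy x y (i + 2) ^ 3)⁻¹ * yy x y (i + 3) =
      (yy x y (i + 1))⁻¹ * yy x y (i + 2) ^ 3 * (yy x y (i + 3) ^ 3)⁻¹ * yy x y (i + 4)) :
    f x y (i + 4) = (4 : ℤ) • f x y (i + 3) - (6 : ℤ) • f x y (i + 2) + (4 : ℤ) • f x y (i + 1) -
      f x y i := by
  have h1 : (Y x y i)⁻¹ * Y x y (i + 1) ^ 3 * (Y x y (i + 2) ^ 3)⁻¹ * Y x y (i + 3) =
      (Y x y (i + 1))⁻¹ * Y x y (i + 2) ^ 3 * (Y x y (i + 3) ^ 3)⁻¹ * Y x y (i + 4) :=
    Subtype.ext h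
  have h2 := congrArg (fun g => Additive.ofMul (Abelianization.of g)) h1
  simp only [map_mul, map_inv, map_pow, ofMul_mul, ofMul_inv, ofMul_pow] at h2
  change -f x y i + 3 • f x y (i + 1) + -(3 • f x y (i + 2)) + f x y (i + 3) =
    -f x y (i + 1) + 3 • f x y (i + 2) + -(3 • f x y (i + 3)) + f x y (i + 4) at h2
  have h3 : f x y (i + 4) = -f x y i + 3 • f x y (i + 1) + -(3 • f x y (i + 2)) + f x y (i + 3) -
      (-f x y (i + 1) + 3 • f x y (i + 2) + -(3 • f x y (i + 3))) := by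
    rw [h2]
    abel
  rw [h3]
  abel

end IF1

open IF1 in
theorem pr_F1 (hW : St_W) (hT0 : St_T0) (hK : St_K) (hN0 : St_N0) (hS1 : St_S1) : St_F1 := by
  intro G _ x y p hp hp5 hPG
  obtain ⟨hy0, hyc, -, -, -⟩ := hW G x y
  obtain ⟨-, -, hT⟩ := hT0 G x y hPG.com
  obtain ⟨hkx, hky, hkp, -⟩ := hK G x y p hPG
  obtain ⟨-, hcm⟩ := hN0 G x y p hPG
  have hrec : ∀ i : ℤ, f x y (i + 4) = (4 : ℤ) • f x y (i + 3) - (6 : ℤ) • f x y (i + 2) +
      (4 : ℤ) • f x y (i + 1) - f x y i := fun i => by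
    refine recur x y i ?_
    have e1 := hT hPG.inv i
    have e2 := hT hPG.inv (i + 1)
    rw [show i + 1 + 1 = i + 2 by ring, show i + 1 + 2 = i + 3 by ring,
      show i + 1 + 3 = i + 4 by ring] at e2
    rw [← e1, ← e2]
  have h0 : ∀ g : Additive (Abelianization (NN x y)), p • g = 0 → ∀ m : ℕ, p ∣ m → m • g = 0 := by
    rintro g hg m ⟨c, rfl⟩
    rw [mul_comm, mul_nsmul', hg, smul_zero]
  have hz : ∀ i, p • f x y i = 0 := fun i => f_nsmul x y i p hPG.ord
  have key : f x y p = f x y 0 := by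
    rw [hS1 _ (f x y) hrec p]
    have d1 : p • (f x y 1 - f x y 0) = 0 := by
      rw [smul_sub, hz, hz, sub_zero]
    have d2 : p.choose 2 • (f x y 2 - (2 : ℤ) • f x y 1 + f x y 0) = 0 := by
      refine h0 _ ?_ _ (hp.dvd_choose_self (by norm_num) (by omega))
      rw [smul_add, smul_sub, smul_comm p (2 : ℤ), hz, hz, hz, smul_zero, sub_zero, add_zero]
    have d3 : p.choose 3 • (f x y 3 - (3 : ℤ) • f x y 2 + (3 : ℤ) • f x y 1 - f x y 0) = 0 := by
      refine h0 _ ?_ _ (hp.dvd_choose_self (by norm_num) (by omega))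
      rw [smul_sub, smul_add, smul_sub, smul_comm p (3 : ℤ), smul_comm p (3 : ℤ), hz, hz, hz, hz,
        smul_zero, sub_zero, add_zero, sub_zero]
    rw [d1, d2, d3, add_zero, add_zero, add_zero]
  have hle : commutator (NN x y) ≤ (Subgroup.zpowers (kk x y)).subgroupOf (NN x y) := by
    rw [commutator_def, Subgroup.commutator_le]
    intro a _ b _
    rw [Subgroup.mem_subgroupOf]
    have e := hcm (a : G)⁻¹ ((NN x y).inv_mem a.2) (b : G)⁻¹ ((NN x y).inv_mem b.2)
    unfold cm at e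
    rw [inv_inv, inv_inv] at e
    exact e
  have hmem : (Y x y 0)⁻¹ * Y x y p ∈ commutator (NN x y) := by
    rw [← Abelianization.ker_of, MonoidHom.mem_ker, map_mul, map_inv]
    have e : Abelianization.of (Y x y p) = Abelianization.of (Y x y 0) := Additive.ofMul.injective key
    rw [e, inv_mul_cancel]
  have hmem2 := hle hmem
  rw [Subgroup.mem_subgroupOf] at hmem2
  obtain ⟨c, hc⟩ := Subgroup.mem_zpowers_iff.mp hmem2
  have hc' : yy x y p = y * kk x y ^ c := by
    have e : kk x y ^ c = (yy x y 0)⁻¹ * yy x y p := hc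
    rw [e, hy0, mul_inv_cancel_left]
  have iter : ∀ n : ℕ, yy x y (n * p : ℤ) = y * kk x y ^ (n * c : ℤ) := by
    intro n
    induction n with
    | zero => rw [Nat.cast_zero, zero_mul, zero_mul, hy0, zpow_zero, mul_one]
    | succ n ih =>
      have e1 := hyc (n * p : ℤ) p
      rw [ih] at e1
      have e2 : ((n + 1 : ℕ) : ℤ) * p = n * p + p := by
        push_cast
        ring
      have e3 : Commute (kk x y ^ (n * c : ℤ)) (x ^ (p : ℤ)) := (hkx.zpow_left _).zpow_right _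
      have e4 : x ^ (-(p : ℤ)) * (y * kk x y ^ (n * c : ℤ)) * x ^ (p : ℤ) =
          yy x y p * kk x y ^ (n * c : ℤ) := by
        unfold yy
        rw [mul_assoc, mul_assoc, e3.eq]
        simp only [mul_assoc]
      rw [e2, ← e1, e4, hc', mul_assoc, ← zpow_add]
      congr 2
      push_cast
      ring
  have hfin := iter p
  have hk0 : kk x y ^ (p * c : ℤ) = 1 := by
    rw [zpow_mul, zpow_natCast, hkp, one_zpow]
  rw [hk0, mul_one] at hfin
  unfold yy at hfin
  have e5 : ((p : ℤ) * p) = ((p ^ 2 : ℕ) : ℤ) := by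
    push_cast
    ring
  rw [e5, zpow_neg, zpow_natCast] at hfin
  show x ^ (p ^ 2) * y = y * x ^ (p ^ 2)
  rw [mul_assoc, inv_mul_eq_iff_eq_mul] at hfin
  exact hfin.symm

end Pool.Agent.Work.MP_f3c012_al.Df
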