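import Pool.Agent.Work.MP_f3c012_al.Df.StmtsA

/-!
# MP_f3c012_al, block DF, item F2: the case `T = x^p`
-/

set_option autoImplicit false

namespace Pool.Agent.Work.MP_f3c012_al.Df

namespace IF2

variable {G : Type} [Group G]

/-- the element `y_i` of `NN x y` -/
def Y (x y : G) (i : ℤ) : NN x y := ⟨yy x y i, Subgroup.subset_closure ⟨i, rfl⟩⟩

/-- its class in the abelianization, additively -/
def f (x y : G) (i : ℤ) : Additive (Abelianization (NN x y)) :=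
  Additive.ofMul (Abelianization.of (Y x y i))

theorem recur (x y : G) (i : ℤ)
    (h : (yy x y i)⁻¹ * yy x y (i + 1) ^ 3 * (yy x y (i + 2) ^ 3)⁻¹ * yy x y (i + 3) =
      (yy x y (i + 1))⁻¹ * yy x y (i + 2) ^ 3 * (yy x y (i + 3) ^ 3)⁻¹ * yy x y (i + 4)) :
    f x y (i + 4) = (4 : ℤ) • f x y (i + 3) - (6 : ℤ) • f x y (i + 2) + (4 : ℤ) • f x y (i + 1) -
      f x y i := by
  have h1 : (Y x y i)⁻¹ * Y x y (i + 1) ^ 3 * (Y x y (i + 2) ^ 3)⁻¹ * Y x y (i + 3) =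
      (Y x y (i + 1))⁻¹ * Y x y (i + 2) ^ 3 * (Y x y (i + 3) ^ 3)⁻¹ * Y x y (i + 4) :=
    Subtype.ext h
  have h2 := congrArg (fun g => Additive.ofMul (Abelianization.of g)) h1
  simp only [map_mul, map_inv, map_pow, ofMul_mul, ofMul_inv, ofMul_pow] at h2
  change -f x y i + 3 • f x y (i + 1) + -(3 • f x y (i + 2)) + f x y (i + 3) =
    -f x y (i + 1) + 3 • f x y (i + 2) + -(3 • f x y (i + 3)) + f x y (i + 4) at h2
  have h3 : f x y (i + 4) = -f x y i + 3 • f x y (i + 1) + -(3 • f x y (i + 2)) + f x y (i + 3) -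
      (-f x y (i + 1) + 3 • f x y (i + 2) + -(3 • f x y (i + 3))) := by
    rw [h2]
    abel
  rw [h3]
  abel

/-- an element of `NN x y` whose class is killed by `p` has its `p`-th power in `⟨k⟩` -/
theorem pow_mem {x y : G} {p : ℕ}
    (hle : commutator (NN x y) ≤ (Subgroup.zpowers (kk x y)).subgroupOf (NN x y))
    (a : NN x y) (h : p • Additive.ofMul (Abelianization.of a) = 0) :
    (a : G) ^ p ∈ Subgroup.zpowers (kk x y) := by
  have h1 : a ^ p ∈ commutator (NN x y) := by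
    rw [← Abelianization.ker_of, MonoidHom.mem_ker, map_pow]
    exact Additive.ofMul.injective h
  have h2 := hle h1
  rw [Subgroup.mem_subgroupOf] at h2
  exact h2

/-- the differences: from periodicity to `p Δ_3 = p Δ_2 = p Δ_1 = 0` -/
theorem diffs (hS1 : St_S1) {A : Type} [AddCommGroup A] (f : ℤ → A) (p : ℕ) (hp : p.Prime)
    (hp5 : 5 ≤ p)
    (hrec : ∀ i, f (i + 4) = (4 : ℤ) • f (i + 3) - (6 : ℤ) • f (i + 2) + (4 : ℤ) • f (i + 1) - f i)
    (hper : ∀ i, f (i + p) = f i) :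
    p • (f 3 - (3 : ℤ) • f 2 + (3 : ℤ) • f 1 - f 0) = 0 ∧
    p • (f 2 - (2 : ℤ) • f 1 + f 0) = 0 ∧ p • (f 1 - f 0) = 0 := by
  have h0 : ∀ g : A, p • g = 0 → ∀ m : ℕ, p ∣ m → m • g = 0 := by
    rintro g hg m ⟨c, rfl⟩
    rw [mul_comm, mul_nsmul', hg, smul_zero]
  have a0 := hS1 A f hrec p
  have a1 := hS1 A (fun i => f (i + 1)) (fun i => by
    have e := hrec (i + 1)
    rw [show i + 1 + 4 = i + 4 + 1 by ring, show i + 1 + 3 = i + 3 + 1 by ring,
      show i + 1 + 2 = i + 2 + 1 by ring] at e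
    exact e) p
  have a2 := hS1 A (fun i => f (i + 2)) (fun i => by
    have e := hrec (i + 2)
    rw [show i + 2 + 4 = i + 4 + 2 by ring, show i + 2 + 3 = i + 3 + 2 by ring,
      show i + 2 + 1 = i + 1 + 2 by ring, show i + 2 + 2 = i + 2 + 2 by ring] at e
    exact e) p
  rw [show ((p : ℤ) + 1) = 1 + p by ring, hper 1] at a1
  rw [show ((p : ℤ) + 2) = 2 + p by ring, hper 2] at a2
  rw [show ((p : ℤ)) = 0 + p by ring, hper 0] at a0
  rw [show (0 : ℤ) + 1 = 1 by norm_num, show (1 : ℤ) + 1 = 2 by norm_num,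
    show (2 : ℤ) + 1 = 3 by norm_num, show (3 : ℤ) + 1 = 4 by norm_num] at a1
  rw [show (0 : ℤ) + 2 = 2 by norm_num, show (1 : ℤ) + 2 = 3 by norm_num,
    show (2 : ℤ) + 2 = 4 by norm_num, show (3 : ℤ) + 2 = 5 by norm_num] at a2
  have r4 : f 4 = (4 : ℤ) • f 3 - (6 : ℤ) • f 2 + (4 : ℤ) • f 1 - f 0 := by
    have e := hrec 0
    rw [show (0 : ℤ) + 4 = 4 by norm_num, show (0 : ℤ) + 3 = 3 by norm_num,
      show (0 : ℤ) + 2 = 2 by norm_num, show (0 : ℤ) + 1 = 1 by norm_num] at e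
    exact e
  have r5 : f 5 = (4 : ℤ) • f 4 - (6 : ℤ) • f 3 + (4 : ℤ) • f 2 - f 1 := by
    have e := hrec 1
    rw [show (1 : ℤ) + 4 = 5 by norm_num, show (1 : ℤ) + 3 = 4 by norm_num,
      show (1 : ℤ) + 2 = 3 by norm_num, show (1 : ℤ) + 1 = 2 by norm_num] at e
    exact e
  -- the differences
  obtain ⟨d1, hd1⟩ : ∃ d, d = f 1 - f 0 := ⟨_, rfl⟩
  obtain ⟨d2, hd2⟩ : ∃ d, d = f 2 - (2 : ℤ) • f 1 + f 0 := ⟨_, rfl⟩
  obtain ⟨d3, hd3⟩ : ∃ d, d = f 3 - (3 : ℤ) • f 2 + (3 : ℤ) • f 1 - f 0 := ⟨_, rfl⟩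
  have e1 : f 2 - f 1 = d1 + d2 := by rw [hd1, hd2]; abel
  have e2 : f 3 - (2 : ℤ) • f 2 + f 1 = d2 + d3 := by rw [hd2, hd3]; abel
  have e3 : f 4 - (3 : ℤ) • f 3 + (3 : ℤ) • f 2 - f 1 = d3 := by rw [hd3, r4]; abel
  have e4 : f 3 - f 2 = d1 + d2 + (d2 + d3) := by rw [hd1, hd2, hd3]; abel
  have e5 : f 4 - (2 : ℤ) • f 3 + f 2 = d2 + d3 + d3 := by rw [hd2, hd3, r4]; abel
  have e6 : f 5 - (3 : ℤ) • f 4 + (3 : ℤ) • f 3 - f 2 = d3 := by rw [hd3, r5, r4]; abel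
  rw [← hd1, ← hd2, ← hd3] at a0 ⊢
  rw [e1, e2, e3] at a1
  rw [e4, e5, e6] at a2
  rw [add_assoc, add_assoc, left_eq_add] at a0 a1 a2
  have b1 : p • d2 + p.choose 2 • d3 = 0 := by
    have : p • d2 + p.choose 2 • d3 = (p • (d1 + d2) + (p.choose 2 • (d2 + d3) + p.choose 3 • d3)) -
        (p • d1 + (p.choose 2 • d2 + p.choose 3 • d3)) := by
      rw [smul_add, smul_add]; abel
    rw [this, a0, a1, sub_zero]
  have b2 : p • d2 + p • d3 + p.choose 2 • d3 = 0 := by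
    have : p • d2 + p • d3 + p.choose 2 • d3 =
        (p • (d1 + d2 + (d2 + d3)) + (p.choose 2 • (d2 + d3 + d3) + p.choose 3 • d3)) -
        (p • (d1 + d2) + (p.choose 2 • (d2 + d3) + p.choose 3 • d3)) := by
      simp only [smul_add]; abel
    rw [this, a2, a1, sub_zero]
  have c3 : p • d3 = 0 := by
    have : p • d3 = (p • d2 + p • d3 + p.choose 2 • d3) - (p • d2 + p.choose 2 • d3) := by abel
    rw [this, b1, b2, sub_zero]
  have k2 : p ∣ p.choose 2 := hp.dvd_choose_self (by norm_num) (by omega)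
  have k3 : p ∣ p.choose 3 := hp.dvd_choose_self (by norm_num) (by omega)
  have c2 : p • d2 = 0 := by
    rw [h0 d3 c3 _ k2, add_zero] at b1
    exact b1
  have c1 : p • d1 = 0 := by
    rw [h0 d3 c3 _ k3, h0 d2 c2 _ k2, add_zero, add_zero] at a0
    exact a0
  exact ⟨c3, c2, c1⟩

end IF2

open IF2 in
theorem pr_F2 (hW : St_W) (hT0 : St_T0) (hK : St_K) (hB : St_B) (hN0 : St_N0) (hS1 : St_S1) :
    St_F2 := by
  intro G _ x y m p hp hp5 hPG hTx
  obtain ⟨hy0, hyc, -, -, -⟩ := hW G x y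
  obtain ⟨-, hTe, hT⟩ := hT0 G x y hPG.com
  obtain ⟨hkx, hky, -, -⟩ := hK G x y m hPG
  obtain ⟨-, hcT⟩ := hB G x y m hPG
  obtain ⟨-, hcm⟩ := hN0 G x y m hPG
  have hrec : ∀ i : ℤ, f x y (i + 4) = (4 : ℤ) • f x y (i + 3) - (6 : ℤ) • f x y (i + 2) +
      (4 : ℤ) • f x y (i + 1) - f x y i := fun i => by
    refine recur x y i ?_
    have e1 := hT hPG.inv i
    have e2 := hT hPG.inv (i + 1)
    rw [show i + 1 + 1 = i + 2 by ring, show i + 1 + 2 = i + 3 by ring,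
      show i + 1 + 3 = i + 4 by ring] at e2
    rw [← e1, ← e2]
  have hle : commutator (NN x y) ≤ (Subgroup.zpowers (kk x y)).subgroupOf (NN x y) := by
    rw [commutator_def, Subgroup.commutator_le]
    intro a _ b _
    rw [Subgroup.mem_subgroupOf]
    have e := hcm (a : G)⁻¹ ((NN x y).inv_mem a.2) (b : G)⁻¹ ((NN x y).inv_mem b.2)
    unfold cm at e
    rw [inv_inv, inv_inv] at e
    exact e
  -- `y_p = y k`
  have hyp : yy x y p = y * kk x y := by
    have e : y⁻¹ * (x ^ p)⁻¹ * y * x ^ p = kk x y := by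
      rw [← hTx]
      exact hcT
    unfold yy
    rw [zpow_neg, zpow_natCast, ← e]
    group
  have hshift : ∀ i : ℤ, yy x y (i + p) = yy x y i * kk x y := by
    intro i
    have e1 := hyc (p : ℤ) i
    rw [hyp] at e1
    have e3 : Commute (kk x y) (x ^ i) := hkx.zpow_right _
    rw [add_comm i, ← e1]
    unfold yy
    rw [mul_assoc, mul_assoc, e3.eq]
    simp only [mul_assoc]
  have iter : ∀ n : ℕ, yy x y (n * p : ℤ) = y * kk x y ^ n := by
    intro n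
    induction n with
    | zero => rw [Nat.cast_zero, zero_mul, hy0, pow_zero, mul_one]
    | succ n ih =>
      have e2 : ((n + 1 : ℕ) : ℤ) * p = n * p + p := by
        push_cast
        ring
      rw [e2, hshift, ih, mul_assoc, ← pow_succ]
  -- the class of `k` is trivial
  have hkN : kk x y ∈ NN x y := by
    have a0 : y ∈ NN x y := by
      have := (Y x y 0).2
      rw [show ((Y x y 0 : NN x y) : G) = yy x y 0 from rfl, hy0] at this
      exact this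
    have a2 : yy x y 2 ∈ NN x y := (Y x y 2).2
    unfold kk cm
    exact (NN x y).mul_mem ((NN x y).mul_mem ((NN x y).mul_mem ((NN x y).inv_mem a0)
      ((NN x y).inv_mem a2)) a0) a2
  have hkcl : Abelianization.of (⟨kk x y, hkN⟩ : NN x y) = 1 := by
    have e : (⟨kk x y, hkN⟩ : NN x y) = (Y x y 0)⁻¹ * (Y x y 2)⁻¹ * Y x y 0 * Y x y 2 := by
      refine Subtype.ext ?_
      show kk x y = (yy x y 0)⁻¹ * (yy x y 2)⁻¹ * yy x y 0 * yy x y 2
      rw [hy0]
      rfl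
    rw [e, map_mul, map_mul, map_mul, map_inv, map_inv]
    rw [mul_comm (Abelianization.of (Y x y 0))⁻¹, mul_assoc (Abelianization.of (Y x y 2))⁻¹,
      inv_mul_cancel, mul_one, inv_mul_cancel]
  have hper : ∀ i : ℤ, f x y (i + p) = f x y i := by
    intro i
    have e : Y x y (i + p) = Y x y i * ⟨kk x y, hkN⟩ := Subtype.ext (hshift i)
    unfold f
    rw [e, map_mul, hkcl, mul_one]
  obtain ⟨c3, c2, c1⟩ := diffs hS1 (f x y) p hp hp5 hrec hper
  -- `T`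
  have hT3 : TT x y ^ p ∈ Subgroup.zpowers (kk x y) := by
    have e : TT x y = (((Y x y 0)⁻¹ * Y x y 1 ^ 3 * (Y x y 2 ^ 3)⁻¹ * Y x y 3 : NN x y) : G) := by
      rw [hTe]
      show y⁻¹ * yy x y 1 ^ 3 * (yy x y 2 ^ 3)⁻¹ * yy x y 3 =
        (yy x y 0)⁻¹ * yy x y 1 ^ 3 * (yy x y 2 ^ 3)⁻¹ * yy x y 3
      rw [hy0]
    rw [e]
    refine pow_mem hle _ ?_
    rw [← c3]
    congr 1
    simp only [map_mul, map_inv, map_pow, ofMul_mul, ofMul_inv, ofMul_pow]
    show -f x y 0 + 3 • f x y 1 + -(3 • f x y 2) + f x y 3 = _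
    abel
  have hE1 : (y⁻¹ * yy x y 1) ^ p ∈ Subgroup.zpowers (kk x y) := by
    have e : y⁻¹ * yy x y 1 = (((Y x y 0)⁻¹ * Y x y 1 : NN x y) : G) := by
      show y⁻¹ * yy x y 1 = (yy x y 0)⁻¹ * yy x y 1
      rw [hy0]
    rw [e]
    refine pow_mem hle _ ?_
    rw [← c1]
    congr 1
    simp only [map_mul, map_inv, ofMul_mul, ofMul_inv]
    show -f x y 0 + f x y 1 = _
    abel
  have hE2 : (y * (yy x y 1 ^ 2)⁻¹ * yy x y 2) ^ p ∈ Subgroup.zpowers (kk x y) := by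
    have e : y * (yy x y 1 ^ 2)⁻¹ * yy x y 2 =
        ((Y x y 0 * (Y x y 1 ^ 2)⁻¹ * Y x y 2 : NN x y) : G) := by
      show y * (yy x y 1 ^ 2)⁻¹ * yy x y 2 = yy x y 0 * (yy x y 1 ^ 2)⁻¹ * yy x y 2
      rw [hy0]
    rw [e]
    refine pow_mem hle _ ?_
    rw [← c2]
    congr 1
    simp only [map_mul, map_inv, map_pow, ofMul_mul, ofMul_inv, ofMul_pow]
    show f x y 0 + -(2 • f x y 1) + f x y 2 = _
    abel
  -- `k^p = 1`
  have hkp : kk x y ^ p = 1 := by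
    have e1 := iter p
    have e2 : ((p : ℤ) * p) = ((p * p : ℕ) : ℤ) := by push_cast; ring
    have e3 : x ^ (p * p) = TT x y ^ p := by rw [hTx, pow_mul]
    obtain ⟨c, hc⟩ := Subgroup.mem_zpowers_iff.mp hT3
    have e4 : Commute (x ^ (p * p)) y := by
      rw [e3, ← hc]
      exact hky.zpow_left _
    unfold yy at e1
    rw [e2, zpow_neg, zpow_natCast, mul_assoc, ← e4.eq, inv_mul_cancel_left] at e1
    have e5 : y * 1 = y * kk x y ^ p := by rw [mul_one]; exact e1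
    exact (mul_left_cancel e5).symm
  have hz : ∀ g : G, g ∈ Subgroup.zpowers (kk x y) → g ^ p = 1 := by
    intro g hg
    obtain ⟨c, rfl⟩ := Subgroup.mem_zpowers_iff.mp hg
    rw [← zpow_natCast, ← zpow_mul, mul_comm, zpow_mul, zpow_natCast, hkp, one_zpow]
  refine ⟨hkp, hT3, hE1, hE2, ?_, ?_⟩
  · rw [pow_two, pow_mul]
    exact hz _ hE1
  · have e : x ^ (p ^ 3) = (TT x y ^ p) ^ p := by
      rw [hTx, ← pow_mul, ← pow_mul]
      congr 1
      ring
    rw [e]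
    exact hz _ hT3

end Pool.Agent.Work.MP_f3c012_al.Df
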