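import Pool.Agent.Work.MP_f3c012_al.Df.StmtsR

/-!
# MP_f3c012_al, block DF, item FA (helper5)
-/

set_option autoImplicit false

open scoped RealInnerProductSpace

namespace Pool.Agent.Work.MP_f3c012_al.Df

namespace IFA

open Subgroup

section induced

variable {G : Type} [Group G] (N : Subgroup G) [N.Normal] (χ : N →* Multiplicative ℤ)

omit [N.Normal] in
theorem mem_out (g : G) (t : G ⧸ N) : (t.out)⁻¹ * g * (g⁻¹ • t).out ∈ N := by
  have h1 : ((g * (g⁻¹ • t).out : G) : G ⧸ N) = t.out := by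
    have h2 : ((g * (g⁻¹ • t).out : G) : G ⧸ N) = g • (((g⁻¹ • t).out : G) : G ⧸ N) := rfl
    rw [h2, QuotientGroup.out_eq', QuotientGroup.out_eq', smul_inv_smul]
  have h3 := QuotientGroup.eq.1 h1.symm
  rwa [← mul_assoc] at h3

/-- The induced cocycle. -/
noncomputable def indc (g : G) (t : G ⧸ N) : ℤ :=
  Multiplicative.toAdd (χ ⟨(t.out)⁻¹ * g * (g⁻¹ • t).out, mem_out N g t⟩)

omit [N.Normal] in
theorem indc_mul (g h : G) (t : G ⧸ N) :
    indc N χ (g * h) t = indc N χ g t + indc N χ h (g⁻¹ • t) := by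
  unfold indc
  rw [← toAdd_mul, ← map_mul]
  congr 2
  apply Subtype.ext
  simp only [Subgroup.coe_mul, mul_inv_rev, mul_smul]
  group

theorem act_triv (n : G) (hn : n ∈ N) (t : G ⧸ N) : n • t = t := by
  rw [← QuotientGroup.out_eq' t]
  change ((n * t.out : G) : G ⧸ N) = _
  apply Eq.symm
  rw [QuotientGroup.eq]
  have := (‹N.Normal›).conj_mem n hn (t.out)⁻¹
  simpa [mul_assoc] using this

theorem indc_mem (n : G) (hn : n ∈ N) (t : G ⧸ N) (hm : (t.out)⁻¹ * n * t.out ∈ N) :
    indc N χ n t = Multiplicative.toAdd (χ ⟨(t.out)⁻¹ * n * t.out, hm⟩) := by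
  unfold indc
  congr 2
  apply Subtype.ext
  simp only
  rw [act_triv N n⁻¹ (N.inv_mem hn) t]

end induced

section rep

variable {G : Type} [Group G] (N : Subgroup G) [Fintype (G ⧸ N)]

/-- The permutation representation on the functions on `G ⧸ N`. -/
noncomputable def perm : G →* (EuclideanSpace ℝ (G ⧸ N) ≃ₗᵢ[ℝ] EuclideanSpace ℝ (G ⧸ N)) where
  toFun g := LinearIsometryEquiv.piLpCongrLeft 2 ℝ ℝ (MulAction.toPerm g)
  map_one' := by
    apply LinearIsometryEquiv.ext
    intro f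
    apply PiLp.ext
    intro t
    show f ((1 : G)⁻¹ • t) = f t
    rw [inv_one, one_smul]
  map_mul' g h := by
    apply LinearIsometryEquiv.ext
    intro f
    apply PiLp.ext
    intro t
    show f ((g * h)⁻¹ • t) = f (h⁻¹ • g⁻¹ • t)
    rw [mul_inv_rev, mul_smul]

theorem perm_apply (g : G) (f : EuclideanSpace ℝ (G ⧸ N)) (t : G ⧸ N) :
    perm N g f t = f (g⁻¹ • t) := rfl

end rep

/-- The restriction to a normal subgroup of finite index is trivial. -/
theorem normal_triv (G : Type) [Group G]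
    (hG : ∀ (V : Type) [NormedAddCommGroup V] [InnerProductSpace ℝ V] [FiniteDimensional ℝ V]
      (ρ : G →* (V ≃ₗᵢ[ℝ] V)) (c : G → V), (∀ g h, c (g * h) = c g + ρ g (c h)) →
      ∃ v, ∀ g, c g = v - ρ g v)
    (N : Subgroup G) [N.Normal] [N.FiniteIndex] (χ : N →* Multiplicative ℤ) : χ = 1 := by
  have : Finite (G ⧸ N) := Subgroup.finite_quotient_of_finiteIndex
  let _ : Fintype (G ⧸ N) := Fintype.ofFinite _
  obtain ⟨v, hv⟩ := hG (EuclideanSpace ℝ (G ⧸ N)) (perm N)
    (fun g => WithLp.toLp 2 (fun t => (indc N χ g t : ℝ))) (by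
      intro g h
      apply PiLp.ext
      intro t
      show ((indc N χ (g * h) t : ℤ) : ℝ) = (indc N χ g t : ℝ) + (indc N χ h (g⁻¹ • t) : ℝ)
      rw [indc_mul, Int.cast_add])
  have h0 : ∀ n ∈ N, ∀ t : G ⧸ N, indc N χ n t = 0 := by
    intro n hn t
    have h1 := congrArg (fun f : EuclideanSpace ℝ (G ⧸ N) => f t) (hv n)
    have h2 : ((indc N χ n t : ℤ) : ℝ) = v t - v (n⁻¹ • t) := h1
    rw [act_triv N n⁻¹ (N.inv_mem hn) t, sub_self] at h2
    exact_mod_cast h2
  apply MonoidHom.ext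
  intro m
  let t : G ⧸ N := ((1 : G) : G ⧸ N)
  have hn : t.out * (m : G) * (t.out)⁻¹ ∈ N := (‹N.Normal›).conj_mem m m.2 t.out
  have he : (t.out)⁻¹ * (t.out * (m : G) * (t.out)⁻¹) * t.out = m := by group
  have hm : (t.out)⁻¹ * (t.out * (m : G) * (t.out)⁻¹) * t.out ∈ N := by rw [he]; exact m.2
  have h1 := h0 _ hn t
  rw [indc_mem N χ _ hn t hm] at h1
  have h2 : (⟨(t.out)⁻¹ * (t.out * (m : G) * (t.out)⁻¹) * t.out, hm⟩ : N) = m := Subtype.ext he
  rw [h2] at h1
  exact h1

end IFA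

open IFA Subgroup in
theorem pr_FA : St_FA := by
  intro G _ _ hG H hH
  have : H.FiniteIndex := ⟨hH⟩
  have : Group.FG H := fg_of_index_ne_zero H
  refine finite_ab_of_hom fun χ => ?_
  have hN : χ.comp (Subgroup.inclusion (normalCore_le H)) = 1 :=
    normal_triv G hG H.normalCore _
  apply MonoidHom.ext
  intro h
  have hi : H.normalCore.index ≠ 0 := Subgroup.FiniteIndex.index_ne_zero
  have hpow : (h : G) ^ H.normalCore.index ∈ H.normalCore :=
    Subgroup.pow_index_mem H.normalCore (h : G)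
  have h1 : χ (h ^ H.normalCore.index) = 1 := by
    have h2 := DFunLike.congr_fun hN ⟨(h : G) ^ H.normalCore.index, hpow⟩
    have h3 : Subgroup.inclusion (normalCore_le H) ⟨(h : G) ^ H.normalCore.index, hpow⟩ =
        h ^ H.normalCore.index := Subtype.ext rfl
    rw [MonoidHom.comp_apply, h3] at h2
    exact h2
  rw [map_pow] at h1
  have h4 : H.normalCore.index • Multiplicative.toAdd (χ h) = 0 := h1
  rw [smul_eq_zero] at h4
  rcases h4 with h4 | h4
  · exact absurd h4 hi
  · exact h4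

end Pool.Agent.Work.MP_f3c012_al.Df
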