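import Pool.Agent.Work.MP_f3c012_al.Df.StmtsA

/-!
# Block DF, item Fi: the group generated by a pair is finite if `x` has finite order
-/

set_option autoImplicit false

namespace Pool.Agent.Work.MP_f3c012_al.Df

namespace IFi

variable {G : Type} [Group G]

/-- adding an element of finite order of the normalizer -/
theorem step (H : Subgroup G) (hH : (H : Set G).Finite) (g : G) (hg : IsOfFinOrder g)
    (hn : ∀ h, h ∈ H ↔ g * h * g⁻¹ ∈ H) :
    ((H ⊔ Subgroup.zpowers g : Subgroup G) : Set G).Finite := by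
  have h1 : Subgroup.zpowers g ≤ Subgroup.normalizer (H : Set G) := by
    rw [Subgroup.zpowers_le, Subgroup.mem_normalizer_iff]
    exact hn
  rw [Subgroup.coe_mul_of_right_le_normalizer_left H (Subgroup.zpowers g) h1]
  exact hH.mul (finite_zpowers.2 hg)

/-- the subgroup generated by `k` and `y_0, ..., y_(n-1)` -/
def Hn (x y : G) : ℕ → Subgroup G
  | 0 => Subgroup.zpowers (kk x y)
  | n + 1 => Hn x y n ⊔ Subgroup.zpowers (yy x y n)

theorem yy_mem (x y : G) (i : ℤ) : yy x y i ∈ NN x y := Subgroup.subset_closure ⟨i, rfl⟩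

theorem yy_ord (x y : G) (m : ℕ) (hy : y ^ m = 1) (i : ℤ) : yy x y i ^ m = 1 := by
  have h1 : yy x y i = x ^ (-i) * y * (x ^ (-i))⁻¹ := by
    unfold yy
    rw [zpow_neg, inv_inv]
  rw [h1, conj_pow, hy, mul_one, mul_inv_cancel]

end IFi

open IFi in
theorem pr_Fi (hW : St_W) (hK : St_K) (hN0 : St_N0) : St_Fi := by
  intro G _ x y m M hP hM hx
  obtain ⟨w0, wc, -, -, -⟩ := hW G x y
  obtain ⟨-, -, hkm, -⟩ := hK G x y m hP
  obtain ⟨-, hcm⟩ := hN0 G x y m hP
  have hm : 0 < m := hP.odd.pos
  have hkN : kk x y ∈ NN x y := by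
    have hy : y ∈ NN x y := by
      have := yy_mem x y 0
      rwa [w0] at this
    unfold kk cm
    exact mul_mem (mul_mem (mul_mem (inv_mem hy) (inv_mem (yy_mem x y 2))) hy) (yy_mem x y 2)
  have hkf : IsOfFinOrder (kk x y) := isOfFinOrder_iff_pow_eq_one.2 ⟨m, hm, hkm⟩
  have hyf : ∀ i : ℤ, IsOfFinOrder (yy x y i) := fun i =>
    isOfFinOrder_iff_pow_eq_one.2 ⟨m, hm, yy_ord x y m hP.ord i⟩
  have hind : ∀ n : ℕ, ((Hn x y n : Subgroup G) : Set G).Finite ∧
      Subgroup.zpowers (kk x y) ≤ Hn x y n ∧ Hn x y n ≤ NN x y ∧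
      ∀ i : ℕ, i < n → yy x y i ∈ Hn x y n := by
    intro n
    induction n with
    | zero =>
      exact ⟨finite_zpowers.2 hkf, le_rfl, (Subgroup.zpowers_le).2 hkN,
        fun i hi => absurd hi (Nat.not_lt_zero i)⟩
    | succ n ih =>
      obtain ⟨i1, i2, i3, i4⟩ := ih
      refine ⟨step _ i1 _ (hyf n) fun h => ?_, i2.trans le_sup_left,
        sup_le i3 ((Subgroup.zpowers_le).2 (yy_mem x y n)), fun i hi => ?_⟩
      · constructor
        · intro hh
          have e1 : yy x y n * h * (yy x y n)⁻¹ = h * cm h (yy x y n)⁻¹ := by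
            unfold cm
            group
          rw [e1]
          exact mul_mem hh (i2 (hcm h (i3 hh) _ (inv_mem (yy_mem x y n))))
        · intro hh
          have e1 : h = (yy x y n * h * (yy x y n)⁻¹) *
              cm (yy x y n * h * (yy x y n)⁻¹) (yy x y n) := by
            unfold cm
            group
          rw [e1]
          exact mul_mem hh (i2 (hcm _ (i3 hh) _ (yy_mem x y n)))
      · rcases Nat.lt_succ_iff_lt_or_eq.1 hi with h1 | h1
        · exact (le_sup_left : Hn x y n ≤ _) (i4 i h1)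
        · rw [h1]
          exact (le_sup_right : Subgroup.zpowers (yy x y n) ≤ Hn x y n ⊔ _)
            (Subgroup.mem_zpowers _)
  obtain ⟨j1, -, -, j4⟩ := hind M
  have hNf : ((NN x y : Subgroup G) : Set G).Finite := by
    refine j1.subset ?_
    have hle : NN x y ≤ Hn x y M := by
      unfold NN
      rw [Subgroup.closure_le]
      rintro _ ⟨i, rfl⟩
      have hM0 : (M : ℤ) ≠ 0 := by exact_mod_cast hM.ne'
      have hnn : 0 ≤ i % (M : ℤ) := Int.emod_nonneg i hM0
      have hlt : i % (M : ℤ) < M := Int.emod_lt_of_pos i (by exact_mod_cast hM)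
      obtain ⟨r, hr⟩ := Int.eq_ofNat_of_zero_le hnn
      have hxi : x ^ i = x ^ (i % (M : ℤ)) := by
        have h2 : i = i % (M : ℤ) + M * (i / (M : ℤ)) := (Int.emod_add_mul_ediv i M).symm
        conv_lhs => rw [h2]
        rw [zpow_add, zpow_mul, zpow_natCast, hx, one_zpow, mul_one]
      have h3 : yy x y i = yy x y (r : ℤ) := by
        unfold yy
        rw [zpow_neg, zpow_neg, hxi, hr]
      rw [h3]
      exact j4 r (by rw [hr] at hlt; exact_mod_cast hlt)
    exact hle
  have hconj : ∀ (j : ℤ), ∀ h ∈ NN x y, x ^ (-j) * h * x ^ j ∈ NN x y := by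
    intro j h hh
    induction hh using Subgroup.closure_induction with
    | mem z hz =>
      obtain ⟨i, rfl⟩ := hz
      rw [wc i j]
      exact yy_mem x y _
    | one => simp
    | mul a b _ _ ha hb =>
      have e : x ^ (-j) * (a * b) * x ^ j = (x ^ (-j) * a * x ^ j) * (x ^ (-j) * b * x ^ j) := by
        group
      rw [e]
      exact mul_mem ha hb
    | inv a _ ha =>
      have e : x ^ (-j) * a⁻¹ * x ^ j = (x ^ (-j) * a * x ^ j)⁻¹ := by group
      rw [e]
      exact inv_mem ha
  have hfin := step (NN x y) hNf x (isOfFinOrder_iff_pow_eq_one.2 ⟨M, hM, hx⟩) (fun h => by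
    constructor
    · intro hh
      have := hconj (-1) h hh
      simpa using this
    · intro hh
      have := hconj 1 _ hh
      have e : x ^ (-(1 : ℤ)) * (x * h * x⁻¹) * x ^ (1 : ℤ) = h := by group
      rwa [e] at this)
  refine hfin.subset ?_
  have hle : Subgroup.closure {x, y} ≤ NN x y ⊔ Subgroup.zpowers x := by
    rw [Subgroup.closure_le]
    rintro z (rfl | rfl)
    · exact (le_sup_right : Subgroup.zpowers z ≤ _) (Subgroup.mem_zpowers z)
    · have := yy_mem x z 0
      rw [w0] at this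
      exact (le_sup_left : NN x z ≤ _) this
  exact hle

end Pool.Agent.Work.MP_f3c012_al.Df
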