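import Pool.Agent.Work.MP_f3c012_al.Df.StmtsT

/-! MP_f3c012_al, block DF, item HCF: the fixed vectors form a closed set. -/

set_option autoImplicit false

open scoped RealInnerProductSpace

namespace Pool.Agent.Work.MP_f3c012_al.Df

/-- item HCF -/
theorem pr_HCF : St_HCF := by
  intro G _ V _ _ ρ g
  exact isClosed_eq (ρ g).continuous continuous_id

end Pool.Agent.Work.MP_f3c012_al.Df
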