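import Pool.Agent.Work.MP_f3c012_al.Df.StmtsT

/-!
# MP_f3c012_al, block DF, item HEX (helper92): (FH) and extensions by finite normal subgroups
-/

set_option autoImplicit false

open scoped RealInnerProductSpace

namespace Pool.Agent.Work.MP_f3c012_al.Df

namespace IHEX

section

variable {G : Type} [Group G] {V : Type} [NormedAddCommGroup V] [InnerProductSpace ℝ V]

/-- the vectors fixed by all elements of `N` -/
def UU (ρ : G →* (V ≃ₗᵢ[ℝ] V)) (N : Subgroup G) : Submodule ℝ V where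
  carrier := {v | ∀ n ∈ N, ρ n v = v}
  add_mem' := by
    intro a b ha hb n hn
    rw [map_add, ha n hn, hb n hn]
  zero_mem' := fun n _ => map_zero _
  smul_mem' := by
    intro c a ha n hn
    rw [map_smul, ha n hn]

theorem mem_UU (ρ : G →* (V ≃ₗᵢ[ℝ] V)) (N : Subgroup G) (v : V) :
    v ∈ UU ρ N ↔ ∀ n ∈ N, ρ n v = v := Iff.rfl

theorem isClosed_UU (ρ : G →* (V ≃ₗᵢ[ℝ] V)) (N : Subgroup G) :
    IsClosed (UU ρ N : Set V) := by
  have e : (UU ρ N : Set V) = ⋂ n ∈ N, {v | ρ n v = v} := by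
    ext v
    simp only [Set.mem_iInter, Set.mem_ofPred_eq]
    exact Iff.rfl
  rw [e]
  refine isClosed_biInter fun n _ => ?_
  exact isClosed_eq (ρ n).continuous continuous_id

theorem rho_mul (ρ : G →* (V ≃ₗᵢ[ℝ] V)) (g h : G) (v : V) : ρ (g * h) v = ρ g (ρ h v) := by
  rw [map_mul]
  rfl

theorem rho_one (ρ : G →* (V ≃ₗᵢ[ℝ] V)) (v : V) : ρ 1 v = v := by
  rw [map_one]
  rfl

theorem rho_inv_rho (ρ : G →* (V ≃ₗᵢ[ℝ] V)) (g : G) (v : V) : ρ g⁻¹ (ρ g v) = v := by
  rw [← rho_mul, inv_mul_cancel, rho_one]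

theorem rho_rho_inv (ρ : G →* (V ≃ₗᵢ[ℝ] V)) (g : G) (v : V) : ρ g (ρ g⁻¹ v) = v := by
  rw [← rho_mul, mul_inv_cancel, rho_one]

theorem stab (ρ : G →* (V ≃ₗᵢ[ℝ] V)) (N : Subgroup G) [hN : N.Normal] (g : G) (v : V)
    (hv : v ∈ UU ρ N) : ρ g v ∈ UU ρ N := by
  rw [mem_UU] at hv ⊢
  intro n hn
  have h1 : g⁻¹ * n * g ∈ N := by
    have := hN.conj_mem n hn g⁻¹
    rwa [inv_inv] at this
  have h2 : n * g = g * (g⁻¹ * n * g) := by group
  rw [← rho_mul, h2, rho_mul, hv _ h1]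

/-- the representation of `G` on the `N`-fixed vectors -/
def tau (ρ : G →* (V ≃ₗᵢ[ℝ] V)) (N : Subgroup G) [N.Normal] :
    G →* (UU ρ N ≃ₗᵢ[ℝ] UU ρ N) where
  toFun g :=
    { toFun := fun u => ⟨ρ g u, stab ρ N g u u.2⟩
      invFun := fun u => ⟨ρ g⁻¹ u, stab ρ N g⁻¹ u u.2⟩
      left_inv := fun u => Subtype.ext (rho_inv_rho ρ g u)
      right_inv := fun u => Subtype.ext (rho_rho_inv ρ g u)
      map_add' := fun a b => Subtype.ext (map_add (ρ g) (a : V) (b : V))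
      map_smul' := fun r a => Subtype.ext (map_smul (ρ g) r (a : V))
      norm_map' := fun u => (ρ g).norm_map (u : V) }
  map_one' := by
    ext u
    exact rho_one ρ (u : V)
  map_mul' g h := by
    ext u
    exact rho_mul ρ g h (u : V)

theorem tau_apply (ρ : G →* (V ≃ₗᵢ[ℝ] V)) (N : Subgroup G) [N.Normal] (g : G) (u : UU ρ N) :
    ((tau ρ N g u : UU ρ N) : V) = ρ g u := rfl

theorem tau_N (ρ : G →* (V ≃ₗᵢ[ℝ] V)) (N : Subgroup G) [N.Normal] (n : G) (hn : n ∈ N) :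
    tau ρ N n = 1 := by
  ext u
  exact u.2 n hn

end

end IHEX

open IHEX in
theorem pr_HEX (hC0 : St_C0) : St_HEX := by
  intro G _ N hNn hfin hQ V _ _ _ ρ c hc
  obtain ⟨v, hv⟩ := hC0 G V ρ c hc N hfin
  -- the normalised cocycle
  set d : G → V := fun g => c g - (v - ρ g v) with hd
  have hdc : ∀ g h, d (g * h) = d g + ρ g (d h) := by
    intro g h
    simp only [hd]
    rw [hc, rho_mul, map_sub, map_sub]
    abel
  have hdN : ∀ n ∈ N, d n = 0 := by
    intro n hn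
    simp only [hd]
    rw [hv n hn, sub_self]
  have hdr : ∀ g, ∀ n ∈ N, d (g * n) = d g := by
    intro g n hn
    rw [hdc, hdN n hn, map_zero, add_zero]
  have hdU : ∀ g, d g ∈ UU ρ N := by
    intro g
    rw [mem_UU]
    intro n hn
    have h1 : g⁻¹ * n * g ∈ N := by
      have := hNn.conj_mem n hn g⁻¹
      rwa [inv_inv] at this
    have h2 : n * g = g * (g⁻¹ * n * g) := by group
    have h3 : d (n * g) = ρ n (d g) := by rw [hdc, hdN n hn, zero_add]
    rw [← h3, h2, hdr g _ h1]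
  have : CompleteSpace (UU ρ N) := (isClosed_UU ρ N).completeSpace_coe
  let σ : G ⧸ N →* (UU ρ N ≃ₗᵢ[ℝ] UU ρ N) := QuotientGroup.lift N (tau ρ N) (tau_N ρ N)
  have hσ : ∀ (g : G) (u : UU ρ N), ((σ (g : G ⧸ N) u : UU ρ N) : V) = ρ g u := by
    intro g u
    rfl
  let e : G ⧸ N → UU ρ N := fun q => ⟨d q.out, hdU _⟩
  have he : ∀ g : G, ((e (g : G ⧸ N) : UU ρ N) : V) = d g := by
    intro g
    obtain ⟨n, hn⟩ := QuotientGroup.mk_out_eq_mul N g
    show d ((g : G ⧸ N).out) = d g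
    rw [hn, hdr g _ n.2]
  have hec : ∀ a b, e (a * b) = e a + σ a (e b) := by
    intro a b
    induction a using QuotientGroup.induction_on with
    | H a =>
      induction b using QuotientGroup.induction_on with
      | H b =>
        apply Subtype.ext
        rw [Submodule.coe_add, hσ, he, he, ← QuotientGroup.mk_mul, he, hdc]
  obtain ⟨u, hu⟩ := hQ (UU ρ N) σ e hec
  refine ⟨(u : V) + v, fun g => ?_⟩
  have h1 := congrArg (Subtype.val) (hu (g : G ⧸ N))
  rw [he, Submodule.coe_sub, hσ] at h1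
  have h2 : c g = d g + (v - ρ g v) := by
    simp only [hd]
    abel
  rw [h2, h1, map_add]
  abel

end Pool.Agent.Work.MP_f3c012_al.Df
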