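import Pool.Agent.Work.MP_f3c012_al.Df.StmtsT

/-!
# MP_f3c012_al, block DF, item HFA: property (FH) gives (FAb)
-/

set_option autoImplicit false

namespace Pool.Agent.Work.MP_f3c012_al.Df

theorem pr_HFA (hFA : St_FA) : St_HFA := by
  intro G _ _ h
  refine hFA G ?_
  intro V _ _ _ ρ c hc
  have : CompleteSpace V := FiniteDimensional.complete ℝ V
  exact h V ρ c hc

end Pool.Agent.Work.MP_f3c012_al.Df
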