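import Pool.Agent.Work.MP_f3c012_al.Df.StmtsT

/-! # MP_f3c012_al, block DF, item HFN: properties (FH) and (FAb) of the presented group -/

set_option autoImplicit false

open scoped RealInnerProductSpace

namespace Pool.Agent.Work.MP_f3c012_al.Df

namespace IHFN

theorem fg (p : ℕ) : Group.FG (PresentedGroup (Set.range (rel p))) := by
  have h : Function.Surjective (PresentedGroup.mk (Set.range (rel p))) :=
    PresentedGroup.mk_surjective _
  have h1 : Group.FG (FreeGroup (Fin 3)) := inferInstance
  exact Group.fg_of_surjective h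

end IHFN

theorem pr_HFN (hHH1 : St_HH1) (hHPR : St_HPR) (hHFA : St_HFA) : St_HFN := by
  intro p hp h37
  have h1 : FH (PresentedGroup (Set.range (rel p))) :=
    hHPR p hp (by omega) (fun G _ x₁ x₂ x₃ h => hHH1 G p x₁ x₂ x₃ hp h37 h)
  have h2 := IHFN.fg p
  exact ⟨h1, hHFA _ h1⟩

end Pool.Agent.Work.MP_f3c012_al.Df
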