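import Pool.Agent.Work.MP_f3c012_al.Df.StmtsT

/-!
# MP_f3c012_al, block DF, item HL1: projections to two subspaces with an angle
-/

set_option autoImplicit false

open scoped RealInnerProductSpace

namespace Pool.Agent.Work.MP_f3c012_al.Df

namespace IHL1

variable {V : Type} [NormedAddCommGroup V] [InnerProductSpace ℝ V]

/-- the inequality for numbers -/
lemma num {ε a b q₁ q₂ Z : ℝ} (h0 : 0 ≤ ε) (ha : 0 ≤ a) (hb : 0 ≤ b) (hq₁ : 0 ≤ q₁)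
    (hq₂ : 0 ≤ q₂) (hZ : 0 ≤ Z) (h1 : (1 - ε) * (a ^ 2 + b ^ 2) ≤ Z) (h2 : Z ≤ q₁ * a + q₂ * b)
    (he : ε < 1) : (1 - ε) * Z ≤ q₁ ^ 2 + q₂ ^ 2 := by
  rcases hZ.eq_or_lt with hZ0 | hZ0
  · rw [← hZ0, mul_zero]
    positivity
  have h3 : Z ^ 2 ≤ (q₁ ^ 2 + q₂ ^ 2) * (a ^ 2 + b ^ 2) := by
    have h4 : Z ^ 2 ≤ (q₁ * a + q₂ * b) ^ 2 := pow_le_pow_left₀ hZ h2 2
    nlinarith [sq_nonneg (q₁ * b - q₂ * a)]
  have h5 : (1 - ε) * Z ^ 2 ≤ (q₁ ^ 2 + q₂ ^ 2) * Z := by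
    have h6 : (1 - ε) * Z ^ 2 ≤ (1 - ε) * ((q₁ ^ 2 + q₂ ^ 2) * (a ^ 2 + b ^ 2)) :=
      mul_le_mul_of_nonneg_left h3 (by linarith)
    have h7 : (q₁ ^ 2 + q₂ ^ 2) * ((1 - ε) * (a ^ 2 + b ^ 2)) ≤ (q₁ ^ 2 + q₂ ^ 2) * Z :=
      mul_le_mul_of_nonneg_left h1 (by positivity)
    linarith
  have h8 : ((1 - ε) * Z) * Z ≤ (q₁ ^ 2 + q₂ ^ 2) * Z := by
    calc ((1 - ε) * Z) * Z = (1 - ε) * Z ^ 2 := by ring
      _ ≤ _ := h5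
  exact le_of_mul_le_mul_right h8 hZ0

/-- the algebraic part: a sum of elements of the two subspaces -/
theorem alg [CompleteSpace V] (V₁ V₂ : Submodule ℝ V) (ε : ℝ) (z p₁ p₂ : V)
    (hV₁ : IsClosed (V₁ : Set V)) (hV₂ : IsClosed (V₂ : Set V)) (h0 : 0 ≤ ε) (h1 : ε < 1)
    (hA : Ang V₁ V₂ ε) (hz : z ∈ V₁ ⊔ V₂) (hp₁ : p₁ ∈ V₁) (hp₂ : p₂ ∈ V₂)
    (ho₁ : ∀ u ∈ V₁, ⟪z - p₁, u⟫ = 0) (ho₂ : ∀ u ∈ V₂, ⟪z - p₂, u⟫ = 0) :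
    (1 - ε) * ‖z‖ ^ 2 ≤ ‖p₁‖ ^ 2 + ‖p₂‖ ^ 2 := by
  have hW : IsClosed ((V₁ ⊓ V₂ : Submodule ℝ V) : Set V) := by
    rw [Submodule.coe_inf]
    exact hV₁.inter hV₂
  have : CompleteSpace (V₁ ⊓ V₂ : Submodule ℝ V) := hW.completeSpace_coe
  set P := (V₁ ⊓ V₂).starProjection with hP
  have hPm : ∀ v, P v ∈ V₁ ⊓ V₂ := fun v => Submodule.starProjection_apply_mem _ v
  have hPo : ∀ v, ∀ u ∈ V₁ ⊓ V₂, ⟪v - P v, u⟫ = 0 := fun v u hu =>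
    Submodule.starProjection_inner_eq_zero v u hu
  obtain ⟨α, hα, β, hβ, rfl⟩ := Submodule.mem_sup.1 hz
  set α' := α - P α with hα'
  set β' := β - P β with hβ'
  set z₀ := P α + P β with hz₀
  have hz₀m : z₀ ∈ V₁ ⊓ V₂ := add_mem (hPm α) (hPm β)
  have hα'm : α' ∈ V₁ := sub_mem hα (hPm α).1
  have hβ'm : β' ∈ V₂ := sub_mem hβ (hPm β).2
  have hsum : α + β = z₀ + (α' + β') := by
    rw [hz₀, hα', hβ']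
    abel
  have hz'o : ∀ u ∈ V₁ ⊓ V₂, ⟪α' + β', u⟫ = 0 := fun u hu => by
    rw [inner_add_left, hPo α u hu, hPo β u hu, add_zero]
  -- the parts of the projections
  set q₁ := p₁ - z₀ with hq₁
  set q₂ := p₂ - z₀ with hq₂
  have hq₁m : q₁ ∈ V₁ := sub_mem hp₁ hz₀m.1
  have hq₂m : q₂ ∈ V₂ := sub_mem hp₂ hz₀m.2
  have hd₁ : ∀ u ∈ V₁, ⟪α' + β', u⟫ = ⟪q₁, u⟫ := fun u hu => by
    have h := ho₁ u hu
    rw [hsum, show z₀ + (α' + β') - p₁ = (α' + β') - q₁ by rw [hq₁]; abel, inner_sub_left] at h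
    linarith
  have hd₂ : ∀ u ∈ V₂, ⟪α' + β', u⟫ = ⟪q₂, u⟫ := fun u hu => by
    have h := ho₂ u hu
    rw [hsum, show z₀ + (α' + β') - p₂ = (α' + β') - q₂ by rw [hq₂]; abel, inner_sub_left] at h
    linarith
  have hq₁o : ⟪q₁, z₀⟫ = 0 := by rw [← hd₁ z₀ hz₀m.1, hz'o z₀ hz₀m]
  have hq₂o : ⟪q₂, z₀⟫ = 0 := by rw [← hd₂ z₀ hz₀m.2, hz'o z₀ hz₀m]
  have hn₁ : ‖p₁‖ ^ 2 = ‖q₁‖ ^ 2 + ‖z₀‖ ^ 2 := by
    have h : p₁ = q₁ + z₀ := by rw [hq₁]; abel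
    rw [h, norm_add_sq_real, hq₁o]
    ring
  have hn₂ : ‖p₂‖ ^ 2 = ‖q₂‖ ^ 2 + ‖z₀‖ ^ 2 := by
    have h : p₂ = q₂ + z₀ := by rw [hq₂]; abel
    rw [h, norm_add_sq_real, hq₂o]
    ring
  have hnz : ‖α + β‖ ^ 2 = ‖z₀‖ ^ 2 + ‖α' + β'‖ ^ 2 := by
    rw [hsum, norm_add_sq_real, real_inner_comm, hz'o z₀ hz₀m]
    ring
  have hang : |⟪α', β'⟫| ≤ ε * ‖α'‖ * ‖β'‖ := hA α' hα'm (fun u hu => hPo α u hu) β' hβ'm
  have hlow : (1 - ε) * (‖α'‖ ^ 2 + ‖β'‖ ^ 2) ≤ ‖α' + β'‖ ^ 2 := by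
    rw [norm_add_sq_real]
    have h2 := (abs_le.1 hang).1
    nlinarith [sq_nonneg (‖α'‖ - ‖β'‖)]
  have hup : ‖α' + β'‖ ^ 2 ≤ ‖q₁‖ * ‖α'‖ + ‖q₂‖ * ‖β'‖ := by
    have h2 : ‖α' + β'‖ ^ 2 = ⟪α' + β', α'⟫ + ⟪α' + β', β'⟫ := by
      rw [← inner_add_right, real_inner_self_eq_norm_sq]
    rw [h2, hd₁ α' hα'm, hd₂ β' hβ'm]
    exact add_le_add (real_inner_le_norm _ _) (real_inner_le_norm _ _)
  have hmain := num h0 (norm_nonneg α') (norm_nonneg β') (norm_nonneg q₁) (norm_nonneg q₂)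
    (sq_nonneg ‖α' + β'‖) hlow hup h1
  rw [hn₁, hn₂, hnz]
  nlinarith [sq_nonneg ‖z₀‖, mul_nonneg h0 (sq_nonneg ‖z₀‖)]

end IHL1

theorem pr_HL1 : St_HL1 := by
  intro V _ _ _ V₁ V₂ ε z p₁ p₂ hV₁ hV₂ h0 h1 hA hz hp₁ hp₂ ho₁ ho₂
  have hc₁ : CompleteSpace V₁ := hV₁.completeSpace_coe
  have hc₂ : CompleteSpace V₂ := hV₂.completeSpace_coe
  have e₁ : p₁ = V₁.starProjection z :=
    (Submodule.eq_starProjection_of_mem_of_inner_eq_zero hp₁ ho₁).symm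
  have e₂ : p₂ = V₂.starProjection z :=
    (Submodule.eq_starProjection_of_mem_of_inner_eq_zero hp₂ ho₂).symm
  have hcl : IsClosed {y : V | (1 - ε) * ‖y‖ ^ 2 ≤
      ‖V₁.starProjection y‖ ^ 2 + ‖V₂.starProjection y‖ ^ 2} := by
    refine isClosed_le (by fun_prop) (by fun_prop)
  have hsub : ((V₁ ⊔ V₂ : Submodule ℝ V) : Set V) ⊆ {y : V | (1 - ε) * ‖y‖ ^ 2 ≤
      ‖V₁.starProjection y‖ ^ 2 + ‖V₂.starProjection y‖ ^ 2} := fun y hy =>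
    IHL1.alg V₁ V₂ ε y _ _ hV₁ hV₂ h0 h1 hA hy (Submodule.starProjection_apply_mem _ _)
      (Submodule.starProjection_apply_mem _ _)
      (fun u hu => Submodule.starProjection_inner_eq_zero y u hu)
      (fun u hu => Submodule.starProjection_inner_eq_zero y u hu)
  have hz' : z ∈ closure ((V₁ ⊔ V₂ : Submodule ℝ V) : Set V) := hz
  have h2 := closure_minimal hsub hcl hz'
  rw [e₁, e₂]
  exact h2

end Pool.Agent.Work.MP_f3c012_al.Df
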