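import Pool.Agent.Work.MP_f3c012_al.Df.StmtsT

/-!
# MP_f3c012_al, block DF, item HL2: three affine subspaces in a Hilbert space (helper76)
-/

set_option autoImplicit false

open scoped RealInnerProductSpace

namespace Pool.Agent.Work.MP_f3c012_al.Df

namespace IHL2

variable {V : Type} [NormedAddCommGroup V] [InnerProductSpace ℝ V]

/-- the space of triples -/
abbrev H3 (V : Type) [NormedAddCommGroup V] : Type := PiLp 2 (fun _ : Fin 3 => V)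

/-- bounded orthogonal projection -/
theorem proj [CompleteSpace V] (U : Submodule ℝ V) (hU : IsClosed (U : Set V)) :
    ∃ P : V →L[ℝ] V, (∀ v, P v ∈ U) ∧ ∀ v, ∀ u ∈ U, ⟪v - P v, u⟫ = 0 := by
  have : CompleteSpace U := hU.completeSpace_coe
  exact ⟨U.starProjection, fun v => U.starProjection_apply_mem v,
    fun v u hu => U.starProjection_inner_eq_zero v u hu⟩

theorem norm_proj {U : Submodule ℝ V} {P : V →L[ℝ] V} (h1 : ∀ v, P v ∈ U)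
    (h2 : ∀ v, ∀ u ∈ U, ⟪v - P v, u⟫ = 0) (v : V) : ‖P v‖ ^ 2 ≤ ‖v‖ ^ 2 := by
  have e : v = (v - P v) + P v := by abel
  have h3 : ‖v‖ ^ 2 = ‖v - P v‖ ^ 2 + ‖P v‖ ^ 2 := by
    conv_lhs => rw [e]
    rw [norm_add_sq_real, h2 v _ (h1 v)]
    ring
  have h4 := sq_nonneg ‖v - P v‖
  linarith

/-- three maps to `V` as a map to triples -/
noncomputable def mk3 (f g h : H3 V →L[ℝ] V) : H3 V →L[ℝ] H3 V :=
  ((PiLp.continuousLinearEquiv 2 ℝ (fun _ : Fin 3 => V)).symm : (Fin 3 → V) →L[ℝ] H3 V).comp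
    (ContinuousLinearMap.pi ![f, g, h])

theorem mk3_0 (f g h : H3 V →L[ℝ] V) (d : H3 V) : mk3 f g h d 0 = f d := rfl

theorem mk3_1 (f g h : H3 V →L[ℝ] V) (d : H3 V) : mk3 f g h d 1 = g d := rfl

theorem mk3_2 (f g h : H3 V →L[ℝ] V) (d : H3 V) : mk3 f g h d 2 = h d := rfl

/-- the coordinates -/
noncomputable def cc (i : Fin 3) : H3 V →L[ℝ] V := PiLp.proj 2 (fun _ : Fin 3 => V) i

theorem cc_apply (i : Fin 3) (d : H3 V) : cc i d = d i := rfl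

theorem inner3 (d e : H3 V) : ⟪d, e⟫ = ⟪d 0, e 0⟫ + ⟪d 1, e 1⟫ + ⟪d 2, e 2⟫ := by
  rw [PiLp.inner_apply, Fin.sum_univ_three]

theorem norm3 (d : H3 V) : ‖d‖ ^ 2 = ‖d 0‖ ^ 2 + ‖d 1‖ ^ 2 + ‖d 2‖ ^ 2 := by
  rw [← real_inner_self_eq_norm_sq, inner3, real_inner_self_eq_norm_sq,
    real_inner_self_eq_norm_sq, real_inner_self_eq_norm_sq]

/-- the subspace `E` -/
def EE (V₁ V₂ V₃ : Submodule ℝ V) : Submodule ℝ (H3 V) where
  carrier := {d | d 0 + d 1 + d 2 = 0 ∧ d 0 ∈ (V₂ ⊔ V₃).topologicalClosure ∧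
    d 1 ∈ (V₃ ⊔ V₁).topologicalClosure ∧ d 2 ∈ (V₁ ⊔ V₂).topologicalClosure}
  add_mem' := by
    rintro x y ⟨h0, h1, h2, h3⟩ ⟨k0, k1, k2, k3⟩
    refine ⟨?_, Submodule.add_mem _ h1 k1, Submodule.add_mem _ h2 k2, Submodule.add_mem _ h3 k3⟩
    have e : (x + y) 0 + (x + y) 1 + (x + y) 2 = (x 0 + x 1 + x 2) + (y 0 + y 1 + y 2) := by
      simp only [PiLp.add_apply]
      abel
    rw [e, h0, k0, add_zero]
  zero_mem' := by
    refine ⟨by simp, Submodule.zero_mem _, Submodule.zero_mem _, Submodule.zero_mem _⟩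
  smul_mem' := by
    rintro c x ⟨h0, h1, h2, h3⟩
    refine ⟨?_, Submodule.smul_mem _ c h1, Submodule.smul_mem _ c h2, Submodule.smul_mem _ c h3⟩
    have e : (c • x) 0 + (c • x) 1 + (c • x) 2 = c • (x 0 + x 1 + x 2) := by
      simp only [PiLp.smul_apply, smul_add]
    rw [e, h0, smul_zero]

theorem mem_EE {V₁ V₂ V₃ : Submodule ℝ V} {d : H3 V} : d ∈ EE V₁ V₂ V₃ ↔
    d 0 + d 1 + d 2 = 0 ∧ d 0 ∈ (V₂ ⊔ V₃).topologicalClosure ∧
    d 1 ∈ (V₃ ⊔ V₁).topologicalClosure ∧ d 2 ∈ (V₁ ⊔ V₂).topologicalClosure := Iff.rfl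

theorem closed_EE (V₁ V₂ V₃ : Submodule ℝ V) : IsClosed (EE V₁ V₂ V₃ : Set (H3 V)) := by
  have hc : ∀ i : Fin 3, Continuous fun d : H3 V => d i := fun i => (cc i).continuous
  have h0 : IsClosed {d : H3 V | d 0 + d 1 + d 2 = 0} :=
    isClosed_eq (((hc 0).add (hc 1)).add (hc 2)) continuous_const
  have h1 : IsClosed {d : H3 V | d 0 ∈ (V₂ ⊔ V₃).topologicalClosure} :=
    (Submodule.isClosed_topologicalClosure (V₂ ⊔ V₃)).preimage (hc 0)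
  have h2 : IsClosed {d : H3 V | d 1 ∈ (V₃ ⊔ V₁).topologicalClosure} :=
    (Submodule.isClosed_topologicalClosure (V₃ ⊔ V₁)).preimage (hc 1)
  have h3 : IsClosed {d : H3 V | d 2 ∈ (V₁ ⊔ V₂).topologicalClosure} :=
    (Submodule.isClosed_topologicalClosure (V₁ ⊔ V₂)).preimage (hc 2)
  exact h0.inter (h1.inter (h2.inter h3))

theorem left_mem {U U' : Submodule ℝ V} {x : V} (h : x ∈ U) : x ∈ (U ⊔ U').topologicalClosure :=
  Submodule.le_topologicalClosure _ (Submodule.mem_sup_left h)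

theorem right_mem {U U' : Submodule ℝ V} {x : V} (h : x ∈ U') :
    x ∈ (U ⊔ U').topologicalClosure :=
  Submodule.le_topologicalClosure _ (Submodule.mem_sup_right h)

/-- one coordinate of the coercivity -/
theorem half {U : Submodule ℝ V} {P : V →L[ℝ] V} (h1 : ∀ v, P v ∈ U)
    (h2 : ∀ v, ∀ u ∈ U, ⟪v - P v, u⟫ = 0) (x a b : V) (hs : x + a + b = 0) :
    2 * (‖P a‖ ^ 2 + ‖P b‖ ^ 2) ≤ ‖x‖ ^ 2 + ‖P (a - b)‖ ^ 2 := by
  have h3 := parallelogram_law_with_norm ℝ (P a) (P b)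
  have h4 : P a + P b = -P x := by
    rw [← map_add, ← map_neg]
    congr 1
    have e : a + b = (x + a + b) - x := by abel
    rw [e, hs, zero_sub]
  have h5 := norm_proj h1 h2 x
  rw [h4, norm_neg, ← map_sub] at h3
  nlinarith

end IHL2

open IHL2 in
/-- Item HL2. -/
theorem pr_HL2 (hHL1 : St_HL1) (hHLM : St_HLM) : St_HL2 := by
  intro V _ _ _ V₁ V₂ V₃ ε a₁ a₂ a₃ hV1 hV2 hV3 hε hε2 A12 A23 A31 h12 h23 h31
  obtain ⟨P₁, p1, q1⟩ := proj V₁ hV1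
  obtain ⟨P₂, p2, q2⟩ := proj V₂ hV2
  obtain ⟨P₃, p3, q3⟩ := proj V₃ hV3
  let S : H3 V →L[ℝ] H3 V := mk3 (P₁.comp (cc 2 - cc 1)) (P₂.comp (cc 0 - cc 2))
    (P₃.comp (cc 1 - cc 0))
  let T : H3 V →L[ℝ] H3 V := mk3 (cc 1 - cc 2) (cc 2 - cc 0) (cc 0 - cc 1)
  have S0 : ∀ d, S d 0 = P₁ (d 2 - d 1) := fun d => rfl
  have S1 : ∀ d, S d 1 = P₂ (d 0 - d 2) := fun d => rfl
  have S2 : ∀ d, S d 2 = P₃ (d 1 - d 0) := fun d => rfl
  have T0 : ∀ d, T d 0 = d 1 - d 2 := fun d => rfl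
  have T1 : ∀ d, T d 1 = d 2 - d 0 := fun d => rfl
  have T2 : ∀ d, T d 2 = d 0 - d 1 := fun d => rfl
  have s0 : ∀ d, S d 0 ∈ V₁ := fun d => p1 _
  have s1 : ∀ d, S d 1 ∈ V₂ := fun d => p2 _
  have s2 : ∀ d, S d 2 ∈ V₃ := fun d => p3 _
  have hc : 0 < 1 - 2 * ε := by linarith
  have hTS : ∀ d ∈ EE V₁ V₂ V₃, T (S d) ∈ EE V₁ V₂ V₃ := by
    intro d _
    refine mem_EE.2 ⟨?_, ?_, ?_, ?_⟩
    · rw [T0, T1, T2]
      abel
    · rw [T0]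
      exact Submodule.sub_mem _ (left_mem (s1 d)) (right_mem (s2 d))
    · rw [T1]
      exact Submodule.sub_mem _ (left_mem (s2 d)) (right_mem (s0 d))
    · rw [T2]
      exact Submodule.sub_mem _ (left_mem (s0 d)) (right_mem (s1 d))
  have hinn : ∀ d ∈ EE V₁ V₂ V₃, ∀ e ∈ EE V₁ V₂ V₃, ⟪T (S d), e⟫ = ⟪S d, S e⟫ := by
    intro d _ e _
    rw [inner3, inner3, T0, T1, T2, S0 e, S1 e, S2 e]
    have e1 : ⟪S d 0, P₁ (e 2 - e 1)⟫ = ⟪S d 0, e 2 - e 1⟫ := by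
      have h := q1 (e 2 - e 1) _ (s0 d)
      rw [inner_sub_left, real_inner_comm, real_inner_comm (S d 0)] at h
      linarith
    have e2 : ⟪S d 1, P₂ (e 0 - e 2)⟫ = ⟪S d 1, e 0 - e 2⟫ := by
      have h := q2 (e 0 - e 2) _ (s1 d)
      rw [inner_sub_left, real_inner_comm, real_inner_comm (S d 1)] at h
      linarith
    have e3 : ⟪S d 2, P₃ (e 1 - e 0)⟫ = ⟪S d 2, e 1 - e 0⟫ := by
      have h := q3 (e 1 - e 0) _ (s2 d)
      rw [inner_sub_left, real_inner_comm, real_inner_comm (S d 2)] at h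
      linarith
    rw [e1, e2, e3]
    simp only [inner_sub_left, inner_sub_right]
    ring
  have hco : ∀ e ∈ EE V₁ V₂ V₃, (1 - 2 * ε) * ‖e‖ ^ 2 ≤ ‖S e‖ ^ 2 := by
    intro d hd
    obtain ⟨hs, m1, m2, m3⟩ := mem_EE.1 hd
    have g3 := hHL1 V V₁ V₂ ε (d 2) (P₁ (d 2)) (P₂ (d 2)) hV1 hV2 hε (by linarith) A12 m3
      (p1 _) (p2 _) (q1 _) (q2 _)
    have g1 := hHL1 V V₂ V₃ ε (d 0) (P₂ (d 0)) (P₃ (d 0)) hV2 hV3 hε (by linarith) A23 m1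
      (p2 _) (p3 _) (q2 _) (q3 _)
    have g2 := hHL1 V V₃ V₁ ε (d 1) (P₃ (d 1)) (P₁ (d 1)) hV3 hV1 hε (by linarith) A31 m2
      (p3 _) (p1 _) (q3 _) (q1 _)
    have f1 := half p1 q1 (d 0) (d 2) (d 1) (by rw [← hs]; abel)
    have f2 := half p2 q2 (d 1) (d 0) (d 2) (by rw [← hs]; abel)
    have f3 := half p3 q3 (d 2) (d 1) (d 0) (by rw [← hs]; abel)
    rw [norm3 d, norm3 (S d), S0, S1, S2]
    nlinarith
  let z : H3 V := WithLp.toLp 2 ![a₂ - a₃, a₃ - a₁, a₁ - a₂]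
  have z0 : z 0 = a₂ - a₃ := rfl
  have z1 : z 1 = a₃ - a₁ := rfl
  have z2 : z 2 = a₁ - a₂ := rfl
  have hz : z ∈ EE V₁ V₂ V₃ := by
    refine mem_EE.2 ⟨?_, ?_, ?_, ?_⟩
    · rw [z0, z1, z2]
      abel
    · rw [z0]
      exact right_mem h23
    · rw [z1]
      exact right_mem h31
    · rw [z2]
      exact right_mem h12
  obtain ⟨d, -, hd⟩ := hHLM (H3 V) (EE V₁ V₂ V₃) S T (1 - 2 * ε) (closed_EE V₁ V₂ V₃) hc hTS hinn
    hco z hz
  have w1 : S d 2 - S d 0 = a₃ - a₁ := by rw [← T1, hd, z1]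
  have w2 : S d 0 - S d 1 = a₁ - a₂ := by rw [← T2, hd, z2]
  refine ⟨a₁ - S d 0, ?_, ?_, ?_⟩
  · have e : a₁ - S d 0 - a₁ = -(S d 0) := by abel
    rw [e]
    exact V₁.neg_mem (s0 d)
  · have e : a₁ - S d 0 - a₂ = -(S d 1) := by
      have e' : a₁ - S d 0 - a₂ = (a₁ - a₂) - S d 0 := by abel
      rw [e', ← w2]
      abel
    rw [e]
    exact V₂.neg_mem (s1 d)
  · have e : a₁ - S d 0 - a₃ = -(S d 2) := by
      have e' : a₁ - S d 0 - a₃ = -(a₃ - a₁) - S d 0 := by abel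
      rw [e', ← w1]
      abel
    rw [e]
    exact V₃.neg_mem (s2 d)

end Pool.Agent.Work.MP_f3c012_al.Df
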