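import Pool.Agent.Work.MP_f3c012_al.Df.StmtsT

/-!
# MP_f3c012_al, block DF, item HLM: Lax-Milgram for a symmetric form
-/

set_option autoImplicit false

open scoped RealInnerProductSpace

namespace Pool.Agent.Work.MP_f3c012_al.Df

namespace IHLM

variable {H : Type} [NormedAddCommGroup H] [InnerProductSpace ℝ H]

/-- the form `(d, e) ↦ ⟪S d, S e⟫` on `E` -/
noncomputable def form (E : Submodule ℝ H) (S : H →L[ℝ] H) : E →L[ℝ] E →L[ℝ] ℝ :=
  (innerSL ℝ).bilinearComp (S.comp E.subtypeL) (S.comp E.subtypeL)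

theorem form_apply (E : Submodule ℝ H) (S : H →L[ℝ] H) (d e : E) :
    form E S d e = ⟪S d, S e⟫ := rfl

end IHLM

theorem pr_HLM : St_HLM := by
  intro H _ _ _ E S T c hE hc hTE hTS hco z hz
  have : CompleteSpace E := hE.completeSpace_coe
  have hB : IsCoercive (IHLM.form E S) := by
    refine ⟨c, hc, fun u => ?_⟩
    rw [IHLM.form_apply, real_inner_self_eq_norm_sq]
    have h := hco u u.2
    have h2 : ‖(u : H)‖ = ‖u‖ := rfl
    rw [h2] at h
    calc c * ‖u‖ * ‖u‖ = c * ‖u‖ ^ 2 := by ring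
      _ ≤ _ := h
  obtain ⟨d, hd⟩ : ∃ d : E, hB.continuousLinearEquivOfBilin d = ⟨z, hz⟩ :=
    ⟨hB.continuousLinearEquivOfBilin.symm ⟨z, hz⟩,
      hB.continuousLinearEquivOfBilin.apply_symm_apply _⟩
  refine ⟨d, d.2, ?_⟩
  have h1 : ∀ e : E, ⟪z, (e : H)⟫ = ⟪T (S d), (e : H)⟫ := by
    intro e
    have h2 := hB.continuousLinearEquivOfBilin_apply d e
    rw [hd, IHLM.form_apply, ← hTS d d.2 e e.2] at h2
    exact h2
  have hw : T (S d) - z ∈ E := E.sub_mem (hTE d d.2) hz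
  have h3 : ⟪T (S d) - z, T (S d) - z⟫ = 0 := by
    have h4 := h1 ⟨_, hw⟩
    have h5 : ⟪z, T (S d) - z⟫ = ⟪T (S d), T (S d) - z⟫ := h4
    rw [inner_sub_left, ← h5, sub_self]
  exact sub_eq_zero.1 (inner_self_eq_zero.1 h3)

end Pool.Agent.Work.MP_f3c012_al.Df
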