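import Pool.Agent.Work.MP_f3c012_al.Df.StmtsT

/-!
# Item HPR: property (FH) of the presented group
-/

set_option autoImplicit false

namespace Pool.Agent.Work.MP_f3c012_al.Df

namespace IHPR

section words

variable {G H : Type*} [Group G] [Group H] (φ : G →* H)

theorem map_cm (a b : G) : φ (cm a b) = cm (φ a) (φ b) := by
  simp only [cm, map_mul, map_inv]

theorem map_yy (x y : G) (i : ℤ) : φ (yy x y i) = yy (φ x) (φ y) i := by
  simp only [yy, map_mul, map_zpow]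

theorem map_TT (x y : G) : φ (TT x y) = TT (φ x) (φ y) := by
  simp only [TT, map_mul, map_inv, map_cm, map_yy]

theorem map_rr (x y : G) : φ (rr x y) = rr (φ x) (φ y) := by
  simp only [rr, map_cm]

theorem map_ss (x y : G) : φ (ss x y) = ss (φ x) (φ y) := by
  simp only [ss, map_cm, map_TT]

end words

end IHPR

open IHPR in
theorem pr_HPR (hRE : St_RE) (hTR : St_TR) (hHEX : St_HEX) : St_HPR := by
  intro p hp h5 hTri
  obtain ⟨μ, hμ⟩ : ∃ μ : FreeGroup (Fin 3) →* PresentedGroup (Set.range (rel p)),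
    μ = PresentedGroup.mk (Set.range (rel p)) := ⟨_, rfl⟩
  have hone : ∀ k : Fin 7, μ (rel p k) = 1 := fun k => by
    rw [hμ]
    exact PresentedGroup.one_of_mem ⟨k, rfl⟩
  obtain ⟨x₁, hx₁⟩ : ∃ x, x = μ (FreeGroup.of 0) := ⟨_, rfl⟩
  obtain ⟨x₂, hx₂⟩ : ∃ x, x = μ (FreeGroup.of 1) := ⟨_, rfl⟩
  obtain ⟨x₃, hx₃⟩ : ∃ x, x = μ (FreeGroup.of 2) := ⟨_, rfl⟩
  have r0 : x₂ ^ p = 1 := by
    have h : μ (FreeGroup.of 1 ^ p) = 1 := hone 0
    rw [map_pow, ← hx₂] at h
    exact h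
  have r1 : rr x₁ x₂ = x₃ ^ (p ^ 2) := by
    have h : μ (rr (FreeGroup.of 0) (FreeGroup.of 1) * (FreeGroup.of 2 ^ (p ^ 2))⁻¹) = 1 := hone 1
    rw [map_mul, map_inv, map_pow, map_rr, ← hx₁, ← hx₂, ← hx₃] at h
    exact mul_inv_eq_one.1 h
  have r2 : ss x₁ x₂ = 1 := by
    have h : μ (ss (FreeGroup.of 0) (FreeGroup.of 1)) = 1 := hone 2
    rw [map_ss, ← hx₁, ← hx₂] at h
    exact h
  have r3 : rr x₃ x₂ = 1 := by
    have h : μ (rr (FreeGroup.of 2) (FreeGroup.of 1)) = 1 := hone 3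
    rw [map_rr, ← hx₃, ← hx₂] at h
    exact h
  have r4 : ss x₃ x₂ = 1 := by
    have h : μ (ss (FreeGroup.of 2) (FreeGroup.of 1)) = 1 := hone 4
    rw [map_ss, ← hx₃, ← hx₂] at h
    exact h
  have r5 : rr x₁ x₃ = 1 := by
    have h : μ (rr (FreeGroup.of 0) (FreeGroup.of 2)) = 1 := hone 5
    rw [map_rr, ← hx₁, ← hx₃] at h
    exact h
  have r6 : TT x₁ x₃ = x₁ ^ p := by
    have h : μ (TT (FreeGroup.of 0) (FreeGroup.of 2) * (FreeGroup.of 0 ^ p)⁻¹) = 1 := hone 6
    rw [map_mul, map_inv, map_pow, map_TT, ← hx₁, ← hx₃] at h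
    exact mul_inv_eq_one.1 h
  have hcl : Subgroup.closure {x₁, x₂, x₃} = ⊤ := by
    rw [eq_top_iff, ← PresentedGroup.closure_range_of (Set.range (rel p)), Subgroup.closure_le]
    rintro _ ⟨i, rfl⟩
    apply Subgroup.subset_closure
    fin_cases i
    · left
      rw [hx₁, hμ]
      rfl
    · right
      left
      rw [hx₂, hμ]
      rfl
    · right
      right
      rw [Set.mem_singleton_iff, hx₃, hμ]
      rfl
  obtain ⟨c1, c2, zp⟩ := hRE _ x₁ x₂ x₃ p hp h5 r0 r1 r2 r3 r4 r5 r6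
  obtain ⟨z, hz⟩ : ∃ z, z = x₃ ^ (p ^ 2) := ⟨_, rfl⟩
  rw [← hz] at c1 c2 zp
  have c3 : Commute z x₃ := by
    rw [hz]
    exact (Commute.refl x₃).pow_left _
  have hcen : ∀ g, Commute z g := by
    intro g
    have h1 : Subgroup.closure {x₁, x₂, x₃} ≤ Subgroup.centralizer {z} := by
      rw [Subgroup.closure_le]
      rintro w (rfl | rfl | rfl)
      · exact Subgroup.mem_centralizer_singleton_iff.2 c1.eq.symm
      · exact Subgroup.mem_centralizer_singleton_iff.2 c2.eq.symm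
      · exact Subgroup.mem_centralizer_singleton_iff.2 c3.eq.symm
    have h2 : g ∈ Subgroup.centralizer {z} := h1 (by rw [hcl]; exact Subgroup.mem_top g)
    exact (Subgroup.mem_centralizer_singleton_iff.1 h2).symm
  haveI hnorm : (Subgroup.zpowers z).Normal := by
    constructor
    intro n hn g
    obtain ⟨k, rfl⟩ := Subgroup.mem_zpowers_iff.1 hn
    have h1 : Commute (z ^ k) g := (hcen g).zpow_left k
    have h2 : g * z ^ k * g⁻¹ = z ^ k := by
      rw [← h1.eq, mul_assoc, mul_inv_cancel, mul_one]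
    rw [h2]
    exact hn
  have hfin : ((Subgroup.zpowers z : Subgroup (PresentedGroup (Set.range (rel p)))) :
      Set (PresentedGroup (Set.range (rel p)))).Finite := by
    have h1 : IsOfFinOrder z := isOfFinOrder_iff_pow_eq_one.2 ⟨p, hp.pos, zp⟩
    haveI : Finite (Subgroup.zpowers z) := finite_zpowers.2 h1
    exact Set.toFinite _
  refine hHEX _ (Subgroup.zpowers z) hfin ?_
  obtain ⟨π, hπ⟩ : ∃ π : PresentedGroup (Set.range (rel p)) →*
    PresentedGroup (Set.range (rel p)) ⧸ Subgroup.zpowers z,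
    π = QuotientGroup.mk' (Subgroup.zpowers z) := ⟨_, rfl⟩
  have hπs : Function.Surjective π := by
    rw [hπ]
    exact QuotientGroup.mk'_surjective _
  have hπz : π z = 1 := by
    rw [hπ]
    exact (QuotientGroup.eq_one_iff z).2 (Subgroup.mem_zpowers z)
  refine hTri _ (π x₁) (π x₂) (π x₃) (hTR _ (π x₁) (π x₂) (π x₃) p hp h5 ?_ ?_ ?_ ?_ ?_ ?_ ?_ ?_ ?_)
  · have h1 : π '' {x₁, x₂, x₃} = {π x₁, π x₂, π x₃} := by
      rw [Set.image_insert_eq, Set.image_insert_eq, Set.image_singleton]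
    rw [← h1, ← MonoidHom.map_closure, hcl]
    exact Subgroup.map_top_of_surjective π hπs
  · rw [← map_pow, ← hz, hπz]
  · rw [← map_pow, r0, map_one]
  · rw [← map_rr, r1, map_pow]
  · rw [← map_ss, r2, map_one]
  · rw [← map_rr, r3, map_one]
  · rw [← map_ss, r4, map_one]
  · rw [← map_rr, r5, map_one]
  · rw [← map_TT, r6, map_pow]

end Pool.Agent.Work.MP_f3c012_al.Df
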