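import Pool.Agent.Work.MP_f3c012_al.Df.StmtsA

/-!
# MP_f3c012_al, block DF, item K
-/

set_option autoImplicit false

namespace Pool.Agent.Work.MP_f3c012_al.Df

namespace IK

variable {G : Type} [Group G]

theorem iter (u c K : G) (h : u⁻¹ * c * u = c * K) (hK : Commute K u) (j : ℕ) :
    (u ^ j)⁻¹ * c * u ^ j = c * K ^ j := by
  induction j with
  | zero => simp
  | succ j ih =>
    have h1 : (u ^ (j + 1))⁻¹ * c * u ^ (j + 1) = u⁻¹ * ((u ^ j)⁻¹ * c * u ^ j) * u := by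
      rw [pow_succ]
      group
    have h2 : K ^ j * u = u * K ^ j := (hK.pow_left j).eq
    rw [h1, ih]
    calc u⁻¹ * (c * K ^ j) * u = u⁻¹ * c * (K ^ j * u) := by group
      _ = (u⁻¹ * c * u) * K ^ j := by rw [h2]; group
      _ = c * K * K ^ j := by rw [h]
      _ = c * K ^ (j + 1) := by rw [pow_succ']; group

theorem inv4 (m : ℕ) (hm : Odd m) : ∃ j t : ℕ, 4 * j = 1 + m * t := by
  obtain ⟨r, hr⟩ := hm
  rcases Nat.even_or_odd r with ⟨q, hq⟩ | ⟨q, hq⟩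
  · exact ⟨3 * q + 1, 3, by omega⟩
  · exact ⟨q + 1, 1, by omega⟩

theorem core (φ : G →* G) (a b g d e : G) (m : ℕ) (hodd : Odd m) (hgm : g ^ m = 1)
    (hbm : b ^ m = 1) (hab : Commute a b) (hbg : Commute b g) (hgd : Commute g d)
    (hde : Commute d e) (fb : φ b = a) (fg : φ g = b) (fd : φ d = g) (fe : φ e = d)
    (hT : a⁻¹ * b ^ 3 * (g ^ 3)⁻¹ * d = b⁻¹ * g ^ 3 * (d ^ 3)⁻¹ * e) :
    φ (cm a g) = cm a g ∧ Commute (cm a g) a ∧ cm a g ^ m = 1 ∧ cm a d = cm a g ^ 4 := by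
  -- (1) and (2)
  have hP : g ^ 3 * ((d ^ 3)⁻¹ * e * d⁻¹) * g ^ 3 = a⁻¹ * b ^ 4 := by
    have h1 : g ^ 3 * ((d ^ 3)⁻¹ * e * d⁻¹) * g ^ 3 =
        b * (b⁻¹ * g ^ 3 * (d ^ 3)⁻¹ * e) * d⁻¹ * g ^ 3 := by group
    have h2 : b * a⁻¹ = a⁻¹ * b := hab.symm.inv_right.eq
    rw [h1, ← hT]
    calc b * (a⁻¹ * b ^ 3 * (g ^ 3)⁻¹ * d) * d⁻¹ * g ^ 3 = (b * a⁻¹) * b ^ 3 := by group
      _ = a⁻¹ * b ^ 4 := by rw [h2, mul_assoc, ← pow_succ']
  have hdW : Commute d ((d ^ 3)⁻¹ * e * d⁻¹) :=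
    (((Commute.refl d).pow_right 3).inv_right.mul_right hde).mul_right (Commute.refl d).inv_right
  have hd1 : Commute d (a⁻¹ * b ^ 4) := by
    rw [← hP]
    exact ((hgd.symm.pow_right 3).mul_right hdW).mul_right (hgd.symm.pow_right 3)
  have hbP : Commute b (a⁻¹ * b ^ 4) :=
    hab.symm.inv_right.mul_right ((Commute.refl b).pow_right 4)
  have hW2 : (d ^ 3)⁻¹ * e * d⁻¹ = e * (d ^ 4)⁻¹ := by
    have h1 : (d ^ 3)⁻¹ * e = e * (d ^ 3)⁻¹ := ((hde.pow_left 3).inv_left).eq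
    rw [h1]
    group
  have hb1 : Commute b (e * (d ^ 4)⁻¹) := by
    have h1 : e * (d ^ 4)⁻¹ = (g ^ 3)⁻¹ * (a⁻¹ * b ^ 4) * (g ^ 3)⁻¹ := by
      rw [← hP, ← hW2]
      group
    rw [h1]
    exact ((hbg.pow_right 3).inv_right.mul_right hbP).mul_right (hbg.pow_right 3).inv_right
  have ha1 : Commute a (d * (g ^ 4)⁻¹) := by
    have h1 := hb1.map φ
    rw [map_mul, map_inv, map_pow, fb, fe, fd] at h1
    exact h1
  -- (3)
  have e1 : d⁻¹ * a * d = (g ^ 4)⁻¹ * a * g ^ 4 := by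
    have h1 : d⁻¹ * (a * (d * (g ^ 4)⁻¹)) * g ^ 4 = d⁻¹ * (d * (g ^ 4)⁻¹ * a) * g ^ 4 := by
      rw [ha1.eq]
    calc d⁻¹ * a * d = d⁻¹ * (a * (d * (g ^ 4)⁻¹)) * g ^ 4 := by group
      _ = d⁻¹ * (d * (g ^ 4)⁻¹ * a) * g ^ 4 := h1
      _ = (g ^ 4)⁻¹ * a * g ^ 4 := by group
  have hK1 : cm a d = a⁻¹ * ((g ^ 4)⁻¹ * a * g ^ 4) := by
    rw [← e1]
    unfold cm
    group
  have hbK : Commute b (cm a d) := by
    rw [hK1]
    exact hab.symm.inv_right.mul_right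
      (((hbg.pow_right 4).inv_right.mul_right hab.symm).mul_right (hbg.pow_right 4))
  have e2 : a⁻¹ * d * a = (b ^ 4)⁻¹ * d * b ^ 4 := by
    have h0 : a⁻¹ * b ^ 4 = b ^ 4 * a⁻¹ := ((hab.pow_right 4).inv_left).eq
    have h1 : d * (b ^ 4 * a⁻¹) = (b ^ 4 * a⁻¹) * d := by
      rw [← h0]
      exact hd1.eq
    calc a⁻¹ * d * a = (b ^ 4)⁻¹ * ((b ^ 4 * a⁻¹) * d) * a := by group
      _ = (b ^ 4)⁻¹ * (d * (b ^ 4 * a⁻¹)) * a := by rw [h1]
      _ = (b ^ 4)⁻¹ * d * b ^ 4 := by group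
  have hK2 : (cm a d)⁻¹ = d⁻¹ * ((b ^ 4)⁻¹ * d * b ^ 4) := by
    rw [← e2]
    unfold cm
    group
  have hgK : Commute g (cm a d) := by
    have h1 : Commute g (cm a d)⁻¹ := by
      rw [hK2]
      exact hgd.inv_right.mul_right
        (((hbg.symm.pow_right 4).inv_right.mul_right hgd).mul_right (hbg.symm.pow_right 4))
    have h2 := h1.inv_right
    rwa [inv_inv] at h2
  -- (4)
  obtain ⟨j, t, hjt⟩ := inv4 m hodd
  have i1 := iter (g ^ 4) a (cm a d) (by rw [hK1]; group) (hgK.symm.pow_right 4)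
  have hKm : cm a d ^ m = 1 := by
    have h1 := i1 m
    rw [← pow_mul, mul_comm 4 m, pow_mul, hgm, one_pow, inv_one, one_mul, mul_one] at h1
    exact (left_eq_mul.mp h1)
  have pw : ∀ z : G, z ^ m = 1 → z ^ (4 * j) = z := by
    intro z hz
    rw [hjt, pow_add, pow_mul, hz, one_pow, mul_one, pow_one]
  have hkK : cm a g = cm a d ^ j := by
    have h1 := i1 j
    rw [← pow_mul, pw g hgm] at h1
    have h2 : cm a g = a⁻¹ * (g⁻¹ * a * g) := by
      unfold cm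
      group
    rw [h2, h1]
    group
  have hkm : cm a g ^ m = 1 := by
    rw [hkK, ← pow_mul, mul_comm j m, pow_mul, hKm, one_pow]
  have hk4 : cm a g ^ 4 = cm a d := by
    rw [hkK, ← pow_mul, mul_comm j 4]
    exact pw _ hKm
  -- (5)
  have i2 := iter (b ^ 4) d (cm a d)⁻¹ (by rw [hK2]; group) (hbK.symm.inv_left.pow_right 4) j
  have hbd : cm b d = cm a g := by
    rw [← pow_mul, pw b hbm, inv_pow, ← hkK] at i2
    have h2 : cm b d = (b⁻¹ * d * b)⁻¹ * d := by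
      unfold cm
      group
    rw [h2, i2]
    group
  have hfix : φ (cm a g) = cm a g := by
    conv_lhs => rw [← hbd]
    unfold cm
    rw [map_mul, map_mul, map_mul, map_inv, map_inv, fb, fd]
  have hka : Commute (cm a g) a := by
    have h1 : Commute (cm a g) b := by
      rw [hkK]
      exact hbK.symm.pow_left j
    have h2 := h1.map φ
    rw [hfix, fb] at h2
    exact h2
  exact ⟨hfix, hka, hkm, hk4.symm⟩

end IK

theorem pr_K (hW : St_W) (hT0 : St_T0) : St_K := by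
  intro G _ x y m hP
  obtain ⟨w0, w1, -, -, -⟩ := hW G x y
  obtain ⟨t1, -, t3⟩ := hT0 G x y hP.com
  have t3' := t3 hP.inv
  have hc : ∀ i : ℤ, (MulAut.conj x).toMonoidHom (yy x y i) = yy x y (i + -1) := by
    intro i
    rw [← w1 i (-1)]
    show x * yy x y i * x⁻¹ = _
    rw [neg_neg, zpow_one, zpow_neg_one]
  have hpw : ∀ i : ℤ, yy x y i ^ m = 1 := by
    intro i
    have h1 : yy x y i = x ^ (-i) * y * (x ^ (-i))⁻¹ := by
      unfold yy
      rw [zpow_neg, inv_inv]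
    rw [h1, conj_pow, hP.ord, mul_one, mul_inv_cancel]
  have hc1 := t1 1
  have hc2 := t1 2
  have hc3 := t1 3
  have e0 := t3' 0
  have e1 := t3' 1
  norm_num at hc1 hc2 hc3 e0 e1
  rw [w0] at e0
  have f1 := hc 1
  have f2 := hc 2
  have f3 := hc 3
  have f4 := hc 4
  norm_num at f1 f2 f3 f4
  rw [w0] at f1
  obtain ⟨r1, r2, r3, r4⟩ := IK.core (MulAut.conj x).toMonoidHom y (yy x y 1) (yy x y 2)
    (yy x y 3) (yy x y 4) m hP.odd (hpw 2) (hpw 1) hP.com hc1 hc2 hc3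
    (by simpa using f1) (by simpa using f2) (by simpa using f3) (by simpa using f4)
    (by rw [← e0, ← e1])
  refine ⟨?_, r2, r3, r4⟩
  have h1 : x * kk x y * x⁻¹ = kk x y := r1
  show kk x y * x = x * kk x y
  conv_lhs => rw [← h1]
  group

end Pool.Agent.Work.MP_f3c012_al.Df
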