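import Pool.Agent.Work.MP_f3c012_al.Df.StmtsA

/-!
# MP_f3c012_al, block DF, item N0

The group `NN x y` is nilpotent of class two: all commutators lie in the group generated by `k`, and
`k` commutes with all elements.
-/

set_option autoImplicit false

namespace Pool.Agent.Work.MP_f3c012_al.Df

namespace IN0

variable {G : Type} [Group G]

lemma cm_inv (a b : G) : (cm a b)⁻¹ = cm b a := by
  unfold cm
  group

lemma cm_mul (a a' b : G) : cm (a * a') b = a'⁻¹ * cm a b * a' * cm a' b := by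
  unfold cm
  group

lemma cm_inv_left (a b : G) : cm a⁻¹ b = a * (cm a b)⁻¹ * a⁻¹ := by
  unfold cm
  group

lemma cm_one (b : G) : cm 1 b = 1 := by
  unfold cm
  group

/-- the elements commuting with `k` whose commutator with `b` is a power of `k` form a subgroup -/
lemma aux (k : G) (s : Set G) (hs : ∀ a ∈ s, Commute k a) (b : G)
    (h : ∀ a ∈ s, cm a b ∈ Subgroup.zpowers k) :
    ∀ a ∈ Subgroup.closure s, Commute k a ∧ cm a b ∈ Subgroup.zpowers k := by
  intro a ha
  induction ha using Subgroup.closure_induction with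
  | mem a ha => exact ⟨hs a ha, h a ha⟩
  | one => exact ⟨Commute.one_right k, by rw [cm_one]; exact Subgroup.one_mem _⟩
  | mul a a' _ _ iha iha' =>
    obtain ⟨ca, pa⟩ := iha
    obtain ⟨ca', pa'⟩ := iha'
    refine ⟨ca.mul_right ca', ?_⟩
    obtain ⟨n, hn⟩ := Subgroup.mem_zpowers_iff.1 pa
    have e : a'⁻¹ * cm a b * a' = cm a b := by
      rw [← hn, mul_assoc, (ca'.zpow_left n).eq, ← mul_assoc, inv_mul_cancel, one_mul]
    rw [cm_mul, e]
    exact Subgroup.mul_mem _ pa pa'
  | inv a _ iha =>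
    obtain ⟨ca, pa⟩ := iha
    refine ⟨ca.inv_right, ?_⟩
    obtain ⟨n, hn⟩ := Subgroup.mem_zpowers_iff.1 pa
    have e : a * (cm a b)⁻¹ * a⁻¹ = (cm a b)⁻¹ := by
      rw [← hn, ← ((ca.zpow_left n).inv_left).eq, mul_assoc, mul_inv_cancel, mul_one]
    rw [cm_inv_left, e]
    exact Subgroup.inv_mem _ pa

end IN0

open IN0 in
/-- item N0 -/
theorem pr_N0 (hW : St_W) (hK : St_K) (hB : St_B) : St_N0 := by
  intro G _ x y m hP
  obtain ⟨-, -, -, -, hc⟩ := hW G x y
  obtain ⟨hkx, hky, -, -⟩ := hK G x y m hP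
  obtain ⟨hb, -⟩ := hB G x y m hP
  have hyy : ∀ a ∈ Set.range (yy x y), Commute (kk x y) a := by
    rintro a ⟨i, rfl⟩
    unfold yy
    exact ((hkx.zpow_right (-i)).mul_right hky).mul_right (hkx.zpow_right i)
  -- the commutators of the generators, ordered indices
  have h1 : ∀ (i : ℤ) (n : ℕ), cm (yy x y i) (yy x y ((n : ℤ) + i)) ∈
      Subgroup.zpowers (kk x y) := by
    intro i n
    rw [← hc (n : ℤ) i, hb n]
    have e : x ^ (-i) * kk x y ^ (Nat.choose (n + 1) 3) * x ^ i =
        kk x y ^ (Nat.choose (n + 1) 3) := by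
      rw [mul_assoc, ((hkx.pow_left _).zpow_right i).eq, ← mul_assoc, ← zpow_add, neg_add_cancel,
        zpow_zero, one_mul]
    rw [e]
    exact Subgroup.npow_mem_zpowers _ _
  have h2 : ∀ i j : ℤ, cm (yy x y i) (yy x y j) ∈ Subgroup.zpowers (kk x y) := by
    intro i j
    rcases le_total i j with hij | hij
    · obtain ⟨n, hn⟩ := Int.eq_ofNat_of_zero_le (sub_nonneg.2 hij)
      have e : j = (n : ℤ) + i := by omega
      rw [e]
      exact h1 i n
    · obtain ⟨n, hn⟩ := Int.eq_ofNat_of_zero_le (sub_nonneg.2 hij)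
      have e : i = (n : ℤ) + j := by omega
      rw [e, ← cm_inv]
      exact Subgroup.inv_mem _ (h1 j n)
  -- one variable in the group, the other a generator
  have h3 : ∀ j : ℤ, ∀ a ∈ NN x y, Commute (kk x y) a ∧
      cm a (yy x y j) ∈ Subgroup.zpowers (kk x y) := by
    intro j
    refine aux (kk x y) (Set.range (yy x y)) hyy (yy x y j) ?_
    rintro a ⟨i, rfl⟩
    exact h2 i j
  refine ⟨fun a ha => (h3 0 a ha).1, ?_⟩
  intro a ha b hb'
  have h4 := aux (kk x y) (Set.range (yy x y)) hyy a (by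
    rintro c ⟨j, rfl⟩
    rw [← cm_inv]
    exact Subgroup.inv_mem _ (h3 j a ha).2) b hb'
  rw [← cm_inv]
  exact Subgroup.inv_mem _ h4.2

end Pool.Agent.Work.MP_f3c012_al.Df
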