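import Pool.Agent.Work.MP_f3c012_al.Df.StmtsA

/-!
# MP_f3c012_al, block DF, item RE
-/

set_option autoImplicit false

namespace Pool.Agent.Work.MP_f3c012_al.Df

namespace IRE

variable {G : Type*} [Group G]

theorem conj_of_cm (a b z : G) (h : cm a b = z) : b⁻¹ * a * b = a * z := by
  rw [← h]
  unfold cm
  group

theorem conj_pow' (a b : G) (n : ℕ) : (b⁻¹ * a * b) ^ n = b⁻¹ * a ^ n * b := by
  have h := conj_pow (i := n) (a := b⁻¹) (b := a)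
  rw [inv_inv] at h
  exact h

theorem yy_one (x y : G) : yy x y 1 = x⁻¹ * y * x := by
  unfold yy
  rw [zpow_neg, zpow_one]

end IRE

theorem pr_RE (hW : St_W) (hF1 : St_F1) (hF2 : St_F2) : St_RE := by
  intro G _ x₁ x₂ x₃ p hp h5 h1 h2 h3 h4 h5' h6 h7
  have hodd : Odd p := hp.odd_of_ne_two (by omega)
  obtain ⟨-, -, w32, wc, -⟩ := hW G x₃ x₂
  obtain ⟨-, -, w12, -, -⟩ := hW G x₁ x₂
  obtain ⟨-, -, w13, -, -⟩ := hW G x₁ x₃
  have hpg1 : PG x₃ x₂ p :=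
    { odd := hodd
      ord := h1
      com := (wc _ _).mp (by rw [← w32]; exact h4)
      inv := (wc _ _).mp h5' }
  have hz2 : Commute (x₃ ^ (p ^ 2)) x₂ := hF1 G x₃ x₂ p hp h5 hpg1
  have hzp : (x₃ ^ (p ^ 2)) ^ p = 1 := by
    have hc := IRE.conj_of_cm x₂ (yy x₁ x₂ 1) (x₃ ^ (p ^ 2)) (by rw [← w12]; exact h2)
    have hc2 : ((yy x₁ x₂ 1)⁻¹ * x₂ * yy x₁ x₂ 1) ^ p = (x₂ * x₃ ^ (p ^ 2)) ^ p := by rw [hc]
    rw [IRE.conj_pow', h1, hz2.symm.mul_pow, h1] at hc2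
    simpa using hc2.symm
  have hpg3 : PG x₁ x₃ (p ^ 3) :=
    { odd := hodd.pow
      ord := by
        rw [show p ^ 3 = p ^ 2 * p from by ring, pow_mul]
        exact hzp
      com := (wc _ _).mp (by rw [← w13]; exact h6)
      inv := by
        rw [h7]
        exact (Commute.refl x₁).pow_left p }
  obtain ⟨-, -, -, -, he, -⟩ := hF2 G x₁ x₃ (p ^ 3) p hp h5 hpg3 h7
  have hcom : Commute x₃⁻¹ (yy x₁ x₃ 1) := hpg3.com.inv_left
  rw [hcom.mul_pow, inv_pow, inv_mul_eq_one, IRE.yy_one, IRE.conj_pow'] at he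
  refine ⟨?_, hz2, hzp⟩
  show x₃ ^ (p ^ 2) * x₁ = x₁ * x₃ ^ (p ^ 2)
  calc x₃ ^ (p ^ 2) * x₁ = x₁ * (x₁⁻¹ * x₃ ^ (p ^ 2) * x₁) := by group
    _ = x₁ * x₃ ^ (p ^ 2) := by rw [← he]

end Pool.Agent.Work.MP_f3c012_al.Df
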