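import Pool.Agent.Work.MP_f3c012_al.Df.StmtsA

set_option autoImplicit false

/-!
# MP_f3c012_al, block DF, item S2: Vandermonde
-/

namespace Pool.Agent.Work.MP_f3c012_al.Df

open Matrix

namespace IS2

/-- the matrix of the binomial coefficients -/
def Cm {r : ℕ} (v : Fin r → ℕ) : Matrix (Fin r) (Fin r) ℤ :=
  Matrix.of fun m k => ((v m).choose (k : ℕ) : ℤ)

theorem det_fac {r : ℕ} (v : Fin r → ℕ) :
    (∏ i : Fin r, ∏ k ∈ Finset.Ioi i, ((v k : ℤ) - (v i : ℤ))) =
      (∏ i : Fin r, ((Nat.factorial (i : ℕ) : ℕ) : ℤ)) * (Cm v).det := by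
  have h := det_eval_matrixOfPolynomials_eq_det_vandermonde (fun i => (v i : ℤ))
    (fun i : Fin r => descPochhammer ℤ (i : ℕ))
    (fun i => descPochhammer_natDegree ℤ (i : ℕ))
    (fun i => monic_descPochhammer ℤ (i : ℕ))
  rw [det_vandermonde] at h
  have h2 : (Matrix.of fun i k : Fin r => (descPochhammer ℤ (k : ℕ)).eval (v i : ℤ)) =
      Matrix.of fun i k : Fin r => ((Nat.factorial (k : ℕ) : ℕ) : ℤ) * Cm v i k := by
    ext i k
    rw [Matrix.of_apply, Matrix.of_apply, descPochhammer_eval_eq_descFactorial ℤ _ _,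
      Nat.descFactorial_eq_factorial_mul_choose, Nat.cast_mul]
    rfl
  rw [h, h2, det_mul_row]

theorem not_dvd {p r : ℕ} (v : Fin r → ℕ) (hp : p.Prime) (hinj : Function.Injective v)
    (hlt : ∀ m, v m < p) : ¬ (p : ℤ) ∣ (Cm v).det := by
  intro hd
  have hp' : Prime (p : ℤ) := Nat.prime_iff_prime_int.mp hp
  have h1 : (p : ℤ) ∣ ∏ i : Fin r, ∏ k ∈ Finset.Ioi i, ((v k : ℤ) - (v i : ℤ)) := by
    rw [det_fac]
    exact Dvd.dvd.mul_left hd _
  obtain ⟨i, -, hi⟩ := (hp'.dvd_finsetProd_iff _).mp h1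
  obtain ⟨k, hk, hki⟩ := (hp'.dvd_finsetProd_iff _).mp hi
  have hne : v k ≠ v i := fun h => (Finset.mem_Ioi.mp hk).ne' (hinj h)
  have h2 : ((v k : ℤ) - (v i : ℤ)) = 0 := by
    apply Int.eq_zero_of_abs_lt_dvd hki
    have := hlt k
    have := hlt i
    rw [abs_lt]
    constructor <;> omega
  omega

theorem adj {A : Type} [AddCommGroup A] {r : ℕ} (C : Matrix (Fin r) (Fin r) ℤ) (e : Fin r → A)
    (i : Fin r) : C.det • e i = ∑ m, C.adjugate i m • ∑ k, C m k • e k := by
  have h1 : C.det • e i = ∑ k, (C.adjugate * C) i k • e k := by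
    rw [Matrix.adjugate_mul]
    rw [Finset.sum_eq_single i]
    · simp
    · intro k _ hk
      simp [Matrix.one_apply_ne hk.symm]
    · intro h
      exact absurd (Finset.mem_univ i) h
  rw [h1]
  simp only [Matrix.mul_apply, Finset.sum_smul, Finset.smul_sum, mul_smul]
  rw [Finset.sum_comm]

end IS2

open IS2 in
theorem pr_S2 : St_S2 := by
  intro A _ p r e B j hp hpe hinj hlt hsum i
  have h1 : (Cm j).det • e i ∈ B := by
    rw [adj (Cm j) e i]
    refine B.sum_mem fun m _ => B.zsmul_mem ?_ _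
    have h3 : ∑ k, Cm j m k • e k = ∑ k : Fin r, ((j m).choose (k : ℕ)) • e k := by
      refine Finset.sum_congr rfl fun k _ => ?_
      exact natCast_zsmul _ _
    rw [h3]
    exact hsum m
  have hp' : Prime (p : ℤ) := Nat.prime_iff_prime_int.mp hp
  obtain ⟨a, b, hab⟩ := hp'.coprime_iff_not_dvd.mpr (not_dvd j hp hinj hlt)
  have h4 : e i = a • (p • e i) + b • ((Cm j).det • e i) := by
    rw [← natCast_zsmul (e i) p, ← mul_smul, ← mul_smul, ← add_smul, hab, one_smul]
  rw [h4]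
  exact B.add_mem (B.zsmul_mem (hpe i) a) (B.zsmul_mem h1 b)

end Pool.Agent.Work.MP_f3c012_al.Df
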