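import Pool.Agent.Work.MP_f3c012_al.Df.StmtsR

set_option autoImplicit false

namespace Pool.Agent.Work.MP_f3c012_al.Df

open scoped RealInnerProductSpace

theorem pr_SC : St_SC := by
  intro V _ _ n q η C h0 hs hq hC
  have h1 : ‖∑ i ∈ Finset.range n, q i‖ ^ 2 =
      ∑ i ∈ Finset.range n, ∑ j ∈ Finset.range n, ⟪q i, q j⟫ := by
    rw [← real_inner_self_eq_norm_sq, sum_inner]
    refine Finset.sum_congr rfl fun i _ => ?_
    rw [inner_sum]
  have h2 : ∑ i ∈ Finset.range n, ∑ j ∈ Finset.range n, ⟪q i, q j⟫ ≤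
      ∑ i ∈ Finset.range n, ∑ j ∈ Finset.range n, η i j * ((‖q i‖ ^ 2 + ‖q j‖ ^ 2) / 2) := by
    refine Finset.sum_le_sum fun i hi => Finset.sum_le_sum fun j hj => ?_
    have e1 := hq i (Finset.mem_range.mp hi) j (Finset.mem_range.mp hj)
    have e2 := le_trans (le_abs_self _) e1
    have e3 : ‖q i‖ * ‖q j‖ ≤ (‖q i‖ ^ 2 + ‖q j‖ ^ 2) / 2 := by
      nlinarith [sq_nonneg (‖q i‖ - ‖q j‖)]
    calc ⟪q i, q j⟫ ≤ η i j * ‖q i‖ * ‖q j‖ := e2
      _ = η i j * (‖q i‖ * ‖q j‖) := by ring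
      _ ≤ _ := mul_le_mul_of_nonneg_left e3 (h0 i j)
  have h3 : ∑ i ∈ Finset.range n, ∑ j ∈ Finset.range n, η i j * ((‖q i‖ ^ 2 + ‖q j‖ ^ 2) / 2) =
      ∑ i ∈ Finset.range n, (∑ j ∈ Finset.range n, η i j) * ‖q i‖ ^ 2 := by
    have e1 : ∑ i ∈ Finset.range n, ∑ j ∈ Finset.range n, η i j * (‖q j‖ ^ 2 / 2) =
        ∑ i ∈ Finset.range n, ∑ j ∈ Finset.range n, η i j * (‖q i‖ ^ 2 / 2) := by
      rw [Finset.sum_comm]
      refine Finset.sum_congr rfl fun i _ => Finset.sum_congr rfl fun j _ => ?_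
      rw [hs j i]
    have e2 : ∑ i ∈ Finset.range n, ∑ j ∈ Finset.range n, η i j * ((‖q i‖ ^ 2 + ‖q j‖ ^ 2) / 2) =
        ∑ i ∈ Finset.range n, ∑ j ∈ Finset.range n, η i j * (‖q i‖ ^ 2 / 2) +
        ∑ i ∈ Finset.range n, ∑ j ∈ Finset.range n, η i j * (‖q j‖ ^ 2 / 2) := by
      rw [← Finset.sum_add_distrib]
      refine Finset.sum_congr rfl fun i _ => ?_
      rw [← Finset.sum_add_distrib]
      refine Finset.sum_congr rfl fun j _ => ?_
      ring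
    rw [e2, e1, ← Finset.sum_add_distrib]
    refine Finset.sum_congr rfl fun i _ => ?_
    rw [← Finset.sum_add_distrib, Finset.sum_mul]
    refine Finset.sum_congr rfl fun j _ => ?_
    ring
  rw [h1]
  refine le_trans h2 ?_
  rw [h3, Finset.mul_sum]
  exact Finset.sum_le_sum fun i hi =>
    mul_le_mul_of_nonneg_right (hC i (Finset.mem_range.mp hi)) (by positivity)

end Pool.Agent.Work.MP_f3c012_al.Df
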