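import Pool.Agent.Work.MP_f3c012_al.Df.StmtsA

/-!
# MP_f3c012_al, block DF, item T0: the word `T`
-/

set_option autoImplicit false

namespace Pool.Agent.Work.MP_f3c012_al.Df

namespace IT0

theorem key {G : Type} [Group G] (x a b c d : G) (ha : x⁻¹ * a * x = b) (hb : x⁻¹ * b * x = c)
    (hc : x⁻¹ * c * x = d) (hab : Commute a b) (hbc : Commute b c) (hcd : Commute c d) :
    c * cm (cm (cm a x) x) x * c⁻¹ = a⁻¹ * b ^ 3 * (c ^ 3)⁻¹ * d := by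
  have cmx : ∀ u : G, cm u x = u⁻¹ * (x⁻¹ * u * x) := by
    intro u
    unfold cm
    group
  have cmul : ∀ u v : G, x⁻¹ * (u * v) * x = (x⁻¹ * u * x) * (x⁻¹ * v * x) := by
    intro u v
    group
  have cinv : ∀ u : G, x⁻¹ * u⁻¹ * x = (x⁻¹ * u * x)⁻¹ := by
    intro u
    group
  have e1 : cm a x = a⁻¹ * b := by rw [cmx, ha]
  have e2 : cm (a⁻¹ * b) x = (a⁻¹ * b)⁻¹ * (b⁻¹ * c) := by
    rw [cmx, cmul, cinv, ha, hb]
  have e3 : cm ((a⁻¹ * b)⁻¹ * (b⁻¹ * c)) x =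
      ((a⁻¹ * b)⁻¹ * (b⁻¹ * c))⁻¹ * ((b⁻¹ * c)⁻¹ * (c⁻¹ * d)) := by
    rw [cmx, cmul, cinv, cmul, cinv, ha, hb, cmul, cinv, hb, hc]
  have h1 : b * a⁻¹ = a⁻¹ * b := (hab.inv_left.eq).symm
  have h2 : c⁻¹ * b = b * c⁻¹ := (hbc.inv_right.eq).symm
  have h3 : d * c⁻¹ = c⁻¹ * d := (hcd.inv_left.eq).symm
  rw [e1, e2, e3]
  calc c * (((a⁻¹ * b)⁻¹ * (b⁻¹ * c))⁻¹ * ((b⁻¹ * c)⁻¹ * (c⁻¹ * d))) * c⁻¹
      = (b * a⁻¹) * b * (c⁻¹ * b) * c⁻¹ * (d * c⁻¹) := by group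
    _ = (a⁻¹ * b) * b * (b * c⁻¹) * c⁻¹ * (c⁻¹ * d) := by rw [h1, h2, h3]
    _ = a⁻¹ * b ^ 3 * (c ^ 3)⁻¹ * d := by
      simp only [pow_succ, pow_zero, one_mul, mul_inv_rev, mul_assoc]

end IT0

/-- **Item T0**. -/
theorem pr_T0 (hW : St_W) : St_T0 := by
  intro G _ x y hc
  obtain ⟨h0, h1, -, -, -⟩ := hW G x y
  have hφ : ∀ i j : ℤ, MulAut.conj (x ^ (-i)) (yy x y j) = yy x y (j + i) := by
    intro i j
    rw [MulAut.conj_apply, ← h1 j i, zpow_neg, inv_inv]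
  have hcom : ∀ i : ℤ, Commute (yy x y i) (yy x y (i + 1)) := by
    intro i
    have e1 := hφ i 0
    have e2 := hφ i 1
    rw [zero_add] at e1
    rw [add_comm] at e2
    rw [← e1, ← e2, h0]
    exact hc.map (MulAut.conj (x ^ (-i))).toMonoidHom
  have hs : ∀ j : ℤ, x⁻¹ * yy x y j * x = yy x y (j + 1) := by
    intro j
    have := h1 j 1
    rwa [zpow_neg, zpow_one] at this
  have hT : TT x y = y⁻¹ * yy x y 1 ^ 3 * (yy x y 2 ^ 3)⁻¹ * yy x y 3 := by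
    have ha := hs 0
    have hb := hs 1
    have hd := hs 2
    have c0 := hcom 0
    have c1 := hcom 1
    have c2 := hcom 2
    norm_num at ha hb hd c0 c1 c2
    rw [h0] at ha c0
    exact IT0.key x y _ _ _ ha hb hd c0 c1 c2
  refine ⟨hcom, hT, ?_⟩
  intro hTx i
  have e1 : MulAut.conj (x ^ (-i)) (TT x y) = TT x y := by
    rw [MulAut.conj_apply]
    have h2 : Commute (TT x y) (x ^ (-i)) := hTx.zpow_right (-i)
    rw [← h2.eq, mul_assoc, mul_inv_cancel, mul_one]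
  have e2 := congrArg (MulAut.conj (x ^ (-i))) hT
  rw [e1, map_mul, map_mul, map_mul, map_inv, map_inv, map_pow, map_pow, hφ, hφ, hφ] at e2
  have e3 := hφ i 0
  rw [h0, zero_add] at e3
  rw [e3, add_comm 1 i, add_comm 2 i, add_comm 3 i] at e2
  exact e2

end Pool.Agent.Work.MP_f3c012_al.Df
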