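import Pool.Agent.Work.MP_f3c012_al.Df.StmtsA

/-! Item TR (helper86): with `x₃^(p²) = 1` the seven relations give `Tri`. -/

set_option autoImplicit false

namespace Pool.Agent.Work.MP_f3c012_al.Df

namespace ITR

theorem com_of_rr (hW : St_W) {G : Type} [Group G] {x y : G} (h : rr x y = 1) :
    Commute y (yy x y 1) := by
  obtain ⟨_, _, h3, h4, _⟩ := hW G x y
  rw [h3] at h
  exact (h4 _ _).1 h

theorem inv_of_ss (hW : St_W) {G : Type} [Group G] {x y : G} (h : ss x y = 1) :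
    Commute (TT x y) x := by
  obtain ⟨_, _, _, h4, _⟩ := hW G x y
  exact (h4 _ _).1 h

end ITR

theorem pr_TR (hW : St_W) : St_TR := by
  intro G _ x₁ x₂ x₃ p hp h5 hgen h3 h2 hr12 hs12 hr32 hs32 hr13 ht13
  have hodd : Odd p := hp.odd_of_ne_two (by omega)
  refine ⟨hgen, h2, h3, ?_, ?_, ?_, ht13⟩
  · exact ⟨hodd, h2, ITR.com_of_rr hW (by rw [hr12, h3]), ITR.inv_of_ss hW hs12⟩
  · exact ⟨hodd, h2, ITR.com_of_rr hW hr32, ITR.inv_of_ss hW hs32⟩
  · refine ⟨hodd.pow, h3, ITR.com_of_rr hW hr13, ?_⟩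
    rw [ht13]
    exact (Commute.refl x₁).pow_left p

end Pool.Agent.Work.MP_f3c012_al.Df
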