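import Pool.Agent.Work.MP_f3c012_al.Df.StmtsA

/-!
# Item V3: three conjugates of `y` and `T` generate modulo the centre
-/

set_option autoImplicit false

namespace Pool.Agent.Work.MP_f3c012_al.Df

namespace IV3

open scoped commutatorElement

variable {G : Type} [Group G]

/-- the class in the abelianization, written additively -/
def cl {N : Subgroup G} (g : N) : Additive (Abelianization N) :=
  Additive.ofMul (Abelianization.of g)

theorem cl_mul {N : Subgroup G} (g h : N) : cl (g * h) = cl g + cl h := by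
  unfold cl
  rw [map_mul]
  rfl

theorem cl_inv {N : Subgroup G} (g : N) : cl g⁻¹ = -cl g := by
  unfold cl
  rw [map_inv]
  rfl

theorem cl_pow {N : Subgroup G} (g : N) (n : ℕ) : cl (g ^ n) = n • cl g := by
  unfold cl
  rw [map_pow]
  rfl

/-- the image of a subgroup -/
def im (S N : Subgroup G) : AddSubgroup (Additive (Abelianization N)) :=
  Subgroup.toAddSubgroup ((S.subgroupOf N).map Abelianization.of)

theorem mem_im {S N : Subgroup G} {g : N} (h : (g : G) ∈ S) : cl g ∈ im S N := by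
  show Additive.toMul (cl g) ∈ (S.subgroupOf N).map Abelianization.of
  exact Subgroup.mem_map.2 ⟨g, Subgroup.mem_subgroupOf.2 h, rfl⟩

theorem of_mem_im {S N : Subgroup G} (hS : ∀ g : N, g ∈ commutator N → (g : G) ∈ S) {g : N}
    (h : cl g ∈ im S N) : (g : G) ∈ S := by
  have h' : Additive.toMul (cl g) ∈ (S.subgroupOf N).map Abelianization.of := h
  obtain ⟨s, hs, hsg⟩ := Subgroup.mem_map.1 h'
  have h1 : Abelianization.of s = Abelianization.of g := hsg
  have h2 : s⁻¹ * g ∈ commutator N := by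
    rw [← Abelianization.ker_of N, MonoidHom.mem_ker, map_mul, map_inv, h1, inv_mul_cancel]
  have h3 := hS _ h2
  have h4 : (s : G) ∈ S := Subgroup.mem_subgroupOf.1 hs
  have h5 : (g : G) = (s : G) * ((s⁻¹ * g : N) : G) := by
    push_cast
    group
  rw [h5]
  exact S.mul_mem h4 h3

theorem comm_le {N : Subgroup G} {k : G} (h : ∀ a ∈ N, ∀ b ∈ N, cm a b ∈ Subgroup.zpowers k)
    (g : N) (hg : g ∈ commutator N) : (g : G) ∈ Subgroup.zpowers k := by
  have h1 : commutator N ≤ (Subgroup.zpowers k).subgroupOf N := by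
    rw [commutator_def, Subgroup.commutator_le]
    intro a _ b _
    rw [Subgroup.mem_subgroupOf]
    have h2 := h _ (N.inv_mem a.2) _ (N.inv_mem b.2)
    have h3 : ((⁅a, b⁆ : N) : G) = cm (a : G)⁻¹ (b : G)⁻¹ := by
      unfold cm
      rw [commutatorElement_def]
      push_cast
      group
    rw [h3]
    exact h2
  exact Subgroup.mem_subgroupOf.1 (h1 hg)

end IV3

open IV3 in
theorem pr_V3 (hT0 : St_T0) (hN0 : St_N0) (hS1 : St_S1) (hS2 : St_S2) (hF2 : St_F2) : St_V3 := by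
  intro G _ x y m p hp h5 hPG hT S j hkS hTS hyS hj hjp hjS
  obtain ⟨-, hN⟩ := hN0 G x y m hPG
  obtain ⟨-, -, hTi⟩ := hT0 G x y hPG.com
  have hTi' := hTi hPG.inv
  obtain ⟨-, -, hF1, hF3, -, -⟩ := hF2 G x y m p hp h5 hPG hT
  have hkz : Subgroup.zpowers (kk x y) ≤ S := by
    rw [Subgroup.zpowers_le]
    exact hkS
  have hcS : ∀ g : NN x y, g ∈ commutator (NN x y) → (g : G) ∈ S := fun g hg =>
    hkz (comm_le hN g hg)
  have hyN : ∀ i : ℤ, yy x y i ∈ NN x y := fun i => Subgroup.subset_closure ⟨i, rfl⟩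
  obtain ⟨Y, hY⟩ : ∃ Y : ℤ → NN x y, Y = fun i => ⟨yy x y i, hyN i⟩ := ⟨_, rfl⟩
  have hYc : ∀ i, ((Y i : NN x y) : G) = yy x y i := fun i => by rw [hY]
  obtain ⟨f, hf⟩ : ∃ f : ℤ → Additive (Abelianization (NN x y)), f = fun i => cl (Y i) := ⟨_, rfl⟩
  have hfi : ∀ i, f i = cl (Y i) := fun i => by rw [hf]
  -- the class of `T`
  obtain ⟨t, ht⟩ : ∃ t : NN x y, t = (Y 0)⁻¹ * Y 1 ^ 3 * (Y 2 ^ 3)⁻¹ * Y 3 := ⟨_, rfl⟩
  have htG : (t : G) = TT x y := by
    rw [hTi' 0, ht]
    push_cast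
    rw [hYc, hYc, hYc, hYc]
  have htB : cl t ∈ im S (NN x y) := mem_im (by rw [htG]; exact hTS)
  have hti : ∀ i : ℤ, cl t = -f i + 3 • f (i + 1) - 3 • f (i + 2) + f (i + 3) := by
    intro i
    have h1 : t = (Y i)⁻¹ * Y (i + 1) ^ 3 * (Y (i + 2) ^ 3)⁻¹ * Y (i + 3) := by
      apply Subtype.ext
      rw [htG, hTi' i]
      push_cast
      rw [hYc, hYc, hYc, hYc]
    rw [h1, cl_mul, cl_mul, cl_mul, cl_inv, cl_inv, cl_pow, cl_pow, hfi, hfi, hfi, hfi]
    abel
  have hrec : ∀ i, f (i + 4) = (4 : ℤ) • f (i + 3) - (6 : ℤ) • f (i + 2) + (4 : ℤ) • f (i + 1) -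
      f i := by
    intro i
    have h1 := hti i
    have h2 := hti (i + 1)
    have e1 : i + 1 + 1 = i + 2 := by ring
    have e2 : i + 1 + 2 = i + 3 := by ring
    have e3 : i + 1 + 3 = i + 4 := by ring
    rw [e1, e2, e3, h1] at h2
    have h3 : f (i + 4) = (-f i + 3 • f (i + 1) - 3 • f (i + 2) + f (i + 3)) +
        f (i + 1) - 3 • f (i + 2) + 3 • f (i + 3) := by
      rw [h2]
      abel
    rw [h3]
    abel
  have hS1' := hS1 _ f hrec
  have hΔ : f 3 - (3 : ℤ) • f 2 + (3 : ℤ) • f 1 - f 0 = cl t := by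
    have h1 := hti 0
    simp only [zero_add] at h1
    rw [h1]
    abel
  obtain ⟨e, he⟩ : ∃ e : Fin 3 → Additive (Abelianization (NN x y)),
    e = ![f 0, f 1 - f 0, f 2 - (2 : ℤ) • f 1 + f 0] := ⟨_, rfl⟩
  have he0 : e 0 = f 0 := by rw [he]; rfl
  have he1 : e 1 = f 1 - f 0 := by rw [he]; rfl
  have he2 : e 2 = f 2 - (2 : ℤ) • f 1 + f 0 := by rw [he]; rfl
  have hy0 : yy x y 0 = y := by
    unfold yy
    simp
  -- `p e i` is in the image
  have hpe : ∀ i, p • e i ∈ im S (NN x y) := by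
    intro i
    fin_cases i
    · show p • e 0 ∈ im S (NN x y)
      rw [he0, hfi, ← cl_pow]
      apply mem_im
      push_cast
      rw [hYc, hy0]
      exact hyS
    · show p • e 1 ∈ im S (NN x y)
      have h1 : e 1 = cl ((Y 0)⁻¹ * Y 1) := by
        rw [he1, cl_mul, cl_inv, hfi, hfi]
        abel
      rw [h1, ← cl_pow]
      apply mem_im
      push_cast
      rw [hYc, hYc, hy0]
      exact hkz hF1
    · show p • e 2 ∈ im S (NN x y)
      have h1 : e 2 = cl (Y 0 * (Y 1 ^ 2)⁻¹ * Y 2) := by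
        rw [he2, cl_mul, cl_mul, cl_inv, cl_pow, hfi, hfi, hfi]
        abel
      rw [h1, ← cl_pow]
      apply mem_im
      push_cast
      rw [hYc, hYc, hYc, hy0]
      exact hkz hF3
  have hsum : ∀ n : ℕ, f n = ∑ i : Fin 3, (n.choose i) • e i + (n.choose 3) • cl t := by
    intro n
    rw [hS1' n, hΔ, Fin.sum_univ_three, he0, he1, he2]
    simp
  have hcomb : ∀ l, ∑ i : Fin 3, ((j l).choose i) • e i ∈ im S (NN x y) := by
    intro l
    have h1 := hsum (j l)
    have h2 : ∑ i : Fin 3, ((j l).choose i) • e i = f (j l) - ((j l).choose 3) • cl t := by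
      rw [h1]
      abel
    rw [h2]
    refine AddSubgroup.sub_mem _ ?_ (AddSubgroup.nsmul_mem _ htB _)
    rw [hfi]
    apply mem_im
    rw [hYc]
    exact hjS l
  have hall := hS2 _ p 3 e (im S (NN x y)) j hp hpe hj hjp hcomb
  have hnat : ∀ n : ℕ, f n ∈ im S (NN x y) := by
    intro n
    rw [hsum n]
    refine AddSubgroup.add_mem _ (AddSubgroup.sum_mem _ fun i _ => ?_)
      (AddSubgroup.nsmul_mem _ htB _)
    exact AddSubgroup.nsmul_mem _ (hall i) _
  have hint : ∀ n : ℕ, ∀ i : ℤ, -(n : ℤ) ≤ i → f i ∈ im S (NN x y) := by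
    intro n
    induction n with
    | zero =>
      intro i hi
      obtain ⟨k, rfl⟩ : ∃ k : ℕ, i = k := ⟨i.toNat, by omega⟩
      exact hnat k
    | succ n ih =>
      intro i hi
      have h1 : f i = (4 : ℤ) • f (i + 3) - (6 : ℤ) • f (i + 2) + (4 : ℤ) • f (i + 1) -
          f (i + 4) := by
        rw [hrec i]
        abel
      rw [h1]
      push_cast at hi
      refine AddSubgroup.sub_mem _ (AddSubgroup.add_mem _ (AddSubgroup.sub_mem _
        (AddSubgroup.zsmul_mem _ (ih _ (by omega)) _) (AddSubgroup.zsmul_mem _ (ih _ (by omega)) _))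
        (AddSubgroup.zsmul_mem _ (ih _ (by omega)) _)) (ih _ (by omega))
  intro i
  have h1 := hint i.natAbs i (by omega)
  rw [hfi] at h1
  have h2 := of_mem_im hcS h1
  rw [hYc] at h2
  exact h2

end Pool.Agent.Work.MP_f3c012_al.Df
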