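import Pool.Agent.Work.MP_f3c012_al.Df.StmtsA

/-!
# MP_f3c012_al, block DF, item V4
-/

set_option autoImplicit false

namespace Pool.Agent.Work.MP_f3c012_al.Df

namespace IV4

section

variable {G : Type} [Group G]

theorem yy_mem (x y : G) (i : ℤ) : yy x y i ∈ NN x y :=
  Subgroup.subset_closure ⟨i, rfl⟩

/-- the class of `y_i` as an element of `NN x y` -/
def yN (x y : G) (i : ℤ) : NN x y := ⟨yy x y i, yy_mem x y i⟩

/-- the class of an element in the abelianization, additively -/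
def cl (x y : G) : NN x y →* Abelianization (NN x y) := Abelianization.of

/-- the class of `y_i` -/
def ff (x y : G) (i : ℤ) : Additive (Abelianization (NN x y)) := Additive.ofMul (cl x y (yN x y i))

theorem yy_pow {x y : G} {p : ℕ} (h : y ^ p = 1) (i : ℤ) : yy x y i ^ p = 1 := by
  have h1 : yy x y i = x ^ (-i) * y * (x ^ (-i))⁻¹ := by
    unfold yy
    rw [zpow_neg, inv_inv]
  rw [h1, conj_pow, h, mul_one, mul_inv_cancel]

theorem ff_p {x y : G} {p : ℕ} (h : y ^ p = 1) (i : ℤ) : p • ff x y i = 0 := by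
  have h1 : yN x y i ^ p = 1 := Subtype.ext (by
    show (yy x y i) ^ p = 1
    exact yy_pow h i)
  unfold ff
  rw [← ofMul_pow, ← map_pow, h1, map_one, ofMul_one]

theorem ff_rec {x y : G} (h : ∀ i : ℤ, TT x y =
    (yy x y i)⁻¹ * yy x y (i + 1) ^ 3 * (yy x y (i + 2) ^ 3)⁻¹ * yy x y (i + 3)) (i : ℤ) :
    ff x y (i + 4) = (4 : ℤ) • ff x y (i + 3) - (6 : ℤ) • ff x y (i + 2)
      + (4 : ℤ) • ff x y (i + 1) - ff x y i := by
  have h0 := h i
  have h1 := h (i + 1)
  rw [show i + 1 + 1 = i + 2 by ring, show i + 1 + 2 = i + 3 by ring,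
    show i + 1 + 3 = i + 4 by ring] at h1
  have h2 : (yN x y i)⁻¹ * yN x y (i + 1) ^ 3 * (yN x y (i + 2) ^ 3)⁻¹ * yN x y (i + 3)
      = (yN x y (i + 1))⁻¹ * yN x y (i + 2) ^ 3 * (yN x y (i + 3) ^ 3)⁻¹ * yN x y (i + 4) :=
    Subtype.ext (by
      show (yy x y i)⁻¹ * yy x y (i + 1) ^ 3 * (yy x y (i + 2) ^ 3)⁻¹ * yy x y (i + 3)
        = (yy x y (i + 1))⁻¹ * yy x y (i + 2) ^ 3 * (yy x y (i + 3) ^ 3)⁻¹ * yy x y (i + 4)
      rw [← h0, ← h1])
  have h3 := congrArg (fun t => Additive.ofMul (cl x y t)) h2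
  simp only [map_mul, map_inv, map_pow, ofMul_mul, ofMul_inv, ofMul_pow] at h3
  change -ff x y i + 3 • ff x y (i + 1) + -(3 • ff x y (i + 2)) + ff x y (i + 3)
    = -ff x y (i + 1) + 3 • ff x y (i + 2) + -(3 • ff x y (i + 3)) + ff x y (i + 4) at h3
  have h4 : ff x y (i + 4) = (-ff x y i + 3 • ff x y (i + 1) + -(3 • ff x y (i + 2))
      + ff x y (i + 3)) - (-ff x y (i + 1) + 3 • ff x y (i + 2) + -(3 • ff x y (i + 3))) := by
    rw [h3]; abel
  rw [h4]
  abel

/-- the image of `S ⊓ NN x y` in the abelianization -/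
def BB (x y : G) (S : Subgroup G) : AddSubgroup (Additive (Abelianization (NN x y))) :=
  Subgroup.toAddSubgroup ((S.subgroupOf (NN x y)).map (cl x y))

open scoped commutatorElement in
theorem comm_le {x y : G} (h : ∀ a ∈ NN x y, ∀ b ∈ NN x y, cm a b ∈ Subgroup.zpowers (kk x y)) :
    commutator (NN x y) ≤ (Subgroup.zpowers (kk x y)).subgroupOf (NN x y) := by
  rw [commutator_def, Subgroup.commutator_le]
  intro a _ b _
  rw [Subgroup.mem_subgroupOf]
  have h1 := h (a⁻¹ : NN x y) (a⁻¹).2 (b⁻¹ : NN x y) (b⁻¹).2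
  have h2 : cm ((a⁻¹ : NN x y) : G) ((b⁻¹ : NN x y) : G) = ((⁅a, b⁆ : NN x y) : G) := by
    unfold cm
    rw [commutatorElement_def]
    simp
  rwa [h2] at h1

theorem mem_iff {x y : G} {S : Subgroup G}
    (h : ∀ a ∈ NN x y, ∀ b ∈ NN x y, cm a b ∈ Subgroup.zpowers (kk x y)) (hk : kk x y ∈ S) (i : ℤ) :
    ff x y i ∈ BB x y S ↔ yy x y i ∈ S := by
  constructor
  · intro hi
    have h1 : cl x y (yN x y i) ∈ (S.subgroupOf (NN x y)).map (cl x y) := hi
    obtain ⟨s, hs, he⟩ := h1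
    have hs' : (s : G) ∈ S := hs
    have h2 : s⁻¹ * yN x y i ∈ commutator (NN x y) := by
      have h3 : Abelianization.of s = Abelianization.of (yN x y i) := he
      have h4 : Abelianization.of (s⁻¹ * yN x y i) = 1 := by
        rw [map_mul, map_inv, h3, inv_mul_cancel]
      have h5 : s⁻¹ * yN x y i ∈ (Abelianization.of (G := NN x y)).ker := h4
      rwa [Abelianization.ker_of] at h5
    have h6 := comm_le h h2
    rw [Subgroup.mem_subgroupOf] at h6
    have h7 : Subgroup.zpowers (kk x y) ≤ S := by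
      rw [Subgroup.zpowers_le]; exact hk
    have h8 := h7 h6
    have h9 : (s : G) * ((s⁻¹ * yN x y i : NN x y) : G) ∈ S := S.mul_mem hs' h8
    have h10 : (s : G) * ((s⁻¹ * yN x y i : NN x y) : G) = yy x y i := by
      show (s : G) * ((s : G)⁻¹ * yy x y i) = yy x y i
      rw [mul_inv_cancel_left]
    rwa [h10] at h9
  · intro hi
    show cl x y (yN x y i) ∈ (S.subgroupOf (NN x y)).map (cl x y)
    exact ⟨yN x y i, hi, rfl⟩

end

end IV4

open IV4 in
theorem pr_V4 (hT0 : St_T0) (hN0 : St_N0) (hS1 : St_S1) (hS2 : St_S2) : St_V4 := by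
  intro G _ x y p hp hp5 hPG S j hk hj hjp hS
  have hrec := ff_rec ((hT0 G x y hPG.com).2.2 hPG.inv)
  have hN := (hN0 G x y p hPG).2
  have hmem := fun i => mem_iff (S := S) hN hk i
  have hp0 : ∀ i, p • ff x y i = 0 := ff_p hPG.ord
  have hf := hS1 (Additive (Abelianization (NN x y))) (ff x y) hrec
  set A := Additive (Abelianization (NN x y)) with hA
  let e : Fin 4 → A := ![ff x y 0, ff x y 1 - ff x y 0, ff x y 2 - (2 : ℤ) • ff x y 1 + ff x y 0,
    ff x y 3 - (3 : ℤ) • ff x y 2 + (3 : ℤ) • ff x y 1 - ff x y 0]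
  have hfe : ∀ n : ℕ, ff x y n = ∑ i : Fin 4, (n.choose i) • e i := by
    intro n
    rw [hf n, Fin.sum_univ_four]
    simp [e]
  have hpe : ∀ i, p • e i = 0 := by
    intro i
    fin_cases i
    · show p • ff x y 0 = 0
      exact hp0 0
    · show p • (ff x y 1 - ff x y 0) = 0
      rw [smul_sub, hp0, hp0, sub_zero]
    · show p • (ff x y 2 - (2 : ℤ) • ff x y 1 + ff x y 0) = 0
      rw [smul_add, smul_sub, smul_comm p (2 : ℤ), hp0, hp0, hp0]; simp
    · show p • (ff x y 3 - (3 : ℤ) • ff x y 2 + (3 : ℤ) • ff x y 1 - ff x y 0) = 0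
      rw [smul_sub, smul_add, smul_sub, smul_comm p (3 : ℤ), smul_comm p (3 : ℤ), hp0, hp0, hp0,
        hp0]; simp
  have he : ∀ i, e i ∈ BB x y S := by
    refine hS2 A p 4 e (BB x y S) j hp (fun i => by rw [hpe i]; exact zero_mem _) hj hjp ?_
    intro m
    rw [← hfe (j m)]
    exact (hmem _).2 (hS m)
  have hnat : ∀ n : ℕ, ff x y n ∈ BB x y S := by
    intro n
    rw [hfe n]
    exact sum_mem fun i _ => nsmul_mem (he i) _
  have hneg : ∀ n : ℕ, ff x y (-(n : ℤ)) ∈ BB x y S ∧ ff x y (-(n : ℤ) + 1) ∈ BB x y S ∧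
      ff x y (-(n : ℤ) + 2) ∈ BB x y S ∧ ff x y (-(n : ℤ) + 3) ∈ BB x y S := by
    intro n
    induction n with
    | zero =>
      refine ⟨?_, ?_, ?_, ?_⟩
      · simpa using hnat 0
      · simpa using hnat 1
      · simpa using hnat 2
      · simpa using hnat 3
    | succ n ih =>
      obtain ⟨i0, i1, i2, i3⟩ := ih
      have hr := hrec (-((n + 1 : ℕ) : ℤ))
      have e1 : -((n + 1 : ℕ) : ℤ) + 1 = -(n : ℤ) := by push_cast; ring
      have e2 : -((n + 1 : ℕ) : ℤ) + 2 = -(n : ℤ) + 1 := by push_cast; ring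
      have e3 : -((n + 1 : ℕ) : ℤ) + 3 = -(n : ℤ) + 2 := by push_cast; ring
      have e4 : -((n + 1 : ℕ) : ℤ) + 4 = -(n : ℤ) + 3 := by push_cast; ring
      rw [e1, e2, e3, e4] at hr
      rw [e1, e2, e3]
      refine ⟨?_, i0, i1, i2⟩
      have h5 : ff x y (-((n + 1 : ℕ) : ℤ)) = (4 : ℤ) • ff x y (-(n : ℤ) + 2)
          - (6 : ℤ) • ff x y (-(n : ℤ) + 1) + (4 : ℤ) • ff x y (-(n : ℤ))
          - ff x y (-(n : ℤ) + 3) := by
        rw [hr]; abel
      rw [h5]
      exact sub_mem (add_mem (sub_mem (zsmul_mem i2 _) (zsmul_mem i1 _)) (zsmul_mem i0 _)) i3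
  intro i
  rw [← hmem i]
  rcases Int.eq_nat_or_neg i with ⟨n, rfl | rfl⟩
  · exact hnat n
  · exact (hneg n).1

end Pool.Agent.Work.MP_f3c012_al.Df
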