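import Pool.Agent.Work.MP_f3c012_al.Df.StmtsA

/-!
# MP_f3c012_al, block DF, item W: identities in every group
-/

set_option autoImplicit false

namespace Pool.Agent.Work.MP_f3c012_al.Df

namespace IW

theorem cm_iff {G : Type} [Group G] (a b : G) : cm a b = 1 ↔ Commute a b := by
  have e : cm a b = (b * a)⁻¹ * (a * b) := by
    unfold cm
    rw [mul_inv_rev, mul_assoc]
  rw [e, inv_mul_eq_one]
  exact ⟨fun h => h.symm, fun h => Eq.symm h⟩

end IW

theorem pr_W : St_W := by
  intro G _ x y
  refine ⟨?_, ?_, ?_, IW.cm_iff, ?_⟩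
  · simp [yy]
  · intro i j
    unfold yy
    group
  · unfold rr cm yy
    group
  · intro i j
    unfold cm yy
    group

end Pool.Agent.Work.MP_f3c012_al.Df
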