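import Pool.Agent.Work.MP_f3c012_al.Df.StmtsG

/-!
# MP_f3c012_al, block DF, item Z2 (helper92): exact degrees from matrix representations
-/

set_option autoImplicit false

namespace Pool.Agent.Work.MP_f3c012_al.Df

namespace IZ2

/-- all entries are divisible by `X ^ n` -/
def Dv {R : Type} [CommRing R] (n : ℕ) (M : Matrix (Fin 2) (Fin 2) (PowerSeries R)) : Prop :=
  ∀ i j, (PowerSeries.X : PowerSeries R) ^ n ∣ M i j

section

variable {R : Type} [CommRing R]

theorem dv_zero (n : ℕ) : Dv n (0 : Matrix (Fin 2) (Fin 2) (PowerSeries R)) := by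
  intro i j
  rw [Matrix.zero_apply]
  exact dvd_zero _

theorem dv_all (M : Matrix (Fin 2) (Fin 2) (PowerSeries R)) : Dv 0 M := by
  intro i j
  rw [pow_zero]
  exact one_dvd _

theorem dv_add {n : ℕ} {A B : Matrix (Fin 2) (Fin 2) (PowerSeries R)} (hA : Dv n A)
    (hB : Dv n B) : Dv n (A + B) := by
  intro i j
  rw [Matrix.add_apply]
  exact dvd_add (hA i j) (hB i j)

theorem dv_neg {n : ℕ} {A : Matrix (Fin 2) (Fin 2) (PowerSeries R)} (hA : Dv n A) :
    Dv n (-A) := by
  intro i j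
  rw [Matrix.neg_apply]
  exact (dvd_neg).2 (hA i j)

theorem dv_mul {m n : ℕ} {A B : Matrix (Fin 2) (Fin 2) (PowerSeries R)} (hA : Dv m A)
    (hB : Dv n B) : Dv (m + n) (A * B) := by
  intro i j
  rw [Matrix.mul_apply]
  refine Finset.dvd_sum fun k _ => ?_
  rw [pow_add]
  exact mul_dvd_mul (hA i k) (hB k j)

theorem dv_smul {n : ℕ} (c : R) {A : Matrix (Fin 2) (Fin 2) (PowerSeries R)} (hA : Dv n A) :
    Dv n (c • A) := by
  intro i j
  rw [Matrix.smul_apply, PowerSeries.smul_eq_C_mul]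
  exact (hA i j).mul_left _

theorem dv_eq_zero {A : Matrix (Fin 2) (Fin 2) (PowerSeries R)} (h : ∀ n, Dv (n + 1) A) :
    A = 0 := by
  ext i j n
  have h2 := h n i j
  rw [PowerSeries.X_pow_dvd_iff] at h2
  rw [h2 n (by omega), Matrix.zero_apply, map_zero]

/-- every value of `φ` is congruent to one -/
theorem phi_sub (φ : FreeGroup (Fin 3) →* (Matrix (Fin 2) (Fin 2) (PowerSeries R))ˣ)
    (h : ∀ i, ∃ A : Matrix (Fin 2) (Fin 2) (PowerSeries R),
      (φ (FreeGroup.of i) : Matrix (Fin 2) (Fin 2) (PowerSeries R)) =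
        1 + (PowerSeries.X : PowerSeries R) • A) (g : FreeGroup (Fin 3)) :
    Dv 1 ((φ g : Matrix (Fin 2) (Fin 2) (PowerSeries R)) - 1) := by
  have hof : ∀ i, Dv 1 ((φ (FreeGroup.of i) : Matrix (Fin 2) (Fin 2) (PowerSeries R)) - 1) := by
    intro i
    obtain ⟨A, hA⟩ := h i
    rw [hA, add_sub_cancel_left]
    intro a b
    rw [Matrix.smul_apply, smul_eq_mul, pow_one]
    exact dvd_mul_right _ _
  have hinv : ∀ u : (Matrix (Fin 2) (Fin 2) (PowerSeries R))ˣ,
      Dv 1 ((u : Matrix (Fin 2) (Fin 2) (PowerSeries R)) - 1) →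
      Dv 1 (((u⁻¹ : (Matrix (Fin 2) (Fin 2) (PowerSeries R))ˣ) :
        Matrix (Fin 2) (Fin 2) (PowerSeries R)) - 1) := by
    intro u hu
    have e : ((u⁻¹ : (Matrix (Fin 2) (Fin 2) (PowerSeries R))ˣ) :
        Matrix (Fin 2) (Fin 2) (PowerSeries R)) - 1 =
        -(((u⁻¹ : (Matrix (Fin 2) (Fin 2) (PowerSeries R))ˣ) :
          Matrix (Fin 2) (Fin 2) (PowerSeries R)) *
          ((u : Matrix (Fin 2) (Fin 2) (PowerSeries R)) - 1)) := by
      rw [mul_sub, Units.inv_mul, mul_one, neg_sub]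
    rw [e]
    have := dv_mul (dv_all ((u⁻¹ : (Matrix (Fin 2) (Fin 2) (PowerSeries R))ˣ) :
          Matrix (Fin 2) (Fin 2) (PowerSeries R))) hu
    rw [zero_add] at this
    exact dv_neg this
  induction g using FreeGroup.induction_on with
  | C1 =>
    rw [map_one, Units.val_one, sub_self]
    exact dv_zero 1
  | of i => exact hof i
  | inv_of i _ =>
    rw [map_inv]
    exact hinv _ (hof i)
  | mul x y hx hy =>
    have e : ((φ (x * y) : (Matrix (Fin 2) (Fin 2) (PowerSeries R))ˣ) :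
        Matrix (Fin 2) (Fin 2) (PowerSeries R)) - 1 =
        (φ x : Matrix (Fin 2) (Fin 2) (PowerSeries R)) *
          ((φ y : Matrix (Fin 2) (Fin 2) (PowerSeries R)) - 1) +
          ((φ x : Matrix (Fin 2) (Fin 2) (PowerSeries R)) - 1) := by
      rw [map_mul, Units.val_mul, mul_sub, mul_one]
      abel
    rw [e]
    have := dv_mul (dv_all (φ x : Matrix (Fin 2) (Fin 2) (PowerSeries R))) hy
    rw [zero_add] at this
    exact dv_add this hx

end

section

variable (p : ℕ)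

/-- The algebra homomorphism induced by `φ`. -/
noncomputable def Th (φ : FreeGroup (Fin 3) →* (Matrix (Fin 2) (Fin 2) (PowerSeries (ZMod p)))ˣ) :
    MonoidAlgebra (ZMod p) (FreeGroup (Fin 3)) →ₐ[ZMod p]
      Matrix (Fin 2) (Fin 2) (PowerSeries (ZMod p)) :=
  MonoidAlgebra.lift (ZMod p) _ _ ((Units.coeHom _).comp φ)

theorem Th_of (φ : FreeGroup (Fin 3) →* (Matrix (Fin 2) (Fin 2) (PowerSeries (ZMod p)))ˣ)
    (g : FreeGroup (Fin 3)) :
    Th p φ (MonoidAlgebra.of (ZMod p) _ g) =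
      (φ g : Matrix (Fin 2) (Fin 2) (PowerSeries (ZMod p))) := by
  unfold Th
  rw [MonoidAlgebra.lift_of]
  rfl

theorem Th_aug (φ : FreeGroup (Fin 3) →* (Matrix (Fin 2) (Fin 2) (PowerSeries (ZMod p)))ˣ)
    (h : ∀ i, ∃ A : Matrix (Fin 2) (Fin 2) (PowerSeries (ZMod p)),
      (φ (FreeGroup.of i) : Matrix (Fin 2) (Fin 2) (PowerSeries (ZMod p))) =
        1 + (PowerSeries.X : PowerSeries (ZMod p)) • A) (n : ℕ) :
    ∀ a ∈ aug p (FreeGroup (Fin 3)) ^ (n + 1), Dv (n + 1) (Th p φ a) := by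
  have h1 : ∀ a ∈ aug p (FreeGroup (Fin 3)), Dv 1 (Th p φ a) := by
    intro a ha
    unfold aug at ha
    induction ha using Submodule.span_induction with
    | mem x hx =>
      obtain ⟨g, rfl⟩ := hx
      rw [map_sub, map_one, Th_of]
      exact phi_sub φ h g
    | zero => rw [map_zero]; exact dv_zero _
    | add x y _ _ hx hy => rw [map_add]; exact dv_add hx hy
    | smul c x _ hx =>
      rw [map_smul]
      exact dv_smul c hx
  induction n with
  | zero =>
    intro a ha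
    rw [zero_add, pow_one] at ha
    exact h1 a ha
  | succ n ih =>
    intro a ha
    rw [pow_succ] at ha
    refine Submodule.mul_induction_on ha (fun x hx y hy => ?_) (fun x y hx hy => ?_)
    · rw [map_mul]
      exact dv_mul (ih x hx) (h1 y hy)
    · rw [map_add]
      exact dv_add hx hy

end

end IZ2

open IZ2 in
theorem pr_Z2 : St_Z2 := by
  classical
  intro p hp φ hφ r m hr hm
  have : Fact p.Prime := ⟨hp⟩
  have hm' : MonoidAlgebra.of (ZMod p) _ r - 1 ∈ aug p (FreeGroup (Fin 3)) ^ (m + 1) := hm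
  have hex : ∃ n : ℕ,
      MonoidAlgebra.of (ZMod p) _ r - 1 ∉ aug p (FreeGroup (Fin 3)) ^ (n + 1) := by
    by_contra hcon
    push Not at hcon
    have h1 : Th p φ (MonoidAlgebra.of (ZMod p) _ r - 1) = 0 :=
      dv_eq_zero fun n => Th_aug p φ hφ n _ (hcon n)
    rw [map_sub, map_one, Th_of, sub_eq_zero] at h1
    exact hr (Units.ext h1)
  let n := Nat.find hex
  have hn : MonoidAlgebra.of (ZMod p) _ r - 1 ∉ aug p (FreeGroup (Fin 3)) ^ (n + 1) :=
    Nat.find_spec hex
  have hmn : m + 1 ≤ n := by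
    by_contra hlt
    push Not at hlt
    exact hn (pow_le_of_le p _ (n + 1) (m + 1) (by omega) (by omega) hm')
  refine ⟨n, hmn, ?_, hn⟩
  have h2 : ¬ (MonoidAlgebra.of (ZMod p) _ r - 1 ∉
      aug p (FreeGroup (Fin 3)) ^ ((n - 1) + 1)) :=
    Nat.find_min hex (by omega : n - 1 < n)
  push Not at h2
  rwa [show n - 1 + 1 = n by omega] at h2

end Pool.Agent.Work.MP_f3c012_al.Df
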