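import Pool.Agent.Work.MP_f3c012_al.Df.StmtsG

/-!
# MP_f3c012_al, block DF, item Z3: affine representations
-/

set_option autoImplicit false

namespace Pool.Agent.Work.MP_f3c012_al.Df

namespace IZ3

section aff

variable {R : Type*} [CommRing R]

/-- the matrix `(u, v)` -/
def aff (u : Rˣ) (v : R) : (Matrix (Fin 2) (Fin 2) R)ˣ where
  val := !![(u : R), v; 0, 1]
  inv := !![((u⁻¹ : Rˣ) : R), -(((u⁻¹ : Rˣ) : R) * v); 0, 1]
  val_inv := by
    rw [Matrix.mul_fin_two]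
    have h1 : (u : R) * ((u⁻¹ : Rˣ) : R) = 1 := Units.mul_inv u
    have h2 : (u : R) * -(((u⁻¹ : Rˣ) : R) * v) + v * 1 = 0 := by
      linear_combination (-v) * h1
    have h3 : (u : R) * ((u⁻¹ : Rˣ) : R) + v * 0 = 1 := by
      linear_combination h1
    rw [h2, h3, zero_mul, zero_mul, one_mul, zero_add, zero_add, mul_one, Matrix.one_fin_two]
  inv_val := by
    rw [Matrix.mul_fin_two]
    have h1 : ((u⁻¹ : Rˣ) : R) * (u : R) = 1 := Units.inv_mul u
    have h2 : ((u⁻¹ : Rˣ) : R) * v + -(((u⁻¹ : Rˣ) : R) * v) * 1 = 0 := by ring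
    have h3 : ((u⁻¹ : Rˣ) : R) * (u : R) + -(((u⁻¹ : Rˣ) : R) * v) * 0 = 1 := by
      linear_combination h1
    rw [h2, h3, zero_mul, zero_mul, one_mul, zero_add, zero_add, mul_one, Matrix.one_fin_two]

theorem aff_mul (u u' : Rˣ) (v v' : R) : aff u v * aff u' v' = aff (u * u') (u * v' + v) := by
  apply Units.ext
  change !![(u : R), v; 0, 1] * !![(u' : R), v'; 0, 1] = !![((u * u' : Rˣ) : R), u * v' + v; 0, 1]
  rw [Matrix.mul_fin_two, Units.val_mul, mul_zero, add_zero, mul_one, zero_mul, zero_mul,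
    zero_add, zero_add, one_mul, mul_one]

theorem aff_one : aff (1 : Rˣ) (0 : R) = 1 := by
  apply Units.ext
  change !![((1 : Rˣ) : R), 0; 0, 1] = 1
  rw [Units.val_one, Matrix.one_fin_two]

theorem aff_inv (u : Rˣ) (v : R) : (aff u v)⁻¹ = aff u⁻¹ (-(((u⁻¹ : Rˣ) : R) * v)) := by
  symm
  rw [eq_inv_iff_mul_eq_one, aff_mul, inv_mul_cancel, add_neg_cancel, aff_one]

theorem aff_ne (v : R) (hv : v ≠ 0) : aff (1 : Rˣ) v ≠ 1 := by
  intro h
  have h1 : !![((1 : Rˣ) : R), v; 0, 1] = (1 : Matrix (Fin 2) (Fin 2) R) := congrArg Units.val h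
  have h2 := congrFun (congrFun h1 0) 1
  rw [Matrix.one_apply_ne (by decide)] at h2
  exact hv h2

theorem cm1 (u : Rˣ) (s : R) :
    cm (aff u 0) (aff 1 s) = aff 1 (s * (1 - ((u⁻¹ : Rˣ) : R))) := by
  unfold cm
  rw [aff_inv, aff_inv, aff_mul, aff_mul, aff_mul]
  have h1 : u⁻¹ * 1⁻¹ * u * 1 = 1 := by group
  have h2 : ((u⁻¹ : Rˣ) : R) * (u : R) = 1 := Units.inv_mul u
  rw [h1]
  congr 1
  push_cast
  rw [inv_one, Units.val_one]
  linear_combination s * h2

theorem cm2 (u : Rˣ) (s : R) :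
    cm (aff 1 s) (aff u 0) = aff 1 (s * (((u⁻¹ : Rˣ) : R) - 1)) := by
  unfold cm
  rw [aff_inv, aff_inv, aff_mul, aff_mul, aff_mul, inv_one, one_mul, mul_one, inv_mul_cancel]
  congr 1
  push_cast
  ring

theorem yy2 (u : Rˣ) (s : R) : ∃ w : R, yy (aff u 0) (aff 1 s) 2 = aff 1 w := by
  refine ⟨((u⁻¹ : Rˣ) : R) * ((u⁻¹ : Rˣ) : R) * s, ?_⟩
  unfold yy
  have h1 : aff u (0 : R) ^ (-2 : ℤ) = aff (u⁻¹ * u⁻¹) 0 := by
    rw [zpow_neg, zpow_ofNat, pow_two, aff_mul, mul_zero, add_zero, aff_inv, mul_zero, neg_zero,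
      mul_inv]
  have h2 : aff u (0 : R) ^ (2 : ℤ) = aff (u * u) 0 := by
    rw [zpow_ofNat, pow_two, aff_mul, mul_zero, add_zero]
  rw [h1, h2, aff_mul, aff_mul, mul_one]
  have h3 : u⁻¹ * u⁻¹ * (u * u) = 1 := by group
  rw [h3]
  congr 1
  push_cast
  ring

theorem TT2 (u : Rˣ) (s : R) :
    TT (aff u 0) (aff 1 s) = aff 1 (s * (((u⁻¹ : Rˣ) : R) - 1) ^ 3) := by
  obtain ⟨w, hw⟩ := yy2 u s
  unfold TT
  rw [hw, cm2, cm2, cm2, aff_inv, aff_mul, aff_mul, inv_one, one_mul, one_mul]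
  congr 1
  push_cast
  ring

end aff

theorem map_cm {G H : Type*} [Group G] [Group H] (φ : G →* H) (a b : G) :
    φ (cm a b) = cm (φ a) (φ b) := by
  unfold cm
  rw [map_mul, map_mul, map_mul, map_inv, map_inv]

theorem map_rr {G H : Type*} [Group G] [Group H] (φ : G →* H) (a b : G) :
    φ (rr a b) = rr (φ a) (φ b) := by
  unfold rr
  rw [map_cm, map_cm]

theorem map_yy {G H : Type*} [Group G] [Group H] (φ : G →* H) (a b : G) (n : ℤ) :
    φ (yy a b n) = yy (φ a) (φ b) n := by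
  unfold yy
  rw [map_mul, map_mul, map_zpow, map_zpow]

theorem map_ss {G H : Type*} [Group G] [Group H] (φ : G →* H) (a b : G) :
    φ (ss a b) = ss (φ a) (φ b) := by
  unfold ss TT
  rw [map_cm, map_mul, map_mul, map_inv, map_yy, map_cm, map_cm, map_cm]

/-- the homomorphism with given values on two generators -/
theorem main (p : ℕ) (i j : Fin 3) (hij : i ≠ j)
    (a b : (Matrix (Fin 2) (Fin 2) (PowerSeries (ZMod p)))ˣ)
    (ha : ∃ A : Matrix (Fin 2) (Fin 2) (PowerSeries (ZMod p)),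
      (a : Matrix (Fin 2) (Fin 2) (PowerSeries (ZMod p))) =
        1 + (PowerSeries.X : PowerSeries (ZMod p)) • A)
    (hb : ∃ A : Matrix (Fin 2) (Fin 2) (PowerSeries (ZMod p)),
      (b : Matrix (Fin 2) (Fin 2) (PowerSeries (ZMod p))) =
        1 + (PowerSeries.X : PowerSeries (ZMod p)) • A) :
    ∃ φ : FreeGroup (Fin 3) →* (Matrix (Fin 2) (Fin 2) (PowerSeries (ZMod p)))ˣ,
      (∀ l, ∃ A : Matrix (Fin 2) (Fin 2) (PowerSeries (ZMod p)),
        (φ (FreeGroup.of l) : Matrix (Fin 2) (Fin 2) (PowerSeries (ZMod p))) =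
          1 + (PowerSeries.X : PowerSeries (ZMod p)) • A) ∧
      φ (FreeGroup.of i) = a ∧ φ (FreeGroup.of j) = b := by
  refine ⟨FreeGroup.lift (fun l => if l = i then a else if l = j then b else 1), ?_, ?_, ?_⟩
  · intro l
    rw [FreeGroup.lift_apply_of]
    by_cases h1 : l = i
    · rw [if_pos h1]
      exact ha
    · rw [if_neg h1]
      by_cases h2 : l = j
      · rw [if_pos h2]
        exact hb
      · rw [if_neg h2]
        exact ⟨0, by rw [smul_zero, add_zero, Units.val_one]⟩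
  · rw [FreeGroup.lift_apply_of, if_pos rfl]
  · rw [FreeGroup.lift_apply_of, if_neg hij.symm, if_pos rfl]

end IZ3

open IZ3 in
theorem pr_Z3 : St_Z3 := by
  intro p i j hp hij
  have : Fact p.Prime := ⟨hp⟩
  have hu : IsUnit (1 + PowerSeries.X : PowerSeries (ZMod p)) := by
    rw [PowerSeries.isUnit_iff_constantCoeff, map_add, map_one, PowerSeries.constantCoeff_X,
      add_zero]
    exact isUnit_one
  obtain ⟨u, hu⟩ := hu
  have hX : (PowerSeries.X : PowerSeries (ZMod p)) ≠ 0 := PowerSeries.X_ne_zero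
  have hui : ((u⁻¹ : (PowerSeries (ZMod p))ˣ) : PowerSeries (ZMod p)) - 1 ≠ 0 := by
    intro h
    have h1 : u⁻¹ = 1 := Units.ext (by rw [Units.val_one]; exact sub_eq_zero.1 h)
    have h2 : u = 1 := inv_eq_one.1 h1
    rw [h2, Units.val_one] at hu
    exact hX (by linear_combination -hu)
  have hA : ∃ A : Matrix (Fin 2) (Fin 2) (PowerSeries (ZMod p)),
      (aff u 0 : Matrix (Fin 2) (Fin 2) (PowerSeries (ZMod p))) =
        1 + (PowerSeries.X : PowerSeries (ZMod p)) • A := by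
    refine ⟨!![1, 0; 0, 0], ?_⟩
    change !![(u : PowerSeries (ZMod p)), 0; 0, 1] = _
    rw [hu, Matrix.one_fin_two]
    ext a b : 2
    fin_cases a <;> fin_cases b <;> simp
  have hB : ∃ A : Matrix (Fin 2) (Fin 2) (PowerSeries (ZMod p)),
      (aff (1 : (PowerSeries (ZMod p))ˣ) PowerSeries.X :
        Matrix (Fin 2) (Fin 2) (PowerSeries (ZMod p))) = 1 + (PowerSeries.X : PowerSeries (ZMod p)) • A := by
    refine ⟨!![0, 1; 0, 0], ?_⟩
    change !![((1 : (PowerSeries (ZMod p))ˣ) : PowerSeries (ZMod p)), PowerSeries.X; 0, 1] = _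
    rw [Units.val_one, Matrix.one_fin_two]
    ext a b : 2
    fin_cases a <;> fin_cases b <;> simp
  refine ⟨?_, ?_⟩
  · obtain ⟨φ, h1, h2, h3⟩ := main p i j hij (aff 1 PowerSeries.X) (aff u 0) hB hA
    refine ⟨φ, h1, ?_⟩
    rw [map_rr, h2, h3]
    unfold rr
    rw [cm1, cm1]
    refine aff_ne _ (mul_ne_zero (mul_ne_zero hX ?_) ?_)
    · intro h
      exact hui (by linear_combination -h)
    · intro h
      exact hui (by linear_combination -h)
  · obtain ⟨φ, h1, h2, h3⟩ := main p i j hij (aff u 0) (aff 1 PowerSeries.X) hA hB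
    refine ⟨φ, h1, ?_⟩
    rw [map_ss, h2, h3]
    unfold ss
    rw [TT2, cm2]
    exact aff_ne _ (mul_ne_zero (mul_ne_zero hX (pow_ne_zero _ hui)) hui)

end Pool.Agent.Work.MP_f3c012_al.Df
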