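import Pool.Agent.Work.MP_f3c012_al.Df.StmtsG

/-!
# MP_f3c012_al, block DF, item Z4: the degrees of the seven relators
-/

set_option autoImplicit false

namespace Pool.Agent.Work.MP_f3c012_al.Df

namespace IZ4

section comm

variable {F A : Type*} [Group F] [CommGroup A] (φ : F →* A)

theorem map_cm (a b : F) : φ (cm a b) = 1 := by
  unfold cm
  rw [map_mul, map_mul, map_mul, map_inv, map_inv]
  rw [mul_assoc, mul_comm (φ a)⁻¹, mul_assoc, inv_mul_cancel_left, inv_mul_cancel]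

theorem map_rr (x y : F) : φ (rr x y) = 1 := map_cm φ _ _

theorem map_TT (x y : F) : φ (TT x y) = 1 := by
  unfold TT
  rw [map_mul, map_mul, map_cm, mul_one, map_inv, mul_inv_cancel]

end comm

theorem expo_single (i : Fin 3) : expo 3 (Pi.single i 1) (FreeGroup.of i) =
    Multiplicative.ofAdd (1 : ℤ) := by
  unfold expo
  rw [FreeGroup.lift_apply_of, Pi.single_eq_same]

theorem pow_ne (n : ℕ) (hn : n ≠ 0) : (Multiplicative.ofAdd (1 : ℤ)) ^ n ≠ 1 := by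
  intro h
  rw [← ofAdd_nsmul] at h
  have h1 : n • (1 : ℤ) = 0 := by
    have := congrArg Multiplicative.toAdd h
    simpa using this
  simp at h1
  exact hn h1

end IZ4

theorem pr_Z4 (hZ1 : St_Z1) (hZ2 : St_Z2) (hZ3 : St_Z3) : St_Z4 := by
  intro p hp h37 i
  have hfact : Fact p.Prime := ⟨hp⟩
  have hp0 : p ≠ 0 := hp.ne_zero
  have h8 : 8 ≤ p := by omega
  have key : ∀ (j l : Fin 3) (r : FreeGroup (Fin 3)) (m : ℕ), r ∈ zas p (FreeGroup (Fin 3)) m →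
      (∃ φ : FreeGroup (Fin 3) →* (Matrix (Fin 2) (Fin 2) (PowerSeries (ZMod p)))ˣ,
        (∀ l, ∃ A : Matrix (Fin 2) (Fin 2) (PowerSeries (ZMod p)),
          (φ (FreeGroup.of l) : Matrix (Fin 2) (Fin 2) (PowerSeries (ZMod p))) =
            1 + (PowerSeries.X : PowerSeries (ZMod p)) • A) ∧ φ r ≠ 1) →
      ∃ k : ℕ, m + 1 ≤ k ∧
        MonoidAlgebra.of (ZMod p) _ r - 1 ∈ aug p (FreeGroup (Fin 3)) ^ k ∧
        MonoidAlgebra.of (ZMod p) _ r - 1 ∉ aug p (FreeGroup (Fin 3)) ^ (k + 1) := by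
    rintro - - r m hr ⟨φ, h1, h2⟩
    exact hZ2 p hp φ h1 r m h2 hr
  have hrr : ∀ j l : Fin 3, j ≠ l → ∃ k : ℕ, 3 ≤ k ∧
      MonoidAlgebra.of (ZMod p) _ (rr (FreeGroup.of j) (FreeGroup.of l)) - 1 ∈
        aug p (FreeGroup (Fin 3)) ^ k ∧
      MonoidAlgebra.of (ZMod p) _ (rr (FreeGroup.of j) (FreeGroup.of l)) - 1 ∉
        aug p (FreeGroup (Fin 3)) ^ (k + 1) := fun j l hjl =>
    key j l _ 2 (hZ1 p _ (FreeGroup.of j) (FreeGroup.of l) hp).1 (hZ3 p j l hp hjl).1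
  have hss : ∀ j l : Fin 3, j ≠ l → ∃ k : ℕ, 5 ≤ k ∧
      MonoidAlgebra.of (ZMod p) _ (ss (FreeGroup.of j) (FreeGroup.of l)) - 1 ∈
        aug p (FreeGroup (Fin 3)) ^ k ∧
      MonoidAlgebra.of (ZMod p) _ (ss (FreeGroup.of j) (FreeGroup.of l)) - 1 ∉
        aug p (FreeGroup (Fin 3)) ^ (k + 1) := fun j l hjl =>
    key j l _ 4 (hZ1 p _ (FreeGroup.of j) (FreeGroup.of l) hp).2.2.1 (hZ3 p j l hp hjl).2
  fin_cases i
  · refine exists_deg p 3 (Pi.single 1 1) (FreeGroup.of 1 ^ p) ?_ 7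
      ((hZ1 p _ (FreeGroup.of 1) (FreeGroup.of 1) hp).2.2.2 h8).1
    rw [map_pow, IZ4.expo_single]
    exact IZ4.pow_ne p hp0
  · refine exists_deg p 3 (Pi.single 2 1)
      (rr (FreeGroup.of 0) (FreeGroup.of 1) * (FreeGroup.of 2 ^ (p ^ 2))⁻¹) ?_ 2 ?_
    · rw [map_mul, IZ4.map_rr, one_mul, map_inv, map_pow, IZ4.expo_single, ne_eq, inv_eq_one]
      exact IZ4.pow_ne _ (pow_ne_zero 2 hp0)
    · exact mul_mem (hZ1 p _ (FreeGroup.of 0) (FreeGroup.of 1) hp).1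
        (inv_mem (zas_le p _ 2 7 (by omega)
          ((hZ1 p _ (FreeGroup.of 2) (FreeGroup.of 2) hp).2.2.2 h8).2))
  · exact hss 0 1 (by decide)
  · exact hrr 2 1 (by decide)
  · exact hss 2 1 (by decide)
  · exact hrr 0 2 (by decide)
  · refine exists_deg p 3 (Pi.single 0 1)
      (TT (FreeGroup.of 0) (FreeGroup.of 2) * (FreeGroup.of 0 ^ p)⁻¹) ?_ 3 ?_
    · rw [map_mul, IZ4.map_TT, one_mul, map_inv, map_pow, IZ4.expo_single, ne_eq, inv_eq_one]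
      exact IZ4.pow_ne _ hp0
    · exact mul_mem (hZ1 p _ (FreeGroup.of 0) (FreeGroup.of 2) hp).2.1
        (inv_mem (zas_le p _ 3 7 (by omega)
          ((hZ1 p _ (FreeGroup.of 0) (FreeGroup.of 0) hp).2.2.2 h8).1))

end Pool.Agent.Work.MP_f3c012_al.Df
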