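import Pool.Agent.Work.MP_f3c012_al.Df.StmtsG

/-!
# MP_f3c012_al, block DF, item Z5: the Golod-Shafarevich inequality for the seven relators
-/

set_option autoImplicit false

namespace Pool.Agent.Work.MP_f3c012_al.Df

theorem pr_Z5 (hZ4 : St_Z4) : St_Z5 := by
  intro p hp h37
  choose k hk1 hk2 hk3 using hZ4 p hp h37
  refine ⟨?_, ?_⟩
  · rintro ⟨i, hi⟩
    apply hk3 i
    rw [hi, map_one, sub_self]
    exact zero_mem _
  have h0 : ∀ r : Set.range (rel p), ∃ i, rel p i = r := fun r => r.2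
  choose idx hidx using h0
  have hinj : Function.Injective idx := fun r r' h => by
    apply Subtype.ext
    rw [← hidx r, ← hidx r', h]
  have hfin : Finite (Set.range (rel p)) := Set.finite_range _
  have hs : Summable (fun r : Set.range (rel p) => (12 / 25 : ℝ) ^ k (idx r)) :=
    Summable.of_finite
  refine ⟨fun r => k (idx r), fun r => ⟨?_, ?_⟩, hs, ?_⟩
  · have h1 := hk2 (idx r)
    rwa [hidx r] at h1
  · have h1 := hk3 (idx r)
    rwa [hidx r] at h1
  · have h1 : ∑' r : Set.range (rel p), (12 / 25 : ℝ) ^ k (idx r) ≤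
        ∑' i : Fin 7, (12 / 25 : ℝ) ^ k i :=
      Summable.tsum_le_tsum_of_inj idx hinj (fun _ _ => by positivity) (fun _ => le_rfl) hs
        Summable.of_finite
    have h2 : ∑' i : Fin 7, (12 / 25 : ℝ) ^ k i ≤
        ∑ i : Fin 7, (12 / 25 : ℝ) ^ (![8, 3, 5, 3, 5, 3, 4] : Fin 7 → ℕ) i := by
      rw [tsum_fintype]
      exact Finset.sum_le_sum fun i _ =>
        pow_le_pow_of_le_one (by norm_num) (by norm_num) (hk1 i)
    have h3 : ∑ i : Fin 7, (12 / 25 : ℝ) ^ (![8, 3, 5, 3, 5, 3, 4] : Fin 7 → ℕ) i =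
        (12 / 25) ^ 8 + (12 / 25) ^ 3 + (12 / 25) ^ 5 + (12 / 25) ^ 3 + (12 / 25) ^ 5 +
          (12 / 25) ^ 3 + (12 / 25) ^ 4 := by
      rw [Fin.sum_univ_seven]
      rfl
    rw [h3] at h2
    have h4 := h1.trans h2
    norm_num at h4 ⊢
    linarith

end Pool.Agent.Work.MP_f3c012_al.Df
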