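import Pool.Agent.Work.MP_f3c012_al.Df.I_Z1
import Pool.Agent.Work.MP_f3c012_al.Df.I_Z2
import Pool.Agent.Work.MP_f3c012_al.Df.I_Z3
import Pool.Agent.Work.MP_f3c012_al.Df.I_Z4
import Pool.Agent.Work.MP_f3c012_al.Df.I_Z5
import Pool.Agent.Work.MP_f3c012_al.Df.I_W
import Pool.Agent.Work.MP_f3c012_al.Df.I_T0
import Pool.Agent.Work.MP_f3c012_al.Df.I_K
import Pool.Agent.Work.MP_f3c012_al.Df.I_B
import Pool.Agent.Work.MP_f3c012_al.Df.I_N0
import Pool.Agent.Work.MP_f3c012_al.Df.I_S1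
import Pool.Agent.Work.MP_f3c012_al.Df.I_F2
import Pool.Agent.Work.MP_f3c012_al.Df.I_Fi
import Pool.Agent.Work.MP_f3c012_al.Df.I_AV
import Pool.Agent.Work.MP_f3c012_al.Df.I_S2
import Pool.Agent.Work.MP_f3c012_al.Df.I_V4
import Pool.Agent.Work.MP_f3c012_al.Df.I_CB
import Pool.Agent.Work.MP_f3c012_al.Df.I_E2
import Pool.Agent.Work.MP_f3c012_al.Df.I_SC
import Pool.Agent.Work.MP_f3c012_al.Df.I_HE
import Pool.Agent.Work.MP_f3c012_al.Df.I_E3
import Pool.Agent.Work.MP_f3c012_al.Df.I_A12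
import Pool.Agent.Work.MP_f3c012_al.Df.I_V3
import Pool.Agent.Work.MP_f3c012_al.Df.I_E4
import Pool.Agent.Work.MP_f3c012_al.Df.I_A13
import Pool.Agent.Work.MP_f3c012_al.Df.I_HAS
import Pool.Agent.Work.MP_f3c012_al.Df.I_HL1
import Pool.Agent.Work.MP_f3c012_al.Df.I_HLM
import Pool.Agent.Work.MP_f3c012_al.Df.I_HL2
import Pool.Agent.Work.MP_f3c012_al.Df.I_C0
import Pool.Agent.Work.MP_f3c012_al.Df.I_HCF
import Pool.Agent.Work.MP_f3c012_al.Df.I_HH1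
import Pool.Agent.Work.MP_f3c012_al.Df.I_F1
import Pool.Agent.Work.MP_f3c012_al.Df.I_RE
import Pool.Agent.Work.MP_f3c012_al.Df.I_TR
import Pool.Agent.Work.MP_f3c012_al.Df.I_HEX
import Pool.Agent.Work.MP_f3c012_al.Df.I_HPR
import Pool.Agent.Work.MP_f3c012_al.Df.I_FA
import Pool.Agent.Work.MP_f3c012_al.Df.I_HFA
import Pool.Agent.Work.MP_f3c012_al.Df.I_HFN

/-!
# MP_f3c012_al, block DF: assembly
-/

set_option autoImplicit false

namespace Pool.Agent.Work.MP_f3c012_al.Df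

theorem th_Z1 : St_Z1 := pr_Z1
theorem th_Z2 : St_Z2 := pr_Z2
theorem th_Z3 : St_Z3 := pr_Z3
theorem th_Z4 : St_Z4 := pr_Z4 th_Z1 th_Z2 th_Z3
theorem th_Z5 : St_Z5 := pr_Z5 th_Z4
theorem th_W : St_W := pr_W
theorem th_T0 : St_T0 := pr_T0 th_W
theorem th_K : St_K := pr_K th_W th_T0
theorem th_B : St_B := pr_B th_T0 th_K
theorem th_N0 : St_N0 := pr_N0 th_W th_K th_B
theorem th_S1 : St_S1 := pr_S1
theorem th_F2 : St_F2 := pr_F2 th_W th_T0 th_K th_B th_N0 th_S1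
theorem th_Fi : St_Fi := pr_Fi th_W th_K th_N0
theorem th_AV : St_AV := pr_AV
theorem th_S2 : St_S2 := pr_S2
theorem th_V4 : St_V4 := pr_V4 th_T0 th_N0 th_S1 th_S2
theorem th_CB : St_CB := pr_CB
theorem th_E2 : St_E2 := pr_E2 th_K th_N0 th_V4 th_AV th_CB
theorem th_SC : St_SC := pr_SC
theorem th_HE : St_HE := pr_HE th_AV
theorem th_E3 : St_E3 := pr_E3 th_W th_K th_B th_AV th_SC th_HE
theorem th_A12 : St_A12 := pr_A12 th_K th_AV th_E2 th_E3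
theorem th_V3 : St_V3 := pr_V3 th_T0 th_N0 th_S1 th_S2 th_F2
theorem th_E4 : St_E4 := pr_E4 th_W th_T0 th_K th_N0 th_F2 th_V3 th_AV th_CB
theorem th_A13 : St_A13 := pr_A13 th_K th_B th_F2 th_AV th_HE th_E4
theorem th_HAS : St_HAS := pr_HAS
theorem th_HL1 : St_HL1 := pr_HL1
theorem th_HLM : St_HLM := pr_HLM
theorem th_HL2 : St_HL2 := pr_HL2 th_HL1 th_HLM
theorem th_C0 : St_C0 := pr_C0
theorem th_HCF : St_HCF := pr_HCF
theorem th_HH1 : St_HH1 := pr_HH1 th_F2 th_Fi th_A12 th_A13 th_HAS th_HL2 th_C0 th_HCF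
theorem th_F1 : St_F1 := pr_F1 th_W th_T0 th_K th_N0 th_S1
theorem th_RE : St_RE := pr_RE th_W th_F1 th_F2
theorem th_TR : St_TR := pr_TR th_W
theorem th_HEX : St_HEX := pr_HEX th_C0
theorem th_HPR : St_HPR := pr_HPR th_RE th_TR th_HEX
theorem th_FA : St_FA := pr_FA
theorem th_HFA : St_HFA := pr_HFA th_FA
theorem th_HFN : St_HFN := pr_HFN th_HH1 th_HPR th_HFA

/-- the Zassenhaus degrees of the seven relators -/
theorem degrees (p : ℕ) (hp : p.Prime) (h : 37 ≤ p) : 1 ∉ Set.range (rel p) ∧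
    ∃ deg : Set.range (rel p) → ℕ, (∀ r : Set.range (rel p),
      MonoidAlgebra.of (ZMod p) _ (r : FreeGroup (Fin 3)) - 1 ∈
        aug p (FreeGroup (Fin 3)) ^ (deg r) ∧
      MonoidAlgebra.of (ZMod p) _ (r : FreeGroup (Fin 3)) - 1 ∉
        aug p (FreeGroup (Fin 3)) ^ (deg r + 1)) ∧
    Summable (fun r : Set.range (rel p) => (12 / 25 : ℝ) ^ deg r) ∧
    1 - 3 * (12 / 25 : ℝ) + ∑' r : Set.range (rel p), (12 / 25 : ℝ) ^ deg r < 0 :=
  th_Z5 p hp h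

/-- (FH) and (FAb) -/
theorem properties (p : ℕ) (hp : p.Prime) (h : 37 ≤ p) :
    FH (PresentedGroup (Set.range (rel p))) ∧ FAb (PresentedGroup (Set.range (rel p))) :=
  th_HFN p hp h

end Pool.Agent.Work.MP_f3c012_al.Df
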