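import Pool.Agent.Work.MP_f3c012_al.AdjC
import Pool.Agent.Work.MP_f3c012_al.AdjB

/-!
# MP_f3c012_al, block DF (deficiency -4): definitions

Captain helper50.  For `x`, `y` in a group put `y_i = x^(-i) y x^i` (`yy x y i`).  The word `TT x y`
is a conjugate of `[y, x, x, x]`; if `y_0` and `y_1` commute it equals `y_0^(-1) y_1^3 y_2^(-3) y_3`.
-/

set_option autoImplicit false

open scoped RealInnerProductSpace

namespace Pool.Agent.Work.MP_f3c012_al.Df

section words

variable {G : Type*} [Group G]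

/-- the commutator `a⁻¹ b⁻¹ a b` -/
def cm (a b : G) : G := a⁻¹ * b⁻¹ * a * b

/-- `y_i = x^(-i) y x^i` -/
def yy (x y : G) (i : ℤ) : G := x ^ (-i) * y * x ^ i

/-- the element `T` -/
def TT (x y : G) : G := yy x y 2 * cm (cm (cm y x) x) x * (yy x y 2)⁻¹

/-- the first relator of a pair -/
def rr (x y : G) : G := cm y (cm y x)

/-- the second relator of a pair -/
def ss (x y : G) : G := cm (TT x y) x

/-- the central element of a pair -/
def kk (x y : G) : G := cm y (yy x y 2)

/-- the normal closure of `y` in the subgroup generated by `x` and `y` -/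
def NN (x y : G) : Subgroup G := Subgroup.closure (Set.range (yy x y))

/-- a pair: `y` has odd order, commutes with `y_1`, and `T` commutes with `x` -/
structure PG (x y : G) (m : ℕ) : Prop where
  odd : Odd m
  ord : y ^ m = 1
  com : Commute y (yy x y 1)
  inv : Commute (TT x y) x

/-- the situation after division by the central element: three generators, three pairs -/
structure Tri (p : ℕ) (x₁ x₂ x₃ : G) : Prop where
  gen : Subgroup.closure {x₁, x₂, x₃} = ⊤
  o2 : x₂ ^ p = 1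
  o3 : x₃ ^ (p ^ 2) = 1
  p12 : PG x₁ x₂ p
  p32 : PG x₃ x₂ p
  p13 : PG x₁ x₃ (p ^ 2)
  t13 : TT x₁ x₃ = x₁ ^ p

/-- Property (FAb): every subgroup of finite index has finite abelianization. -/
def FAb (G : Type) [Group G] : Prop :=
  ∀ H : Subgroup G, H.index ≠ 0 → Finite (Abelianization H)

end words

/-- the seven relators -/
def rel (p : ℕ) : Fin 7 → FreeGroup (Fin 3) :=
  ![FreeGroup.of 1 ^ p,
    rr (FreeGroup.of 0) (FreeGroup.of 1) * (FreeGroup.of 2 ^ (p ^ 2))⁻¹,
    ss (FreeGroup.of 0) (FreeGroup.of 1),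
    rr (FreeGroup.of 2) (FreeGroup.of 1),
    ss (FreeGroup.of 2) (FreeGroup.of 1),
    rr (FreeGroup.of 0) (FreeGroup.of 2),
    TT (FreeGroup.of 0) (FreeGroup.of 2) * (FreeGroup.of 0 ^ p)⁻¹]

section rep

variable {G : Type*} [Group G] {V : Type*} [NormedAddCommGroup V] [InnerProductSpace ℝ V]

/-- the vectors fixed by `g` -/
def fx (ρ : G →* (V ≃ₗᵢ[ℝ] V)) (g : G) : Submodule ℝ V where
  carrier := {v | ρ g v = v}
  add_mem' := by
    intro a b ha hb
    have ha' : ρ g a = a := ha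
    have hb' : ρ g b = b := hb
    show ρ g (a + b) = a + b
    rw [map_add, ha', hb']
  zero_mem' := map_zero _
  smul_mem' := by
    intro c a ha
    have ha' : ρ g a = a := ha
    show ρ g (c • a) = c • a
    rw [map_smul, ha']

/-- the average over the powers of `g` (`g ^ M = 1`): the projection onto `fx ρ g` -/
noncomputable def av (ρ : G →* (V ≃ₗᵢ[ℝ] V)) (M : ℕ) (g : G) : V →ₗ[ℝ] V :=
  (M : ℝ)⁻¹ • ∑ i ∈ Finset.range M, ((ρ (g ^ i)).toLinearEquiv : V →ₗ[ℝ] V)

/-- the angle between `V₁` and `V₂` modulo `V₁ ⊓ V₂` has cosine at most `ε` -/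
def Ang (V₁ V₂ : Submodule ℝ V) (ε : ℝ) : Prop :=
  ∀ w ∈ V₁, (∀ u ∈ V₁ ⊓ V₂, ⟪w, u⟫ = 0) → ∀ v ∈ V₂, |⟪w, v⟫| ≤ ε * ‖w‖ * ‖v‖

end rep

end Pool.Agent.Work.MP_f3c012_al.Df
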