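import Pool.Agent.Work.MP_f3c012_al.Df.StmtsA
import Pool.Agent.Work.MP_f3c012_al.Df.StmtsR

/-!
# MP_f3c012_al, block DF, item A12: the angle of a pair of order `p`
-/

set_option autoImplicit false

open scoped RealInnerProductSpace

namespace Pool.Agent.Work.MP_f3c012_al.Df

namespace IA12

/-- the stabilizer of a vector -/
def st {G : Type*} [Group G] {V : Type*} [NormedAddCommGroup V] [InnerProductSpace ℝ V]
    (ρ : G →* (V ≃ₗᵢ[ℝ] V)) (u : V) : Subgroup G where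
  carrier := {g | ρ g u = u}
  one_mem' := by
    show ρ 1 u = u
    rw [map_one]
    rfl
  mul_mem' := by
    intro a b ha hb
    have ha' : ρ a u = u := ha
    have hb' : ρ b u = u := hb
    show ρ (a * b) u = u
    rw [map_mul]
    show ρ a (ρ b u) = u
    rw [hb', ha']
  inv_mem' := by
    intro a ha
    have ha' : ρ a u = u := ha
    show ρ a⁻¹ u = u
    have h : ρ a⁻¹ (ρ a u) = u := by
      have h1 : ρ (a⁻¹ * a) u = u := by
        rw [inv_mul_cancel, map_one]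
        rfl
      rw [map_mul] at h1
      exact h1
    rw [ha'] at h
    exact h

lemma mem_st {G : Type*} [Group G] {V : Type*} [NormedAddCommGroup V] [InnerProductSpace ℝ V]
    (ρ : G →* (V ≃ₗᵢ[ℝ] V)) (u : V) (g : G) : g ∈ st ρ u ↔ ρ g u = u := Iff.rfl

lemma kk_mem {G : Type*} [Group G] (S : Subgroup G) (x y : G) (hx : x ∈ S) (hy : y ∈ S) :
    kk x y ∈ S := by
  unfold kk cm yy
  have h2 : x ^ (-(2 : ℤ)) * y * x ^ (2 : ℤ) ∈ S :=
    S.mul_mem (S.mul_mem (S.zpow_mem hx _) hy) (S.zpow_mem hx _)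
  exact S.mul_mem (S.mul_mem (S.mul_mem (S.inv_mem hy) (S.inv_mem h2)) hy) h2

end IA12

open IA12 in
theorem pr_A12 (hK : St_K) (hAV : St_AV) (hE2 : St_E2) (hE3 : St_E3) : St_A12 := by
  intro G _ V _ _ ρ p M x y hp h5 hPG hM hxM w hw horth v hv
  have hw' : ρ x w = w := hw
  have hv' : ρ y v = v := hv
  obtain ⟨hkx, hky, hkp, -⟩ := hK G x y p hPG
  obtain ⟨P1, P2, P3, P4, -, -, P7⟩ := hAV G V ρ p (kk x y) hp.pos hkp
  obtain ⟨-, Y2, Y3, Y4, -, -, Y7⟩ := hAV G V ρ p y hp.pos hPG.ord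
  set k := kk x y with hkdef
  set a : V := av ρ p k w with hadef
  set b : V := w - a with hbdef
  have hwab : w = a + b := by rw [hbdef]; abel
  have hxk : x * k * x⁻¹ = k := by
    rw [← hkx.eq, mul_assoc, mul_inv_cancel, mul_one]
  have hyk : k * y * k⁻¹ = y := by
    rw [hky.eq, mul_assoc, mul_inv_cancel, mul_one]
  have hxa : ρ x a = a := by
    rw [hadef, P7 x w, hxk, hw']
  have hka : ρ k a = a := P1 w
  have hxb : ρ x b = b := by
    rw [hbdef, map_sub, hw', hxa]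
  have hPb : av ρ p k b = 0 := by
    rw [hbdef, map_sub, hadef, P4 w, sub_self]
  have hao : ∀ u ∈ fx ρ x ⊓ fx ρ y, ⟪a, u⟫ = 0 := by
    intro u hu
    have hux : x ∈ st ρ u := hu.1
    have huy : y ∈ st ρ u := hu.2
    have huk : ρ k u = u := kk_mem (st ρ u) x y hux huy
    rw [hadef, P3, P2 u huk]
    exact horth u hu
  have e2 := hE2 G V ρ p M x y a hp h5 hPG hM hxM hxa hka hao
  have e3 := hE3 G V ρ p x y b hp h5 hPG hxb hPb
  have hab : ⟪a, b⟫ = 0 := by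
    rw [hadef, P3, hPb, inner_zero_right]
  have hkYa : ρ k (av ρ p y a) = av ρ p y a := by
    rw [Y7 k a, hyk, hka]
  have hYab : ⟪av ρ p y a, av ρ p y b⟫ = 0 := by
    rw [← Y3, Y4, ← P2 _ hkYa, P3, hPb, inner_zero_right]
  have hnw : ‖w‖ ^ 2 = ‖a‖ ^ 2 + ‖b‖ ^ 2 := by
    rw [hwab, norm_add_sq_real, hab]
    ring
  have hYw : ‖av ρ p y w‖ ^ 2 = ‖av ρ p y a‖ ^ 2 + ‖av ρ p y b‖ ^ 2 := by
    rw [show av ρ p y w = av ρ p y a + av ρ p y b by rw [← map_add, ← hwab],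
      norm_add_sq_real, hYab]
    ring
  have hp0 : (0 : ℝ) < p := by exact_mod_cast hp.pos
  have hs0 : 0 ≤ 1 / Real.sqrt p := by positivity
  have hC : ‖av ρ p y w‖ ^ 2 ≤ (3 / (p : ℝ) + 1 / Real.sqrt p) * ‖w‖ ^ 2 := by
    rw [hYw, hnw]
    have h1 : 0 ≤ 1 / Real.sqrt p * ‖a‖ ^ 2 := mul_nonneg hs0 (sq_nonneg _)
    nlinarith [e2, e3, h1]
  have hC0 : 0 ≤ 3 / (p : ℝ) + 1 / Real.sqrt p := by positivity
  have hn : ‖av ρ p y w‖ ≤ Real.sqrt (3 / (p : ℝ) + 1 / Real.sqrt p) * ‖w‖ := by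
    have h2 : ‖av ρ p y w‖ ≤ Real.sqrt ((3 / (p : ℝ) + 1 / Real.sqrt p) * ‖w‖ ^ 2) :=
      Real.le_sqrt_of_sq_le hC
    rwa [Real.sqrt_mul hC0, Real.sqrt_sq (norm_nonneg w)] at h2
  have hin : ⟪w, v⟫ = ⟪av ρ p y w, v⟫ := by
    rw [Y3, Y2 v hv']
  rw [hin]
  exact le_trans (abs_real_inner_le_norm _ _)
    (mul_le_mul_of_nonneg_right hn (norm_nonneg v))

end Pool.Agent.Work.MP_f3c012_al.Df
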