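import Pool.Agent.Work.MP_f3c012_al.Df.StmtsR

/-!
# MP_f3c012_al, block DF, item AS: symmetry and monotonicity of the angle
-/

set_option autoImplicit false

open scoped RealInnerProductSpace

namespace Pool.Agent.Work.MP_f3c012_al.Df

theorem pr_AS : St_AS := by
  intro V _ _ _ V₁ V₂ ε hε h
  refine ⟨fun w hw hwo v hv => ?_, fun ε' hε' w hw hwo v hv => ?_⟩
  · obtain ⟨v0, h0, v', h', rfl⟩ := (V₁ ⊓ V₂).exists_add_mem_mem_orthogonal v
    have h0' := Submodule.mem_inf.mp h0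
    have hv' : v' ∈ V₁ := by
      have := V₁.sub_mem hv h0'.1
      rwa [add_sub_cancel_left] at this
    have e0 : ⟪w, v0⟫ = 0 := hwo v0 (Submodule.mem_inf.mpr ⟨h0'.2, h0'.1⟩)
    have e1 : ⟪w, v0 + v'⟫ = ⟪v', w⟫ := by
      rw [inner_add_right, e0, zero_add, real_inner_comm]
    have e2 : ⟪v0, v'⟫ = 0 := h' v0 h0
    have e3 : ‖v'‖ ≤ ‖v0 + v'‖ := by
      have h3 : ‖v0 + v'‖ ^ 2 = ‖v0‖ ^ 2 + ‖v'‖ ^ 2 := by
        rw [← real_inner_self_eq_norm_sq, inner_add_left, inner_add_right, inner_add_right,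
          real_inner_comm v0 v', e2, real_inner_self_eq_norm_sq, real_inner_self_eq_norm_sq]
        ring
      refine le_of_sq_le_sq ?_ (norm_nonneg _)
      rw [h3]
      nlinarith [sq_nonneg ‖v0‖]
    have h4 := h v' hv' (fun u hu => by
      rw [real_inner_comm]
      exact h' u hu) w hw
    rw [e1]
    calc |⟪v', w⟫| ≤ ε * ‖v'‖ * ‖w‖ := h4
      _ ≤ ε * ‖v0 + v'‖ * ‖w‖ := by gcongr
      _ = ε * ‖w‖ * ‖v0 + v'‖ := by ring
  · refine (h w hw hwo v hv).trans ?_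
    gcongr

end Pool.Agent.Work.MP_f3c012_al.Df
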