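import Pool.Agent.Work.MP_f3c012_al.Df.StmtsR

/-!
# MP_f3c012_al, block DF, item EX: extension by a finite normal subgroup
-/

set_option autoImplicit false

namespace Pool.Agent.Work.MP_f3c012_al.Df

namespace IEX

theorem tors {A : Type*} [Group A] (χ : A →* Multiplicative ℤ) (a : A) (n : ℕ) (hn : 0 < n)
    (h : a ^ n = 1) : χ a = 1 := by
  have h2 : χ a ^ n = 1 := by rw [← map_pow, h, map_one]
  have h3 : n • Multiplicative.toAdd (χ a) = 0 := h2
  rw [smul_eq_zero] at h3
  rcases h3 with h3 | h3
  · omega
  · exact h3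

end IEX

theorem pr_EX : St_EX := by
  intro G _ _ N _ hN hQ H hH
  have : H.FiniteIndex := ⟨hH⟩
  have : Group.FG H := Subgroup.fg_of_index_ne_zero H
  refine finite_ab_of_hom fun χ => ?_
  set π : G →* G ⧸ N := QuotientGroup.mk' N with hπ
  have hπs : Function.Surjective π := QuotientGroup.mk'_surjective N
  have hidx : (H.map π).index ≠ 0 := fun h0 =>
    hH (Nat.eq_zero_of_zero_dvd (h0 ▸ Subgroup.index_map_dvd H hπs))
  have : Finite (Abelianization (H.map π)) := hQ (H.map π) hidx
  have hs : Function.Surjective (π.subgroupMap H) := π.subgroupMap_surjective H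
  have : Finite N := hN
  have hker : (π.subgroupMap H).ker ≤ χ.ker := by
    intro h hh
    rw [MonoidHom.mem_ker] at hh ⊢
    have h1 : π (h : G) = 1 := by
      have := congrArg (Subtype.val) hh
      simpa using this
    have h2 : (h : G) ∈ N := by
      rw [hπ] at h1
      exact (QuotientGroup.eq_one_iff _).1 h1
    obtain ⟨n, hn, hxn⟩ := isOfFinOrder_iff_pow_eq_one.1 (isOfFinOrder_of_finite (⟨(h : G), h2⟩ : N))
    refine IEX.tors χ h n hn ?_
    have h3 : (h : G) ^ n = 1 := by
      have := congrArg (Subtype.val) hxn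
      simpa using this
    exact Subtype.ext (by simpa using h3)
  have hl := (π.subgroupMap H).liftOfRightInverse_comp_apply (Function.surjInv hs)
    (Function.rightInverse_surjInv hs) ⟨χ, hker⟩
  have h1 := hom_of_finite_ab ((π.subgroupMap H).liftOfRightInverse (Function.surjInv hs)
    (Function.rightInverse_surjInv hs) ⟨χ, hker⟩)
  ext a
  have h2 := hl a
  rw [h1] at h2
  exact congrArg Multiplicative.toAdd h2.symm

end Pool.Agent.Work.MP_f3c012_al.Df
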