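import Pool.Agent.Work.MP_f3c012_al.Df.StmtsG

/-!
# MP_f3c012_al, block DF, item FN: the group has (FAb)
-/

set_option autoImplicit false

namespace Pool.Agent.Work.MP_f3c012_al.Df

theorem pr_FN (hH1 : St_H1) (hFA : St_FA) (hPR : St_PR) : St_FN := by
  intro p hp h37
  refine hPR p hp (by omega) ?_
  intro G _ x₁ x₂ x₃ hT
  have : Group.FG G := Group.fg_iff.mpr ⟨{x₁, x₂, x₃}, hT.gen, Set.toFinite _⟩
  exact hFA G (hH1 G p x₁ x₂ x₃ hp h37 hT)

end Pool.Agent.Work.MP_f3c012_al.Df
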