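import Pool.Agent.Work.MP_f3c012_al.Df.StmtsA
import Pool.Agent.Work.MP_f3c012_al.Df.StmtsR

/-!
# MP_f3c012_al, block DF, item H1: the first cohomology vanishes
-/

set_option autoImplicit false

open scoped RealInnerProductSpace

namespace Pool.Agent.Work.MP_f3c012_al.Df

namespace IH1

/-- the numerical inequality -/
theorem eps_lt {p : ℕ} (hp : 37 ≤ p) : Real.sqrt (3 / (p : ℝ) + 1 / Real.sqrt p) < 1 / 2 := by
  have hpR : (37 : ℝ) ≤ p := by exact_mod_cast hp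
  have h1 : (6.08 : ℝ) ≤ Real.sqrt p := by
    apply Real.le_sqrt_of_sq_le
    norm_num
    linarith
  have h2 : 1 / Real.sqrt p ≤ 1 / 6.08 := by
    apply one_div_le_one_div_of_le (by norm_num) h1
  have h3 : 3 / (p : ℝ) ≤ 3 / 37 := by
    apply div_le_div_of_nonneg_left (by norm_num) (by norm_num) hpR
  rw [Real.sqrt_lt' (by norm_num)]
  have h4 : (3 : ℝ) / 37 + 1 / 6.08 < (1 / 2) ^ 2 := by norm_num
  linarith

theorem eps_le {p : ℕ} (hp : 37 ≤ p) :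
    Real.sqrt (2 / (p : ℝ)) ≤ Real.sqrt (3 / (p : ℝ) + 1 / Real.sqrt p) := by
  apply Real.sqrt_le_sqrt
  have hpR : (0 : ℝ) < p := by
    have : 0 < p := by omega
    exact_mod_cast this
  have h1 : 2 / (p : ℝ) ≤ 3 / p := by
    apply div_le_div_of_nonneg_right (by norm_num) hpR.le
  have h2 : 0 ≤ 1 / Real.sqrt p := by positivity
  linarith

section

variable {G : Type} [Group G] {V : Type} [NormedAddCommGroup V] [InnerProductSpace ℝ V]

theorem mem_fx (ρ : G →* (V ≃ₗᵢ[ℝ] V)) (g : G) (v : V) : v ∈ fx ρ g ↔ ρ g v = v := Iff.rfl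

/-- two primitives of the same value differ by a fixed vector -/
theorem diff_mem (ρ : G →* (V ≃ₗᵢ[ℝ] V)) (g : G) (u a b : V) (ha : u = a - ρ g a)
    (hb : u = b - ρ g b) : a - b ∈ fx ρ g := by
  rw [mem_fx, map_sub]
  have h : a - ρ g a = b - ρ g b := ha.symm.trans hb
  have h2 : ρ g a = a - (b - ρ g b) := by rw [← h]; abel
  rw [h2]
  abel

theorem move (ρ : G →* (V ≃ₗᵢ[ℝ] V)) (g : G) (u a v : V) (ha : u = a - ρ g a)
    (h : v - a ∈ fx ρ g) : u = v - ρ g v := by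
  rw [mem_fx, map_sub] at h
  have h2 : ρ g v = v - a + ρ g a := by rw [← h]; abel
  rw [ha, h2]
  abel

end

end IH1

open IH1 in
theorem pr_H1 (hF2 : St_F2) (hFi : St_Fi) (hA12 : St_A12) (hA13 : St_A13) (hAS : St_AS)
    (hL2 : St_L2) (hC0 : St_C0) : St_H1 := by
  intro G _ p x₁ x₂ x₃ hp hp37 hT V _ _ _ ρ c hc
  have hp5 : 5 ≤ p := by omega
  have hp0 : 0 < p := by omega
  obtain ⟨-, -, -, -, -, hx1⟩ := hF2 G x₁ x₃ (p ^ 2) p hp hp5 hT.p13 hT.t13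
  -- the finite subgroups
  have f12 := hFi G x₁ x₂ p (p ^ 3) hT.p12 (pow_pos hp0 3) hx1
  have f32 := hFi G x₃ x₂ p (p ^ 2) hT.p32 (pow_pos hp0 2) hT.o3
  have f13 := hFi G x₁ x₃ (p ^ 2) (p ^ 3) hT.p13 (pow_pos hp0 3) hx1
  obtain ⟨a₁, h1⟩ := hC0 G V ρ c hc _ f12
  obtain ⟨a₂, h2⟩ := hC0 G V ρ c hc _ f32
  obtain ⟨a₃, h3⟩ := hC0 G V ρ c hc _ f13
  have m11 : x₁ ∈ Subgroup.closure {x₁, x₂} := Subgroup.subset_closure (by simp)
  have m12 : x₂ ∈ Subgroup.closure {x₁, x₂} := Subgroup.subset_closure (by simp)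
  have m23 : x₃ ∈ Subgroup.closure {x₃, x₂} := Subgroup.subset_closure (by simp)
  have m22 : x₂ ∈ Subgroup.closure {x₃, x₂} := Subgroup.subset_closure (by simp)
  have m31 : x₁ ∈ Subgroup.closure {x₁, x₃} := Subgroup.subset_closure (by simp)
  have m33 : x₃ ∈ Subgroup.closure {x₁, x₃} := Subgroup.subset_closure (by simp)
  -- the angles
  set ε : ℝ := Real.sqrt (3 / (p : ℝ) + 1 / Real.sqrt p) with hε
  have hε0 : 0 ≤ ε := Real.sqrt_nonneg _
  have A12 : Ang (fx ρ x₁) (fx ρ x₂) ε :=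
    hA12 G V ρ p (p ^ 3) x₁ x₂ hp hp5 hT.p12 (pow_pos hp0 3) hx1
  have A32 : Ang (fx ρ x₃) (fx ρ x₂) ε :=
    hA12 G V ρ p (p ^ 2) x₃ x₂ hp hp5 hT.p32 (pow_pos hp0 2) hT.o3
  have A23 : Ang (fx ρ x₂) (fx ρ x₃) ε := (hAS V _ _ ε hε0 A32).1
  have A13 : Ang (fx ρ x₁) (fx ρ x₃) (Real.sqrt (2 / (p : ℝ))) :=
    hA13 G V ρ p (p ^ 2) x₁ x₃ hp hp5 hT.p13 hT.t13
  have A13' : Ang (fx ρ x₁) (fx ρ x₃) ε := (hAS V _ _ _ (Real.sqrt_nonneg _) A13).2 ε (eps_le hp37)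
  have A31 : Ang (fx ρ x₃) (fx ρ x₁) ε := (hAS V _ _ ε hε0 A13').1
  obtain ⟨v, hv1, hv2, hv3⟩ := hL2 V (fx ρ x₁) (fx ρ x₂) (fx ρ x₃) ε a₁ a₂ a₃ hε0 (eps_lt hp37)
    A12 A23 A31 (diff_mem ρ x₂ (c x₂) a₁ a₂ (h1 x₂ m12) (h2 x₂ m22))
    (diff_mem ρ x₃ (c x₃) a₂ a₃ (h2 x₃ m23) (h3 x₃ m33))
    (diff_mem ρ x₁ (c x₁) a₃ a₁ (h3 x₁ m31) (h1 x₁ m11))
  refine ⟨v, ?_⟩
  have c1 : c 1 = 0 := by
    have h := hc 1 1
    rw [mul_one, map_one] at h
    have h' : c 1 = c 1 + c 1 := h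
    exact left_eq_add.1 h'
  let K : Subgroup G :=
    { carrier := {g | c g = v - ρ g v}
      one_mem' := by
        show c 1 = v - ρ 1 v
        rw [c1, map_one]
        show (0 : V) = v - v
        rw [sub_self]
      mul_mem' := by
        intro g h hg hh
        have hg' : c g = v - ρ g v := hg
        have hh' : c h = v - ρ h v := hh
        show c (g * h) = v - ρ (g * h) v
        rw [hc, hg', hh', map_sub, map_mul]
        show v - ρ g v + (ρ g v - ρ g (ρ h v)) = v - ρ g (ρ h v)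
        abel
      inv_mem' := by
        intro g hg
        have hg' : c g = v - ρ g v := hg
        show c g⁻¹ = v - ρ g⁻¹ v
        have h := hc g⁻¹ g
        rw [inv_mul_cancel, c1, hg', map_sub] at h
        have h2 : ρ g⁻¹ (ρ g v) = v := by
          have : ρ g⁻¹ (ρ g v) = (ρ g⁻¹ * ρ g) v := rfl
          rw [this, ← map_mul, inv_mul_cancel, map_one]
          rfl
        rw [h2] at h
        have h3 : c g⁻¹ = -(ρ g⁻¹ v - v) := eq_neg_of_add_eq_zero_left h.symm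
        rw [h3]
        abel }
  have hK : K = ⊤ := by
    rw [eq_top_iff, ← hT.gen, Subgroup.closure_le]
    intro g hg
    rcases hg with rfl | rfl | hg
    · exact move ρ _ _ a₁ v (h1 _ m11) hv1
    · exact move ρ _ _ a₂ v (h2 _ m22) hv2
    · have hg' : g = x₃ := hg
      subst hg'
      exact move ρ _ _ a₃ v (h3 _ m33) hv3
  intro g
  have hg : g ∈ K := by rw [hK]; exact Subgroup.mem_top g
  exact hg

end Pool.Agent.Work.MP_f3c012_al.Df
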