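import Pool.Agent.Work.MP_f3c012_al.Df.StmtsR

/-! # MP_f3c012_al, block DF, item L1 (helper34) -/

set_option autoImplicit false

open scoped RealInnerProductSpace

namespace Pool.Agent.Work.MP_f3c012_al.Df

namespace IL1

theorem num (A B P Q Z e : ℝ)
    (h1 : (1 - e) * (A ^ 2 + B ^ 2) ≤ Z) (h2 : Z ≤ P * A + Q * B) (he : e < 1) :
    (1 - e) * Z ≤ P ^ 2 + Q ^ 2 := by
  by_cases hZ : Z ≤ 0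
  · have h : (1 - e) * Z ≤ 0 := mul_nonpos_of_nonneg_of_nonpos (by linarith) hZ
    nlinarith [sq_nonneg P, sq_nonneg Q]
  · have hZ' : 0 < Z := not_le.mp hZ
    have hCS : (P * A + Q * B) ^ 2 ≤ (P ^ 2 + Q ^ 2) * (A ^ 2 + B ^ 2) := by
      nlinarith [sq_nonneg (P * B - Q * A)]
    have hZ2 : Z ^ 2 ≤ (P ^ 2 + Q ^ 2) * (A ^ 2 + B ^ 2) :=
      le_trans (pow_le_pow_left₀ hZ'.le h2 2) hCS
    have h3 : (1 - e) * Z ^ 2 ≤ (P ^ 2 + Q ^ 2) * Z := by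
      calc (1 - e) * Z ^ 2 ≤ (1 - e) * ((P ^ 2 + Q ^ 2) * (A ^ 2 + B ^ 2)) :=
            mul_le_mul_of_nonneg_left hZ2 (by linarith)
        _ = (P ^ 2 + Q ^ 2) * ((1 - e) * (A ^ 2 + B ^ 2)) := by ring
        _ ≤ (P ^ 2 + Q ^ 2) * Z := mul_le_mul_of_nonneg_left h1 (by positivity)
    have h4 : ((1 - e) * Z) * Z ≤ (P ^ 2 + Q ^ 2) * Z := by
      calc ((1 - e) * Z) * Z = (1 - e) * Z ^ 2 := by ring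
        _ ≤ _ := h3
    exact le_of_mul_le_mul_right h4 hZ'

end IL1

theorem pr_L1 : St_L1 := by
  intro V _ _ _ V₁ V₂ ε z p₁ p₂ hε0 hε1 hang hz hp₁ hp₂ ho₁ ho₂
  obtain ⟨α, hα, β, hβ, hzz⟩ := Submodule.mem_sup.mp hz
  obtain ⟨α₀, hα₀, α', hα', hαs⟩ := Submodule.exists_add_mem_mem_orthogonal (K := V₁ ⊓ V₂) α
  obtain ⟨β₀, hβ₀, β', hβ', hβs⟩ := Submodule.exists_add_mem_mem_orthogonal (K := V₁ ⊓ V₂) β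
  have hα₀1 : α₀ ∈ V₁ := (Submodule.mem_inf.mp hα₀).1
  have hβ₀1 : β₀ ∈ V₁ := (Submodule.mem_inf.mp hβ₀).1
  have hα₀2 : α₀ ∈ V₂ := (Submodule.mem_inf.mp hα₀).2
  have hβ₀2 : β₀ ∈ V₂ := (Submodule.mem_inf.mp hβ₀).2
  have hα'1 : α' ∈ V₁ := by
    have h : α' = α - α₀ := by rw [hαs]; abel
    rw [h]; exact V₁.sub_mem hα hα₀1
  have hβ'2 : β' ∈ V₂ := by
    have h : β' = β - β₀ := by rw [hβs]; abel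
    rw [h]; exact V₂.sub_mem hβ hβ₀2
  have oα : ∀ u ∈ V₁ ⊓ V₂, ⟪α', u⟫ = 0 := fun u hu =>
    (Submodule.mem_orthogonal' _ _).mp hα' u hu
  have oβ : ∀ u ∈ V₁ ⊓ V₂, ⟪β', u⟫ = 0 := fun u hu =>
    (Submodule.mem_orthogonal' _ _).mp hβ' u hu
  set z₀ : V := α₀ + β₀ with hz₀
  set z' : V := α' + β' with hz'
  have hz₀W : z₀ ∈ V₁ ⊓ V₂ := (V₁ ⊓ V₂).add_mem hα₀ hβ₀
  have hz₀1 : z₀ ∈ V₁ := (Submodule.mem_inf.mp hz₀W).1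
  have hz₀2 : z₀ ∈ V₂ := (Submodule.mem_inf.mp hz₀W).2
  have hsum : z = z₀ + z' := by
    rw [← hzz, hαs, hβs, hz₀, hz']; abel
  have oz : ∀ u ∈ V₁ ⊓ V₂, ⟪z', u⟫ = 0 := by
    intro u hu
    rw [hz', inner_add_left, oα u hu, oβ u hu, add_zero]
  -- the reduced projections
  set q₁ : V := p₁ - z₀ with hq₁
  set q₂ : V := p₂ - z₀ with hq₂
  have hq₁1 : q₁ ∈ V₁ := V₁.sub_mem hp₁ hz₀1
  have hq₂2 : q₂ ∈ V₂ := V₂.sub_mem hp₂ hz₀2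
  have e₁ : ∀ u ∈ V₁, ⟪z', u⟫ = ⟪q₁, u⟫ := by
    intro u hu
    have h := ho₁ u hu
    have h' : z - p₁ = z' - q₁ := by rw [hsum, hq₁]; abel
    rw [h', inner_sub_left] at h
    linarith
  have e₂ : ∀ u ∈ V₂, ⟪z', u⟫ = ⟪q₂, u⟫ := by
    intro u hu
    have h := ho₂ u hu
    have h' : z - p₂ = z' - q₂ := by rw [hsum, hq₂]; abel
    rw [h', inner_sub_left] at h
    linarith
  have hZ : ‖z'‖ ^ 2 = ⟪q₁, α'⟫ + ⟪q₂, β'⟫ := by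
    rw [← e₁ α' hα'1, ← e₂ β' hβ'2, ← inner_add_right, ← hz', real_inner_self_eq_norm_sq]
  have h2 : ‖z'‖ ^ 2 ≤ ‖q₁‖ * ‖α'‖ + ‖q₂‖ * ‖β'‖ := by
    rw [hZ]
    exact add_le_add (real_inner_le_norm _ _) (real_inner_le_norm _ _)
  have h1 : (1 - ε) * (‖α'‖ ^ 2 + ‖β'‖ ^ 2) ≤ ‖z'‖ ^ 2 := by
    have h := hang α' hα'1 oα β' hβ'2
    have h3 : ‖z'‖ ^ 2 = ‖α'‖ ^ 2 + 2 * ⟪α', β'⟫ + ‖β'‖ ^ 2 := by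
      rw [hz']; exact norm_add_sq_real _ _
    have h4 : -(ε * ‖α'‖ * ‖β'‖) ≤ ⟪α', β'⟫ := (abs_le.mp h).1
    rw [h3]
    nlinarith [mul_nonneg hε0 (sq_nonneg (‖α'‖ - ‖β'‖))]
  have hkey : (1 - ε) * ‖z'‖ ^ 2 ≤ ‖q₁‖ ^ 2 + ‖q₂‖ ^ 2 :=
    IL1.num ‖α'‖ ‖β'‖ ‖q₁‖ ‖q₂‖ (‖z'‖ ^ 2) ε h1 h2 hε1
  have n₁ : ‖p₁‖ ^ 2 = ‖z₀‖ ^ 2 + ‖q₁‖ ^ 2 := by
    have h : p₁ = z₀ + q₁ := by rw [hq₁]; abel
    have h0 : ⟪z₀, q₁⟫ = 0 := by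
      rw [real_inner_comm, ← e₁ z₀ hz₀1]; exact oz z₀ hz₀W
    rw [h, norm_add_sq_real, h0]; ring
  have n₂ : ‖p₂‖ ^ 2 = ‖z₀‖ ^ 2 + ‖q₂‖ ^ 2 := by
    have h : p₂ = z₀ + q₂ := by rw [hq₂]; abel
    have h0 : ⟪z₀, q₂⟫ = 0 := by
      rw [real_inner_comm, ← e₂ z₀ hz₀2]; exact oz z₀ hz₀W
    rw [h, norm_add_sq_real, h0]; ring
  have n₃ : ‖z‖ ^ 2 = ‖z₀‖ ^ 2 + ‖z'‖ ^ 2 := by
    have h0 : ⟪z₀, z'⟫ = 0 := by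
      rw [real_inner_comm]; exact oz z₀ hz₀W
    rw [hsum, norm_add_sq_real, h0]; ring
  rw [n₁, n₂, n₃]
  nlinarith [mul_nonneg hε0 (sq_nonneg ‖z₀‖), sq_nonneg ‖z₀‖]

end Pool.Agent.Work.MP_f3c012_al.Df
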