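import Pool.Agent.Work.MP_f3c012_al.Df.StmtsR

/-!
# MP_f3c012_al, block DF, item L2: three affine subspaces (helper78)
-/

set_option autoImplicit false

open scoped RealInnerProductSpace

namespace Pool.Agent.Work.MP_f3c012_al.Df

namespace IL2

variable {V : Type} [NormedAddCommGroup V] [InnerProductSpace ℝ V]

/-- the triple as a vector -/
noncomputable def tr (x y z : V) : PiLp 2 (fun _ : Fin 3 => V) := WithLp.toLp 2 ![x, y, z]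

theorem inner_tr (x y z x' y' z' : V) :
    ⟪tr x y z, tr x' y' z'⟫ = ⟪x, x'⟫ + ⟪y, y'⟫ + ⟪z, z'⟫ := by
  rw [PiLp.inner_apply, Fin.sum_univ_three]
  rfl

theorem tr_ext (d : PiLp 2 (fun _ : Fin 3 => V)) : d = tr (d 0) (d 1) (d 2) := by
  ext i
  fin_cases i <;> rfl

/-- the subspace `I` -/
def II (V₁ V₂ V₃ : Submodule ℝ V) : Submodule ℝ (PiLp 2 (fun _ : Fin 3 => V)) where
  carrier := {x | ∃ w₁ ∈ V₁, ∃ w₂ ∈ V₂, ∃ w₃ ∈ V₃, x 0 = w₂ - w₃ ∧ x 1 = w₃ - w₁ ∧ x 2 = w₁ - w₂}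
  add_mem' := by
    rintro x y ⟨w₁, h1, w₂, h2, w₃, h3, e1, e2, e3⟩ ⟨w₁', h1', w₂', h2', w₃', h3', e1', e2', e3'⟩
    refine ⟨w₁ + w₁', V₁.add_mem h1 h1', w₂ + w₂', V₂.add_mem h2 h2', w₃ + w₃',
      V₃.add_mem h3 h3', ?_, ?_, ?_⟩
    · rw [PiLp.add_apply, e1, e1']
      abel
    · rw [PiLp.add_apply, e2, e2']
      abel
    · rw [PiLp.add_apply, e3, e3']
      abel
  zero_mem' := ⟨0, V₁.zero_mem, 0, V₂.zero_mem, 0, V₃.zero_mem, by simp, by simp, by simp⟩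
  smul_mem' := by
    rintro c x ⟨w₁, h1, w₂, h2, w₃, h3, e1, e2, e3⟩
    refine ⟨c • w₁, V₁.smul_mem c h1, c • w₂, V₂.smul_mem c h2, c • w₃, V₃.smul_mem c h3,
      ?_, ?_, ?_⟩
    · rw [PiLp.smul_apply, e1, smul_sub]
    · rw [PiLp.smul_apply, e2, smul_sub]
    · rw [PiLp.smul_apply, e3, smul_sub]

theorem four {U : Submodule ℝ V} {p d : V} (hp : p ∈ U) (h : ∀ u ∈ U, ⟪d + (2 : ℝ) • p, u⟫ = 0) :
    4 * ‖p‖ ^ 2 ≤ ‖d‖ ^ 2 := by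
  have h1 := h p hp
  have h2 : d = (d + (2 : ℝ) • p) - (2 : ℝ) • p := by abel
  have h3 : ‖d‖ ^ 2 = ‖d + (2 : ℝ) • p‖ ^ 2 + 4 * ‖p‖ ^ 2 := by
    conv_lhs => rw [h2]
    rw [norm_sub_sq_real, inner_smul_right, h1, norm_smul, Real.norm_of_nonneg (by norm_num)]
    ring
  have h4 := sq_nonneg ‖d + (2 : ℝ) • p‖
  linarith

theorem proj [FiniteDimensional ℝ V] (U : Submodule ℝ V) (d : V) :
    ∃ p ∈ U, ∀ u ∈ U, ⟪d - p, u⟫ = 0 := by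
  obtain ⟨y, hy, z, hz, h⟩ := U.exists_add_mem_mem_orthogonal d
  refine ⟨y, hy, fun u hu => ?_⟩
  rw [h, add_sub_cancel_left, real_inner_comm]
  exact (Submodule.mem_orthogonal U z).1 hz u hu

theorem core (hL1 : St_L1) [FiniteDimensional ℝ V] (V₁ V₂ V₃ : Submodule ℝ V) (ε : ℝ)
    (hε : 0 ≤ ε) (hε2 : ε < 1 / 2) (A12 : Ang V₁ V₂ ε) (A23 : Ang V₂ V₃ ε) (A31 : Ang V₃ V₁ ε)
    (d₁ d₂ d₃ : V) (hs : d₁ + d₂ + d₃ = 0) (m1 : d₁ ∈ V₂ ⊔ V₃) (m2 : d₂ ∈ V₃ ⊔ V₁)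
    (m3 : d₃ ∈ V₁ ⊔ V₂) (o1 : ∀ u ∈ V₁, ⟪d₃ - d₂, u⟫ = 0) (o2 : ∀ u ∈ V₂, ⟪d₁ - d₃, u⟫ = 0)
    (o3 : ∀ u ∈ V₃, ⟪d₂ - d₁, u⟫ = 0) : d₁ = 0 ∧ d₂ = 0 ∧ d₃ = 0 := by
  obtain ⟨p₁, hp1, h1⟩ := proj V₁ d₂
  obtain ⟨p₂, hp2, h2⟩ := proj V₂ d₃
  obtain ⟨p₃, hp3, h3⟩ := proj V₃ d₁
  have h1' : ∀ u ∈ V₁, ⟪d₃ - p₁, u⟫ = 0 := by
    intro u hu
    have e : d₃ - p₁ = (d₃ - d₂) + (d₂ - p₁) := by abel
    rw [e, inner_add_left, o1 u hu, h1 u hu, add_zero]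
  have h2' : ∀ u ∈ V₂, ⟪d₁ - p₂, u⟫ = 0 := by
    intro u hu
    have e : d₁ - p₂ = (d₁ - d₃) + (d₃ - p₂) := by abel
    rw [e, inner_add_left, o2 u hu, h2 u hu, add_zero]
  have h3' : ∀ u ∈ V₃, ⟪d₂ - p₃, u⟫ = 0 := by
    intro u hu
    have e : d₂ - p₃ = (d₂ - d₁) + (d₁ - p₃) := by abel
    rw [e, inner_add_left, o3 u hu, h3 u hu, add_zero]
  have f1 : 4 * ‖p₁‖ ^ 2 ≤ ‖d₁‖ ^ 2 := by
    refine four hp1 fun u hu => ?_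
    have e : d₁ + (2 : ℝ) • p₁ = (d₁ + d₂ + d₃) - (d₂ - p₁) - (d₃ - p₁) := by
      rw [two_smul]
      abel
    rw [e, hs, inner_sub_left, inner_sub_left, inner_zero_left, h1 u hu, h1' u hu]
    norm_num
  have f2 : 4 * ‖p₂‖ ^ 2 ≤ ‖d₂‖ ^ 2 := by
    refine four hp2 fun u hu => ?_
    have e : d₂ + (2 : ℝ) • p₂ = (d₁ + d₂ + d₃) - (d₃ - p₂) - (d₁ - p₂) := by
      rw [two_smul]
      abel
    rw [e, hs, inner_sub_left, inner_sub_left, inner_zero_left, h2 u hu, h2' u hu]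
    norm_num
  have f3 : 4 * ‖p₃‖ ^ 2 ≤ ‖d₃‖ ^ 2 := by
    refine four hp3 fun u hu => ?_
    have e : d₃ + (2 : ℝ) • p₃ = (d₁ + d₂ + d₃) - (d₁ - p₃) - (d₂ - p₃) := by
      rw [two_smul]
      abel
    rw [e, hs, inner_sub_left, inner_sub_left, inner_zero_left, h3 u hu, h3' u hu]
    norm_num
  have g3 := hL1 V V₁ V₂ ε d₃ p₁ p₂ hε (by linarith) A12 m3 hp1 hp2 h1' h2
  have g1 := hL1 V V₂ V₃ ε d₁ p₂ p₃ hε (by linarith) A23 m1 hp2 hp3 h2' h3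
  have g2 := hL1 V V₃ V₁ ε d₂ p₃ p₁ hε (by linarith) A31 m2 hp3 hp1 h3' h1
  have s1 := sq_nonneg ‖d₁‖
  have s2 := sq_nonneg ‖d₂‖
  have s3 := sq_nonneg ‖d₃‖
  have hS : (1 / 2 - ε) * (‖d₁‖ ^ 2 + ‖d₂‖ ^ 2 + ‖d₃‖ ^ 2) ≤ 0 := by
    have e : (1 / 2 - ε) * (‖d₁‖ ^ 2 + ‖d₂‖ ^ 2 + ‖d₃‖ ^ 2) =
        ((1 - ε) * ‖d₁‖ ^ 2 + (1 - ε) * ‖d₂‖ ^ 2 + (1 - ε) * ‖d₃‖ ^ 2) -
          (‖d₁‖ ^ 2 + ‖d₂‖ ^ 2 + ‖d₃‖ ^ 2) / 2 := by ring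
    rw [e]
    linarith
  have hS0 : ‖d₁‖ ^ 2 + ‖d₂‖ ^ 2 + ‖d₃‖ ^ 2 ≤ 0 := by
    by_contra hcon
    have := mul_pos (show 0 < 1 / 2 - ε by linarith) (not_le.1 hcon)
    linarith
  have key : ∀ d : V, ‖d‖ ^ 2 ≤ 0 → d = 0 := by
    intro d hd
    have h5 : ‖d‖ ^ 2 = 0 := le_antisymm hd (sq_nonneg _)
    exact norm_eq_zero.1 (pow_eq_zero_iff (two_ne_zero) |>.1 h5)
  exact ⟨key d₁ (by linarith), key d₂ (by linarith), key d₃ (by linarith)⟩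

end IL2

open IL2 in
theorem pr_L2 (hL1 : St_L1) : St_L2 := by
  intro V _ _ _ V₁ V₂ V₃ ε a₁ a₂ a₃ hε hε2 A12 A23 A31 h12 h23 h31
  obtain ⟨c, hc, d, hd, hz⟩ := (II V₁ V₂ V₃).exists_add_mem_mem_orthogonal
    (tr (a₂ - a₃) (a₃ - a₁) (a₁ - a₂))
  obtain ⟨w₁, k1, w₂, k2, w₃, k3, e1, e2, e3⟩ := hc
  have z0 : a₂ - a₃ = c 0 + d 0 := congrArg (fun x : PiLp 2 (fun _ : Fin 3 => V) => x 0) hz
  have z1 : a₃ - a₁ = c 1 + d 1 := congrArg (fun x : PiLp 2 (fun _ : Fin 3 => V) => x 1) hz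
  have z2 : a₁ - a₂ = c 2 + d 2 := congrArg (fun x : PiLp 2 (fun _ : Fin 3 => V) => x 2) hz
  rw [e1] at z0
  rw [e2] at z1
  rw [e3] at z2
  have hort : ∀ u₁ ∈ V₁, ∀ u₂ ∈ V₂, ∀ u₃ ∈ V₃,
      ⟪u₂ - u₃, d 0⟫ + ⟪u₃ - u₁, d 1⟫ + ⟪u₁ - u₂, d 2⟫ = 0 := by
    intro u₁ hu1 u₂ hu2 u₃ hu3
    have h := (Submodule.mem_orthogonal _ d).1 hd (tr (u₂ - u₃) (u₃ - u₁) (u₁ - u₂))
      ⟨u₁, hu1, u₂, hu2, u₃, hu3, rfl, rfl, rfl⟩
    rw [tr_ext d, inner_tr] at h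
    exact h
  have hd0 : d 0 = (a₂ - a₃) - (w₂ - w₃) := by rw [z0]; abel
  have hd1 : d 1 = (a₃ - a₁) - (w₃ - w₁) := by rw [z1]; abel
  have hd2 : d 2 = (a₁ - a₂) - (w₁ - w₂) := by rw [z2]; abel
  obtain ⟨r0, r1, r2⟩ := core hL1 V₁ V₂ V₃ ε hε hε2 A12 A23 A31 (d 0) (d 1) (d 2)
    (by rw [hd0, hd1, hd2]; abel)
    (by
      rw [hd0]
      exact Submodule.sub_mem _ (Submodule.mem_sup_right h23) (Submodule.sub_mem _
        (Submodule.mem_sup_left k2) (Submodule.mem_sup_right k3)))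
    (by
      rw [hd1]
      exact Submodule.sub_mem _ (Submodule.mem_sup_right h31) (Submodule.sub_mem _
        (Submodule.mem_sup_left k3) (Submodule.mem_sup_right k1)))
    (by
      rw [hd2]
      exact Submodule.sub_mem _ (Submodule.mem_sup_right h12) (Submodule.sub_mem _
        (Submodule.mem_sup_left k1) (Submodule.mem_sup_right k2)))
    (by
      intro u hu
      have h := hort u hu 0 V₂.zero_mem 0 V₃.zero_mem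
      rw [sub_self, zero_sub, sub_zero, inner_zero_left, inner_neg_left, zero_add] at h
      rw [inner_sub_left, real_inner_comm u (d 2), real_inner_comm u (d 1)]
      linarith)
    (by
      intro u hu
      have h := hort 0 V₁.zero_mem u hu 0 V₃.zero_mem
      rw [sub_self, zero_sub, sub_zero, inner_zero_left, inner_neg_left, add_zero] at h
      rw [inner_sub_left, real_inner_comm u (d 0), real_inner_comm u (d 2)]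
      linarith)
    (by
      intro u hu
      have h := hort 0 V₁.zero_mem 0 V₂.zero_mem u hu
      rw [sub_self, zero_sub, sub_zero, inner_zero_left, inner_neg_left, add_zero] at h
      rw [inner_sub_left, real_inner_comm u (d 1), real_inner_comm u (d 0)]
      linarith)
  rw [r0, add_zero] at z0
  rw [r1, add_zero] at z1
  rw [r2, add_zero] at z2
  refine ⟨a₁ - w₁, ?_, ?_, ?_⟩
  · have e : a₁ - w₁ - a₁ = -w₁ := by abel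
    rw [e]
    exact V₁.neg_mem k1
  · have e : a₁ - w₁ - a₂ = -w₂ := by
      have e' : a₁ - w₁ - a₂ = (a₁ - a₂) - w₁ := by abel
      rw [e', z2]
      abel
    rw [e]
    exact V₂.neg_mem k2
  · have e : a₁ - w₁ - a₃ = -w₃ := by
      have e' : a₁ - w₁ - a₃ = -(a₃ - a₁) - w₁ := by abel
      rw [e', z1]
      abel
    rw [e]
    exact V₃.neg_mem k3

end Pool.Agent.Work.MP_f3c012_al.Df
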