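import Pool.Agent.Work.MP_f3c012_al.Df.StmtsG

set_option autoImplicit false

/-!
# MP_f3c012_al, block DF, item PR: the presented group
-/

namespace Pool.Agent.Work.MP_f3c012_al.Df

namespace IPR

section maps

variable {G H : Type*} [Group G] [Group H] (f : G →* H)

theorem map_cm (a b : G) : f (cm a b) = cm (f a) (f b) := by
  simp only [cm, map_mul, map_inv]

theorem map_yy (x y : G) (i : ℤ) : f (yy x y i) = yy (f x) (f y) i := by
  simp only [yy, map_mul, map_zpow]

theorem map_TT (x y : G) : f (TT x y) = TT (f x) (f y) := by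
  simp only [TT, map_mul, map_inv, map_cm, map_yy]

theorem map_rr (x y : G) : f (rr x y) = rr (f x) (f y) := by
  simp only [rr, map_cm]

theorem map_ss (x y : G) : f (ss x y) = ss (f x) (f y) := by
  simp only [ss, map_cm, map_TT]

end maps

/-- a central element generates a normal subgroup -/
theorem normal_zp {G : Type*} [Group G] (z : G) (hz : ∀ g : G, Commute z g) :
    (Subgroup.zpowers z).Normal := by
  constructor
  intro n hn g
  obtain ⟨k, rfl⟩ := Subgroup.mem_zpowers_iff.1 hn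
  have h1 : Commute (z ^ k) g := (hz g).zpow_left k
  rw [← h1.eq, mul_assoc, mul_inv_cancel, mul_one]
  exact hn

theorem range3 {G : Type*} (f : Fin 3 → G) : Set.range f = {f 0, f 1, f 2} := by
  ext g
  constructor
  · rintro ⟨i, rfl⟩
    fin_cases i
    · exact Or.inl rfl
    · exact Or.inr (Or.inl rfl)
    · exact Or.inr (Or.inr rfl)
  · rintro (h | h | h)
    · exact ⟨0, h.symm⟩
    · exact ⟨1, h.symm⟩
    · exact ⟨2, h.symm⟩

end IPR

open IPR in
theorem pr_PR (hRE : St_RE) (hTR : St_TR) (hEX : St_EX) : St_PR := by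
  intro p hp hp5 hF
  set P := PresentedGroup (Set.range (rel p)) with hP
  set φ : FreeGroup (Fin 3) →* P := PresentedGroup.mk (Set.range (rel p)) with hφ
  set x₁ : P := φ (FreeGroup.of 0) with hx1
  set x₂ : P := φ (FreeGroup.of 1) with hx2
  set x₃ : P := φ (FreeGroup.of 2) with hx3
  have hrel : ∀ i : Fin 7, φ (rel p i) = 1 := fun i =>
    PresentedGroup.one_of_mem (Set.mem_range_self i)
  have r0 : x₂ ^ p = 1 := by
    have h : φ (FreeGroup.of 1 ^ p) = 1 := hrel 0
    rwa [map_pow] at h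
  have r1 : rr x₁ x₂ = x₃ ^ (p ^ 2) := by
    have h : φ (rr (FreeGroup.of 0) (FreeGroup.of 1) * (FreeGroup.of 2 ^ (p ^ 2))⁻¹) = 1 := hrel 1
    rw [map_mul, map_inv, map_pow, map_rr, mul_inv_eq_one] at h
    exact h
  have r2 : ss x₁ x₂ = 1 := by
    have h : φ (ss (FreeGroup.of 0) (FreeGroup.of 1)) = 1 := hrel 2
    rwa [map_ss] at h
  have r3 : rr x₃ x₂ = 1 := by
    have h : φ (rr (FreeGroup.of 2) (FreeGroup.of 1)) = 1 := hrel 3
    rwa [map_rr] at h
  have r4 : ss x₃ x₂ = 1 := by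
    have h : φ (ss (FreeGroup.of 2) (FreeGroup.of 1)) = 1 := hrel 4
    rwa [map_ss] at h
  have r5 : rr x₁ x₃ = 1 := by
    have h : φ (rr (FreeGroup.of 0) (FreeGroup.of 2)) = 1 := hrel 5
    rwa [map_rr] at h
  have r6 : TT x₁ x₃ = x₁ ^ p := by
    have h : φ (TT (FreeGroup.of 0) (FreeGroup.of 2) * (FreeGroup.of 0 ^ p)⁻¹) = 1 := hrel 6
    rw [map_mul, map_inv, map_pow, map_TT, mul_inv_eq_one] at h
    exact h
  obtain ⟨c1, c2, c3⟩ := hRE P x₁ x₂ x₃ p hp hp5 r0 r1 r2 r3 r4 r5 r6
  -- generators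
  have hgen : Subgroup.closure ({x₁, x₂, x₃} : Set P) = ⊤ := by
    have h1 : Subgroup.closure (Set.range (PresentedGroup.of : Fin 3 → P)) = ⊤ :=
      PresentedGroup.closure_range_of _
    rw [range3] at h1
    exact h1
  set z : P := x₃ ^ (p ^ 2) with hz
  have hcen : ∀ g : P, Commute z g := by
    have h1 : Subgroup.closure ({x₁, x₂, x₃} : Set P) ≤ Subgroup.centralizer {z} := by
      rw [Subgroup.closure_le]
      rintro g (rfl | rfl | rfl)
      · exact Subgroup.mem_centralizer_iff.2 fun h hh => by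
          rw [Set.mem_singleton_iff.1 hh]; exact c1.eq
      · exact Subgroup.mem_centralizer_iff.2 fun h hh => by
          rw [Set.mem_singleton_iff.1 hh]; exact c2.eq
      · exact Subgroup.mem_centralizer_iff.2 fun h hh => by
          rw [Set.mem_singleton_iff.1 hh]; exact ((Commute.refl x₃).pow_left (p ^ 2)).eq
    rw [hgen] at h1
    intro g
    exact Subgroup.mem_centralizer_iff.1 (h1 (Subgroup.mem_top g)) z (Set.mem_singleton z)
  have hN : (Subgroup.zpowers z).Normal := normal_zp z hcen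
  have hfin : ((Subgroup.zpowers z : Subgroup P) : Set P).Finite :=
    finite_zpowers.2 (isOfFinOrder_iff_pow_eq_one.2 ⟨p, hp.pos, c3⟩)
  haveI : Group.FG P := Group.fg_iff.2 ⟨{x₁, x₂, x₃}, hgen, Set.toFinite _⟩
  refine hEX P (Subgroup.zpowers z) hfin ?_
  set π : P →* P ⧸ Subgroup.zpowers z := QuotientGroup.mk' (Subgroup.zpowers z) with hπ
  have hzq : (π x₃) ^ (p ^ 2) = 1 := by
    rw [← map_pow]
    exact (QuotientGroup.eq_one_iff z).2 (Subgroup.mem_zpowers z)
  have hgenq : Subgroup.closure ({π x₁, π x₂, π x₃} : Set (P ⧸ Subgroup.zpowers z)) = ⊤ := by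
    have h1 : Subgroup.map π (Subgroup.closure ({x₁, x₂, x₃} : Set P)) = ⊤ := by
      rw [hgen]
      exact Subgroup.map_top_of_surjective π (QuotientGroup.mk'_surjective _)
    rw [MonoidHom.map_closure, Set.image_insert_eq, Set.image_pair] at h1
    exact h1
  refine hF (P ⧸ Subgroup.zpowers z) (π x₁) (π x₂) (π x₃)
    (hTR _ (π x₁) (π x₂) (π x₃) p hp hp5 hgenq hzq ?_ ?_ ?_ ?_ ?_ ?_ ?_)
  · rw [← map_pow, r0, map_one]
  · rw [← map_rr, r1]
    exact map_pow π x₃ (p ^ 2)
  · rw [← map_ss, r2, map_one]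
  · rw [← map_rr, r3, map_one]
  · rw [← map_ss, r4, map_one]
  · rw [← map_rr, r5, map_one]
  · rw [← map_TT, r6, map_pow]

end Pool.Agent.Work.MP_f3c012_al.Df
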