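import Pool.Agent.Work.MP_f3c012_al.Df.StmtsA

/-!
# MP_f3c012_al, block DF, item S1: sequences with fourth difference 0
-/

set_option autoImplicit false

namespace Pool.Agent.Work.MP_f3c012_al.Df

namespace IS1

/-- The right side, with integral coefficients. -/
def P {A : Type} [AddCommGroup A] (f : ℤ → A) (n : ℕ) : A :=
  f 0 + (n : ℤ) • (f 1 - f 0) + ((n.choose 2 : ℕ) : ℤ) • (f 2 - (2 : ℤ) • f 1 + f 0) +
    ((n.choose 3 : ℕ) : ℤ) • (f 3 - (3 : ℤ) • f 2 + (3 : ℤ) • f 1 - f 0)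

theorem rec4 {A : Type} [AddCommGroup A] (f : ℤ → A) (n : ℕ) :
    P f (n + 4) = (4 : ℤ) • P f (n + 3) - (6 : ℤ) • P f (n + 2) + (4 : ℤ) • P f (n + 1) - P f n := by
  have e2 : ∀ m : ℕ, (((m + 1).choose 2 : ℕ) : ℤ) = m + ((m.choose 2 : ℕ) : ℤ) := by
    intro m
    rw [Nat.choose_succ_succ' m 1, Nat.choose_one_right]
    push_cast
    ring
  have e3 : ∀ m : ℕ, (((m + 1).choose 3 : ℕ) : ℤ) =
      ((m.choose 2 : ℕ) : ℤ) + ((m.choose 3 : ℕ) : ℤ) := by
    intro m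
    rw [Nat.choose_succ_succ' m 2]
    push_cast
    ring
  have a1 := e2 n
  have a2 := e2 (n + 1)
  have a3 := e2 (n + 2)
  have a4 := e2 (n + 3)
  have b1 := e3 n
  have b2 := e3 (n + 1)
  have b3 := e3 (n + 2)
  have b4 := e3 (n + 3)
  unfold P
  rw [b4, b3, b2, b1, a4, a3, a2, a1]
  push_cast
  module

theorem all {A : Type} [AddCommGroup A] (f : ℤ → A)
    (h : ∀ i, f (i + 4) = (4 : ℤ) • f (i + 3) - (6 : ℤ) • f (i + 2) + (4 : ℤ) • f (i + 1) - f i)
    (n : ℕ) : f n = P f n ∧ f ((n + 1 : ℕ) : ℤ) = P f (n + 1) ∧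
      f ((n + 2 : ℕ) : ℤ) = P f (n + 2) ∧ f ((n + 3 : ℕ) : ℤ) = P f (n + 3) := by
  induction n with
  | zero =>
    refine ⟨?_, ?_, ?_, ?_⟩
    · simp [P]
    · simp [P]
    · have h3 : (2 : ℕ).choose 3 = 0 := by decide
      have h2 : (2 : ℕ).choose 2 = 1 := by decide
      simp only [P, zero_add, h3, h2]
      push_cast
      module
    · have h3 : (3 : ℕ).choose 3 = 1 := by decide
      have h2 : (3 : ℕ).choose 2 = 3 := by decide
      simp only [P, zero_add, h3, h2]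
      push_cast
      module
  | succ n ih =>
    obtain ⟨i0, i1, i2, i3⟩ := ih
    refine ⟨i1, i2, i3, ?_⟩
    have e : ((n + 1 + 3 : ℕ) : ℤ) = (n : ℤ) + 4 := by
      push_cast
      ring
    have h3 : (n : ℤ) + 3 = ((n + 3 : ℕ) : ℤ) := by push_cast; ring
    have h2 : (n : ℤ) + 2 = ((n + 2 : ℕ) : ℤ) := by push_cast; ring
    have h1 : (n : ℤ) + 1 = ((n + 1 : ℕ) : ℤ) := by push_cast; ring
    rw [e, h n, h3, h2, h1, i0, i1, i2, i3]
    exact (rec4 f n).symm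

end IS1

/-- Sequences with fourth difference 0. -/
theorem pr_S1 : St_S1 := by
  intro A _ f h n
  rw [(IS1.all f h n).1]
  unfold IS1.P
  simp only [natCast_zsmul]

end Pool.Agent.Work.MP_f3c012_al.Df
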