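import Pool.Agent.Work.MP_f3c012_al.Df.StmtsG

/-!
# MP_f3c012_al, block DF, item Z1 (helper42): Zassenhaus degrees of the words
-/

set_option autoImplicit false
set_option linter.style.haveILetI false

namespace Pool.Agent.Work.MP_f3c012_al.Df

namespace IZ1

variable (p : ℕ) (F : Type) [Group F]

theorem cm_left (n : ℕ) (a b : F) (ha : a ∈ zas p F n) : cm a b ∈ zas p F (n + 1) := by
  have h1 := zas_comm p F n a⁻¹ b⁻¹ ((zas p F n).inv_mem ha)
  have h2 : cm a b = a⁻¹ * b⁻¹ * a⁻¹⁻¹ * b⁻¹⁻¹ := by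
    rw [inv_inv, inv_inv]
    rfl
  rw [h2]
  exact h1

theorem cm_right (n : ℕ) (a b : F) (hb : b ∈ zas p F n) : cm a b ∈ zas p F (n + 1) := by
  have h1 := (zas p F (n + 1)).inv_mem (cm_left p F n b a hb)
  have h2 : cm a b = (cm b a)⁻¹ := by
    unfold cm
    group
  rw [h2]
  exact h1

theorem mem_zero (a : F) : a ∈ zas p F 0 := by
  rw [mem_zas, zero_add, pow_one]
  exact of_sub_one_mem p F a

theorem tt_mem (x y : F) : TT x y ∈ zas p F 3 := by
  have h1 := cm_left p F 0 y x (mem_zero p F y)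
  have h2 := cm_left p F 1 _ x h1
  have h3 := cm_left p F 2 _ x h2
  exact (zas_normal p F 3).conj_mem _ h3 (yy x y 2)

theorem pow_mem_seven [Fact p.Prime] (hp : 8 ≤ p) (x : F) : x ^ p ∈ zas p F 7 := by
  rw [mem_zas]
  have e : MonoidAlgebra.of (ZMod p) F (x ^ p) - 1 = (MonoidAlgebra.of (ZMod p) F x - 1) ^ p := by
    haveI : CharP (MonoidAlgebra (ZMod p) F) p := by
      haveI : Nontrivial (MonoidAlgebra (ZMod p) F) := inferInstance
      exact charP_of_injective_algebraMap (algebraMap (ZMod p) (MonoidAlgebra (ZMod p) F)).injective p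
    haveI : ExpChar (MonoidAlgebra (ZMod p) F) p := ExpChar.prime Fact.out
    rw [map_pow, sub_pow_expChar_of_commute p (Commute.one_right _), one_pow]
  rw [e]
  exact pow_le_of_le p F (7 + 1) p (by omega) hp
    (Submodule.pow_mem_pow _ (of_sub_one_mem p F x) p)

end IZ1

open IZ1 in
theorem pr_Z1 : St_Z1 := by
  intro p F _ x y hp
  haveI : Fact p.Prime := ⟨hp⟩
  refine ⟨?_, tt_mem p F x y, cm_left p F 3 _ x (tt_mem p F x y), fun h8 => ?_⟩
  · exact cm_right p F 1 y _ (cm_left p F 0 y x (mem_zero p F y))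
  · have h1 := pow_mem_seven p F h8 x
    refine ⟨h1, ?_⟩
    rw [sq, pow_mul]
    exact (zas p F 7).pow_mem h1 p

end Pool.Agent.Work.MP_f3c012_al.Df
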