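import Pool.Agent.Work.MP_f3c012_al.Df.Defs

/-!
# MP_f3c012_al, block DF, part A: the group theory of one pair

Every docstring is the complete proof.  Item `X`: statement `St_X`, file `Df/I_X.lean`, theorem
`pr_X` with the statements named after USES as hypotheses; namespace as here, auxiliary lemmas in the
sub-namespace `IX`.  Conventions: `y_i = yy x y i`, `k = kk x y`, `T = TT x y`, `a ~ b` means
`Commute a b`, `a^b = b⁻¹ a b`.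
-/

set_option autoImplicit false

namespace Pool.Agent.Work.MP_f3c012_al.Df

/-- W (EASY).  Identities in every group (`group` or `simp [mul_assoc]`):
`cm y x = y⁻¹ y_1`, so `rr x y = cm y (y⁻¹ y_1) = y⁻¹ (y_1⁻¹ y) y (y⁻¹ y_1) = cm y y_1`. -/
def St_W : Prop := ∀ (G : Type) [Group G] (x y : G),
  yy x y 0 = y ∧ (∀ i j : ℤ, x ^ (-j) * yy x y i * x ^ j = yy x y (i + j)) ∧
  rr x y = cm y (yy x y 1) ∧ (∀ a b : G, cm a b = 1 ↔ Commute a b) ∧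
  (∀ i j : ℤ, x ^ (-j) * cm y (yy x y i) * x ^ j = cm (yy x y j) (yy x y (i + j)))

/-- T0 (EASY-MEDIUM).  Conjugation by `x^i` gives `y_i ~ y_(i+1)`.  `D1 = cm y x = y_0⁻¹ y_1`,
`D2 = cm D1 x = D1⁻¹ (x⁻¹ D1 x) = y_1⁻¹ y_0 y_1⁻¹ y_2 = y_0 y_1⁻² y_2`,
`D3 = D2⁻¹ (x⁻¹ D2 x) = y_2⁻¹ y_1² y_0⁻¹ y_1 y_2⁻² y_3 = y_2⁻¹ y_0⁻¹ y_1³ y_2⁻² y_3`,
`T = y_2 D3 y_2⁻¹ = y_0⁻¹ y_1³ y_2⁻² y_3 y_2⁻¹ = y_0⁻¹ y_1³ y_2⁻³ y_3`.  If `T ~ x`, conjugation by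
`x^i` gives the last formula.  USES W. -/
def St_T0 : Prop := ∀ (G : Type) [Group G] (x y : G), Commute y (yy x y 1) →
  (∀ i : ℤ, Commute (yy x y i) (yy x y (i + 1))) ∧
  TT x y = y⁻¹ * yy x y 1 ^ 3 * (yy x y 2 ^ 3)⁻¹ * yy x y 3 ∧
  (Commute (TT x y) x → ∀ i : ℤ, TT x y =
    (yy x y i)⁻¹ * yy x y (i + 1) ^ 3 * (yy x y (i + 2) ^ 3)⁻¹ * yy x y (i + 3))

/-- K (MEDIUM).  Put `a, b, g, d = y_0, y_1, y_2, y_3`, `e = y_4`.  `a ~ b ~ g ~ d ~ e`.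
(1) `T = a⁻¹ b³ g⁻³ d = b⁻¹ g³ d⁻³ e` gives `e = d³ (g⁻³ b a⁻¹ b³ g⁻³) d`; `d ~ e` gives
`d ~ g⁻³ a⁻¹ b⁴ g⁻³`, so `d ~ a⁻¹ b⁴` (as `d ~ g`).
(2) `a⁻¹ = b⁻¹ (g³ d⁻³ e d⁻¹ g³) b⁻³`; `b ~ a` gives `b ~ g³ e d⁻⁴ g³`, so `b ~ e d⁻⁴`; conjugation by
`x⁻¹`: `a ~ d g⁻⁴`.
(3) `K := cm a d`.  (2) gives `a^d = a^(g⁴)`, so `K = a⁻¹ a^d = cm a (g⁴)` commutes with `b`.  (1)
gives `d^a = d^(b⁴)` (`a⁻¹ b⁴ = b⁴ a⁻¹`), so `K⁻¹ = cm d a = cm d (b⁴)` commutes with `g`.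
(4) `a^(g⁴) = a K` and `K ~ g` give `a^(g^(4j)) = a K^j`; `j = m`: `K^m = 1` (`g^m = 1`).  `m` is odd:
choose `j` with `4 j ≡ 1` mod `m`: `a^g = a K^j`, so `k = cm a g = K^j`, `k^m = 1`, `k^4 = K`.
(5) `d^(b⁴) = d K⁻¹`, `K ~ b` give `d^b = d K^(-j) = d k⁻¹`, so `cm b d = k`; this is the conjugate of
`k = cm a g` by `x`, so `k ~ x`.  `K ~ b` gives `k ~ b`, and conjugation by `x⁻¹` gives `k ~ a`.
USES W T0. -/
def St_K : Prop := ∀ (G : Type) [Group G] (x y : G) (m : ℕ), PG x y m →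
  Commute (kk x y) x ∧ Commute (kk x y) y ∧ kk x y ^ m = 1 ∧ cm y (yy x y 3) = kk x y ^ 4

/-- B (MEDIUM).  `k` commutes with `x`, `y`, so with all `y_i` and `T`.  If `cm y a = k^α`,
`cm y b = k^β` (integers) for `a, b` commuting with `k`, then `cm y (a b) = k^(α+β)`,
`cm y a⁻¹ = k^(-α)` (`cm y (a b) = cm y b * b⁻¹ (cm y a) b`).  T0 at `i` and `i + 1`:
`y_(i+4) = y_(i+3)³ y_(i+2)⁻³ y_(i+1) y_i⁻¹ y_(i+1)³ y_(i+2)⁻³ y_(i+3)`.  So the exponent `c i` of `cm y y_i`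
satisfies `c (i+4) = 4 c (i+3) - 6 c (i+2) + 4 c (i+1) - c i`, `c 0 = c 1 = 0`, `c 2 = 1`, `c 3 = 4`
(K): strong induction, `(i+5 choose 3) = 4 (i+4 choose 3) - 6 (i+3 choose 3) + 4 (i+2 choose 3) -
(i+1 choose 3)`.  `cm y T`: exponent `0 + 3*0 - 3*1 + 4 = 1`.  USES W T0 K. -/
def St_B : Prop := ∀ (G : Type) [Group G] (x y : G) (m : ℕ), PG x y m →
  (∀ i : ℕ, cm y (yy x y i) = kk x y ^ (Nat.choose (i + 1) 3)) ∧ cm y (TT x y) = kk x y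

/-- N0 (EASY-MEDIUM).  `cm y_i y_j` is for `i ≤ j` the conjugate by `x^i` of `cm y y_(j-i)`, a power
of `k` (B), and `cm b a = (cm a b)⁻¹`.  `k` commutes with all elements of `NN x y`, so the elements
`a` with `cm a b` in `⟨k⟩` for all `b` in the generating set form a subgroup (inside the centralizer
of `k`), and again in the other variable (`Subgroup.closure_induction` twice).
USES W K B. -/
def St_N0 : Prop := ∀ (G : Type) [Group G] (x y : G) (m : ℕ), PG x y m →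
  (∀ a ∈ NN x y, Commute (kk x y) a) ∧
  ∀ a ∈ NN x y, ∀ b ∈ NN x y, cm a b ∈ Subgroup.zpowers (kk x y)

/-- S1 (EASY).  Sequences with fourth difference 0.  Strong induction on `n`; with
`Δ_j` the differences at 0 both sides satisfy the recursion (Pascal).  Or: `f (n+1) - f n` has the
same form with third difference 0. -/
def St_S1 : Prop := ∀ (A : Type) [AddCommGroup A] (f : ℤ → A),
  (∀ i, f (i + 4) = (4 : ℤ) • f (i + 3) - (6 : ℤ) • f (i + 2) + (4 : ℤ) • f (i + 1) - f i) →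
  ∀ n : ℕ, f n = f 0 + n • (f 1 - f 0) + (n.choose 2) • (f 2 - (2 : ℤ) • f 1 + f 0) +
    (n.choose 3) • (f 3 - (3 : ℤ) • f 2 + (3 : ℤ) • f 1 - f 0)

/-- S2 (MEDIUM).  Vandermonde.  The integral matrix `C m i = (j m choose i)` satisfies
`(∏ i!) det C = ∏_(l<m) (j m - j l)` (Mathlib: `Matrix.det_vandermonde`,
`Matrix.det_eval_descPochhammer...`, `Nat.superFactorial...`; or induction), which is not divisible
by `p` because the `j m < p` are distinct.  `adj C * C = det C` gives `det C • e i ∈ B`, and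
`p • e i ∈ B`, so `e i ∈ B` (Bezout). -/
def St_S2 : Prop := ∀ (A : Type) [AddCommGroup A] (p r : ℕ) (e : Fin r → A) (B : AddSubgroup A)
  (j : Fin r → ℕ), p.Prime → (∀ i, p • e i ∈ B) → Function.Injective j → (∀ m, j m < p) →
  (∀ m, ∑ i : Fin r, ((j m).choose i) • e i ∈ B) → ∀ i, e i ∈ B

/-- F1 (EASY-MEDIUM).  In `A = Additive (Abelianization (NN x y))` put `f i` = the class of `y_i`:
`p f i = 0`, and `f` satisfies the recursion of S1 (T0 at `i`, `i + 1`).  S1 and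
`p ∣ (p choose i)`, `i = 1, 2, 3`, give `f p = f 0`.  The kernel of `NN x y → A` is the commutator
subgroup, contained in `⟨k⟩` (N0: `k` is central in `NN x y`).  So `y_p = y k^c`, conjugation by
`x^p` repeatedly: `y_(p²) = y k^(p c) = y`.  USES W T0 K N0 S1. -/
def St_F1 : Prop := ∀ (G : Type) [Group G] (x y : G) (p : ℕ), p.Prime → 5 ≤ p → PG x y p →
  Commute (x ^ (p ^ 2)) y

/-- F2 (MEDIUM).  `T = x^p` and `cm y T = k` (B) give `y_p = T⁻¹ y T = y k`, and by conjugation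
`y_(i+p) = y_i k`.  In `A` (as in F1) `f (i + p) = f i`, so with the differences `Δ_1, Δ_2, Δ_3` of `f`
at 0 (S1 for `n = p` and the shifts `i ↦ f (i + 1)`, `f (i + 2)`): `p Δ_3 = 0`, then `p Δ_2 = 0`,
`p Δ_1 = 0`.  The classes of `T`, `e_2 = y y_1⁻² y_2`, `e_1 = y⁻¹ y_1` are `Δ_3, Δ_2, Δ_1`, so their
`p`-th powers lie in `⟨k⟩`.  `k^p = cm y (T^p) = 1` since `T^p ∈ ⟨k⟩` commutes with `y` (`k` central).
So `e_1^(p²) = 1`, `x^(p³) = (T^p)^p = 1`.  USES W T0 K B N0 S1. -/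
def St_F2 : Prop := ∀ (G : Type) [Group G] (x y : G) (m p : ℕ), p.Prime → 5 ≤ p → PG x y m →
  TT x y = x ^ p → kk x y ^ p = 1 ∧ TT x y ^ p ∈ Subgroup.zpowers (kk x y) ∧
    (y⁻¹ * yy x y 1) ^ p ∈ Subgroup.zpowers (kk x y) ∧
    (y * (yy x y 1 ^ 2)⁻¹ * yy x y 2) ^ p ∈ Subgroup.zpowers (kk x y) ∧
    (y⁻¹ * yy x y 1) ^ (p ^ 2) = 1 ∧ x ^ (p ^ 3) = 1

/-- Fi (EASY-MEDIUM).  `NN x y` is generated by the finitely many elements `y_0, ..., y_(M-1)` of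
finite order, so `Abelianization (NN x y)` is finite; its commutator subgroup is in the finite group
`⟨k⟩` (N0, `k^m = 1`), so `NN x y` is finite.  `x` normalizes `NN x y`, so
`closure {x, y} = ⟨x⟩ NN x y` (`Subgroup.mul_normal` inside the closure, or: the set of the products
`x^i n` is closed under multiplication) is finite.  USES W K N0. -/
def St_Fi : Prop := ∀ (G : Type) [Group G] (x y : G) (m M : ℕ), PG x y m → 0 < M → x ^ M = 1 →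
  (Subgroup.closure {x, y} : Set G).Finite

/-- V4 (MEDIUM).  Let `A = Additive (Abelianization (NN x y))`, `B` the image of `S ⊓ NN x y` (as
`Subgroup.comap`/`map`, or `subgroupOf`).  The kernel is in `⟨k⟩ ≤ S`, so `y_i ∈ S` iff its class
`f i` is in `B`.  By S1 `f n = ∑_(i<4) (n choose i) e i`, `e 0 = f 0`, `e i` the differences, `p e i = 0`.
S2 with `r = 4`: all `e i ∈ B`, so `f n ∈ B` for all natural numbers `n`; for negative indices apply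
the recursion backwards (`f i` is a combination of `f (i+1), ..., f (i+4)`).
USES W T0 K N0 S1 S2. -/
def St_V4 : Prop := ∀ (G : Type) [Group G] (x y : G) (p : ℕ), p.Prime → 5 ≤ p → PG x y p →
  ∀ (S : Subgroup G) (j : Fin 4 → ℕ), kk x y ∈ S → Function.Injective j → (∀ m, j m < p) →
    (∀ m, yy x y (j m) ∈ S) → ∀ i : ℤ, yy x y i ∈ S

/-- V3 (MEDIUM).  As V4 with `r = 3`, `e 0 = f 0`, `e 1 = Δ_1`, `e 2 = Δ_2`; the class `Δ_3` of `T` is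
in `B`, so `∑_(i<3) (j choose i) e i ∈ B` for the three `j`; `p e i ∈ B` by F2 and `y^p ∈ S`.
USES W T0 K N0 S1 S2 F2. -/
def St_V3 : Prop := ∀ (G : Type) [Group G] (x y : G) (m p : ℕ), p.Prime → 5 ≤ p → PG x y m →
  TT x y = x ^ p →
  ∀ (S : Subgroup G) (j : Fin 3 → ℕ), kk x y ∈ S → TT x y ∈ S → y ^ p ∈ S →
    Function.Injective j → (∀ m, j m < p) → (∀ m, yy x y (j m) ∈ S) → ∀ i : ℤ, yy x y i ∈ S

/-- RE (EASY-MEDIUM).  The chain.  `z = x₃^(p²)`.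
(1) `(x₃, x₂)` is a pair `PG x₃ x₂ p` (W; `p` is odd), so F1: `z ~ x₂`.
(2) `cm x₂ Y = z` with `Y = yy x₁ x₂ 1` (W): `Y⁻¹ x₂ Y = x₂ z`; the `p`-th power, with `z ~ x₂` and
`x₂^p = 1`: `1 = z^p`.
(3) `PG x₁ x₃ (p^3)`: `x₃^(p³) = z^p = 1`, `T = x₁^p ~ x₁`, `p^3` odd.  F2: `e_1 = x₃⁻¹ y_1`, `y_1 = yy x₁ x₃ 1`,
has `e_1^(p²) = 1`, and `x₃ ~ e_1`, so `x₁⁻¹ z x₁ = y_1^(p²) = x₃^(p²) e_1^(p²) = z`.
USES W F1 F2. -/
def St_RE : Prop := ∀ (G : Type) [Group G] (x₁ x₂ x₃ : G) (p : ℕ), p.Prime → 5 ≤ p →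
  x₂ ^ p = 1 → rr x₁ x₂ = x₃ ^ (p ^ 2) → ss x₁ x₂ = 1 → rr x₃ x₂ = 1 → ss x₃ x₂ = 1 →
  rr x₁ x₃ = 1 → TT x₁ x₃ = x₁ ^ p →
  Commute (x₃ ^ (p ^ 2)) x₁ ∧ Commute (x₃ ^ (p ^ 2)) x₂ ∧ (x₃ ^ (p ^ 2)) ^ p = 1

/-- TR (EASY).  With `x₃^(p²) = 1` the seven relations give `Tri`: W (`cm a b = 1` iff they commute),
`p`, `p^2` odd, `x₁^p ~ x₁`.  USES W. -/
def St_TR : Prop := ∀ (G : Type) [Group G] (x₁ x₂ x₃ : G) (p : ℕ), p.Prime → 5 ≤ p →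
  Subgroup.closure {x₁, x₂, x₃} = ⊤ → x₃ ^ (p ^ 2) = 1 →
  x₂ ^ p = 1 → rr x₁ x₂ = x₃ ^ (p ^ 2) → ss x₁ x₂ = 1 → rr x₃ x₂ = 1 → ss x₃ x₂ = 1 →
  rr x₁ x₃ = 1 → TT x₁ x₃ = x₁ ^ p → Tri p x₁ x₂ x₃

end Pool.Agent.Work.MP_f3c012_al.Df
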