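import Pool.Agent.Work.MP_f3c012_al.Df.StmtsA
import Pool.Agent.Work.MP_f3c012_al.Df.StmtsR

/-!
# MP_f3c012_al, block DF, part G: Zassenhaus degrees, the presented group, the conclusion

Every docstring is the complete proof.  `zas p F n` (AdjC) is the subgroup `D_(n+1)`.
-/

set_option autoImplicit false

namespace Pool.Agent.Work.MP_f3c012_al.Df

/-- Z1 (EASY).  `zas_comm` (AdjC): `r ∈ zas n` gives `r g r⁻¹ g⁻¹ ∈ zas (n+1)`; `cm a b` is this for
`r = a⁻¹`, `g = b⁻¹`, and `cm a b = (cm b a)⁻¹`; `zas n` is normal.  `zas p F 0 = ⊤` (`of_sub_one_mem`).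
For `p`-th powers: `of (x^p) - 1 = (of x - 1)^p` (characteristic `p`, see the proof of `zas_pow_p`) is in
`aug^p`; `p ≥ 8`; powers of `x^p` stay in the subgroup. -/
def St_Z1 : Prop := ∀ (p : ℕ) (F : Type) [Group F] (x y : F), p.Prime →
  rr x y ∈ zas p F 2 ∧ TT x y ∈ zas p F 3 ∧ ss x y ∈ zas p F 4 ∧
  (8 ≤ p → x ^ p ∈ zas p F 7 ∧ x ^ (p ^ 2) ∈ zas p F 7)

/-- Z2 (EASY-MEDIUM).  Magnus argument (copy of `Theta`, `Theta_aug`, `exists_not_mem`, `exists_deg`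
in D.lean with the ring of `2 × 2` matrices over `PowerSeries (ZMod p)` instead of
`PowerSeries (ZMod p)`).  For every `g` the matrix `φ g - 1` is divisible by `X` (`g` is a product of
generators and inverses), so `a ∈ aug^(n+1)` has an image divisible by `X^(n+1)`.  If
`of r - 1 ∈ aug^(n+1)` for all `n`, all entries of `φ r - 1` are divisible by all `X^n`, so
`φ r = 1`, contradiction; `Nat.find`. -/
def St_Z2 : Prop := ∀ (p : ℕ), p.Prime →
  ∀ (φ : FreeGroup (Fin 3) →* (Matrix (Fin 2) (Fin 2) (PowerSeries (ZMod p)))ˣ),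
  (∀ i, ∃ A : Matrix (Fin 2) (Fin 2) (PowerSeries (ZMod p)),
    (φ (FreeGroup.of i) : Matrix (Fin 2) (Fin 2) (PowerSeries (ZMod p))) =
      1 + (PowerSeries.X : PowerSeries (ZMod p)) • A) →
  ∀ (r : FreeGroup (Fin 3)) (m : ℕ), φ r ≠ 1 → r ∈ zas p (FreeGroup (Fin 3)) m →
  ∃ k : ℕ, m + 1 ≤ k ∧
    MonoidAlgebra.of (ZMod p) _ r - 1 ∈ aug p (FreeGroup (Fin 3)) ^ k ∧
    MonoidAlgebra.of (ZMod p) _ r - 1 ∉ aug p (FreeGroup (Fin 3)) ^ (k + 1)

/-- Z3 (MEDIUM).  Affine representations: write `(u, v)` for the matrix `!![u, v; 0, 1]`, `u` a unit: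
`(u, v) (u', v') = (u u', u v' + v)`.  `u = 1 + X`, `v = X`; the third generator goes to 1.
(1) `rr`: `j ↦ (u, 0)`, `i ↦ (1, v)`: for `z = (1, s)`, `y = (u, 0)` `cm y z = (1, s (1 - u⁻¹))`, so
`rr ↦ (1, X (1 - u⁻¹)²)`, nonzero.  (2) `ss`: `i ↦ (u, 0)`, `j ↦ (1, v)`: for `z = (1, s)`
`cm z (u, 0) = (1, s (u⁻¹ - 1))`, elements `(1, s)` commute, so `ss ↦ (1, X (u⁻¹ - 1)^4)`, nonzero
(`PowerSeries` over a field is a domain, `u ≠ 1`). -/
def St_Z3 : Prop := ∀ (p : ℕ) (i j : Fin 3), p.Prime → i ≠ j →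
  (∃ φ : FreeGroup (Fin 3) →* (Matrix (Fin 2) (Fin 2) (PowerSeries (ZMod p)))ˣ,
    (∀ l, ∃ A : Matrix (Fin 2) (Fin 2) (PowerSeries (ZMod p)),
      (φ (FreeGroup.of l) : Matrix (Fin 2) (Fin 2) (PowerSeries (ZMod p))) =
        1 + (PowerSeries.X : PowerSeries (ZMod p)) • A) ∧
    φ (rr (FreeGroup.of i) (FreeGroup.of j)) ≠ 1) ∧
  ∃ φ : FreeGroup (Fin 3) →* (Matrix (Fin 2) (Fin 2) (PowerSeries (ZMod p)))ˣ,
    (∀ l, ∃ A : Matrix (Fin 2) (Fin 2) (PowerSeries (ZMod p)),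
      (φ (FreeGroup.of l) : Matrix (Fin 2) (Fin 2) (PowerSeries (ZMod p))) =
        1 + (PowerSeries.X : PowerSeries (ZMod p)) • A) ∧
    φ (ss (FreeGroup.of i) (FreeGroup.of j)) ≠ 1

/-- Z4 (EASY-MEDIUM).  The degrees of the seven relators are at least `8, 3, 5, 3, 5, 3, 4` and
finite: Z1; for the numbers 0, 1, 6 `exists_deg` (D.lean; the exponent sums of `x₂`, `x₃`, `x₁` are
`p`, `-p²`, `-p`: `expo 3 v` with `v` the indicator of the generator, the words `rr`, `TT` are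
commutator words), for 2, 3, 4, 5 Z2 and Z3.  USES Z1 Z2 Z3. -/
def St_Z4 : Prop := ∀ p : ℕ, p.Prime → 37 ≤ p → ∀ i : Fin 7, ∃ k : ℕ,
  (![8, 3, 5, 3, 5, 3, 4] : Fin 7 → ℕ) i ≤ k ∧
    MonoidAlgebra.of (ZMod p) _ (rel p i) - 1 ∈ aug p (FreeGroup (Fin 3)) ^ k ∧
    MonoidAlgebra.of (ZMod p) _ (rel p i) - 1 ∉ aug p (FreeGroup (Fin 3)) ^ (k + 1)

/-- Z5 (EASY-MEDIUM).  For `r` in the range choose an index `i` and the degree of Z4 (independent of the
choice as a number with the two properties; `1` is not in the range because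
`of 1 - 1 = 0 ∈ aug^(k+1)`).  `t = 12/25`: the sum over the finite set `Set.range (rel p)` is at most
the sum over `Fin 7` of `t^(deg)` (injection by the choice of indices), so at most
`t^8 + 3 t^3 + t^4 + 2 t^5`, and `1 - 3 t + 3 t^3 + t^4 + 2 t^5 + t^8 = -0.00136... < 0`.  USES Z4. -/
def St_Z5 : Prop := ∀ p : ℕ, p.Prime → 37 ≤ p → 1 ∉ Set.range (rel p) ∧
  ∃ deg : Set.range (rel p) → ℕ, (∀ r : Set.range (rel p),
    MonoidAlgebra.of (ZMod p) _ (r : FreeGroup (Fin 3)) - 1 ∈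
      aug p (FreeGroup (Fin 3)) ^ (deg r) ∧
    MonoidAlgebra.of (ZMod p) _ (r : FreeGroup (Fin 3)) - 1 ∉
      aug p (FreeGroup (Fin 3)) ^ (deg r + 1)) ∧
  Summable (fun r : Set.range (rel p) => (12 / 25 : ℝ) ^ deg r) ∧
  1 - 3 * (12 / 25 : ℝ) + ∑' r : Set.range (rel p), (12 / 25 : ℝ) ^ deg r < 0

/-- PR (EASY-MEDIUM).  `G = PresentedGroup (Set.range (rel p))`, `x_i` the generators
(`x₁ = of 0`, ...).  The seven relations hold (`PresentedGroup.one_of_mem`; `rr`, `ss`, `TT` are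
preserved by homomorphisms).  RE: `z = x₃^(p²)` commutes with the generators, so it is central, and
`z^p = 1`; `N = ⟨z⟩` is normal and finite.  In `G ⧸ N` the images satisfy the hypotheses of TR, so
`Tri`, and `FAb (G ⧸ N)` by hypothesis.  EX.  USES RE TR EX. -/
def St_PR : Prop := ∀ p : ℕ, p.Prime → 5 ≤ p →
  (∀ (G : Type) [Group G] (x₁ x₂ x₃ : G), Tri p x₁ x₂ x₃ → FAb G) →
  FAb (PresentedGroup (Set.range (rel p)))

/-- FN (EASY).  H1 and FA (`G` is generated by three elements, so `Group.FG G`) give the hypothesis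
of PR.  USES H1 FA PR. -/
def St_FN : Prop := ∀ p : ℕ, p.Prime → 37 ≤ p → FAb (PresentedGroup (Set.range (rel p)))

end Pool.Agent.Work.MP_f3c012_al.Df
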