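import Pool.Agent.Work.MP_f3c012_al.Df.StmtsA
import Pool.Agent.Work.MP_f3c012_al.Df.StmtsR

/-!
# MP_f3c012_al, block DF, part T: the same argument in Hilbert spaces, property (FH)

Every docstring is the complete proof.  Item `X`: statement `St_X`, file `Df/I_X.lean`, theorem
`pr_X` with the statements named after USES as hypotheses; namespace as here, auxiliary lemmas in the
sub-namespace `IX`.
-/

set_option autoImplicit false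

open scoped RealInnerProductSpace

namespace Pool.Agent.Work.MP_f3c012_al.Df

/-- Property (FH) (for countable groups equivalent to Kazhdan's property (T)): every cocycle with
values in an orthogonal representation on a real Hilbert space is a coboundary. -/
def FH (G : Type) [Group G] : Prop :=
  ∀ (V : Type) [NormedAddCommGroup V] [InnerProductSpace ℝ V] [CompleteSpace V]
    (ρ : G →* (V ≃ₗᵢ[ℝ] V)) (c : G → V), (∀ g h, c (g * h) = c g + ρ g (c h)) →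
    ∃ v, ∀ g, c g = v - ρ g v

/-- HCF (EASY).  `ρ g` is continuous: `isClosed_eq`. -/
def St_HCF : Prop := ∀ (G : Type) [Group G] (V : Type) [NormedAddCommGroup V]
  [InnerProductSpace ℝ V] (ρ : G →* (V ≃ₗᵢ[ℝ] V)) (g : G), IsClosed (fx ρ g : Set V)

/-- HAS (EASY).  As AS (StmtsR): `V₁ ⊓ V₂` is closed in a complete space, so it has an orthogonal
projection.  Let `w ∈ V₂` be orthogonal to `V₁ ⊓ V₂`, `v ∈ V₁`; write `v = v₀ + v'`, `v₀ ∈ V₁ ⊓ V₂`, `v'`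
orthogonal to it, `v' ∈ V₁`: `|⟪w, v⟫| = |⟪v', w⟫| ≤ ε ‖v'‖ ‖w‖ ≤ ε ‖v‖ ‖w‖`.  The second clause is
trivial. -/
def St_HAS : Prop := ∀ (V : Type) [NormedAddCommGroup V] [InnerProductSpace ℝ V]
  [CompleteSpace V] (V₁ V₂ : Submodule ℝ V) (ε : ℝ), IsClosed (V₁ : Set V) →
  IsClosed (V₂ : Set V) → 0 ≤ ε → Ang V₁ V₂ ε →
  Ang V₂ V₁ ε ∧ ∀ ε' : ℝ, ε ≤ ε' → Ang V₁ V₂ ε'

/-- HL1 (EASY-MEDIUM).  First let `z ∈ V₁ ⊔ V₂`, as L1 (StmtsR): `W = V₁ ⊓ V₂` is closed, so it has an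
orthogonal projection.  Write `z = α + β`, `α ∈ V₁`, `β ∈ V₂`, and split `α = α₀ + α'`, `β = β₀ + β'`
with `α₀, β₀ ∈ W`, `α', β'` orthogonal to `W`; `z₀ = α₀ + β₀`, `z' = α' + β'`.  `p_i = z₀ + p_i'`, `p_i'`
the projection of `z'` to `V_i`, orthogonal to `W`.  So `‖p_1‖² + ‖p_2‖² = 2 ‖z₀‖² + ‖p_1'‖² + ‖p_2'‖²`
and it suffices to treat `z'`.  `‖z'‖² ≥ ‖α'‖² + ‖β'‖² - 2 ε ‖α'‖ ‖β'‖ ≥ (1 - ε) (‖α'‖² + ‖β'‖²)`, and
`‖z'‖² = ⟪p_1', α'⟫ + ⟪p_2', β'⟫ ≤ (‖p_1'‖² + ‖p_2'‖²)^(1/2) (‖α'‖² + ‖β'‖²)^(1/2)`, so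
`(1 - ε) ‖z'‖² ≤ ‖p_1'‖² + ‖p_2'‖²`.
In general `p_i` is the orthogonal projection of `z` to `V_i`, both sides are continuous in `z`, and
`V₁ ⊔ V₂` is dense in its closure. -/
def St_HL1 : Prop := ∀ (V : Type) [NormedAddCommGroup V] [InnerProductSpace ℝ V]
  [CompleteSpace V] (V₁ V₂ : Submodule ℝ V) (ε : ℝ) (z p₁ p₂ : V), IsClosed (V₁ : Set V) →
  IsClosed (V₂ : Set V) → 0 ≤ ε → ε < 1 →
  Ang V₁ V₂ ε → z ∈ (V₁ ⊔ V₂).topologicalClosure → p₁ ∈ V₁ → p₂ ∈ V₂ →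
  (∀ u ∈ V₁, ⟪z - p₁, u⟫ = 0) → (∀ u ∈ V₂, ⟪z - p₂, u⟫ = 0) →
  (1 - ε) * ‖z‖ ^ 2 ≤ ‖p₁‖ ^ 2 + ‖p₂‖ ^ 2

/-- HLM (EASY-MEDIUM).  Lax-Milgram for a symmetric form.  `E` is a closed subspace of the Hilbert
space `H`, `S` and `T` bounded operators with `⟪T w, e⟫ = ⟪w, S e⟫` for `w` in the image of `S` on
`E` and `e ∈ E`, `T S` maps `E` to `E`, and `‖S e‖² ≥ c ‖e‖²` on `E`.  The bounded bilinear form
`(d, e) ↦ ⟪S d, S e⟫` on `E` is coercive (`IsCoercive`, Mathlib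
`IsCoercive.continuousLinearEquivOfBilin`; or the operator `T S` of `E` is symmetric and bounded
below), so for `z ∈ E` there is `d ∈ E` with `⟪S d, S e⟫ = ⟪z, e⟫` for all `e ∈ E`, so
`T (S d) - z ∈ E` is orthogonal to `E`. -/
def St_HLM : Prop := ∀ (H : Type) [NormedAddCommGroup H] [InnerProductSpace ℝ H]
  [CompleteSpace H] (E : Submodule ℝ H) (S T : H →L[ℝ] H) (c : ℝ), IsClosed (E : Set H) → 0 < c →
  (∀ d ∈ E, T (S d) ∈ E) → (∀ d ∈ E, ∀ e ∈ E, ⟪T (S d), e⟫ = ⟪S d, S e⟫) →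
  (∀ e ∈ E, c * ‖e‖ ^ 2 ≤ ‖S e‖ ^ 2) → ∀ z ∈ E, ∃ d ∈ E, T (S d) = z

/-- HL2 (MEDIUM).  Three affine subspaces in a Hilbert space.  `H = PiLp 2 (fun _ : Fin 3 => V)`,
`P_i` the orthogonal projection of `V` to `V_i` (bounded),
`S d = (P₁ (d₃ - d₂), P₂ (d₁ - d₃), P₃ (d₂ - d₁))`, `T w = (w₂ - w₃, w₃ - w₁, w₁ - w₂)`, `E` the closed
subspace of the `d` with `d₁ + d₂ + d₃ = 0`, `d₁ ∈ closure (V₂ ⊔ V₃)`, `d₂ ∈ closure (V₃ ⊔ V₁)`,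
`d₃ ∈ closure (V₁ ⊔ V₂)`.  `T (S d) ∈ E`, and `⟪T w, e⟫ = ⟪w₁, e₃ - e₂⟫ + ⟪w₂, e₁ - e₃⟫ +
⟪w₃, e₂ - e₁⟫ = ⟪w, S e⟫` if `w_i ∈ V_i`.  Coercivity: HL1 for `d₃`, `d₁`, `d₂` gives
`(1 - ε) ∑ ‖d_i‖² ≤ ∑_i (‖P_i d_j‖² + ‖P_i d_k‖²)`, `{i, j, k} = {1, 2, 3}`, and with `a = P_i d_j`,
`b = P_i d_k`: `‖a + b‖ = ‖P_i d_i‖ ≤ ‖d_i‖`, `‖a - b‖ = ‖(S d)_i‖`, so by the parallelogram law
`‖a‖² + ‖b‖² ≤ (‖d_i‖² + ‖(S d)_i‖²)/2`: `(1 - 2 ε) ‖d‖² ≤ ‖S d‖²`.  HLM for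
`z = (a₂ - a₃, a₃ - a₁, a₁ - a₂) ∈ E`: `z = T w`, `w = S d`, `w_i ∈ V_i`, and
`v = a₁ - w₁ = a₂ - w₂ = a₃ - w₃`.  USES HL1 HLM. -/
def St_HL2 : Prop := ∀ (V : Type) [NormedAddCommGroup V] [InnerProductSpace ℝ V]
  [CompleteSpace V] (V₁ V₂ V₃ : Submodule ℝ V) (ε : ℝ) (a₁ a₂ a₃ : V),
  IsClosed (V₁ : Set V) → IsClosed (V₂ : Set V) → IsClosed (V₃ : Set V) → 0 ≤ ε →
  ε < 1 / 2 → Ang V₁ V₂ ε → Ang V₂ V₃ ε → Ang V₃ V₁ ε →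
  a₁ - a₂ ∈ V₂ → a₂ - a₃ ∈ V₃ → a₃ - a₁ ∈ V₁ →
  ∃ v, v - a₁ ∈ V₁ ∧ v - a₂ ∈ V₂ ∧ v - a₃ ∈ V₃

/-- HH1 (EASY-MEDIUM).  As H1 (StmtsR).  `x₁^(p³) = 1` (F2 for `(x₁, x₃)`).  Fi and C0 give `v₁₂, v₂₃,
v₃₁` with `c b = v_ij - ρ b v_ij` on `closure {x_i, x_j}`.  A12 for `(x₁, x₂)`, `(x₃, x₂)`, A13 for
`(x₁, x₃)`, HAS, HCF: all angles have cosine at most `ε = √(3/p + 1/√p) < 1/2` (`3/37 + 1/√37 < 1/4`,
and `2/p ≤ 3/p`).  HL2 with `V_i = fx ρ x_i`, `a₁ = v₁₂`, `a₂ = v₂₃`, `a₃ = v₃₁`.  The vector `v`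
satisfies `c x_i = v - ρ x_i v` for `i = 1, 2, 3`, and the `g` with `c g = v - ρ g v` form a subgroup.
USES F2 Fi A12 A13 HAS HL2 C0 HCF. -/
def St_HH1 : Prop := ∀ (G : Type) [Group G] (p : ℕ) (x₁ x₂ x₃ : G), p.Prime → 37 ≤ p →
  Tri p x₁ x₂ x₃ → FH G

/-- HEX (EASY-MEDIUM).  Let `c` be a cocycle of `G`.  C0 for `B = N`: `c n = v - ρ n v` for `n ∈ N`;
replace `c` by `c g - (v - ρ g v)`: a cocycle with `c n = 0` for `n ∈ N`.  Then `c (g n) = c g`, and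
`c (n g) = ρ n (c g)`; `n g = g n'` with `n' = g⁻¹ n g ∈ N`, so `ρ n (c g) = c g`.  So `c` has values
in the closed subspace `U` of the `N`-fixed vectors, which is stable under `G` (`N` normal), and `c`
and the representation on `U` factor through `G ⧸ N`: `FH (G ⧸ N)` gives `u ∈ U`.  USES C0. -/
def St_HEX : Prop := ∀ (G : Type) [Group G] (N : Subgroup G) [N.Normal],
  (N : Set G).Finite → FH (G ⧸ N) → FH G

/-- HFA (EASY).  FA: finite-dimensional spaces are complete (`FiniteDimensional.complete ℝ V`).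
USES FA. -/
def St_HFA : Prop := ∀ (G : Type) [Group G] [Group.FG G], FH G → FAb G

/-- HPR (EASY-MEDIUM).  As PR (StmtsG).  `G = PresentedGroup (Set.range (rel p))`, `x_i` the
generators (`x₁ = of 0`, ...).  The seven relations hold (`PresentedGroup.one_of_mem`; `rr`, `ss`,
`TT` are preserved by homomorphisms).  RE: `z = x₃^(p²)` commutes with the generators, so it is
central, and `z^p = 1`; `N = ⟨z⟩` is normal and finite.  In `G ⧸ N` the images satisfy the hypotheses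
of TR, so `Tri`, and `FH (G ⧸ N)` by hypothesis.  HEX.  USES RE TR HEX. -/
def St_HPR : Prop := ∀ p : ℕ, p.Prime → 5 ≤ p →
  (∀ (G : Type) [Group G] (x₁ x₂ x₃ : G), Tri p x₁ x₂ x₃ → FH G) →
  FH (PresentedGroup (Set.range (rel p)))

/-- HFN (EASY).  HH1 and HPR give (FH), HFA gives (FAb) (the group is finitely generated).
USES HH1 HPR HFA. -/
def St_HFN : Prop := ∀ p : ℕ, p.Prime → 37 ≤ p →
  FH (PresentedGroup (Set.range (rel p))) ∧ FAb (PresentedGroup (Set.range (rel p)))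

end Pool.Agent.Work.MP_f3c012_al.Df
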